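import Mathlib
import Pool.Agent.Lib.MP_4ca46c_ag.Sign.Base
import Pool.Agent.Lib.MP_4ca46c_ag.Hyp.Proj

/-!
# Coordinate hyperplanes in projective space
-/

namespace Pool.Agent.Lib.MP_4ca46c_ag.Std

open CategoryTheory Limits AlgebraicGeometry MvPolynomial
open Pool.Agent.Lib.MP_4ca46c_ag.Sign Pool.Agent.Lib.MP_4ca46c_ag.Hyp

attribute [local instance] MvPolynomial.gradedAlgebra

section

variable (k : Type) [Field k] {κ : Type} (i : κ)

open Classical in
/-- The homomorphism `k[x_j] ⟶ k[x_j : j ≠ i]` with `x_i ↦ 0`. -/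
noncomputable def kill : MvPolynomial κ k →ₐ[k] MvPolynomial {j // j ≠ i} k :=
  aeval fun j => if h : j ≠ i then X ⟨j, h⟩ else 0

theorem kill_X_ne {j : κ} (h : j ≠ i) : kill k i (X j) = X ⟨j, h⟩ := by
  rw [kill, aeval_X, dif_pos h]

theorem kill_X_self : kill k i (X i) = 0 := by
  rw [kill, aeval_X, dif_neg (by simp)]

/-- The homomorphism `k[x_j] ⟶ k[x_j : j ≠ i]`, as a homomorphism of graded rings. -/
noncomputable def killG : GradedRingHom (homogeneousSubmodule κ k)
    (homogeneousSubmodule {j // j ≠ i} k) where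
  toRingHom := (kill k i).toRingHom
  map_mem {n x} hx := by
    have h : IsHomogeneous x n := hx
    have h2 : IsHomogeneous (kill k i x) (1 * n) := by
      refine h.aeval _ fun j => ?_
      split_ifs with hj
      · exact isHomogeneous_X _ _
      · exact isHomogeneous_zero _ _ _
    rw [one_mul] at h2
    exact h2

theorem killG_apply (x : MvPolynomial κ k) : killG k i x = kill k i x := rfl

theorem killG_irrelevant : HomogeneousIdeal.irrelevant (homogeneousSubmodule {j // j ≠ i} k) ≤
    (HomogeneousIdeal.irrelevant (homogeneousSubmodule κ k)).map (killG k i) := by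
  have hs : ∀ x, kill k i (rename Subtype.val x) = x := by
    intro x
    have : (kill k i).comp (rename (Subtype.val : {j // j ≠ i} → κ)) = AlgHom.id k _ := by
      ext j
      rw [AlgHom.comp_apply, rename_X, kill_X_ne k i j.2]
      simp
    exact DFunLike.congr_fun this x
  refine (HomogeneousIdeal.toIdeal_irrelevant_le _).2 fun n hn x hx => ?_
  have h2 : rename Subtype.val x ∈ homogeneousSubmodule κ k n := by
    have h : IsHomogeneous x n := hx
    exact h.rename_isHomogeneous
  have h3 : killG k i (rename Subtype.val x) ∈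
      (HomogeneousIdeal.irrelevant (homogeneousSubmodule κ k)).map (killG k i) :=
    Ideal.mem_map_of_mem _ (HomogeneousIdeal.mem_irrelevant_of_mem _ hn h2)
  rwa [killG_apply, hs] at h3

/-- The hyperplane `x_i = 0` in projective space. -/
noncomputable def hypMap : PS k {j // j ≠ i} ⟶ PS k κ := Proj.map (killG k i) (killG_irrelevant k i)

theorem away_str {κ : Type} {n : ℕ} (x : MvPolynomial κ k) (hx : x ∈ homogeneousSubmodule κ k n)
    (hn : 0 < n) : Proj.awayι (homogeneousSubmodule κ k) x hx hn ≫ psStr k κ =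
      Spec.map (CommRingCat.ofHom ((HomogeneousLocalization.fromZeroRingHom
        (homogeneousSubmodule κ k) _).comp (algebraMap k (homogeneousSubmodule κ k 0)))) := by
  rw [psStr, ← Category.assoc, Proj.awayι_toSpecZero, ← Spec.map_comp, ← CommRingCat.ofHom_comp]

theorem hypMap_str : hypMap k i ≫ psStr k κ = psStr k {j // j ≠ i} := by
  refine (Proj.mapAffineOpenCover (killG k i) (killG_irrelevant k i)).openCover.hom_ext _ _
    fun (s : Σ i : ℕ+, homogeneousSubmodule κ k i) => ?_
  have h := Proj.awayι_comp_map (killG k i) (killG_irrelevant k i) s.1.2 s.2.1 s.2.2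
  refine Eq.trans (Category.assoc _ _ _).symm (Eq.trans (congrArg (fun φ => φ ≫ psStr k κ) h) ?_)
  refine Eq.trans (Category.assoc _ _ _) (Eq.trans (congrArg (fun φ => Spec.map
    (CommRingCat.ofHom (HomogeneousLocalization.Away.map (killG k i) s.2.1)) ≫ φ)
      (away_str k s.2.1 s.2.2 s.1.2)) ?_)
  refine Eq.trans ?_ (away_str k (killG k i s.2.1) ((killG k i).2 s.2.2) s.1.2).symm
  rw [← Spec.map_comp, ← CommRingCat.ofHom_comp]
  congr 2
  ext x
  have e : ∀ {σ : Type} (y : MvPolynomial σ k), HomogeneousLocalization.fromZeroRingHom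
      (homogeneousSubmodule σ k) (Submonoid.powers y) (algebraMap k (homogeneousSubmodule σ k 0) x)
      = HomogeneousLocalization.mk ⟨0, algebraMap k (homogeneousSubmodule σ k 0) x, 1, one_mem _⟩ :=
    fun y => rfl
  simp only [RingHom.comp_apply]
  rw [e, e, HomogeneousLocalization.Away.map, HomogeneousLocalization.map_mk]
  simp only [HomogeneousLocalization.val_mk]
  exact congrArg₂ Localization.mk ((kill k i).commutes x) (Subtype.ext (map_one (kill k i)))

end

section

variable (k₀ k : Type) [Field k₀] [Field k] [Algebra k₀ k] (κ : Type)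

/-- Projective space over `k` as a scheme over `k₀`. -/
noncomputable def PSo : Sch k₀ :=
  Over.mk (psStr k κ ≫ Spec.map (CommRingCat.ofHom (algebraMap k₀ k)))

/-- The structure morphism of projective space. -/
noncomputable def PSo.str : PSo k₀ k κ ⟶ pt k₀ k := Over.homMk (psStr k κ) rfl

/-- The hyperplane `x_i = 0` in projective space, over `k₀`. -/
noncomputable def PSo.hyp (i : κ) : PSo k₀ k {j // j ≠ i} ⟶ PSo k₀ k κ :=
  Over.homMk (hypMap k i) (by
    change hypMap k i ≫ psStr k κ ≫ _ = psStr k _ ≫ _
    rw [← Category.assoc, hypMap_str])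

theorem PSo.hyp_str (i : κ) : PSo.hyp k₀ k κ i ≫ PSo.str k₀ k κ = PSo.str k₀ k _ := by
  apply Over.OverMorphism.ext
  exact hypMap_str k i

end

end Pool.Agent.Lib.MP_4ca46c_ag.Std
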