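import Mathlib
import Pool.Agent.Lib.MP_4ca46c_ag.Sign.Compact
import Pool.Agent.Lib.MP_4ca46c_ag.Std.Hyper

/-!
# Projective varieties and the standard conjectures

`D : CohData k₀ K` are Chow groups and a cohomology theory for schemes over the field `k₀`, see
`Sign/Compact.lean`.
-/

namespace Pool.Agent.Lib.MP_4ca46c_ag.Std

open CategoryTheory Limits AlgebraicGeometry TensorProduct
open Pool.Agent.Lib.MP_4ca46c_ag.Sign Pool.Agent.Lib.MP_4ca46c_ag.Hyp

variable {k₀ : Type} [Field k₀] {K : Type} [Field K]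

/-- The class of the hyperplane `x_i = 0` of the projective space over `k` with homogeneous
coordinates `x_j`, `j ∈ κ`. -/
noncomputable def hyperplane (D : CohData k₀ K) (k : Type) [Field k] [Algebra k₀ k] {κ : Type}
    (i : κ) : D.CH (PSo k₀ k κ) := D.pf (PSo.hyp k₀ k κ i) (D.fund _)

/-- A smooth projective variety `X` of dimension `n` over an algebraically closed field `k`
containing `k₀`, with an embedding in the projective space with homogeneous coordinates `x_j`,
`j ∈ κ`. -/
structure PrVar (k₀ : Type) [Field k₀] where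
  k : Type
  [field : Field k]
  [algebra : Algebra k₀ k]
  [closed : IsAlgClosed k]
  X : Sch k₀
  str : X ⟶ pt k₀ k
  n : ℕ
  isVar : IsVar str n
  κ : Type
  [fintype : Fintype κ]
  [nontrivial : Nontrivial κ]
  i : κ
  emb : X ⟶ PSo k₀ k κ
  isClosed : IsClosedImmersion emb.left
  emb_str : emb ≫ PSo.str k₀ k κ = str

attribute [instance] PrVar.field PrVar.algebra PrVar.closed PrVar.fintype PrVar.nontrivial

/-- The base field of `V` is isomorphic to `k`. -/
def PrVar.IsOver (V : PrVar k₀) (k : Type) [Field k] [Algebra k₀ k] : Prop :=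
  Nonempty (V.k ≃ₐ[k₀] k)

/-- Cycles of codimension `p : ℤ` (only `0` if `p < 0`). -/
def CodimZ (D : CohData k₀ K) {X : Sch k₀} (p : ℤ) (a : D.CH X) : Prop :=
  (0 ≤ p ∧ D.Codim p.toNat a) ∨ (p < 0 ∧ a = 0)

namespace PrVar

variable (D : CohData k₀ K) (V : PrVar k₀)

/-- The class of a hyperplane section of `X`. -/
noncomputable def h : D.CH V.X := D.pb V.emb (hyperplane D V.k V.i)

/-- The iterated Lefschetz operator `u ↦ h^j ∪ u`. -/
noncomputable def lef (j : ℕ) (u : D.H V.X) : D.H V.X := D.cls (V.h D) ^ j * u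

/-- Hard Lefschetz: the map `h^j : H^(n-j)(X) ⟶ H^(n+j)(X)` is injective and surjective. -/
def HardLefschetz : Prop := ∀ j ≤ V.n, (∀ u, D.Deg (V.n - j) u → V.lef D j u = 0 → u = 0) ∧
  ∀ v, D.Deg (V.n + j) v → ∃ u, D.Deg (V.n - j) u ∧ V.lef D j u = v

/-- The product `X × X`. -/
noncomputable abbrev sq : Sch k₀ := pullback V.str V.str

/-- The first projection. -/
noncomputable def p₁ : V.sq ⟶ V.X := pullback.fst V.str V.str

/-- The second projection. -/
noncomputable def p₂ : V.sq ⟶ V.X := pullback.snd V.str V.str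

/-- The diagonal. -/
noncomputable def diag : V.X ⟶ V.sq := pullback.lift (𝟙 V.X) (𝟙 V.X) rfl

/-- The class `x ⊗ y` on `X × X`. -/
noncomputable def ext (x y : D.H V.X) : D.H V.sq := D.cup (D.pbH V.p₁ x) (D.pbH V.p₂ y)

/-- The Künneth summand `H^i(X) ⊗ H^j(X)` of `H^(i+j)(X × X)`. -/
noncomputable def box (i j : ℕ) : Submodule K (D.H V.sq) :=
  Submodule.span K {z | ∃ x y, D.Deg i x ∧ D.Deg j y ∧ z = V.ext D x y}

/-- The class of the diagonal. -/
noncomputable def diagCls : D.H V.sq := D.cls (D.pf V.diag (D.fund V.X))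

/-- The cycles `a_0`, ..., `a_(2n)` represent the Künneth components `π_i` of the class of the
diagonal, in `H^i(X) ⊗ H^(2n-i)(X)`. -/
def IsKunneth (a : ℕ → D.CH V.sq) : Prop :=
  (∀ i ≤ 2 * V.n, D.Codim V.n (a i) ∧ D.cls (a i) ∈ V.box D i (2 * V.n - i)) ∧
    ∑ i ∈ Finset.range (2 * V.n + 1), D.cls (a i) = V.diagCls D

/-- The standard conjecture of Künneth type: the Künneth components `π_i` of the class of the
diagonal are classes of cycles with rational coefficients. -/
def KunnethConj : Prop := ∃ a : ℕ → D.CH V.sq, V.IsKunneth D a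

/-- The sum of the Künneth summands of degree `2n` with `i` even. -/
noncomputable def evenBox : Submodule K (D.H V.sq) :=
  ⨆ (i : ℕ) (_ : i ≤ 2 * V.n ∧ Even i), V.box D i (2 * V.n - i)

/-- The sum of the Künneth summands of degree `2n` with `i` odd. -/
noncomputable def oddBox : Submodule K (D.H V.sq) :=
  ⨆ (i : ℕ) (_ : i ≤ 2 * V.n ∧ Odd i), V.box D i (2 * V.n - i)

/-- The sign conjecture: the sum of the Künneth components `π_i` of the class of the diagonal
with `i` even is the class of a cycle `a` with rational coefficients. -/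
def SignConj : Prop :=
  ∃ a, D.Codim V.n a ∧ D.cls a ∈ V.evenBox D ∧ V.diagCls D - D.cls a ∈ V.oddBox D

/-- The number `tr (cl a ∪ p₂^* v ∪ p₁^* w)`, that is, the trace of `(p₁_* (cl a ∪ p₂^* v)) ∪ w`. -/
noncomputable def pair (a : D.CH V.sq) (v w : D.H V.X) : K :=
  D.trace (D.cup (D.cup (D.cls a) (D.pbH V.p₂ v)) (D.pbH V.p₁ w))

/-- The operator `φ` on `H(X)` is given by a correspondence of degree `r`, that is, there is a
cycle `a` of codimension `n + r` on `X × X` with `φ v = p₁_* (cl a ∪ p₂^* v)`. The last equation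
is expressed by Poincaré duality. -/
def Algebraic (r : ℤ) (φ : D.H V.X →ₗ[K] D.H V.X) : Prop :=
  ∃ a, CodimZ D (V.n + r) a ∧ ∀ v w, D.trace (D.cup (φ v) w) = V.pair D a v w

/-- `Λ` is the adjoint Lefschetz operator: `Λ (h^j x) = h^(j-1) x` for primitive `x`. -/
def IsLambda (Λ : D.H V.X →ₗ[K] D.H V.X) : Prop :=
  ∀ i ≤ V.n, ∀ x, D.Deg i x → V.lef D (V.n - i + 1) x = 0 → ∀ j ≤ V.n - i,
    Λ (V.lef D j x) = if j = 0 then 0 else V.lef D (j - 1) x

/-- The standard conjecture of Lefschetz type: the operator `Λ` is algebraic. -/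
def LefschetzConj : Prop := ∃ Λ, V.IsLambda D Λ ∧ V.Algebraic D (-1) Λ

end PrVar

section axioms

variable (D : CohData k₀ K)

/-- The empty scheme has no cycles. -/
def EmptyChow : Prop := ∀ X : Sch k₀, IsEmpty X.left → D.fund X = 0

/-- Push-forward commutes with transversal base change, for smooth schemes over the field `F`
of dimensions `m` (`X`), `n` (`Y`), `m'` (`X'`) and `n'` (`Y'`) with `m' + n = m + n'`. -/
def Transversal : Prop := ∀ (F : Type) [Field F] [Algebra k₀ F] (X Y X' Y' : Sch k₀)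
  (y : Y ⟶ pt k₀ F) (f : X ⟶ Y) (f' : X' ⟶ Y') (g' : X' ⟶ X) (g : Y' ⟶ Y),
  IsPullback g' f' f g → IsSm y → IsSm (f ≫ y) → IsSm (g ≫ y) → IsSm (f' ≫ g ≫ y) →
  IsProper f.left → ∀ n m n' m', SmoothOfRelativeDimension n y.left →
  SmoothOfRelativeDimension m (f ≫ y).left → SmoothOfRelativeDimension n' (g ≫ y).left →
  SmoothOfRelativeDimension m' (f' ≫ g ≫ y).left → m' + n = m + n' →
  ∀ a, D.pb g (D.pf f a) = D.pf f' (D.pb g' a)

/-- The trace is invariant under extension of algebraically closed fields. -/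
def TraceField : Prop := ∀ (k k' : Type) [Field k] [Algebra k₀ k] [IsAlgClosed k] [Field k']
  [Algebra k₀ k'] [IsAlgClosed k'] [Algebra k k'] [IsScalarTower k₀ k k'] (X X' : Sch k₀)
  (x : X ⟶ pt k₀ k) (x' : X' ⟶ pt k₀ k') (g : X' ⟶ X) (n : ℕ), IsVar x n →
  IsPullback g x' x (ptMap k₀ (IsScalarTower.toAlgHom k₀ k k')) →
  ∀ u, D.trace (D.pbH g u) = D.trace u

/-- Further axioms for Chow groups and a Weil cohomology theory: the empty scheme, transversal
base change, extension of the base field, and the hard Lefschetz theorem. -/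
structure IsStandard : Prop where
  emptyChow : EmptyChow D
  transversal : Transversal D
  traceField : TraceField D
  hardLefschetz : ∀ V : PrVar k₀, V.HardLefschetz D

end axioms

end Pool.Agent.Lib.MP_4ca46c_ag.Std
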