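import Mathlib
import Pool.Agent.Lib.MP_4ca46c_ag.Sign.Conj
import Pool.Agent.Lib.MP_4ca46c_ag.Std.Hyper

/-!
# Further properties of Chow groups and cohomology, projective varieties
-/

namespace Pool.Agent.Lib.MP_4ca46c_ag.Std

open CategoryTheory Limits AlgebraicGeometry TensorProduct
open Pool.Agent.Lib.MP_4ca46c_ag.Sign Pool.Agent.Lib.MP_4ca46c_ag.Hyp

variable {k₀ : Type} [Field k₀] {K : Type} [Field K]

/-- The hyperplane class in `CH^1(ℙ)`. -/
noncomputable def hypClass (T : WeilTheory k₀ K) (k : Type) [Field k] [Algebra k₀ k] {κ : Type}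
    (i : κ) : T.CH (PSo k₀ k κ) := T.push (PSo.hyp k₀ k κ i) 1

/-- Further properties of Chow groups and Weil cohomology. -/
structure Extra (T : WeilTheory k₀ K) : Prop where
  /-- The empty scheme has no cycles. -/
  empty : ∀ X : Sch k₀, IsEmpty X.left → (1 : T.CH X) = 0
  /-- Push-forward commutes with transversal base change. -/
  transversal : ∀ {F : Type} [Field F] [Algebra k₀ F] {X Y X' Y' : Sch k₀}
    (y : Y ⟶ pt k₀ F) (f : X ⟶ Y) (f' : X' ⟶ Y') (g' : X' ⟶ X) (g : Y' ⟶ Y),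
    IsPullback g' f' f g → IsSm y → IsSm (f ≫ y) → IsSm (g ≫ y) → IsSm (f' ≫ g ≫ y) →
    IsProper f.left → ∀ n m n' m', SmoothOfRelativeDimension n y.left →
    SmoothOfRelativeDimension m (f ≫ y).left → SmoothOfRelativeDimension n' (g ≫ y).left →
    SmoothOfRelativeDimension m' (f' ≫ g ≫ y).left → m' + n = m + n' →
    ∀ a, T.pull g (T.push f a) = T.push f' (T.pull g' a)
  /-- The trace is invariant under extension of algebraically closed fields. -/
  tr_field : ∀ {k k' : Type} [Field k] [Algebra k₀ k] [IsAlgClosed k] [Field k'] [Algebra k₀ k']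
    [IsAlgClosed k'] [Algebra k k'] [IsScalarTower k₀ k k'] {X X' : Sch k₀} (x : X ⟶ pt k₀ k)
    (x' : X' ⟶ pt k₀ k') (g : X' ⟶ X) (n : ℕ), IsVar x n →
    IsPullback g x' x (ptMap k₀ (IsScalarTower.toAlgHom k₀ k k')) →
    ∀ u, T.tr X' (T.pullH g u) = T.tr X u
  /-- Hard Lefschetz for the class of a hyperplane section. -/
  lefschetz : ∀ {k : Type} [Field k] [Algebra k₀ k] [IsAlgClosed k] {X : Sch k₀}
    (x : X ⟶ pt k₀ k) (n : ℕ), IsVar x n → ∀ {κ : Type} [Fintype κ] [Nontrivial κ] (i : κ)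
    (e : X ⟶ PSo k₀ k κ), IsClosedImmersion e.left → e ≫ PSo.str k₀ k κ = x →
    (∀ j ≤ n, ∀ u ∈ T.deg X (n - j), T.cl X (T.pull e (hypClass T k i)) ^ j * u = 0 → u = 0) ∧
    (∀ j ≤ n, ∀ v ∈ T.deg X (n + j), ∃ u ∈ T.deg X (n - j),
      T.cl X (T.pull e (hypClass T k i)) ^ j * u = v)

/-- A smooth projective variety over the algebraically closed field `k`, with an embedding in
the projective space with coordinates `x_j`, `j ∈ κ`. -/
structure ProjVar (k₀ k : Type) [Field k₀] [Field k] [Algebra k₀ k] where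
  X : Sch k₀
  str : X ⟶ pt k₀ k
  n : ℕ
  isVar : IsVar str n
  κ : Type
  [fintype : Fintype κ]
  [nontrivial : Nontrivial κ]
  i : κ
  emb : X ⟶ PSo k₀ k κ
  closed : IsClosedImmersion emb.left
  emb_str : emb ≫ PSo.str k₀ k κ = str

attribute [instance] ProjVar.fintype ProjVar.nontrivial

end Pool.Agent.Lib.MP_4ca46c_ag.Std
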