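import Pool.Agent.Lib.MP_4ca46c_ag.Std.Section
import Pool.Agent.Lib.MP_4ca46c_ag.Sign.Compl

/-!
# The complement of the diagonal of `Y₀`, the map `Q₀ ⟶ W₀`, cycles on `Y₀ × Y₀` (version without
vanishing class)
-/

set_option autoImplicit false

namespace Pool.Agent.Lib.MP_4ca46c_ag.Std

open CategoryTheory Limits AlgebraicGeometry TensorProduct
open Pool.Agent.Lib.MP_4ca46c_ag.Sign

variable {k₀ : Type} [Field k₀] {K : Type} [Field K]

section

variable {T : WeilTheory k₀ K} {V W : PVar T} (G : GenSec V W)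

/-- Two points of `Y₀` over the same point of `Spec F` with the same image in `Z` are equal. -/
theorem compl_mono {S : Sch k₀} (y y' : S ⟶ G.Y₀) (h1 : y ≫ G.y₀ = y' ≫ G.y₀)
    (h2 : y ≫ G.r₀ = y' ≫ G.r₀) : y = y' := by
  have h3 : y ≫ G.toI ≫ G.toB = y' ≫ G.toI ≫ G.toB := by
    rw [G.fibre.w, ← Category.assoc, h1, Category.assoc]
  have h4 : y ≫ G.toI ≫ G.toZ = y' ≫ G.toI ≫ G.toZ := h2
  have hm := G.mono
  have h5 : y ≫ G.toI = y' ≫ G.toI := by
    rw [← cancel_mono (pullback.lift G.toZ G.toB G.comm)]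
    apply pullback.hom_ext
    · rw [Category.assoc, Category.assoc, Category.assoc, Category.assoc, pullback.lift_fst]
      exact h4
    · rw [Category.assoc, Category.assoc, Category.assoc, Category.assoc, pullback.lift_snd]
      exact h3
  exact G.fibre.hom_ext h5 h1

theorem compl_isPullback : IsPullback (pullback.diagonal G.y₀) G.r₀ G.rho
    (pullback.diagonal V.str) := by
  refine ⟨⟨?_⟩, ⟨PullbackCone.IsLimit.mk _ (fun s => s.fst ≫ pullback.fst G.y₀ G.y₀) ?_ ?_ ?_⟩⟩
  · apply pullback.hom_ext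
    · rw [Category.assoc, Category.assoc, G.rho_fst, pullback.diagonal_fst, Category.comp_id,
        ← Category.assoc, pullback.diagonal_fst, Category.id_comp]
    · rw [Category.assoc, Category.assoc, G.rho_snd, pullback.diagonal_snd, Category.comp_id,
        ← Category.assoc, pullback.diagonal_snd, Category.id_comp]
  · intro s
    have e1 : s.fst ≫ pullback.fst G.y₀ G.y₀ ≫ G.r₀ = s.snd := by
      rw [← G.rho_fst, ← Category.assoc, s.condition, Category.assoc, pullback.diagonal_fst,
        Category.comp_id]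
    have e2 : s.fst ≫ pullback.snd G.y₀ G.y₀ ≫ G.r₀ = s.snd := by
      rw [← G.rho_snd, ← Category.assoc, s.condition, Category.assoc, pullback.diagonal_snd,
        Category.comp_id]
    have e3 : s.fst ≫ pullback.fst G.y₀ G.y₀ = s.fst ≫ pullback.snd G.y₀ G.y₀ := by
      apply compl_mono G
      · rw [Category.assoc, Category.assoc, pullback.condition]
      · rw [Category.assoc, Category.assoc, e1, e2]
    apply pullback.hom_ext
    · rw [Category.assoc, Category.assoc, pullback.diagonal_fst, Category.comp_id]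
    · rw [Category.assoc, Category.assoc, pullback.diagonal_snd, Category.comp_id, e3]
  · intro s
    rw [Category.assoc, ← G.rho_fst, ← Category.assoc, s.condition, Category.assoc,
      pullback.diagonal_fst, Category.comp_id]
  · intro s m h1 _
    rw [← h1, Category.assoc, pullback.diagonal_fst, Category.comp_id]

end

theorem tCompl (k₀ K : Type) [Field k₀] [Field K] : StCompl k₀ K := by
  intro T V W G
  have hD : IsPullback (pullback.diagonal G.y₀).left G.r₀.left G.rho.left
      (pullback.diagonal V.str).left :=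
    (compl_isPullback G).map (Over.forget _)
  have hQ : IsPullback (pullback.fst G.rho G.incl).left (pullback.snd G.rho G.incl).left
      G.rho.left G.incl.left :=
    (IsPullback.of_hasPullback G.rho G.incl).map (Over.forget _)
  refine ⟨?_, ?_, ?_⟩
  · exact MorphismProperty.of_isPullback (P := @IsClosedImmersion) hD.flip G.complement.closed
  · exact MorphismProperty.of_isPullback (P := @IsOpenImmersion) hQ.flip G.complement.isOpen
  · rw [compl_range hD, compl_range hQ, G.complement.compl, Set.preimage_compl]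

section

variable {T : WeilTheory k₀ K} {V W : PVar T} (G : GenSec V W)

/-- `Y₀ × Y₀` is the fibre product of `Y₀` and `I ×_B I` over `I`. -/
theorem compl_generic_toI2 : IsPullback G.toI2 (pullback.fst G.y₀ G.y₀) (pullback.fst G.toB G.toB)
    G.toI := by
  have h1 : IsPullback (pullback.snd G.y₀ G.y₀ ≫ G.toI) (pullback.fst G.y₀ G.y₀) G.toB
      (G.y₀ ≫ G.generic) :=
    (IsPullback.of_hasPullback G.y₀ G.y₀).flip.paste_horiz G.fibre
  rw [← G.fibre.w, ← G.toI2_snd] at h1
  exact IsPullback.of_right h1 G.toI2_fst (IsPullback.of_hasPullback G.toB G.toB).flip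

/-- `Q₀` is the fibre product of `Y₀ × Y₀` and `W₀` over `I ×_B I`. -/
theorem compl_generic_Q₀W₀ : IsPullback G.Q₀W₀ (pullback.fst G.rho G.incl) (pullback.fst G.q G.incl)
    G.toI2 := by
  have h1 : IsPullback (G.Q₀W₀ ≫ pullback.snd G.q G.incl) (pullback.fst G.rho G.incl) G.incl
      (G.toI2 ≫ G.q) := by
    have h2 : IsPullback (pullback.snd G.rho G.incl) (pullback.fst G.rho G.incl) G.incl G.rho :=
      (IsPullback.of_hasPullback G.rho G.incl).flip
    exact h2.of_iso (Iso.refl _) (Iso.refl _) (Iso.refl _) (Iso.refl _)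
      (by simp [G.Q₀W₀_snd]) (by simp) (by simp) (by simp [G.toI2_q])
  exact IsPullback.of_right h1 G.Q₀W₀_fst (IsPullback.of_hasPullback G.q G.incl).flip

theorem compl_generic_all : IsPullback G.Q₀W₀
    (pullback.fst G.rho G.incl ≫ pullback.fst G.y₀ G.y₀ ≫ G.y₀)
    (pullback.fst G.q G.incl ≫ pullback.fst G.toB G.toB ≫ G.toB) G.generic :=
  (compl_generic_Q₀W₀ G).paste_vert ((compl_generic_toI2 G).paste_vert G.fibre)

theorem compl_generic_left : IsPullback G.Q₀W₀.left
    (pullback.fst G.rho G.incl ≫ pullback.fst G.y₀ G.y₀ ≫ G.y₀).left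
    (pullback.fst G.q G.incl ≫ pullback.fst G.toB G.toB ≫ G.toB).left G.generic.left :=
  (compl_generic_all G).map (Over.forget _)

end

theorem tGeneric (k₀ K : Type) [Field k₀] [Field K] : StGeneric k₀ K := by
  intro T V W G
  have h := (compl_generic_left G).flip
  refine ⟨?_, ?_, ?_⟩
  · exact MorphismProperty.of_isPullback (P := @Flat) h G.generic_flat
  · exact MorphismProperty.of_isPullback (P := MorphismProperty.monomorphisms Scheme) h
      G.generic_mono
  · exact MorphismProperty.of_isPullback (P := @QuasiCompact) h G.generic_quasiCompact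

theorem tStep0 (k₀ K : Type) [Field k₀] [Field K] (h1 : StSm k₀ K) : StStep0 k₀ K := by
  have h2 : StCompl k₀ K := tCompl k₀ K
  have h3 : StGeneric k₀ K := tGeneric k₀ K
  intro T V W G a ha
  obtain ⟨-, s2, s3, s4, s5, s6, -, -, -, -, -, v4, v4', v5, hcon, hqc⟩ := h1 T V W G
  obtain ⟨g1, g2, g3⟩ := h3 T V W G
  -- the open immersion `U → Z × Z` is a flat monomorphism
  have ho : IsOpenImmersion G.incl.left := G.complement.isOpen
  have hfl : Flat G.incl.left := inferInstance
  have hmo : Mono G.incl.left := inferInstance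
  let j : G.Q₀ ⟶ pullback G.y₀ G.y₀ := pullback.fst G.rho G.incl
  obtain ⟨a', ha', e1⟩ := T.pull_surjective_of_mono G.Q₀W₀ s6 s4 g1 g2 g3 W.n (T.pull j a)
    (T.pull_mem j s6 s5 _ a ha)
  obtain ⟨a'', ha'', e2⟩ := T.pull_surjective_of_affineBundle (pullback.snd G.q G.incl) s4 s3
    G.bundle W.n a' ha'
  obtain ⟨w, hw, e3⟩ := T.pull_surjective_of_mono G.incl s3 s2 hfl hmo hqc W.n a'' ha''
  have hj : T.pull j (T.pull G.rho w) = T.pull j a := by
    rw [← T.pull_comp j G.rho s6 s5 s2, ← e1, ← e2, ← e3,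
      ← T.pull_comp (pullback.snd G.q G.incl) G.incl s4 s3 s2,
      ← T.pull_comp G.Q₀W₀ _ s6 s4 s2]
    congr 2
    rw [← Category.assoc, G.Q₀W₀_snd]
    exact pullback.condition
  have hdiag : pullback.diagonal G.y₀ ≫ (pullback.fst G.y₀ G.y₀ ≫ G.y₀) = G.y₀ := by
    rw [← Category.assoc, pullback.diagonal_fst, Category.id_comp]
  have hsm : SmoothOfRelativeDimension (W.n + W.n) (pullback.fst G.y₀ G.y₀ ≫ G.y₀).left :=
    v4'
  obtain ⟨c, hc, e4⟩ := T.localization G.y₀ (pullback.fst G.y₀ G.y₀ ≫ G.y₀)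
    (pullback.diagonal G.y₀) j hdiag v5 v4 (h2 T V W G) W.n W.n G.smooth hsm 0
    (a - T.pull G.rho w) (by
      rw [zero_add]
      exact Submodule.sub_mem _ ha (T.pull_mem G.rho s5 s2 _ w hw)) (by
      rw [map_sub, hj, sub_self])
  obtain ⟨κ, rfl⟩ := T.codim_zero _ ⟨_, _, _, G.y₀, v5⟩ hcon c hc
  refine ⟨κ, w, hw, ?_⟩
  rw [map_smul] at e4
  rw [e4]
  abel

end Pool.Agent.Lib.MP_4ca46c_ag.Std
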