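import Mathlib
import Pool.Agent.Lib.MP_4ca46c_ag.Std.Compl

/-!
# Families of closed subschemes, before smoothness and connectedness are known
-/

namespace Pool.Agent.Lib.MP_4ca46c_ag.Std

open CategoryTheory Limits AlgebraicGeometry TensorProduct
open Pool.Agent.Lib.MP_4ca46c_ag.Sign

section sp

variable (k₀ : Type) [Field k₀]

/-- The scheme `Spec R` over `k₀`. -/
noncomputable def sp (R : Type) [CommRing R] [Algebra k₀ R] : Sch k₀ :=
  Over.mk (Spec.map (CommRingCat.ofHom (algebraMap k₀ R)))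

/-- The structure morphism `Spec R ⟶ Spec k`. -/
noncomputable def spB (k R : Type) [Field k] [Algebra k₀ k] [CommRing R] [Algebra k₀ R]
    [Algebra k R] [IsScalarTower k₀ k R] : sp k₀ R ⟶ pt k₀ k :=
  Over.homMk (Spec.map (CommRingCat.ofHom (algebraMap k R))) (by
    simp only [sp, pt, Over.mk_hom, Over.mk_left]
    rw [← Spec.map_comp, ← CommRingCat.ofHom_comp, ← IsScalarTower.algebraMap_eq])

/-- The generic point `Spec F ⟶ Spec R`. -/
noncomputable def spG (R F : Type) [CommRing R] [Algebra k₀ R] [Field F] [Algebra k₀ F]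
    [Algebra R F] [IsScalarTower k₀ R F] : pt k₀ F ⟶ sp k₀ R :=
  Over.homMk (Spec.map (CommRingCat.ofHom (algebraMap R F))) (by
    simp only [sp, pt, Over.mk_hom, Over.mk_left]
    rw [← Spec.map_comp, ← CommRingCat.ofHom_comp, ← IsScalarTower.algebraMap_eq])

theorem spG_spB (k R F : Type) [Field k] [Algebra k₀ k] [CommRing R] [Algebra k₀ R]
    [Algebra k R] [IsScalarTower k₀ k R] [Field F] [Algebra k₀ F] [Algebra k F]
    [Algebra R F] [IsScalarTower k₀ R F] [IsScalarTower k R F] [IsScalarTower k₀ k F] :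
    spG k₀ R F ≫ spB k₀ k R = ptMap k₀ (IsScalarTower.toAlgHom k₀ k F) := by
  apply Over.OverMorphism.ext
  simp only [spG, spB, ptMap, Over.comp_left]
  refine (Spec.map_comp _ _).symm.trans ?_
  rw [← CommRingCat.ofHom_comp, ← IsScalarTower.algebraMap_eq]
  rfl

end sp

variable {k₀ : Type} [Field k₀]

/-- A family of closed subschemes of `Z` over `B = Spec R`, complete for pairs of points, with
its generic fibre over `F`. -/
structure PreSec {k : Type} [Field k] [Algebra k₀ k] {Z : Sch k₀} (str : Z ⟶ pt k₀ k)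
    (R F : Type) [CommRing R] [IsDomain R] [Algebra k₀ R] [Algebra k R] [IsScalarTower k₀ k R]
    [Field F] [Algebra k₀ F] [Algebra R F] [IsScalarTower k₀ R F] where
  /-- the family, a subscheme of `Z × B` -/
  I : Sch k₀
  toZ : I ⟶ Z
  toB : I ⟶ sp k₀ R
  comm : toZ ≫ str = toB ≫ spB k₀ k R
  mono : Mono (pullback.lift toZ toB comm)
  /-- the space of pairs of different points of `Z` -/
  U : Sch k₀
  incl : U ⟶ pullback str str
  complement : IsComplement (pullback.diagonal str) incl
  /-- two different points impose independent conditions -/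
  bundle : IsAffineBundle (pullback.snd (pullback.lift (f := str) (g := str)
    (pullback.fst toB toB ≫ toZ) (pullback.snd toB toB ≫ toZ)
    (by rw [Category.assoc, Category.assoc, comm, ← Category.assoc, ← Category.assoc,
      pullback.condition])) incl).left
  /-- the generic fibre -/
  Y₀ : Sch k₀
  y₀ : Y₀ ⟶ pt k₀ F
  toI : Y₀ ⟶ I
  fibre : IsPullback toI y₀ toB (spG k₀ R F)

namespace PreSec

variable {k : Type} [Field k] [Algebra k₀ k] {Z : Sch k₀} {str : Z ⟶ pt k₀ k}
    {R F : Type} [CommRing R] [IsDomain R] [Algebra k₀ R] [Algebra k R] [IsScalarTower k₀ k R]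
    [Field F] [Algebra k₀ F] [Algebra R F] [IsScalarTower k₀ R F] (G : PreSec str R F)

/-- The map `I ×_B I ⟶ Z × Z`. -/
noncomputable def q : pullback G.toB G.toB ⟶ pullback str str :=
  pullback.lift (pullback.fst G.toB G.toB ≫ G.toZ) (pullback.snd G.toB G.toB ≫ G.toZ)
    (by rw [Category.assoc, Category.assoc, G.comm, ← Category.assoc, ← Category.assoc,
      pullback.condition])

/-- The map `Y₀ ⟶ Z`. -/
noncomputable def r₀ : G.Y₀ ⟶ Z := G.toI ≫ G.toZ

theorem r₀_comp : G.r₀ ≫ str = G.y₀ ≫ spG k₀ R F ≫ spB k₀ k R := by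
  rw [r₀, Category.assoc, G.comm, ← Category.assoc, G.fibre.w, Category.assoc]

/-- The map `ρ : Y₀ × Y₀ ⟶ Z × Z`. -/
noncomputable def rho : pullback G.y₀ G.y₀ ⟶ pullback str str :=
  pullback.lift (pullback.fst G.y₀ G.y₀ ≫ G.r₀) (pullback.snd G.y₀ G.y₀ ≫ G.r₀)
    (by rw [Category.assoc, Category.assoc, r₀_comp, pullback.condition_assoc])

/-- The map `Y₀ × Y₀ ⟶ I ×_B I`. -/
noncomputable def toI2 : pullback G.y₀ G.y₀ ⟶ pullback G.toB G.toB :=
  pullback.lift (pullback.fst G.y₀ G.y₀ ≫ G.toI) (pullback.snd G.y₀ G.y₀ ≫ G.toI)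
    (by rw [Category.assoc, Category.assoc, G.fibre.w, ← Category.assoc, ← Category.assoc,
      pullback.condition])

theorem q_fst : G.q ≫ pullback.fst str str = pullback.fst G.toB G.toB ≫ G.toZ :=
  pullback.lift_fst _ _ _

theorem q_snd : G.q ≫ pullback.snd str str = pullback.snd G.toB G.toB ≫ G.toZ :=
  pullback.lift_snd _ _ _

theorem rho_fst : G.rho ≫ pullback.fst str str = pullback.fst G.y₀ G.y₀ ≫ G.r₀ :=
  pullback.lift_fst _ _ _

theorem rho_snd : G.rho ≫ pullback.snd str str = pullback.snd G.y₀ G.y₀ ≫ G.r₀ :=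
  pullback.lift_snd _ _ _

theorem toI2_fst : G.toI2 ≫ pullback.fst G.toB G.toB = pullback.fst G.y₀ G.y₀ ≫ G.toI :=
  pullback.lift_fst _ _ _

theorem toI2_snd : G.toI2 ≫ pullback.snd G.toB G.toB = pullback.snd G.y₀ G.y₀ ≫ G.toI :=
  pullback.lift_snd _ _ _

theorem toI2_q : G.toI2 ≫ G.q = G.rho := by
  apply pullback.hom_ext
  · rw [Category.assoc, q_fst, rho_fst, ← Category.assoc, toI2_fst, Category.assoc]; rfl
  · rw [Category.assoc, q_snd, rho_snd, ← Category.assoc, toI2_snd, Category.assoc]; rfl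

/-- The map `Q₀ ⟶ W₀`. -/
noncomputable def Q₀W₀ : pullback G.rho G.incl ⟶ pullback G.q G.incl :=
  pullback.lift (pullback.fst G.rho G.incl ≫ G.toI2) (pullback.snd G.rho G.incl)
    (by rw [Category.assoc, toI2_q, pullback.condition])

theorem Q₀W₀_fst : G.Q₀W₀ ≫ pullback.fst G.q G.incl = pullback.fst G.rho G.incl ≫ G.toI2 :=
  pullback.lift_fst _ _ _

theorem Q₀W₀_snd : G.Q₀W₀ ≫ pullback.snd G.q G.incl = pullback.snd G.rho G.incl :=
  pullback.lift_snd _ _ _

/-- Two points of `Y₀` over the same point of `Spec F` with the same image in `Z` are equal. -/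
theorem joint_mono {S : Sch k₀} (y y' : S ⟶ G.Y₀) (h1 : y ≫ G.y₀ = y' ≫ G.y₀)
    (h2 : y ≫ G.r₀ = y' ≫ G.r₀) : y = y' := by
  have h3 : y ≫ G.toI ≫ G.toB = y' ≫ G.toI ≫ G.toB := by
    rw [G.fibre.w, ← Category.assoc, h1, Category.assoc]
  have h4 : y ≫ G.toI ≫ G.toZ = y' ≫ G.toI ≫ G.toZ := h2
  have hm := G.mono
  have h5 : y ≫ G.toI = y' ≫ G.toI := by
    rw [← cancel_mono (pullback.lift G.toZ G.toB G.comm)]
    apply pullback.hom_ext
    · rw [Category.assoc, Category.assoc, Category.assoc, Category.assoc, pullback.lift_fst]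
      exact h4
    · rw [Category.assoc, Category.assoc, Category.assoc, Category.assoc, pullback.lift_snd]
      exact h3
  exact G.fibre.hom_ext h5 h1

theorem compl_isPullback : IsPullback (pullback.diagonal G.y₀) G.r₀ G.rho
    (pullback.diagonal str) := by
  refine ⟨⟨?_⟩, ⟨PullbackCone.IsLimit.mk _ (fun s => s.fst ≫ pullback.fst G.y₀ G.y₀) ?_ ?_ ?_⟩⟩
  · apply pullback.hom_ext
    · rw [Category.assoc, Category.assoc, G.rho_fst, pullback.diagonal_fst, Category.comp_id,
        ← Category.assoc, pullback.diagonal_fst, Category.id_comp]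
    · rw [Category.assoc, Category.assoc, G.rho_snd, pullback.diagonal_snd, Category.comp_id,
        ← Category.assoc, pullback.diagonal_snd, Category.id_comp]
  · intro s
    have e1 : s.fst ≫ pullback.fst G.y₀ G.y₀ ≫ G.r₀ = s.snd := by
      rw [← G.rho_fst, ← Category.assoc, s.condition, Category.assoc, pullback.diagonal_fst,
        Category.comp_id]
    have e2 : s.fst ≫ pullback.snd G.y₀ G.y₀ ≫ G.r₀ = s.snd := by
      rw [← G.rho_snd, ← Category.assoc, s.condition, Category.assoc, pullback.diagonal_snd,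
        Category.comp_id]
    have e3 : s.fst ≫ pullback.fst G.y₀ G.y₀ = s.fst ≫ pullback.snd G.y₀ G.y₀ := by
      apply joint_mono G
      · rw [Category.assoc, Category.assoc, pullback.condition]
      · rw [Category.assoc, Category.assoc, e1, e2]
    apply pullback.hom_ext
    · rw [Category.assoc, Category.assoc, pullback.diagonal_fst, Category.comp_id]
    · rw [Category.assoc, Category.assoc, pullback.diagonal_snd, Category.comp_id, e3]
  · intro s
    rw [Category.assoc, ← G.rho_fst, ← Category.assoc, s.condition, Category.assoc,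
      pullback.diagonal_fst, Category.comp_id]
  · intro s m h1 _
    rw [← h1, Category.assoc, pullback.diagonal_fst, Category.comp_id]

theorem isCompl : IsComplement (pullback.diagonal G.y₀) (pullback.fst G.rho G.incl) := by
  have hD : IsPullback (pullback.diagonal G.y₀).left G.r₀.left G.rho.left
      (pullback.diagonal str).left :=
    (compl_isPullback G).map (Over.forget _)
  have hQ : IsPullback (pullback.fst G.rho G.incl).left (pullback.snd G.rho G.incl).left
      G.rho.left G.incl.left :=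
    (IsPullback.of_hasPullback G.rho G.incl).map (Over.forget _)
  refine ⟨?_, ?_, ?_⟩
  · exact MorphismProperty.of_isPullback (P := @IsClosedImmersion) hD.flip G.complement.closed
  · exact MorphismProperty.of_isPullback (P := @IsOpenImmersion) hQ.flip G.complement.isOpen
  · rw [compl_range hD, compl_range hQ, G.complement.compl, Set.preimage_compl]

/-- `Y₀ × Y₀` is the fibre product of `Y₀` and `I ×_B I` over `I`. -/
theorem generic_toI2 : IsPullback G.toI2 (pullback.fst G.y₀ G.y₀) (pullback.fst G.toB G.toB)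
    G.toI := by
  have h1 : IsPullback (pullback.snd G.y₀ G.y₀ ≫ G.toI) (pullback.fst G.y₀ G.y₀) G.toB
      (G.y₀ ≫ spG k₀ R F) :=
    (IsPullback.of_hasPullback G.y₀ G.y₀).flip.paste_horiz G.fibre
  rw [← G.fibre.w, ← G.toI2_snd] at h1
  exact IsPullback.of_right h1 G.toI2_fst (IsPullback.of_hasPullback G.toB G.toB).flip

/-- `Q₀` is the fibre product of `Y₀ × Y₀` and `W₀` over `I ×_B I`. -/
theorem generic_Q₀W₀ : IsPullback G.Q₀W₀ (pullback.fst G.rho G.incl) (pullback.fst G.q G.incl)
    G.toI2 := by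
  have h1 : IsPullback (G.Q₀W₀ ≫ pullback.snd G.q G.incl) (pullback.fst G.rho G.incl) G.incl
      (G.toI2 ≫ G.q) := by
    have h2 : IsPullback (pullback.snd G.rho G.incl) (pullback.fst G.rho G.incl) G.incl G.rho :=
      (IsPullback.of_hasPullback G.rho G.incl).flip
    exact h2.of_iso (Iso.refl _) (Iso.refl _) (Iso.refl _) (Iso.refl _)
      (by simp [G.Q₀W₀_snd]) (by simp) (by simp) (by simp [G.toI2_q])
  exact IsPullback.of_right h1 G.Q₀W₀_fst (IsPullback.of_hasPullback G.q G.incl).flip

theorem generic_all : IsPullback G.Q₀W₀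
    (pullback.fst G.rho G.incl ≫ pullback.fst G.y₀ G.y₀ ≫ G.y₀)
    (pullback.fst G.q G.incl ≫ pullback.fst G.toB G.toB ≫ G.toB) (spG k₀ R F) :=
  (generic_Q₀W₀ G).paste_vert ((generic_toI2 G).paste_vert G.fibre)

theorem generic_left : IsPullback G.Q₀W₀.left
    (pullback.fst G.rho G.incl ≫ pullback.fst G.y₀ G.y₀ ≫ G.y₀).left
    (pullback.fst G.q G.incl ≫ pullback.fst G.toB G.toB ≫ G.toB).left
    (Spec.map (CommRingCat.ofHom (algebraMap R F))) :=
  (generic_all G).map (Over.forget _)

end PreSec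

end Pool.Agent.Lib.MP_4ca46c_ag.Std
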