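import Mathlib
import Pool.Agent.Lib.MP_4ca46c_ag.Std.Extra
import Pool.Agent.Lib.MP_4ca46c_ag.Std.PreSec
import Pool.Agent.Lib.MP_4ca46c_ag.Hyp.ToZ

/-!
# Affine spaces and the universal hyperplane section, as schemes over `k₀`
-/

namespace Pool.Agent.Lib.MP_4ca46c_ag.Std

open CategoryTheory Limits AlgebraicGeometry TensorProduct
open Pool.Agent.Lib.MP_4ca46c_ag.Sign Pool.Agent.Lib.MP_4ca46c_ag.Hyp

variable {k₀ : Type} [Field k₀]

theorem over_isPullback {P X Y Z : Sch k₀} (f : P ⟶ X) (g : P ⟶ Y) (h : X ⟶ Z) (i : Y ⟶ Z)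
    (H : IsPullback f.left g.left h.left i.left) : IsPullback f g h i :=
  IsPullback.of_map (Over.forget _) (Over.OverMorphism.ext H.w) H

section Aff

variable (κ : Type)

/-- The affine space `𝔸^κ × X`. -/
noncomputable def Aff (X : Sch k₀) : Sch k₀ := Over.mk ((𝔸(κ; X.left) ↘ X.left) ≫ X.hom)

/-- The projection. -/
noncomputable def Aff.pr (X : Sch k₀) : Aff κ X ⟶ X := Over.homMk (𝔸(κ; X.left) ↘ X.left) rfl

/-- Functoriality. -/
noncomputable def Aff.map {X Y : Sch k₀} (f : X ⟶ Y) : Aff κ X ⟶ Aff κ Y :=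
  Over.homMk (AffineSpace.map κ f.left) (by
    change AffineSpace.map κ f.left ≫ (𝔸(κ; Y.left) ↘ Y.left) ≫ Y.hom = _
    rw [← Category.assoc, AffineSpace.map_over, Category.assoc, Over.w]
    rfl)

theorem Aff.map_pr {X Y : Sch k₀} (f : X ⟶ Y) : Aff.map κ f ≫ Aff.pr κ Y = Aff.pr κ X ≫ f := by
  apply Over.OverMorphism.ext
  exact AffineSpace.map_over _

variable {κ}

/-- The section of the affine space given by functions `a j`. -/
noncomputable def Aff.sec {X : Sch k₀} (a : κ → Γ(X.left, ⊤)) : X ⟶ Aff κ X :=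
  Over.homMk (AffineSpace.homOfVector (𝟙 _) a) (by
    change AffineSpace.homOfVector (𝟙 _) a ≫ (𝔸(κ; X.left) ↘ X.left) ≫ X.hom = _
    rw [← Category.assoc, AffineSpace.homOfVector_over, Category.id_comp])

theorem Aff.sec_pr {X : Sch k₀} (a : κ → Γ(X.left, ⊤)) : Aff.sec a ≫ Aff.pr κ X = 𝟙 X := by
  apply Over.OverMorphism.ext
  exact AffineSpace.homOfVector_over _ _

variable (κ)

theorem Aff.isPullback_map {X Y : Sch k₀} (f : X ⟶ Y) :
    IsPullback (Aff.map κ f) (Aff.pr κ X) (Aff.pr κ Y) f :=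
  over_isPullback _ _ _ _ (AffineSpace.isPullback_map f.left)

theorem specIso_over (k : Type) [Field k] :
    (AffineSpace.SpecIso κ (CommRingCat.of k)).hom ≫
      Spec.map (CommRingCat.ofHom (algebraMap k (MvPolynomial κ k))) =
        𝔸(κ; Spec (CommRingCat.of k)) ↘ Spec (CommRingCat.of k) :=
  ((Iso.inv_comp_eq _).1 (AffineSpace.SpecIso_inv_over (CommRingCat.of k))).symm

theorem toSp_isPullback {k : Type} [Field k] {X : Scheme.{0}} (x : X ⟶ Spec (CommRingCat.of k)) :
    IsPullback (AffineSpace.map κ x ≫ (AffineSpace.SpecIso κ (CommRingCat.of k)).hom)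
      (𝔸(κ; X) ↘ X) (Spec.map (CommRingCat.ofHom (algebraMap k (MvPolynomial κ k)))) x := by
  have h1 : IsPullback (AffineSpace.SpecIso κ (CommRingCat.of k)).hom
      (𝔸(κ; Spec (CommRingCat.of k)) ↘ Spec (CommRingCat.of k))
      (Spec.map (CommRingCat.ofHom (algebraMap k (MvPolynomial κ k)))) (𝟙 _) :=
    IsPullback.of_horiz_isIso ⟨by rw [specIso_over, Category.comp_id]⟩
  have h2 := (AffineSpace.isPullback_map (n := κ) x).paste_horiz h1
  rwa [Category.comp_id] at h2

/-- The projection of the affine space over `X` to `Spec k[a_j]`. -/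
noncomputable def Aff.toSp {k : Type} [Field k] [Algebra k₀ k] {X : Sch k₀} (x : X ⟶ pt k₀ k) :
    Aff κ X ⟶ sp k₀ (MvPolynomial κ k) :=
  Over.homMk (AffineSpace.map κ x.left ≫ (AffineSpace.SpecIso κ (CommRingCat.of k)).hom) (by
    have h2 : (sp k₀ (MvPolynomial κ k)).hom =
        Spec.map (CommRingCat.ofHom (algebraMap k (MvPolynomial κ k))) ≫ (pt k₀ k).hom :=
      (Over.w (spB k₀ k (MvPolynomial κ k))).symm
    rw [h2]
    refine Eq.trans (Category.assoc _ _ _).symm ?_
    refine Eq.trans (congrArg (fun φ => φ ≫ (pt k₀ k).hom) (toSp_isPullback κ x.left).w) ?_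
    refine Eq.trans (Category.assoc _ _ _) ?_
    exact congrArg (fun φ => (𝔸(κ; X.left) ↘ X.left) ≫ φ) (Over.w x))

theorem Aff.isPullback_toSp {k : Type} [Field k] [Algebra k₀ k] {X : Sch k₀} (x : X ⟶ pt k₀ k) :
    IsPullback (Aff.toSp κ x) (Aff.pr κ X) (spB k₀ k (MvPolynomial κ k)) x :=
  over_isPullback _ _ _ _ (toSp_isPullback κ x.left)

end Aff

section Aff

variable {κ : Type}

end Aff

section Fam

variable {k : Type} [Field k] [Algebra k₀ k] {X : Sch k₀} {x : X ⟶ pt k₀ k} {κ : Type}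
  [Fintype κ]

/-- The universal hyperplane section. -/
noncomputable def Fam (C : Coord x.left κ) : Sch k₀ := Over.mk (C.inc ≫ (Aff κ X).hom)

/-- The inclusion of the universal hyperplane section in `𝔸^κ × X`. -/
noncomputable def Fam.inc (C : Coord x.left κ) : Fam C ⟶ Aff κ X := Over.homMk C.inc rfl

theorem van_zero_iff (C : Coord x.left κ) (a : κ → Γ(X.left, ⊤)) {T : Scheme.{0}}
    (t : T ⟶ X.left) : (∃ t', t' ≫ C.inc = t ≫ AffineSpace.homOfVector (𝟙 _) a) ↔
      C.Van t (fun j => t.appTop (a j)) := by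
  rw [C.inc_iff, Category.assoc, AffineSpace.homOfVector_over, Category.comp_id]
  simp only [Scheme.Hom.comp_appTop, CommRingCat.comp_apply, AffineSpace.homOfVector_appTop_coord]

/-- The hyperplane section `∑ a_j x_j = 0` is the pull-back of the universal one. -/
theorem sec_isPullback (C : Coord x.left κ) (a : κ → Γ(X.left, ⊤)) {D : Sch k₀} (j : D ⟶ X)
    (hm : Mono j.left) (h : ∀ (T : Scheme.{0}) (t : T ⟶ X.left), (∃ t', t' ≫ j.left = t) ↔
      C.Van t (fun l => t.appTop (a l))) : ∃ u, IsPullback u j (Fam.inc C) (Aff.sec a) := by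
  obtain ⟨u, hu⟩ := (van_zero_iff C a j.left).2 ((h _ j.left).1 ⟨𝟙 _, Category.id_comp _⟩)
  have hP : IsPullback u j.left C.inc (AffineSpace.homOfVector (𝟙 _) a) := by
    refine ⟨⟨hu⟩, ⟨PullbackCone.IsLimit.mk _ (fun s => ((h _ s.snd).2
      ((van_zero_iff C a s.snd).1 ⟨s.fst, s.condition⟩)).choose) ?_ ?_ ?_⟩⟩
    · intro s
      rw [← cancel_mono C.inc, Category.assoc, hu, ← Category.assoc, ((h _ s.snd).2
        ((van_zero_iff C a s.snd).1 ⟨s.fst, s.condition⟩)).choose_spec, s.condition]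
    · intro s
      exact ((h _ s.snd).2 ((van_zero_iff C a s.snd).1 ⟨s.fst, s.condition⟩)).choose_spec
    · intro s m _ h2
      rw [← cancel_mono j.left, h2]
      exact ((h _ s.snd).2 ((van_zero_iff C a s.snd).1 ⟨s.fst, s.condition⟩)).choose_spec.symm
  refine ⟨Over.homMk u ?_, over_isPullback _ _ _ _ hP⟩
  refine Eq.trans (Category.assoc _ _ _).symm (Eq.trans (congrArg (fun φ => φ ≫
    (Aff κ X).hom) hu) (Eq.trans (Category.assoc _ _ _) ?_))
  exact (congrArg (fun φ => j.left ≫ φ) (Over.w (Aff.sec a))).trans (Over.w j)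

end Fam

section coord

variable (k : Type) [Field k] [Algebra k₀ k] (κ : Type)

/-- The homogeneous coordinates of projective space. -/
noncomputable def pCoord : Coord (PSo.str k₀ k κ).left κ := psCoord k κ

variable {k κ}

/-- The homogeneous coordinates of a subscheme of projective space. -/
noncomputable def eCoord {X : Sch k₀} (x : X ⟶ pt k₀ k) (e : X ⟶ PSo k₀ k κ)
    (he : e ≫ PSo.str k₀ k κ = x) (hm : Mono e.left) : Coord x.left κ :=
  (psCoord k κ).comap e.left x.left (𝟙 _) (by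
    subst he
    exact (Category.comp_id _).symm) fun _ _ _ h _ => (cancel_mono e.left).1 h

/-- The morphism from the universal hyperplane section of `X` to the one of projective space. -/
noncomputable def Fam.map {X : Sch k₀} (x : X ⟶ pt k₀ k) [Fintype κ] (e : X ⟶ PSo k₀ k κ)
    (he : e ≫ PSo.str k₀ k κ = x) (hm : Mono e.left) :
    Fam (eCoord x e he hm) ⟶ Fam (pCoord k κ) :=
  Over.homMk ((psCoord k κ).mapI e.left x.left (𝟙 _) (by
    subst he
    exact (Category.comp_id _).symm) fun _ _ _ h _ => (cancel_mono e.left).1 h) (by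
    have h1 := (psCoord k κ).mapI_inc e.left x.left (𝟙 _) (by
      subst he
      exact (Category.comp_id _).symm) fun _ _ _ h _ => (cancel_mono e.left).1 h
    refine Eq.trans (Category.assoc _ _ _).symm (Eq.trans (congrArg (fun φ => φ ≫
      (Aff κ (PSo k₀ k κ)).hom) h1) ?_)
    refine Eq.trans (Category.assoc _ _ _) (congrArg (fun φ => _ ≫ φ) ?_)
    exact Over.w (Aff.map κ e))

theorem Fam.isPullback_map {X : Sch k₀} (x : X ⟶ pt k₀ k) [Fintype κ] (e : X ⟶ PSo k₀ k κ)
    (he : e ≫ PSo.str k₀ k κ = x) (hm : Mono e.left) :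
    IsPullback (Fam.map x e he hm) (Fam.inc (eCoord x e he hm)) (Fam.inc (pCoord k κ))
      (Aff.map κ e) :=
  over_isPullback _ _ _ _ ((psCoord k κ).isPullback_inc e.left x.left (𝟙 _) (by
    subst he
    exact (Category.comp_id _).symm) fun _ _ _ h _ => (cancel_mono e.left).1 h)

end coord

end Pool.Agent.Lib.MP_4ca46c_ag.Std
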