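import Mathlib

/-!
# Specification: smoothness of the generic hyperplane section (any characteristic)

`A` is the coordinate ring of an affine chart of a smooth projective variety over `k`, generated
by the functions `g j = x_j / x_i`; `F = k(t_j)`; the generic hyperplane section is
`∑ t_j g j = 0` in `F ⊗ A`. It is smooth over `F` by a count of transcendence degrees.
-/

namespace Pool.Agent.Lib.MP_4ca46c_ag.Std

open TensorProduct

/-- `S` is locally standard smooth of relative dimension `n` over `R`. -/
def LocSm (n : ℕ) (R S : Type) [CommRing R] [CommRing S] [Algebra R S] : Prop :=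
  ∀ (q : Ideal S), q.IsPrime → ∃ b, b ∉ q ∧
    Algebra.IsStandardSmoothOfRelativeDimension n R (Localization.Away b)

/-- PROOF. Elements of a field extension which are algebraically independent over `k` and
algebraic over `k(S)` are at most as many as the elements of `S` (transcendence degree;
`Mathlib/RingTheory/AlgebraicIndependent`). -/
def StCard : Prop := ∀ (k E ι : Type) [Field k] [Field E] [Algebra k E] [Fintype ι]
  (S : Finset E) (x : ι → E), AlgebraicIndependent k x →
  (∀ i, IsAlgebraic (IntermediateField.adjoin k (S : Set E)) (x i)) →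
  Fintype.card ι ≤ S.card

/-- **Dimension count.** `E` is a field (the residue field at a point of the section), `t j` are
the images of the parameters.

PROOF. Let `L ⊆ E` be the field generated over `k` by the images `g j` (the fraction field of
the image of `A`), `V_L = L ⊗_A Ω[A/k]`, so `E ⊗_A Ω = E ⊗_L V_L`. `V_L` is spanned over `L` by the
`1 ⊗ d(g j)` (`A` is generated by the `g j`). Choose `J₀ ⊆ κ` such that `1 ⊗ d(g m)`, `m ∈ J₀`, is a
basis of `V_L`, and write `1 ⊗ d(g j) = ∑_(m ∈ J₀) c_jm (1 ⊗ d(g m))` with `c_jm ∈ L`. We have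
`i ∉ J₀` as `d(g i) = d 1 = 0`. The second relation gives for `m ∈ J₀`:
`t m = - ∑_(j ∉ J₀) t j c_jm`, where the term `j = i` is zero (`c_im = 0`), and the first one
gives `t i = - ∑_(j ≠ i) t j g j`. So with `J₁ = κ \ (J₀ ∪ {i})` all the `t j` lie in the field
`L(t j : j ∈ J₁)`. Let `M = k(g m : m ∈ J₀) ⊆ L`. `L` is finitely generated over `M` and
`Ω[L/M] = 0`: it is a quotient of `L ⊗_A Ω[A/k]` (as `L` is a localization of a quotient of `A`)
in which the `d(g m)`, `m ∈ J₀`, vanish. So `L/M` is separable algebraic
(`Algebra.FormallyUnramified.iff_isSeparable`, `EssFiniteType`). Hence all the `t j` are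
algebraic over `k(S)` with `S = {g m : m ∈ J₀} ∪ {t j : j ∈ J₁}`, `|S| ≤ |κ| - 1`. This
contradicts `StCard`. -/
def StPt : Prop := ∀ (k A E κ : Type) [Field k] [CommRing A] [Algebra k A] [Field E]
  [Algebra k E] [Algebra A E] [IsScalarTower k A E] [Fintype κ] (g : κ → A) (i : κ) (t : κ → E),
  g i = 1 → Algebra.adjoin k (Set.range g) = ⊤ → AlgebraicIndependent k t →
  ∑ j, t j * algebraMap A E (g j) = 0 →
  ∑ j, t j • ((1 : E) ⊗ₜ[A] KaehlerDifferential.D k A (g j)) = 0 → False

/-- **Jacobian criterion for a hypersurface.**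

PROOF. `Ω = Ω[B/F]` is free with a basis `b_1..b_(n+1)`; `D f = ∑ φ_m b_m`, and some `φ_m` is not
in `q` (otherwise `1 ⊗ D f = 0`). Put `C = B / (f)`. The conormal sequence
`(f)/(f^2) → C ⊗_B Ω → Ω[C/F] → 0`; after inverting `φ_m` the first map, from the module generated
by the class of `f` with annihilator containing `(f)`, followed by the coordinate
`C ⊗ Ω → C` is `f ↦ φ_m`, so it is split injective (a generator goes to a unit), and `C` is
formally smooth over `F` near `q` (`Algebra.FormallySmooth.iff_split_injection`), and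
`Ω[C_b/F]` is free of rank `n` (basis `b_l`, `l ≠ m`). So `C` is smooth near `q`, and standard
smooth after shrinking (`Algebra.IsSmoothAt.exists_notMem_isStandardSmooth`), of relative
dimension `n` because of the rank of `Ω`
(`IsStandardSmoothOfRelativeDimension.iff_of_isStandardSmooth`). -/
def StJac : Prop := ∀ (F B : Type) [Field F] [CommRing B] [Algebra F B] (n : ℕ)
  [Algebra.IsStandardSmoothOfRelativeDimension (n + 1) F B] (f : B) (q : Ideal B) [q.IsPrime],
  f ∈ q → (1 : q.ResidueField) ⊗ₜ[B] KaehlerDifferential.D F B f ≠ 0 →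
  ∃ b, b ∉ q ∧ Algebra.IsStandardSmoothOfRelativeDimension n F
    (Localization.Away (Ideal.Quotient.mk (Ideal.span {f}) b))

/-- **Bertini for the generic hyperplane section.**

PROOF. A prime of `C = (F ⊗ A) / (f)` is the image of a prime `q` of `B = F ⊗_k A` with `f ∈ q`. Let
`p` be its inverse image in `A` and `a ∉ p` with `A_a` standard smooth of relative dimension
`n + 1`; then `B_(1 ⊗ a) = F ⊗ A_a` is standard smooth of relative dimension `n + 1` over `F`. By
`StPt` for `E = κ(q)`, `t j` the image of `X j` (algebraically independent over `k`, since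
`k[X] → F → κ(q)` is injective) the element `1 ⊗ D f` of
`κ(q) ⊗_B Ω[B/F] = κ(q) ⊗_A Ω[A/k]` (base change of differentials,
`KaehlerDifferential.tensorKaehlerEquiv`) is not zero: `D f = ∑ X j ⊗ D(g j)`, and
`∑ t j g j = 0` because `f ∈ q`. So `StJac` for `B_(1 ⊗ a)` gives the assertion (localizations of
localizations are localizations). -/
def StBert : Prop := ∀ (k A F κ : Type) [Field k] [CommRing A] [Algebra k A] [Fintype κ]
  [Field F] [Algebra (MvPolynomial κ k) F] [IsFractionRing (MvPolynomial κ k) F] [Algebra k F]
  [IsScalarTower k (MvPolynomial κ k) F] (n : ℕ) (g : κ → A) (i : κ),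
  g i = 1 → Algebra.adjoin k (Set.range g) = ⊤ → LocSm (n + 1) k A →
  LocSm n F ((F ⊗[k] A) ⧸ Ideal.span
    {∑ j, (algebraMap (MvPolynomial κ k) F (MvPolynomial.X j)) ⊗ₜ[k] (g j)})

end Pool.Agent.Lib.MP_4ca46c_ag.Std
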