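import Mathlib
import Pool.Agent.Lib.MP_4ca46c_ag.Std.Aff
import Pool.Agent.Lib.MP_4ca46c_ag.Std.BertSpec

/-!
# Specification: the classes of hyperplane sections

`T` is a theory with the further properties `Extra T`. `hypClass T k i` is the class of the
hyperplane `x_i = 0`, `Fam C ⟶ Aff κ X` the universal hyperplane section `∑ a_j x_j = 0` of `X`.
-/

namespace Pool.Agent.Lib.MP_4ca46c_ag.Std

open CategoryTheory Limits AlgebraicGeometry TensorProduct
open Pool.Agent.Lib.MP_4ca46c_ag.Sign Pool.Agent.Lib.MP_4ca46c_ag.Hyp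

/-- The coordinate vector `(0, .., 1, .., 0)`. -/
noncomputable def unitVec {κ : Type} (X : Scheme.{0}) (i : κ) : κ → Γ(X, ⊤) :=
  open Classical in fun j => if j = i then 1 else 0

section Geometry

/-- Affine spaces and universal hyperplane sections are smooth.

PROOF. `IsAffineBundle (𝔸(κ; X) ↘ X)`: take `V = ⊤` (or any `V`), `m = card κ`, and
`reindexIso` (`Hyp/Bundle.lean`), `AffineSpace.isPullback_map`. Smoothness of relative dimension
`card κ` of the affine space: as `sms_affine` in `Sign/SmS.lean` (reduce to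
`MvPolynomial`, `Algebra.IsStandardSmoothOfRelativeDimension` for polynomial rings). `Fam C ⟶ X` is
an affine bundle with fibres of dimension `card κ - 1` (`Coord.toZ_prop`, `Coord.toZ_bundle`,
`Hyp/ToZ.lean`). Compositions of `SmoothOfRelativeDimension`: Mathlib instance. `IsSm` of a
composition: affine morphisms are separated and quasi-compact. -/
def StAffSm : Prop := ∀ (k₀ k : Type) [Field k₀] [Field k] [Algebra k₀ k] (X : Sch k₀)
  (x : X ⟶ pt k₀ k) (κ : Type) [Fintype κ] (n N : ℕ), IsSm x →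
  SmoothOfRelativeDimension n x.left → Fintype.card κ = N + 1 →
  IsAffineBundle (Aff.pr κ X).left ∧ IsSm (Aff.pr κ X ≫ x) ∧
  SmoothOfRelativeDimension (n + N + 1) (Aff.pr κ X ≫ x).left ∧
  ∀ (C : Coord x.left κ), IsSm (Fam.inc C ≫ Aff.pr κ X ≫ x) ∧
    SmoothOfRelativeDimension (n + N) (Fam.inc C ≫ Aff.pr κ X ≫ x).left

/-- Projective space is a smooth proper variety. -/
def StPS : Prop := ∀ (k₀ k : Type) [Field k₀] [Field k] [Algebra k₀ k] [IsAlgClosed k] (κ : Type)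
  [Fintype κ] (N : ℕ), Fintype.card κ = N + 1 → IsVar (PSo.str k₀ k κ) N

/-- Hyperplanes. -/
def StHyp : Prop := ∀ (k₀ k : Type) [Field k₀] [Field k] [Algebra k₀ k] (κ : Type)
  [Fintype κ] (i : κ), IsClosedImmersion (PSo.hyp k₀ k κ i).left ∧
  ∃ u, IsPullback u (PSo.hyp k₀ k κ i) (Fam.inc (pCoord k κ))
    (Aff.sec (unitVec (PSo k₀ k κ).left i))

/-- The Segre embedding. `s₁` is `y ↦ (e_i, y)`, `s₂` is `x ↦ (x, e_a)`. -/
def StSegreGeo : Prop := ∀ (k₀ k : Type) [Field k₀] [Field k] [Algebra k₀ k] (κ κ' : Type)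
  [Fintype κ] [Fintype κ'], ∃ σ : pullback (PSo.str k₀ k κ) (PSo.str k₀ k κ') ⟶
    PSo k₀ k (κ × κ'), IsClosedImmersion σ.left ∧
    σ ≫ PSo.str k₀ k (κ × κ') = pullback.fst _ _ ≫ PSo.str k₀ k κ ∧
  ∀ (i : κ) (a : κ'),
    (∃ (s : PSo k₀ k κ' ⟶ pullback (PSo.str k₀ k κ) (PSo.str k₀ k κ'))
      (p : pt k₀ k ⟶ PSo k₀ k κ) (u : PSo k₀ k {b // b ≠ a} ⟶ PSo k₀ k {b // b ≠ (i, a)}),
      s ≫ pullback.snd _ _ = 𝟙 _ ∧ s ≫ pullback.fst _ _ = PSo.str k₀ k κ' ≫ p ∧
      (∀ z, p.left z ∉ Set.range (PSo.hyp k₀ k κ i).left) ∧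
      IsPullback u (PSo.hyp k₀ k κ' a) (PSo.hyp k₀ k (κ × κ') (i, a)) (s ≫ σ)) ∧
    (∃ (s : PSo k₀ k κ ⟶ pullback (PSo.str k₀ k κ) (PSo.str k₀ k κ'))
      (p : pt k₀ k ⟶ PSo k₀ k κ') (u : PSo k₀ k {b // b ≠ i} ⟶ PSo k₀ k {b // b ≠ (i, a)}),
      s ≫ pullback.fst _ _ = 𝟙 _ ∧ s ≫ pullback.snd _ _ = PSo.str k₀ k κ ≫ p ∧
      (∀ z, p.left z ∉ Set.range (PSo.hyp k₀ k κ' a).left) ∧
      IsPullback u (PSo.hyp k₀ k κ i) (PSo.hyp k₀ k (κ × κ') (i, a)) (s ≫ σ))

/-- The open set `D_i × P'` is an affine bundle over `P'`. -/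
def StDi : Prop := ∀ (k₀ k : Type) [Field k₀] [Field k] [Algebra k₀ k] (κ : Type)
  [Fintype κ] (X : Sch k₀) (x : X ⟶ pt k₀ k) (i : κ), ∃ (D : Sch k₀)
  (j : D ⟶ pullback (PSo.str k₀ k κ) x),
  IsComplement (pullback.map (PSo.str k₀ k {j // j ≠ i}) x (PSo.str k₀ k κ) x
    (PSo.hyp k₀ k κ i) (𝟙 X) (𝟙 _) (by rw [PSo.hyp_str, Category.comp_id])
      (by rw [Category.id_comp, Category.comp_id])) j ∧
  IsAffineBundle (j ≫ pullback.snd _ _).left

end Geometry

section Chow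

variable (k₀ K : Type) [Field k₀] [Field K]

/-- Cycles which do not meet.

PROOF. Let `j : U ⟶ Y` be the complement of the closed immersion `f` (an open subscheme,
`Scheme.Opens.ι`); `g` factors through `j` (`IsOpenImmersion.lift`). `pullback f j` is empty, so
its Chow group is `0` by `E.empty`; by `push_baseChange` (open immersions are flat)
`pull j (push f a) = 0`; `pull g = pull (g₁ ≫ j)`, `pull_comp`. `Sm` of the open subschemes:
`sms_open` (`Sign/SmS.lean`). -/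
def StDisjoint : Prop := ∀ (T : WeilTheory k₀ K), Extra T → ∀ (F : Type) [Field F] [Algebra k₀ F]
  (X Y Y' : Sch k₀) (f : X ⟶ Y) (g : Y' ⟶ Y) (y : Y ⟶ pt k₀ F), IsSm y → IsSm (f ≫ y) → Sm Y' →
  IsClosedImmersion f.left → (∀ z, g.left z ∉ Set.range f.left) →
  ∀ a, T.pull g (T.push f a) = 0

/-- **The class of the universal hyperplane section of projective space.**

PROOF. Let `N = card κ - 1 = M + 1`, `P = PSo k₀ k κ`. `push inc 1` has codimension `1`
(`push_mem` with dimensions `2N`, `2N + 1`; `StAffSm`), so it is `pull pr b` by homotopy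
invariance (`pull_surjective_of_affineBundle`). For the section `s = Aff.sec (unitVec i)` of `pr`:
`b = pull s (pull pr b) = pull s (push inc 1) = push hyp (pull u 1) = hypClass T k i` by
`E.transversal` and the square in `StHyp` (dimensions: `N - 1 = M` for `PSo {j // j ≠ i}` by
`StPS`, `2N`, `N`, `2N + 1`); `pull_comp`, `pull_id`, `Aff.sec_pr`. -/
def StUnivP : Prop := ∀ (T : WeilTheory k₀ K), Extra T → ∀ (k : Type) [Field k] [Algebra k₀ k]
  [IsAlgClosed k] (κ : Type) [Fintype κ] [Nontrivial κ] (i : κ),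
  T.push (Fam.inc (pCoord k κ)) 1 = T.pull (Aff.pr κ (PSo k₀ k κ)) (hypClass T k i)

/-- **The class of the universal hyperplane section of `X`.**

PROOF. `E.transversal` for the square `Fam.isPullback_map` (`Std/Aff.lean`), `g = Aff.map κ e`:
dimensions `2N` (`Fam pCoord`), `2N + 1` (`Aff P`), `n + N` (`Fam C`), `n + N + 1` (`Aff X`), by
`StAffSm`. Then `StUnivP`, `Aff.map_pr`, `pull_comp`. -/
def StUnivX : Prop := ∀ (T : WeilTheory k₀ K), Extra T → ∀ (k : Type) [Field k] [Algebra k₀ k]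
  [IsAlgClosed k] (κ : Type) [Fintype κ] [Nontrivial κ] (i : κ) (X : Sch k₀) (x : X ⟶ pt k₀ k)
  (n : ℕ) (e : X ⟶ PSo k₀ k κ) (he : e ≫ PSo.str k₀ k κ = x), IsVar x n →
  ∀ (hc : IsClosedImmersion e.left),
  T.push (Fam.inc (eCoord x e he inferInstance)) 1 =
    T.pull (Aff.pr κ X) (T.pull e (hypClass T k i))

/-- **The class of the generic hyperplane section.**

PROOF. Let `XF = pullback x (ptMap k F)` (in `Sch k₀`), `zF : XF ⟶ pt F`, `zX : XF ⟶ X`. Let
`gA : XF ⟶ Aff κ X` be given by `zF ≫ spG` and `zX` (`Aff.isPullback_toSp`; `spG_spB`); the square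
`gA`, `zF`, `Aff.toSp κ x`, `spG` is cartesian (pasting). `i₀ : Y₀ ⟶ XF` with
`i₀ ≫ gA = toI ≫ Fam.inc C`, `i₀ ≫ zF = y₀`; the square `toI`, `i₀`, `Fam.inc C`, `gA` is cartesian
(pasting with `fibre`). `gA` is flat (base change of a localization), so
`push i₀ 1 = pull gA (push (Fam.inc C) 1) = pull (gA ≫ pr) h = pull zX h` (`push_baseChange`,
`StUnivX`), `h = pull e (hypClass T k i)`. Likewise for `L`: `XL = pullback x (ptMap k L)`,
`gL : XL ⟶ XF`, `j : Y ⟶ XL` (cartesian over `i₀`): `push j 1 = pull g h`, `g : XL ⟶ X`.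
`XL ⟶ pt L` is `IsVar _ n` (base change: smooth, proper and geometrically connected morphisms are
stable). (1): if `Y₀` is empty, `push i₀ 1 = 0` (`E.empty`), so `pull g h = 0` and
`pullH g (cl h) = 0`, `tr (cl h * v) = tr (pullH g (cl h * v)) = 0` for all `v` (`E.tr_field`), so
`cl h = 0` by Poincaré duality, and hard Lefschetz (`E.lefschetz`, `j = n = m + 1`, `u = 1`) gives
`1 = 0` in `H(X)`; a rational point (`IsVar.exists_point`) and `tr_pt` give a contradiction.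
(2): `tr (pullH j v) = tr (cl (push j 1) * v)` (`cl_push`), for `v = pullH g z` this is
`tr (pullH g (cl h * z)) = tr (cl h * z)`. -/
def StGenClass : Prop := ∀ (T : WeilTheory k₀ K), Extra T → ∀ (k : Type) [Field k] [Algebra k₀ k]
  [IsAlgClosed k] (κ : Type) [Fintype κ] [Nontrivial κ] (i : κ) (X : Sch k₀) (x : X ⟶ pt k₀ k)
  (m : ℕ) (e : X ⟶ PSo k₀ k κ) (he : e ≫ PSo.str k₀ k κ = x), IsVar x (m + 1) →
  ∀ (hc : IsClosedImmersion e.left) (F : Type) [Field F] [Algebra k₀ F] [Algebra k F]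
  [Algebra (MvPolynomial κ k) F] [IsScalarTower k₀ (MvPolynomial κ k) F]
  [IsScalarTower k (MvPolynomial κ k) F] [IsScalarTower k₀ k F]
  [IsFractionRing (MvPolynomial κ k) F] (Y₀ : Sch k₀) (y₀ : Y₀ ⟶ pt k₀ F)
  (toI : Y₀ ⟶ Fam (eCoord x e he inferInstance)),
  IsPullback toI y₀ (Fam.inc (eCoord x e he inferInstance) ≫ Aff.toSp κ x)
    (spG k₀ (MvPolynomial κ k) F) → IsSm y₀ → SmoothOfRelativeDimension m y₀.left →
  ∀ (L : Type) [Field L] [Algebra k₀ L] [Algebra F L] [IsScalarTower k₀ F L] [IsAlgClosure F L]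
  (Y : Sch k₀) (y : Y ⟶ pt k₀ L) (p : Y ⟶ Y₀),
  IsPullback p y y₀ (ptMap k₀ (IsScalarTower.toAlgHom k₀ F L)) →
  Nonempty Y₀.left ∧ (IsVar y m → ∀ z,
    T.tr Y (T.pullH (p ≫ toI ≫ Fam.inc (eCoord x e he inferInstance) ≫ Aff.pr κ X) z) =
      T.tr X (T.cl X (T.pull e (hypClass T k i)) * z))

/-- **Divisors on `ℙ × ℙ'`.**

PROOF. Let `P = PSo κ`, `P' = PSo κ'`, `Q = P × P'`, `h_i = hypClass T k i`. Let `D`, `j` be as in
`StDi` for `X = P'`, and `t : H × P' ⟶ Q` the closed immersion of that statement,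
`H = PSo {j // j ≠ i}`. `pull j a = pull (j ≫ snd) b = pull j (pull snd b)` by homotopy
invariance, `b ∈ CH^1(P')`. So `a - pull snd b` restricts to `0` on `D`, and by localization
(`c = 1`, `p = 0`) it is `push t b'`, `b' ∈ CH^0(H × P')`, `b' = q • 1` (`codim_zero`; `H × P'` is
connected, `Var.isVar_prod`, `StPS`). `push t 1 = pull fst h_i` by flat base change (the square
`fst : H × P' ⟶ H`, `t`, `hyp`, `fst : Q ⟶ P` is cartesian). -/
def StPicProd : Prop := ∀ (T : WeilTheory k₀ K), Extra T → ∀ (k : Type) [Field k] [Algebra k₀ k]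
  [IsAlgClosed k] (κ κ' : Type) [Fintype κ] [Nontrivial κ] [Fintype κ'] [Nontrivial κ'] (i : κ),
  ∀ a ∈ T.codim (pullback (PSo.str k₀ k κ) (PSo.str k₀ k κ')) 1, ∃ (q : ℚ),
    ∃ b ∈ T.codim (PSo k₀ k κ') 1,
      a = T.pull (pullback.snd _ _) b + q • T.pull (pullback.fst _ _) (hypClass T k i)

/-- **The class of a hyperplane under the Segre embedding.**

PROOF. Let `a₀ = pull σ (hypClass (i, a))`, `a₀ = pull snd b + q • pull fst h_i` by `StPicProd`.
Pull back along `s₁ = s : P' ⟶ P × P'`: `pull s₁ (pull fst h_i) = pull str (pull p h_i) = 0` by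
`StDisjoint` (`p` does not meet the hyperplane `x_i = 0`); `pull s₁ (pull snd b) = b`; and
`pull s₁ a₀ = pull (s₁ ≫ σ) (push hyp_(i,a) 1) = push hyp_a 1 = h_a` by `E.transversal` for the
square in the hypothesis (dimensions `card κ' - 2`, `card κ' - 1`, `card κ * card κ' - 2`,
`card κ * card κ' - 1`). So `b = h_a`. Pull back along `s₂`: `h_i = q • h_i + 0`. Hence
`a₀ = pull snd h_a + pull fst (q • h_i) = pull snd h_a + pull fst h_i`. -/
def StSegre : Prop := ∀ (T : WeilTheory k₀ K), Extra T → ∀ (k : Type) [Field k] [Algebra k₀ k]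
  [IsAlgClosed k] (κ κ' : Type) [Fintype κ] [Nontrivial κ] [Fintype κ'] [Nontrivial κ'] (i : κ)
  (a : κ') (σ : pullback (PSo.str k₀ k κ) (PSo.str k₀ k κ') ⟶ PSo k₀ k (κ × κ')),
  σ ≫ PSo.str k₀ k (κ × κ') = pullback.fst _ _ ≫ PSo.str k₀ k κ →
  (∃ (s : PSo k₀ k κ' ⟶ pullback (PSo.str k₀ k κ) (PSo.str k₀ k κ'))
      (p : pt k₀ k ⟶ PSo k₀ k κ) (u : PSo k₀ k {b // b ≠ a} ⟶ PSo k₀ k {b // b ≠ (i, a)}),
      s ≫ pullback.snd _ _ = 𝟙 _ ∧ s ≫ pullback.fst _ _ = PSo.str k₀ k κ' ≫ p ∧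
      (∀ z, p.left z ∉ Set.range (PSo.hyp k₀ k κ i).left) ∧
      IsPullback u (PSo.hyp k₀ k κ' a) (PSo.hyp k₀ k (κ × κ') (i, a)) (s ≫ σ)) →
  (∃ (s : PSo k₀ k κ ⟶ pullback (PSo.str k₀ k κ) (PSo.str k₀ k κ'))
      (p : pt k₀ k ⟶ PSo k₀ k κ') (u : PSo k₀ k {b // b ≠ i} ⟶ PSo k₀ k {b // b ≠ (i, a)}),
      s ≫ pullback.fst _ _ = 𝟙 _ ∧ s ≫ pullback.snd _ _ = PSo.str k₀ k κ ≫ p ∧
      (∀ z, p.left z ∉ Set.range (PSo.hyp k₀ k κ' a).left) ∧
      IsPullback u (PSo.hyp k₀ k κ i) (PSo.hyp k₀ k (κ × κ') (i, a)) (s ≫ σ)) →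
  T.pull σ (hypClass T k (i, a)) = T.pull (pullback.fst _ _) (hypClass T k i) +
    T.pull (pullback.snd _ _) (hypClass T k a)

end Chow

section Smooth

/-- PROOF. Cover `Spec B` by the basic opens `D(b)` where `B_b` is standard smooth of relative
dimension `n`; `SmoothOfRelativeDimension n` is local on the source
(`HasRingHomProperty`, `Locally`). -/
def StLocSm₁ : Prop := ∀ (F B : Type) [Field F] [CommRing B] [Algebra F B] (n : ℕ),
  LocSm n F B → SmoothOfRelativeDimension n (Spec.map (CommRingCat.ofHom (algebraMap F B)))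

/-- PROOF. For a prime `q` of `Γ(X, U)`, i.e. a point of `U`, the definition of
`SmoothOfRelativeDimension` gives affine neighbourhoods with standard smooth ring map; shrink to
a basic open of `U` (standard smooth algebras localize; `HasRingHomProperty.appLE`,
`RingHom.Locally`). -/
def StLocSm₂ : Prop := ∀ (k : Type) [Field k] (X : Scheme.{0})
  (x : X ⟶ Spec (CommRingCat.of k)) (n : ℕ), SmoothOfRelativeDimension n x →
  ∀ (U : X.Opens), IsAffineOpen U → ∀ [Algebra k Γ(X, U)],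
  (algebraMap k Γ(X, U) = ((Scheme.ΓSpecIso (CommRingCat.of k)).inv ≫ x.appLE ⊤ U (by simp)).hom) →
  LocSm n k Γ(X, U)

end Smooth

end Pool.Agent.Lib.MP_4ca46c_ag.Std
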