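import Mathlib
import Pool.Agent.Lib.MP_4ca46c_ag.Std.ChowSpec
import Pool.Agent.Lib.MP_4ca46c_ag.Hyp.AffSmooth
import Pool.Agent.Lib.MP_4ca46c_ag.Hyp.Bundle
import Pool.Agent.Lib.MP_4ca46c_ag.Hyp.HypCompl
import Pool.Agent.Lib.MP_4ca46c_ag.Sign.SmS

/-!
# Affine spaces and universal hyperplane sections are smooth
-/

namespace Pool.Agent.Lib.MP_4ca46c_ag.Std

open CategoryTheory Limits AlgebraicGeometry TensorProduct
open Pool.Agent.Lib.MP_4ca46c_ag.Sign Pool.Agent.Lib.MP_4ca46c_ag.Hyp

theorem affsm_bundle {κ : Type} [Finite κ] (U : Scheme.{0}) :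
    IsAffineBundle (𝔸(κ; U) ↘ U) :=
  bundle_of_iso (Iso.refl _) (Category.id_comp _)

/-- Compositions with affine morphisms which are smooth of a given relative dimension. -/
theorem affsm_comp {k₀ : Type} [Field k₀] {F : Type} [Field F] [Algebra k₀ F] {E X : Sch k₀}
    (f : E ⟶ X) (x : X ⟶ pt k₀ F) {m n r : ℕ} (hx : IsSm x)
    (hn : SmoothOfRelativeDimension n x.left) (hf : SmoothOfRelativeDimension m f.left)
    (ha : IsAffineHom f.left) (hr : m + n = r) :
    IsSm (f ≫ x) ∧ SmoothOfRelativeDimension r (f ≫ x).left := by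
  subst hr
  have h1 := hx.smooth
  have h2 := hx.separated
  have h3 := hx.quasiCompact
  have h4 : Smooth f.left := hf.smooth
  refine ⟨⟨?_, ?_, ?_⟩, ?_⟩
  · rw [Over.comp_left]; infer_instance
  · rw [Over.comp_left]; infer_instance
  · rw [Over.comp_left]; infer_instance
  · rw [Over.comp_left]; infer_instance

theorem tAffSm : StAffSm := by
  intro k₀ k _ _ _ X x κ _ n N hx hn hN
  have hb : IsAffineBundle (Aff.pr κ X).left := affsm_bundle X.left
  have hs : SmoothOfRelativeDimension (N + 1) (Aff.pr κ X).left :=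
    affine_smooth κ X.left (N + 1) (by rw [Nat.card_eq_fintype_card, hN])
  have ha : IsAffineHom (Aff.pr κ X).left := sms_bundle_affine _ hb
  obtain ⟨h1, h2⟩ := affsm_comp (Aff.pr κ X) x hx hn hs ha
    (show N + 1 + n = n + N + 1 by omega)
  refine ⟨hb, h1, h2, fun C => ?_⟩
  classical
  have hl : (Fam.inc C ≫ Aff.pr κ X).left = C.toZ := rfl
  have hs' : SmoothOfRelativeDimension N (Fam.inc C ≫ Aff.pr κ X).left := by
    rw [hl]
    refine C.toZ_prop (@SmoothOfRelativeDimension N) fun i T => ?_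
    refine affine_smooth _ T N ?_
    rw [Nat.card_eq_fintype_card, Fintype.card_subtype_compl, Fintype.card_subtype_eq, hN]
    rfl
  have ha' : IsAffineHom (Fam.inc C ≫ Aff.pr κ X).left := by
    rw [hl]
    exact C.toZ_prop (@IsAffineHom) fun i T => inferInstance
  have h3 := affsm_comp (Fam.inc C ≫ Aff.pr κ X) x hx hn hs' ha'
    (show N + n = n + N by omega)
  rw [Category.assoc] at h3
  exact h3

end Pool.Agent.Lib.MP_4ca46c_ag.Std
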