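import Pool.Agent.Lib.MP_4ca46c_ag.Std.BertSpec

/-!
# Smoothness of the generic hyperplane section
-/

set_option autoImplicit false

namespace Pool.Agent.Lib.MP_4ca46c_ag.Std

open TensorProduct

/-- localization of a quotient -/
theorem bert_loc {F B B' : Type} [CommRing F] [CommRing B] [Algebra F B] [CommRing B']
    [Algebra F B'] [Algebra B B'] [IsScalarTower F B B'] (s : B) [IsLocalization.Away s B']
    (f : B) (n : ℕ) (b' : B')
    (h : Algebra.IsStandardSmoothOfRelativeDimension n F (Localization.Away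
      (Ideal.Quotient.mk (Ideal.span {algebraMap B B' f}) b'))) :
    ∃ (r : B) (N : ℕ), algebraMap B B' r = b' * algebraMap B B' s ^ N ∧
      Algebra.IsStandardSmoothOfRelativeDimension n F (Localization.Away
        (Ideal.Quotient.mk (Ideal.span {f}) s * Ideal.Quotient.mk (Ideal.span {f}) r)) := by
  obtain ⟨N, r, hr⟩ := IsLocalization.Away.surj s b'
  refine ⟨r, N, hr.symm, ?_⟩
  have hle : Ideal.span {f} ≤ (Ideal.span {algebraMap B B' f}).comap (algebraMap B B') := by
    rw [Ideal.span_le, Set.singleton_subset_iff]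
    exact Ideal.subset_span rfl
  let : Algebra (B ⧸ Ideal.span {f}) (B' ⧸ Ideal.span {algebraMap B B' f}) :=
    (Ideal.quotientMap _ (algebraMap B B') hle).toAlgebra
  have hmk : ∀ x : B, algebraMap (B ⧸ Ideal.span {f}) (B' ⧸ Ideal.span {algebraMap B B' f})
      (Ideal.Quotient.mk _ x) = Ideal.Quotient.mk _ (algebraMap B B' x) := fun x =>
    Ideal.quotientMap_mk
  have hloc : IsLocalization ((Submonoid.powers s).map (Ideal.Quotient.mk (Ideal.span {f})))
      (B' ⧸ Ideal.span {algebraMap B B' f}) := by
    refine IsLocalization.of_surjective (Submonoid.powers s) B' (Ideal.Quotient.mk (Ideal.span {f}))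
      Ideal.Quotient.mk_surjective (Ideal.Quotient.mk (Ideal.span {algebraMap B B' f}))
      Ideal.Quotient.mk_surjective ?_ ?_
    · ext x
      exact (hmk x).symm
    · rw [Ideal.mk_ker, Ideal.mk_ker, Ideal.map_span, Set.image_singleton]
  rw [Submonoid.map_powers] at hloc
  have hloc' : IsLocalization.Away (Ideal.Quotient.mk (Ideal.span {f}) s)
      (B' ⧸ Ideal.span {algebraMap B B' f}) := hloc
  let y := Ideal.Quotient.mk (Ideal.span {algebraMap B B' f}) b'
  have h1 : IsScalarTower (B ⧸ Ideal.span {f}) (B' ⧸ Ideal.span {algebraMap B B' f})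
      (Localization.Away y) := inferInstance
  have h2 : IsScalarTower F (B ⧸ Ideal.span {f}) (B' ⧸ Ideal.span {algebraMap B B' f}) := by
    refine IsScalarTower.of_algebraMap_eq fun x => ?_
    rw [IsScalarTower.algebraMap_apply F B (B ⧸ Ideal.span {f}), Ideal.Quotient.algebraMap_eq,
      hmk, ← IsScalarTower.algebraMap_apply F B B',
      IsScalarTower.algebraMap_apply F B' (B' ⧸ Ideal.span {algebraMap B B' f}),
      Ideal.Quotient.algebraMap_eq]
  have h3 : IsScalarTower F (B ⧸ Ideal.span {f}) (Localization.Away y) := by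
    refine IsScalarTower.of_algebraMap_eq fun x => ?_
    rw [IsScalarTower.algebraMap_apply F (B' ⧸ Ideal.span {algebraMap B B' f})
      (Localization.Away y), IsScalarTower.algebraMap_apply F (B ⧸ Ideal.span {f})
      (B' ⧸ Ideal.span {algebraMap B B' f}), ← IsScalarTower.algebraMap_apply]
  have hass : Associated (algebraMap (B ⧸ Ideal.span {f}) (B' ⧸ Ideal.span {algebraMap B B' f})
      (Ideal.Quotient.mk (Ideal.span {f}) r)) y := by
    rw [hmk, ← hr, map_mul, map_pow, ← hmk]
    have hu : IsUnit (algebraMap (B ⧸ Ideal.span {f}) (B' ⧸ Ideal.span {algebraMap B B' f})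
        (Ideal.Quotient.mk (Ideal.span {f}) s) ^ N) :=
      (IsLocalization.Away.algebraMap_isUnit _).pow N
    exact (associated_mul_unit_left _ _ hu)
  have h4 : IsLocalization.Away
      (Ideal.Quotient.mk (Ideal.span {f}) s * Ideal.Quotient.mk (Ideal.span {f}) r)
      (Localization.Away y) :=
    IsLocalization.Away.mul_of_associated _ _ y hass
  have e := (IsLocalization.algEquiv (Submonoid.powers
    (Ideal.Quotient.mk (Ideal.span {f}) s * Ideal.Quotient.mk (Ideal.span {f}) r))
    (Localization.Away y) (Localization.Away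
    (Ideal.Quotient.mk (Ideal.span {f}) s * Ideal.Quotient.mk (Ideal.span {f}) r))).restrictScalars F
  exact Algebra.IsStandardSmoothOfRelativeDimension.of_algEquiv (n := n) e

/-- ring homomorphisms from `F ⊗ A_a` -/
theorem bert_lift {k A F T : Type} [Field k] [CommRing A] [Algebra k A] [Field F] [Algebra k F]
    [CommRing T] (a : A) (φF : F →+* T) (φA : A →+* T)
    (hk : ∀ c : k, φF (algebraMap k F c) = φA (algebraMap k A c)) (hu : IsUnit (φA a)) :
    ∃ θ : F ⊗[k] Localization.Away a →+* T, (∀ x, θ (x ⊗ₜ 1) = φF x) ∧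
      ∀ y, θ (1 ⊗ₜ algebraMap A (Localization.Away a) y) = φA y := by
  let : Algebra k T := (φF.comp (algebraMap k F)).toAlgebra
  let ψF : F →ₐ[k] T := { φF with commutes' := fun c => rfl }
  let ψA : Localization.Away a →ₐ[k] T :=
    { IsLocalization.Away.lift a hu with
      commutes' := by
        intro c
        change IsLocalization.Away.lift a hu (algebraMap k (Localization.Away a) c) = _
        rw [IsScalarTower.algebraMap_apply k A (Localization.Away a), IsLocalization.Away.lift_eq,
          ← hk]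
        rfl }
  refine ⟨(Algebra.TensorProduct.lift ψF ψA fun x y => Commute.all _ _ :
    F ⊗[k] Localization.Away a →ₐ[k] T), fun x => ?_, fun y => ?_⟩
  · change Algebra.TensorProduct.lift ψF ψA (fun x y => Commute.all _ _) (x ⊗ₜ 1) = _
    rw [Algebra.TensorProduct.lift_tmul, map_one, mul_one]
    rfl
  · change Algebra.TensorProduct.lift ψF ψA (fun x y => Commute.all _ _)
      (1 ⊗ₜ algebraMap A (Localization.Away a) y) = _
    rw [Algebra.TensorProduct.lift_tmul, map_one, one_mul]
    exact IsLocalization.Away.lift_eq a hu y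

/-- two ring homomorphisms from `F ⊗ A_a` -/
theorem bert_ext {k A F T : Type} [Field k] [CommRing A] [Algebra k A] [Field F] [Algebra k F]
    [CommRing T] (a : A) (θ θ' : F ⊗[k] Localization.Away a →+* T)
    (h1 : ∀ x, θ (x ⊗ₜ 1) = θ' (x ⊗ₜ 1))
    (h2 : ∀ y, θ (1 ⊗ₜ algebraMap A (Localization.Away a) y) =
      θ' (1 ⊗ₜ algebraMap A (Localization.Away a) y)) : θ = θ' := by
  have h3 : θ.comp (Algebra.TensorProduct.includeRight :
      Localization.Away a →ₐ[k] F ⊗[k] Localization.Away a).toRingHom =
      θ'.comp (Algebra.TensorProduct.includeRight :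
      Localization.Away a →ₐ[k] F ⊗[k] Localization.Away a).toRingHom := by
    apply IsLocalization.ringHom_ext (Submonoid.powers a)
    ext y
    exact h2 y
  refine RingHom.ext fun b => ?_
  induction b using TensorProduct.induction_on with
  | zero => rw [map_zero, map_zero]
  | add x y hx hy => rw [map_add, map_add, hx, hy]
  | tmul x y =>
    have h4 : x ⊗ₜ[k] y = (x ⊗ₜ[k] (1 : Localization.Away a)) * ((1 : F) ⊗ₜ[k] y) := by
      rw [Algebra.TensorProduct.tmul_mul_tmul, one_mul, mul_one]
    rw [h4, map_mul, map_mul, h1]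
    congr 1
    exact RingHom.congr_fun h3 y

/-- derivations of `A` and differentials of `F ⊗ A_a` -/
theorem bert_deriv {k A F E W κ : Type} [Field k] [CommRing A] [Algebra k A] [Field F]
    [Algebra k F] [Fintype κ] (a : A) [Field E] [Algebra (F ⊗[k] Localization.Away a) E]
    [AddCommGroup W] [Module E W] (d : A →+ W)
    (hd : ∀ y z, d (y * z) =
      algebraMap (F ⊗[k] Localization.Away a) E (1 ⊗ₜ algebraMap A (Localization.Away a) y) • d z +
      algebraMap (F ⊗[k] Localization.Away a) E (1 ⊗ₜ algebraMap A (Localization.Away a) z) • d y)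
    (hk : ∀ c, d (algebraMap k A c) = 0) (c : κ → F) (g : κ → A)
    (h : (1 : E) ⊗ₜ[F ⊗[k] Localization.Away a] KaehlerDifferential.D F
      (F ⊗[k] Localization.Away a)
      (∑ j, c j ⊗ₜ[k] algebraMap A (Localization.Away a) (g j)) = 0) :
    ∑ j, algebraMap (F ⊗[k] Localization.Away a) E (c j ⊗ₜ 1) • d (g j) = 0 := by
  let : Module Eᵐᵒᵖ W := Module.compHom W ((RingHom.id E).fromOpposite mul_comm)
  have : IsCentralScalar E W := ⟨fun r m => rfl⟩
  let ι : F ⊗[k] Localization.Away a →+* E := algebraMap _ E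
  let φF : F →+* TrivSqZeroExt E W := (TrivSqZeroExt.inlHom E W).comp
    (ι.comp (Algebra.TensorProduct.includeLeftRingHom :
      F →+* F ⊗[k] Localization.Away a))
  have h1 : d 1 = 0 := by
    have := hk 1
    rwa [map_one] at this
  let φA : A →+* TrivSqZeroExt E W :=
    { toFun := fun y => TrivSqZeroExt.inl (ι (1 ⊗ₜ algebraMap A (Localization.Away a) y)) +
        TrivSqZeroExt.inr (d y)
      map_one' := by
        rw [h1, map_one, TrivSqZeroExt.inr_zero, add_zero]
        change TrivSqZeroExt.inl (ι 1) = 1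
        rw [map_one, TrivSqZeroExt.inl_one]
      map_zero' := by
        rw [map_zero, map_zero, TensorProduct.tmul_zero, map_zero, TrivSqZeroExt.inl_zero,
          TrivSqZeroExt.inr_zero, add_zero]
      map_add' := by
        intro y z
        rw [map_add, map_add, TensorProduct.tmul_add, map_add, TrivSqZeroExt.inl_add,
          TrivSqZeroExt.inr_add]
        abel
      map_mul' := by
        intro y z
        have h2 : ((1 : F) ⊗ₜ[k] algebraMap A (Localization.Away a) (y * z)) =
            (1 ⊗ₜ[k] algebraMap A (Localization.Away a) y) *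
              (1 ⊗ₜ[k] algebraMap A (Localization.Away a) z) := by
          rw [Algebra.TensorProduct.tmul_mul_tmul, one_mul, map_mul]
        rw [h2, hd]
        refine TrivSqZeroExt.ext ?_ ?_
        · rw [TrivSqZeroExt.fst_mul, TrivSqZeroExt.fst_add, TrivSqZeroExt.fst_add,
            TrivSqZeroExt.fst_add, TrivSqZeroExt.fst_inl, TrivSqZeroExt.fst_inl,
            TrivSqZeroExt.fst_inl, TrivSqZeroExt.fst_inr, TrivSqZeroExt.fst_inr,
            TrivSqZeroExt.fst_inr, add_zero, add_zero, add_zero, map_mul]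
        · rw [TrivSqZeroExt.snd_mul, TrivSqZeroExt.fst_add, TrivSqZeroExt.fst_add,
            TrivSqZeroExt.snd_add, TrivSqZeroExt.snd_add, TrivSqZeroExt.snd_add,
            TrivSqZeroExt.fst_inl, TrivSqZeroExt.fst_inl, TrivSqZeroExt.fst_inr,
            TrivSqZeroExt.fst_inr, TrivSqZeroExt.snd_inl, TrivSqZeroExt.snd_inl,
            TrivSqZeroExt.snd_inl, TrivSqZeroExt.snd_inr, TrivSqZeroExt.snd_inr,
            TrivSqZeroExt.snd_inr, add_zero, add_zero, zero_add, zero_add, zero_add,
            op_smul_eq_smul] }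
  obtain ⟨θ, hθF, hθA⟩ := bert_lift a φF φA (by
    intro x
    change TrivSqZeroExt.inl (ι (algebraMap k F x ⊗ₜ 1)) =
      TrivSqZeroExt.inl (ι (1 ⊗ₜ algebraMap A (Localization.Away a) (algebraMap k A x))) +
        TrivSqZeroExt.inr (d (algebraMap k A x))
    rw [hk, TrivSqZeroExt.inr_zero, add_zero, ← IsScalarTower.algebraMap_apply,
      Algebra.algebraMap_eq_smul_one (R := k) (A := F),
      Algebra.algebraMap_eq_smul_one (R := k) (A := Localization.Away a),
      TensorProduct.smul_tmul]) (by
    rw [TrivSqZeroExt.isUnit_iff_isUnit_fst]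
    change IsUnit ((TrivSqZeroExt.inl (ι (1 ⊗ₜ algebraMap A (Localization.Away a) a)) +
        TrivSqZeroExt.inr (d a) : TrivSqZeroExt E W).fst)
    rw [TrivSqZeroExt.fst_add, TrivSqZeroExt.fst_inl, TrivSqZeroExt.fst_inr, add_zero]
    have h2 : IsUnit ((Algebra.TensorProduct.includeRight :
        Localization.Away a →ₐ[k] F ⊗[k] Localization.Away a)
        (algebraMap A (Localization.Away a) a)) :=
      (IsLocalization.Away.algebraMap_isUnit a).map _
    exact h2.map ι)
  have hfst : ∀ b, (θ b).fst = ι b := by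
    intro b
    have h2 : ((TrivSqZeroExt.fstHom ℤ E W : TrivSqZeroExt E W →ₐ[ℤ] E) :
        TrivSqZeroExt E W →+* E).comp θ = ι := by
      refine bert_ext a _ _ (fun x => ?_) (fun y => ?_)
      · change (θ (x ⊗ₜ 1)).fst = _
        rw [hθF]
        rfl
      · change (θ (1 ⊗ₜ algebraMap A (Localization.Away a) y)).fst = _
        rw [hθA]
        change ((TrivSqZeroExt.inl (ι (1 ⊗ₜ algebraMap A (Localization.Away a) y)) +
          TrivSqZeroExt.inr (d y) : TrivSqZeroExt E W).fst) = _
        rw [TrivSqZeroExt.fst_add, TrivSqZeroExt.fst_inl, TrivSqZeroExt.fst_inr, add_zero]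
    exact RingHom.congr_fun h2 b
  let : Module (F ⊗[k] Localization.Away a) W := Module.compHom W ι
  let : Module F W := Module.compHom W
    (ι.comp (Algebra.TensorProduct.includeLeftRingHom : F →+* F ⊗[k] Localization.Away a))
  have hst : IsScalarTower (F ⊗[k] Localization.Away a) E W := ⟨fun b e w => by
    rw [Algebra.smul_def, mul_smul]
    rfl⟩
  have hxb : ∀ (x : F) (b : F ⊗[k] Localization.Away a),
      x • b = (x ⊗ₜ[k] (1 : Localization.Away a)) * b := by
    intro x b
    have h3 : x ⊗ₜ[k] (1 : Localization.Away a) = x • (1 : F ⊗[k] Localization.Away a) := by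
      rw [Algebra.TensorProduct.one_def, TensorProduct.smul_tmul', smul_eq_mul, mul_one]
    rw [h3, smul_mul_assoc, one_mul]
  have hst2 : IsScalarTower F (F ⊗[k] Localization.Away a) W := ⟨fun x b w => by
    rw [hxb, mul_smul]
    rfl⟩
  have hsnd : ∀ b b', (θ (b * b')).snd = ι b • (θ b').snd + ι b' • (θ b).snd := by
    intro b b'
    rw [map_mul, TrivSqZeroExt.snd_mul, hfst, hfst, op_smul_eq_smul]
  have hsF : ∀ x : F, (θ (x ⊗ₜ 1)).snd = 0 := by
    intro x
    rw [hθF]
    rfl
  let D₀ : (F ⊗[k] Localization.Away a) →ₗ[F] W :=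
    { toFun := fun b => (θ b).snd
      map_add' := by
        intro x y
        rw [map_add, TrivSqZeroExt.snd_add]
      map_smul' := by
        intro x b
        rw [hxb, hsnd, hsF, smul_zero, add_zero]
        rfl }
  let D₁ : Derivation F (F ⊗[k] Localization.Away a) W := Derivation.mk' D₀ (by
    intro b b'
    exact hsnd b b')
  have h5 := congrArg (LinearMap.liftBaseChange E D₁.liftKaehlerDifferential) h
  rw [LinearMap.liftBaseChange_tmul, map_zero, one_smul, Derivation.liftKaehlerDifferential_comp_D,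
    map_sum] at h5
  rw [← h5]
  refine Finset.sum_congr rfl fun j _ => ?_
  change _ = (θ (c j ⊗ₜ[k] algebraMap A (Localization.Away a) (g j))).snd
  have h4 : c j ⊗ₜ[k] algebraMap A (Localization.Away a) (g j) =
      (c j ⊗ₜ[k] (1 : Localization.Away a)) *
        ((1 : F) ⊗ₜ[k] algebraMap A (Localization.Away a) (g j)) := by
    rw [Algebra.TensorProduct.tmul_mul_tmul, one_mul, mul_one]
  rw [h4, hsnd, hsF, smul_zero, add_zero, hθA]
  change _ = ι _ • (TrivSqZeroExt.inl (ι (1 ⊗ₜ algebraMap A (Localization.Away a) (g j))) +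
          TrivSqZeroExt.inr (d (g j)) : TrivSqZeroExt E W).snd
  rw [TrivSqZeroExt.snd_add, TrivSqZeroExt.snd_inl, TrivSqZeroExt.snd_inr, zero_add]

/-- the parameters are independent -/
theorem bert_indep {k F E κ : Type} [Field k] [Field F] [Algebra (MvPolynomial κ k) F]
    [IsFractionRing (MvPolynomial κ k) F] [Algebra k F] [IsScalarTower k (MvPolynomial κ k) F]
    [Field E] [Algebra k E] (φ : F →+* E)
    (hφ : ∀ c, φ (algebraMap k F c) = algebraMap k E c) :
    AlgebraicIndependent k
      (fun j => φ (algebraMap (MvPolynomial κ k) F (MvPolynomial.X j))) := by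
  let φk : F →ₐ[k] E := { φ with commutes' := hφ }
  have h3 : Function.Injective φ := RingHom.injective _
  have h4 : Function.Injective (algebraMap (MvPolynomial κ k) F) :=
    IsFractionRing.injective (MvPolynomial κ k) F
  exact (MvPolynomial.algebraicIndependent_X κ k).map'
    (f := φk.comp (IsScalarTower.toAlgHom k (MvPolynomial κ k) F)) (h3.comp h4)

/-- the differential of the equation is not zero -/
theorem bert_ne (h1 : StPt) {k A F κ E : Type} [Field k] [CommRing A] [Algebra k A] [Fintype κ]
    [Field F] [Algebra (MvPolynomial κ k) F] [IsFractionRing (MvPolynomial κ k) F] [Algebra k F]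
    [IsScalarTower k (MvPolynomial κ k) F] (a : A) [Field E]
    [Algebra (F ⊗[k] Localization.Away a) E] (g : κ → A) (i : κ) (hgi : g i = 1)
    (hadj : Algebra.adjoin k (Set.range g) = ⊤)
    (h0 : (1 : E) ⊗ₜ[F ⊗[k] Localization.Away a] KaehlerDifferential.D F
      (F ⊗[k] Localization.Away a)
      (∑ j, (algebraMap (MvPolynomial κ k) F (MvPolynomial.X j)) ⊗ₜ[k]
        algebraMap A (Localization.Away a) (g j)) = 0)
    (hz : algebraMap (F ⊗[k] Localization.Away a) E
      (∑ j, (algebraMap (MvPolynomial κ k) F (MvPolynomial.X j)) ⊗ₜ[k]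
        algebraMap A (Localization.Away a) (g j)) = 0) : False := by
  let ι : (F ⊗[k] Localization.Away a) →+* E := algebraMap _ _
  let : Algebra A E := ((ι.comp
    ((Algebra.TensorProduct.includeRight : Localization.Away a →ₐ[k] F ⊗[k] Localization.Away a) :
      Localization.Away a →+* F ⊗[k] Localization.Away a)).comp
    (algebraMap A (Localization.Away a))).toAlgebra
  let : Algebra k E := ((algebraMap A E).comp (algebraMap k A)).toAlgebra
  have halgA : ∀ y : A, algebraMap A E y =
    ι (1 ⊗ₜ[k] algebraMap A (Localization.Away a) y) := fun y => rfl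
  have hstA : IsScalarTower k A E := IsScalarTower.of_algebraMap_eq fun c => rfl
  have hstB : ∀ c : k, ι (algebraMap k (F ⊗[k] Localization.Away a) c) = algebraMap k E c := by
    intro c
    change _ = ι (1 ⊗ₜ[k] algebraMap A (Localization.Away a) (algebraMap k A c))
    rw [← IsScalarTower.algebraMap_apply k A (Localization.Away a),
      Algebra.TensorProduct.algebraMap_apply, Algebra.algebraMap_eq_smul_one (R := k) (A := F),
      Algebra.algebraMap_eq_smul_one (R := k) (A := Localization.Away a),
      TensorProduct.smul_tmul]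
  let φ : F →+* E := ι.comp Algebra.TensorProduct.includeLeftRingHom
  have hφ : ∀ x : F, φ x = ι (x ⊗ₜ[k] 1) := fun x => rfl
  refine h1 k A E κ g i (fun j => φ (algebraMap (MvPolynomial κ k) F (MvPolynomial.X j)))
    hgi hadj ?_ ?_ ?_
  · refine bert_indep φ fun c => ?_
    rw [← hstB c, Algebra.TensorProduct.algebraMap_apply]
    rfl
  · rw [map_sum] at hz
    rw [← hz]
    refine Finset.sum_congr rfl fun j _ => ?_
    rw [halgA, hφ, ← map_mul, Algebra.TensorProduct.tmul_mul_tmul, mul_one, one_mul]
  · have hsm1 : ∀ (y : A) (w : E ⊗[A] Ω[A⁄k]),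
        y • w = algebraMap A E y • w := fun y w => (algebraMap_smul _ y w).symm
    exact bert_deriv (E := E) (W := E ⊗[A] Ω[A⁄k]) a
      { toFun := fun y => (1 : E) ⊗ₜ[A] KaehlerDifferential.D k A y
        map_zero' := by rw [map_zero, TensorProduct.tmul_zero]
        map_add' := fun y z => by rw [map_add, TensorProduct.tmul_add] }
      (fun y z => by
        change (1 : E) ⊗ₜ[A] KaehlerDifferential.D k A (y * z) =
          algebraMap A E y • ((1 : E) ⊗ₜ[A] KaehlerDifferential.D k A z)
          + algebraMap A E z • ((1 : E) ⊗ₜ[A] KaehlerDifferential.D k A y)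
        rw [Derivation.leibniz, TensorProduct.tmul_add, TensorProduct.tmul_smul,
          TensorProduct.tmul_smul, hsm1, hsm1])
      (fun c => by
        change (1 : E) ⊗ₜ[A] KaehlerDifferential.D k A (algebraMap k A c) = 0
        rw [Derivation.map_algebraMap, TensorProduct.tmul_zero])
      (fun j => algebraMap (MvPolynomial κ k) F (MvPolynomial.X j)) g h0

theorem tBert (h1 : StPt) (h2 : StJac) : StBert := by
  intro k A F κ _ _ _ _ _ _ _ _ _ n g i hgi hadj hloc
  intro Q hQ
  classical
  let f : F ⊗[k] A := ∑ j, (algebraMap (MvPolynomial κ k) F (MvPolynomial.X j)) ⊗ₜ[k] (g j)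
  let q : Ideal (F ⊗[k] A) := Q.comap (Ideal.Quotient.mk (Ideal.span {f}))
  have hq : q.IsPrime := Ideal.IsPrime.comap _
  have hfq : f ∈ q := by
    change Ideal.Quotient.mk (Ideal.span {f}) f ∈ Q
    have h3 : Ideal.Quotient.mk (Ideal.span {f}) f = 0 :=
      Ideal.Quotient.eq_zero_iff_mem.2 (Ideal.subset_span (Set.mem_singleton f))
    rw [h3]
    exact Q.zero_mem
  let p : Ideal A := q.comap ((Algebra.TensorProduct.includeRight : A →ₐ[k] F ⊗[k] A) :
    A →+* F ⊗[k] A)
  have hp : p.IsPrime := Ideal.IsPrime.comap _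
  obtain ⟨a, ha, hsm⟩ := hloc p hp
  let s : F ⊗[k] A := 1 ⊗ₜ[k] a
  have hsq : s ∉ q := ha
  have hsm' : Algebra.IsStandardSmoothOfRelativeDimension (n + 1) F
      (F ⊗[k] Localization.Away a) := inferInstance
  let : Algebra (F ⊗[k] A) (F ⊗[k] Localization.Away a) :=
    (Algebra.TensorProduct.map (AlgHom.id F F)
      (IsScalarTower.toAlgHom k A (Localization.Away a))).toAlgebra
  have halg : ∀ (x : F) (y : A), algebraMap (F ⊗[k] A) (F ⊗[k] Localization.Away a)
      (x ⊗ₜ[k] y) = x ⊗ₜ[k] algebraMap A (Localization.Away a) y := fun x y => rfl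
  have hst : IsScalarTower F (F ⊗[k] A) (F ⊗[k] Localization.Away a) :=
    .of_algebraMap_eq <| by intro; simp [RingHom.algebraMap_toAlgebra]
  have hL := IsLocalization.tensorProduct_tensorProduct_right k F (Submonoid.powers a)
    (Localization.Away a) (by ext; simp [RingHom.algebraMap_toAlgebra])
  rw [Submonoid.map_powers] at hL
  have hL' : IsLocalization.Away s (F ⊗[k] Localization.Away a) := hL
  have hdisj : Disjoint (Submonoid.powers s : Set (F ⊗[k] A)) (q : Set (F ⊗[k] A)) :=
    (Ideal.disjoint_powers_iff_notMem s hq.isRadical).2 hsq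
  let q' : Ideal (F ⊗[k] Localization.Away a) :=
    q.map (algebraMap (F ⊗[k] A) (F ⊗[k] Localization.Away a))
  have hq' : q'.IsPrime := IsLocalization.isPrime_of_isPrime_disjoint (Submonoid.powers s)
    (F ⊗[k] Localization.Away a) q hq hdisj
  have hcomap : q'.comap (algebraMap (F ⊗[k] A) (F ⊗[k] Localization.Away a)) = q :=
    IsLocalization.under_map_of_isPrime_disjoint (Submonoid.powers s)
      (F ⊗[k] Localization.Away a) hq hdisj
  have hfq' : algebraMap (F ⊗[k] A) (F ⊗[k] Localization.Away a) f ∈ q' :=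
    Ideal.mem_map_of_mem _ hfq
  have hf' : algebraMap (F ⊗[k] A) (F ⊗[k] Localization.Away a) f =
      ∑ j, (algebraMap (MvPolynomial κ k) F (MvPolynomial.X j)) ⊗ₜ[k]
        algebraMap A (Localization.Away a) (g j) := by
    rw [map_sum]
    rfl
  obtain ⟨b', hb', hst'⟩ := h2 F (F ⊗[k] Localization.Away a) n
    (algebraMap (F ⊗[k] A) (F ⊗[k] Localization.Away a) f) q' hfq' (by
    intro h0
    rw [hf'] at h0
    have h3 : algebraMap (F ⊗[k] Localization.Away a) q'.ResidueField
        (algebraMap (F ⊗[k] A) (F ⊗[k] Localization.Away a) f) = 0 :=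
      Ideal.algebraMap_residueField_eq_zero.2 hfq'
    rw [hf'] at h3
    exact bert_ne h1 (E := q'.ResidueField) a g i hgi hadj h0 h3)
  obtain ⟨r, N, hr, hfin⟩ := bert_loc s f n b' hst'
  refine ⟨_, ?_, hfin⟩
  intro hmem
  rcases hQ.mem_or_mem hmem with h3 | h3
  · exact hsq h3
  · have h4 : algebraMap (F ⊗[k] A) (F ⊗[k] Localization.Away a) r ∈ q' :=
      Ideal.mem_map_of_mem _ h3
    rw [hr] at h4
    rcases hq'.mem_or_mem h4 with h5 | h5
    · exact hb' h5
    · apply hsq
      rw [← hcomap]
      exact hq'.mem_of_pow_mem N h5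

end Pool.Agent.Lib.MP_4ca46c_ag.Std
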