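import Pool.Agent.Lib.MP_4ca46c_ag.Std.ConnSpec
import Pool.Agent.Lib.MP_4ca46c_ag.Sign.SmS

/-!
# Irreducibility of affine bundles and of generic fibres
-/

namespace Pool.Agent.Lib.MP_4ca46c_ag.Std

open CategoryTheory Limits AlgebraicGeometry TensorProduct
open Pool.Agent.Lib.MP_4ca46c_ag.Sign

theorem bundleirr_fibre {E U : Scheme.{0}} (f : E ⟶ U) (hf : IsAffineBundle f) (x : U) :
    IsIrreducible (f ⁻¹' {x}) := by
  obtain ⟨V, m, e, hx, he⟩ := hf x
  have h0 : MorphismProperty.RespectsIso @GeometricallyIrreducible := by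
    rw [GeometricallyIrreducible.eq_geometrically]
    infer_instance
  have h1 : GeometricallyIrreducible (f ∣_ V) := by
    rw [← he, MorphismProperty.cancel_left_of_respectsIso (P := @GeometricallyIrreducible)]
    infer_instance
  have h2 : IsOpenMap (f ∣_ V) := by
    rw [← he]
    have h3 : IsOpenMap (𝔸(Fin m; V.toScheme) ↘ V.toScheme) := AffineSpace.isOpenMap_over _
    have h4 : IsOpenMap e.hom := e.hom.homeomorph.isOpenMap
    simpa using h3.comp h4
  have h5 : IsIrreducible ((f ∣_ V) ⁻¹' {(⟨x, hx⟩ : V)}) :=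
    (f ∣_ V).isIrreducible_preimage h2 isIrreducible_singleton
  have h6 : f ⁻¹' {x} = (f ⁻¹ᵁ V).ι '' ((f ∣_ V) ⁻¹' {(⟨x, hx⟩ : V)}) := by
    ext y
    constructor
    · intro hy
      have hy' : f y = x := hy
      have hyV : y ∈ f ⁻¹ᵁ V := by
        change f y ∈ V
        rw [hy']
        exact hx
      refine ⟨⟨y, hyV⟩, ?_, rfl⟩
      have h8 := morphismRestrict_base_coe f V ⟨y, hyV⟩
      exact Subtype.ext (h8.trans hy')
    · rintro ⟨z, hz, rfl⟩
      have hz' : (f ∣_ V) z = (⟨x, hx⟩ : V) := hz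
      have h7 := morphismRestrict_base_coe f V z
      rw [hz'] at h7
      exact h7.symm
  rw [h6]
  exact h5.image _ (f ⁻¹ᵁ V).ι.continuous.continuousOn

theorem tBundleIrr : StBundleIrr := by
  intro E U f hf hU
  have h1 : Smooth f := sms_bundle_smooth f hf
  have h2 : IsOpenMap f := f.isOpenMap
  have h3 : IsIrreducible (f ⁻¹' (Set.univ : Set U)) := by
    refine (IrreducibleSpace.isIrreducible_univ U).preimage_of_isPreirreducible_fiber _ h2
      (fun x => (bundleirr_fibre f hf x).isPreirreducible) ?_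
    obtain ⟨x⟩ := (inferInstance : Nonempty U)
    obtain ⟨y, hy⟩ := (bundleirr_fibre f hf x).nonempty
    exact ⟨x, trivial, ⟨y, hy⟩⟩
  rw [irreducibleSpace_def]
  simpa using h3

/-- a subspace of an irreducible space which contains the generic point is preirreducible -/
theorem bundleirr_top {Q W : Type*} [TopologicalSpace Q] [TopologicalSpace W] (g : Q → W)
    (hg : Topology.IsEmbedding g) (q : Q) (hq : ∀ w : W, g q ⤳ w) : PreirreducibleSpace Q := by
  have h : ∀ y : Q, q ⤳ y := fun y => hg.isInducing.specializes_iff.1 (hq (g y))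
  refine ⟨?_⟩
  intro u v hu hv h1 h2
  obtain ⟨a, -, ha⟩ := h1
  obtain ⟨b, -, hb⟩ := h2
  exact ⟨q, trivial, (h a).mem_open hu ha, (h b).mem_open hv hb⟩

theorem tGenIrr : StGenIrr := by
  intro R F _ _ _ _ _ W Q b g c hp hW
  have hpre : IsPreimmersion (Spec.map (CommRingCat.ofHom (algebraMap R F))) :=
    IsPreimmersion.of_isLocalization (nonZeroDivisors R)
  have hg : IsPreimmersion g := MorphismProperty.of_isPullback (P := @IsPreimmersion) hp.flip hpre
  rcases isEmpty_or_nonempty Q with hQ | ⟨⟨q⟩⟩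
  · exact ⟨fun u v hu hv h1 => by
      obtain ⟨a, -, -⟩ := h1
      exact hQ.elim a⟩
  · have h0 : Spec.map (CommRingCat.ofHom (algebraMap R F)) (c q) = b (g q) := by
      rw [← Scheme.Hom.comp_apply, ← Scheme.Hom.comp_apply, hp.w]
    have h1 : b (genericPoint W) ⤳ b (g q) := (genericPoint_specializes (g q)).map b.continuous
    have h2 : b (genericPoint W) = Spec.map (CommRingCat.ofHom (algebraMap R F)) (c q) := by
      have h3 : (b (genericPoint W) : PrimeSpectrum R).asIdeal ≤ (b (g q) : PrimeSpectrum R).asIdeal :=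
        (PrimeSpectrum.le_iff_specializes _ _).2 h1
      have h4 : (b (g q) : PrimeSpectrum R).asIdeal = ⊥ := by
        rw [← h0]
        change Ideal.comap (algebraMap R F) (c q : PrimeSpectrum F).asIdeal = ⊥
        have h5 : (c q : PrimeSpectrum F).asIdeal = ⊥ :=
          ((c q : PrimeSpectrum F).asIdeal.eq_bot_or_top).resolve_right
            (c q : PrimeSpectrum F).2.ne_top
        rw [h5]
        exact Ideal.comap_bot_of_injective _ (IsFractionRing.injective R F)
      rw [h0]
      apply PrimeSpectrum.ext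
      rw [h4]
      exact le_bot_iff.1 (h4 ▸ h3)
    obtain ⟨q', hq', -⟩ := Scheme.exists_preimage_of_isPullback hp _ _ h2
    exact bundleirr_top g hg.isEmbedding q' (fun w => by
      rw [hq']
      exact genericPoint_specializes w)

end Pool.Agent.Lib.MP_4ca46c_ag.Std
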