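import Mathlib
import Pool.Agent.Lib.MP_4ca46c_ag.Std.ChowSpec

/-!
# Specification: the generic hyperplane section is smooth
-/

namespace Pool.Agent.Lib.MP_4ca46c_ag.Std

open CategoryTheory Limits AlgebraicGeometry TensorProduct
open Pool.Agent.Lib.MP_4ca46c_ag.Sign Pool.Agent.Lib.MP_4ca46c_ag.Hyp

/-- The ring homomorphism `k ⟶ Γ(X, U)` for a scheme `x : X ⟶ Spec k`. -/
noncomputable def resHom {k : Type} [Field k] {X : Scheme.{0}}
    (x : X ⟶ Spec (CommRingCat.of k)) (U : X.Opens) : k →+* Γ(X, U) :=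
  ((Scheme.ΓSpecIso (CommRingCat.of k)).inv ≫ x.appLE ⊤ U (by simp)).hom

/-- The charts of a closed subscheme of projective space.

PROOF. `psD i` is affine (`Proj.isAffineOpen_basicOpen`) and `e` is affine, so
`(eCoord ..).D i = e ⁻¹ᵁ psD i` is affine. `Γ(PS, psD i)` is generated over `k` by the fractions
`psf i j` (it is `Away (X i)`, `dehom_eq` in `Hyp/Proj.lean`: `dehom i` is surjective), and
`Γ(PS, psD i) ⟶ Γ(X, e ⁻¹ᵁ psD i)` is surjective for a closed immersion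
(`IsClosedImmersion`, `HasAffineProperty`). -/
def StChart : Prop := ∀ (k₀ k : Type) [Field k₀] [Field k] [Algebra k₀ k] (κ : Type) [Fintype κ]
  (X : Sch k₀) (x : X ⟶ pt k₀ k) (e : X ⟶ PSo k₀ k κ) (he : e ≫ PSo.str k₀ k κ = x)
  (hc : IsClosedImmersion e.left) (i : κ) [Algebra k Γ(X.left, (eCoord x e he inferInstance).D i)],
  algebraMap k Γ(X.left, (eCoord x e he inferInstance).D i) = resHom x.left _ →
  IsAffineOpen ((eCoord x e he inferInstance).D i) ∧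
  Algebra.adjoin k (Set.range ((eCoord x e he inferInstance).f i)) = ⊤

/-- The charts of the generic hyperplane section.

PROOF. Let `A = Γ(X, D i)`, `W = r ⁻¹ᵁ D i` with `r = toI ≫ inc ≫ pr : Y₀ ⟶ X`, and
`S = Spec ((F ⊗ A) / (f))`. A morphism `T ⟶ W` is the same as a morphism `T ⟶ Y₀` with
`T ⟶ Y₀ ⟶ X` in `D i` (`IsOpenImmersion.lift`). By `fibre`, `Aff.isPullback_toSp` and `C.inc_iff`,
`C.hom_ext` (`Hyp/Family.lean`) a morphism `T ⟶ Y₀` is the same as `z : T ⟶ X` and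
`t : T ⟶ Spec F`, equal over `Spec k`, with `C.Van z a`, where `a j` is the image of `X j`; and for
`z` in `D i`, `C.Van z a` is `∑ a j * z^* (C.f i j) = 0` (`PreCoord.van_iff_of_le`, `Hyp/Coord.lean`).
Since `D i` is affine, `z : T ⟶ D i` is a ring homomorphism `A ⟶ Γ(T, ⊤)` and `t` a ring
homomorphism `F ⟶ Γ(T, ⊤)` (`ΓSpec` adjunction), so the pair is a homomorphism
`(F ⊗ A) / (f) ⟶ Γ(T, ⊤)`. Construct `hom` for `T = W` and `inv` for `T = S` and check with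
`hom_ext`. -/
def StChartIso : Prop := ∀ (k₀ k : Type) [Field k₀] [Field k] [Algebra k₀ k] (κ : Type)
  [Fintype κ] (X : Sch k₀) (x : X ⟶ pt k₀ k) (C : Coord x.left κ) (i : κ)
  (hD : IsAffineOpen (C.D i)) [Algebra k Γ(X.left, C.D i)],
  algebraMap k Γ(X.left, C.D i) = resHom x.left _ → ∀ (F : Type) [Field F] [Algebra k₀ F]
  [Algebra k F] [Algebra (MvPolynomial κ k) F] [IsScalarTower k₀ (MvPolynomial κ k) F]
  [IsScalarTower k (MvPolynomial κ k) F] [IsScalarTower k₀ k F] (Y₀ : Sch k₀)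
  (y₀ : Y₀ ⟶ pt k₀ F) (toI : Y₀ ⟶ Fam C),
  IsPullback toI y₀ (Fam.inc C ≫ Aff.toSp κ x) (spG k₀ (MvPolynomial κ k) F) →
  ∃ e : ((toI ≫ Fam.inc C ≫ Aff.pr κ X).left ⁻¹ᵁ C.D i).toScheme ≅
    Spec (CommRingCat.of ((F ⊗[k] Γ(X.left, C.D i)) ⧸ Ideal.span
      {∑ j, (algebraMap (MvPolynomial κ k) F (MvPolynomial.X j)) ⊗ₜ[k] (C.f i j)})),
    e.hom ≫ Spec.map (CommRingCat.ofHom (algebraMap F _)) =
      ((toI ≫ Fam.inc C ≫ Aff.pr κ X).left ⁻¹ᵁ C.D i).ι ≫ y₀.left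

/-- **The generic hyperplane section is smooth.**

PROOF. `SmoothOfRelativeDimension` is local on the source; the opens
`(toI ≫ inc ≫ pr) ⁻¹ᵁ D i` cover `Y₀` (`C.iSup_D`). By `StChartIso`, `StChart`, `StLocSm₂`,
`StBert` (`g = C.f i`, `C.f_self`), `StLocSm₁`. -/
def StSmoothGen : Prop := ∀ (k₀ k : Type) [Field k₀] [Field k] [Algebra k₀ k] (κ : Type)
  [Fintype κ] (X : Sch k₀) (x : X ⟶ pt k₀ k) (e : X ⟶ PSo k₀ k κ)
  (he : e ≫ PSo.str k₀ k κ = x) (hc : IsClosedImmersion e.left) (n : ℕ),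
  SmoothOfRelativeDimension (n + 1) x.left → ∀ (F : Type) [Field F] [Algebra k₀ F]
  [Algebra k F] [Algebra (MvPolynomial κ k) F] [IsScalarTower k₀ (MvPolynomial κ k) F]
  [IsScalarTower k (MvPolynomial κ k) F] [IsScalarTower k₀ k F]
  [IsFractionRing (MvPolynomial κ k) F] (Y₀ : Sch k₀) (y₀ : Y₀ ⟶ pt k₀ F)
  (toI : Y₀ ⟶ Fam (eCoord x e he inferInstance)),
  IsPullback toI y₀ (Fam.inc (eCoord x e he inferInstance) ≫ Aff.toSp κ x)
    (spG k₀ (MvPolynomial κ k) F) → SmoothOfRelativeDimension n y₀.left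

end Pool.Agent.Lib.MP_4ca46c_ag.Std
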