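import Mathlib
import Pool.Agent.Lib.MP_4ca46c_ag.Std.BertSpec2

set_option autoImplicit false

/-!
# Charts of the generic hyperplane section
-/

namespace Pool.Agent.Lib.MP_4ca46c_ag.Std

open CategoryTheory Limits AlgebraicGeometry TensorProduct Opposite
open Pool.Agent.Lib.MP_4ca46c_ag.Sign Pool.Agent.Lib.MP_4ca46c_ag.Hyp

/-- The function on `Spec R` given by an element of `R`. -/
noncomputable def chartiso_fn {R : Type} [CommRing R] (r : R) : Γ(Spec (CommRingCat.of R), ⊤) :=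
  (Scheme.ΓSpecIso (CommRingCat.of R)).inv r

theorem chartiso_fn_map {R S : Type} [CommRing R] [CommRing S] (φ : R →+* S) (r : R) :
    (Spec.map (CommRingCat.ofHom φ)).appTop (chartiso_fn r) = chartiso_fn (φ r) := by
  have h := Scheme.ΓSpecIso_inv_naturality (CommRingCat.ofHom φ)
  have h1 := congrArg (fun ψ => ψ.hom r) h
  exact h1.symm

theorem chartiso_fn_mul {R : Type} [CommRing R] (r s : R) :
    chartiso_fn (r * s) = chartiso_fn r * chartiso_fn s := map_mul _ _ _

theorem chartiso_fn_sum {R : Type} [CommRing R] {ι : Type} [Fintype ι] (r : ι → R) :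
    chartiso_fn (∑ i, r i) = ∑ i, chartiso_fn (r i) := map_sum _ _ _

theorem chartiso_fn_zero {R : Type} [CommRing R] : chartiso_fn (0 : R) = 0 := map_zero _

section Poly

variable {k : Type} [Field k] {κ : Type}

/-- Morphisms to the spectrum of a polynomial ring. -/
theorem chartiso_ext {T : Scheme.{0}} (u v : T ⟶ Spec (CommRingCat.of (MvPolynomial κ k)))
    (h1 : u ≫ Spec.map (CommRingCat.ofHom (algebraMap k (MvPolynomial κ k))) =
      v ≫ Spec.map (CommRingCat.ofHom (algebraMap k (MvPolynomial κ k))))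
    (h2 : ∀ j, u.appTop (chartiso_fn (MvPolynomial.X j)) =
      v.appTop (chartiso_fn (MvPolynomial.X j))) : u = v := by
  rw [← cancel_mono (AffineSpace.SpecIso κ (CommRingCat.of k)).inv]
  refine AffineSpace.hom_ext ?_ fun j => ?_
  · rw [Category.assoc, Category.assoc, AffineSpace.SpecIso_inv_over]
    exact h1
  · rw [Scheme.Hom.comp_appTop, Scheme.Hom.comp_appTop, CommRingCat.comp_apply,
      CommRingCat.comp_apply, AffineSpace.SpecIso_inv_appTop_coord]
    exact h2 j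

theorem chartiso_coord {X : Scheme.{0}} (x : X ⟶ Spec (CommRingCat.of k)) (j : κ) :
    (AffineSpace.map κ x ≫ (AffineSpace.SpecIso κ (CommRingCat.of k)).hom).appTop
      (chartiso_fn (MvPolynomial.X j)) = AffineSpace.coord X j := by
  have h1 : chartiso_fn (MvPolynomial.X j) =
      (AffineSpace.SpecIso κ (CommRingCat.of k)).inv.appTop (AffineSpace.coord _ j) :=
    (AffineSpace.SpecIso_inv_appTop_coord _ j).symm
  have h2 : (AffineSpace.SpecIso κ (CommRingCat.of k)).hom.appTop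
      ((AffineSpace.SpecIso κ (CommRingCat.of k)).inv.appTop (AffineSpace.coord _ j)) =
      AffineSpace.coord _ j := by
    rw [← CommRingCat.comp_apply, ← Scheme.Hom.comp_appTop, Iso.hom_inv_id]
    rfl
  rw [Scheme.Hom.comp_appTop, CommRingCat.comp_apply, h1, h2, AffineSpace.map_appTop_coord]

end Poly

section Univ

variable {k : Type} [Field k] {κ : Type} [Fintype κ] {X : Scheme.{0}}
  {x : X ⟶ Spec (CommRingCat.of k)} (C : Coord x κ)
  {F : Type} [Field F] [Algebra k F] [Algebra (MvPolynomial κ k) F]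
  [IsScalarTower k (MvPolynomial κ k) F]
  {Y : Scheme.{0}} {y : Y ⟶ Spec (CommRingCat.of F)} {toI : Y ⟶ C.I}

/-- the functions on `Spec F` given by the coefficients of the equation -/
noncomputable def chartiso_xi (k F : Type) [Field k] [Field F] {κ : Type}
    [Algebra (MvPolynomial κ k) F] (j : κ) : Γ(Spec (CommRingCat.of F), ⊤) :=
  chartiso_fn (algebraMap (MvPolynomial κ k) F (MvPolynomial.X j))

/-- the morphism from the universal hyperplane section to the spectrum of the polynomial ring -/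
noncomputable def chartiso_m : C.I ⟶ Spec (CommRingCat.of (MvPolynomial κ k)) :=
  C.inc ≫ AffineSpace.map κ x ≫ (AffineSpace.SpecIso κ (CommRingCat.of k)).hom

theorem chartiso_m_vec (j : κ) :
    (chartiso_m C).appTop (chartiso_fn (MvPolynomial.X j)) = C.vec j := by
  unfold chartiso_m
  rw [Scheme.Hom.comp_appTop, CommRingCat.comp_apply, chartiso_coord]
  rfl

theorem chartiso_m_str : chartiso_m C ≫
    Spec.map (CommRingCat.ofHom (algebraMap k (MvPolynomial κ k))) = C.toZ ≫ x := by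
  unfold chartiso_m Coord.toZ
  rw [Category.assoc, Category.assoc, Category.assoc, ← (toSp_isPullback κ x).w,
    Category.assoc]

variable (H : IsPullback toI y (chartiso_m C)
  (Spec.map (CommRingCat.ofHom (algebraMap (MvPolynomial κ k) F))))

include H

theorem chartiso_a : (toI ≫ C.toZ) ≫ x = y ≫ Spec.map (CommRingCat.ofHom (algebraMap k F)) := by
  rw [Category.assoc, ← chartiso_m_str, ← Category.assoc, H.w, Category.assoc, ← Spec.map_comp,
    ← CommRingCat.ofHom_comp, ← IsScalarTower.algebraMap_eq]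

theorem chartiso_b (j : κ) : toI.appTop (C.vec j) = y.appTop (chartiso_xi k F j) := by
  rw [← chartiso_m_vec, ← CommRingCat.comp_apply, ← Scheme.Hom.comp_appTop, H.w,
    Scheme.Hom.comp_appTop, CommRingCat.comp_apply, chartiso_fn_map]
  rfl

theorem chartiso_van {T : Scheme.{0}} (t : T ⟶ Y) :
    C.Van (t ≫ toI ≫ C.toZ) (fun j => (t ≫ y).appTop (chartiso_xi k F j)) := by
  have h := C.van (t ≫ toI)
  rw [Category.assoc] at h
  have h1 : (fun j => (t ≫ toI).appTop (C.vec j)) =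
      fun j => (t ≫ y).appTop (chartiso_xi k F j) := by
    funext j
    rw [Scheme.Hom.comp_appTop, Scheme.Hom.comp_appTop, CommRingCat.comp_apply,
      CommRingCat.comp_apply, chartiso_b C H]
  rwa [h1] at h

theorem chartiso_c {T : Scheme.{0}} (z : T ⟶ X) (s : T ⟶ Spec (CommRingCat.of F))
    (h : z ≫ x = s ≫ Spec.map (CommRingCat.ofHom (algebraMap k F)))
    (hv : C.Van z (fun j => s.appTop (chartiso_xi k F j))) :
    ∃ t : T ⟶ Y, t ≫ toI ≫ C.toZ = z ∧ t ≫ y = s := by
  have h1 : C.lift z _ hv ≫ chartiso_m C =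
      s ≫ Spec.map (CommRingCat.ofHom (algebraMap (MvPolynomial κ k) F)) := by
    refine chartiso_ext _ _ ?_ fun j => ?_
    · rw [Category.assoc, Category.assoc, chartiso_m_str, ← Category.assoc, C.lift_toZ, h,
        ← Spec.map_comp, ← CommRingCat.ofHom_comp, ← IsScalarTower.algebraMap_eq]
    · rw [Scheme.Hom.comp_appTop, Scheme.Hom.comp_appTop, CommRingCat.comp_apply,
        CommRingCat.comp_apply, chartiso_m_vec, C.lift_vec, chartiso_fn_map]
      rfl
  refine ⟨H.lift _ _ h1, ?_, H.lift_snd _ _ _⟩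
  rw [← Category.assoc, H.lift_fst, C.lift_toZ]

theorem chartiso_d {T : Scheme.{0}} {t t' : T ⟶ Y} (h1 : t ≫ toI ≫ C.toZ = t' ≫ toI ≫ C.toZ)
    (h2 : t ≫ y = t' ≫ y) : t = t' := by
  refine H.hom_ext (C.hom_ext ?_ fun j => ?_) h2
  · rw [Category.assoc, Category.assoc]
    exact h1
  · rw [Scheme.Hom.comp_appTop, Scheme.Hom.comp_appTop, CommRingCat.comp_apply,
      CommRingCat.comp_apply, chartiso_b C H, ← CommRingCat.comp_apply,
      ← CommRingCat.comp_apply, ← Scheme.Hom.comp_appTop, ← Scheme.Hom.comp_appTop, h2]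

end Univ

/-- Factorization through a closed subscheme of an affine scheme. -/
theorem chartiso_quot {B : Type} [CommRing B] (f : B) {T : Scheme.{0}}
    (t : T ⟶ Spec (CommRingCat.of B)) :
    (∃ t', t' ≫ Spec.map (CommRingCat.ofHom (Ideal.Quotient.mk (Ideal.span {f}))) = t) ↔
      t.appTop (chartiso_fn f) = 0 := by
  constructor
  · rintro ⟨t', rfl⟩
    rw [Scheme.Hom.comp_appTop, CommRingCat.comp_apply, chartiso_fn_map,
      Ideal.Quotient.eq_zero_iff_mem.2 (Ideal.mem_span_singleton_self f), chartiso_fn_zero,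
      map_zero]
  · intro h
    have h1 : ∀ a ∈ Ideal.span {f},
        ((Scheme.ΓSpecIso (CommRingCat.of B)).inv ≫ t.appTop).hom a = 0 := by
      intro a ha
      obtain ⟨b, rfl⟩ := Ideal.mem_span_singleton'.1 ha
      rw [map_mul]
      have h2 : ((Scheme.ΓSpecIso (CommRingCat.of B)).inv ≫ t.appTop).hom f = 0 := h
      rw [h2, mul_zero]
    refine ⟨T.toSpecΓ ≫ Spec.map (CommRingCat.ofHom (Ideal.Quotient.lift _ _ h1)), ?_⟩
    rw [Category.assoc, ← Spec.map_comp, ← CommRingCat.ofHom_comp, Ideal.Quotient.lift_comp_mk]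
    change T.toSpecΓ ≫ Spec.map ((Scheme.ΓSpecIso (CommRingCat.of B)).inv ≫ t.appTop) = t
    rw [Spec.map_comp, ← Category.assoc, ← Scheme.toSpecΓ_naturality, Category.assoc,
      toSpecΓ_SpecMap_ΓSpecIso_inv, Category.comp_id]

section Chart

variable {X : Scheme.{0}} {U : X.Opens} (hU : IsAffineOpen U)

theorem chartiso_from {k : Type} [Field k] (x : X ⟶ Spec (CommRingCat.of k)) [Algebra k Γ(X, U)]
    (ha : algebraMap k Γ(X, U) = resHom x U) :
    hU.fromSpec ≫ x = Spec.map (CommRingCat.ofHom (algebraMap k Γ(X, U))) := by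
  rw [ha]
  have h1 := IsAffineOpen.SpecMap_appLE_fromSpec x (isAffineOpen_top _) hU
    (show U ≤ x ⁻¹ᵁ ⊤ by simp)
  rw [← h1, IsAffineOpen.fromSpec_top, Scheme.isoSpec_Spec_inv, ← Spec.map_comp]
  rfl

theorem chartiso_appLE {T : Scheme.{0}} (t : T ⟶ Spec Γ(X, U))
    (h : ⊤ ≤ (t ≫ hU.fromSpec) ⁻¹ᵁ U) (g : Γ(X, U)) :
    (t ≫ hU.fromSpec).appLE U ⊤ h g = t.appTop (chartiso_fn g) := by
  rw [Scheme.Hom.comp_appLE, hU.fromSpec_app_self, Category.assoc, Scheme.Hom.map_appLE,
    CommRingCat.comp_apply]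
  rw [Scheme.Hom.appTop, Scheme.Hom.app_eq_appLE]
  rfl

end Chart

section Main

variable {k : Type} [Field k] {κ : Type} [Fintype κ] {X : Scheme.{0}}
  {x : X ⟶ Spec (CommRingCat.of k)} (C : Coord x κ) {i : κ} (hD : IsAffineOpen (C.D i))
  [Algebra k Γ(X, C.D i)]
  {F : Type} [Field F] [Algebra k F] [Algebra (MvPolynomial κ k) F]
  [IsScalarTower k (MvPolynomial κ k) F]

/-- the first projection of `Spec (F ⊗ A)` -/
noncomputable def chartiso_p (k F A : Type) [Field k] [Field F] [Algebra k F] [CommRing A]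
    [Algebra k A] : Spec (CommRingCat.of (F ⊗[k] A)) ⟶ Spec (CommRingCat.of F) :=
  Spec.map (CommRingCat.ofHom (Algebra.TensorProduct.includeLeftRingHom (R := k) (A := F) (B := A)))

/-- the second projection of `Spec (F ⊗ A)` -/
noncomputable def chartiso_q (k F A : Type) [Field k] [Field F] [Algebra k F] [CommRing A]
    [Algebra k A] : Spec (CommRingCat.of (F ⊗[k] A)) ⟶ Spec (CommRingCat.of A) :=
  Spec.map (CommRingCat.ofHom
    (Algebra.TensorProduct.includeRight (R := k) (A := F) (B := A)).toRingHom)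

theorem chartiso_pq (k F A : Type) [Field k] [Field F] [Algebra k F] [CommRing A] [Algebra k A] :
    IsPullback (chartiso_p k F A) (chartiso_q k F A)
      (Spec.map (CommRingCat.ofHom (algebraMap k F)))
      (Spec.map (CommRingCat.ofHom (algebraMap k A))) :=
  isPullback_SpecMap_of_isPushout _ _ _ _ (CommRingCat.isPushout_tensorProduct k F A)

/-- the equation -/
noncomputable def chartiso_eq (F : Type) [Field F] [Algebra k F] [Algebra (MvPolynomial κ k) F] :
    F ⊗[k] Γ(X, C.D i) :=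
  ∑ j, (algebraMap (MvPolynomial κ k) F (MvPolynomial.X j)) ⊗ₜ[k] (C.f i j)

theorem chartiso_le {T : Scheme.{0}} (t : T ⟶ Spec Γ(X, C.D i)) :
    ⊤ ≤ (t ≫ hD.fromSpec) ⁻¹ᵁ C.D i := by
  intro p _
  change hD.fromSpec (t p) ∈ C.D i
  have h : hD.fromSpec (t p) ∈ Set.range hD.fromSpec := ⟨_, rfl⟩
  rwa [hD.range_fromSpec] at h

/-- the equation holds at a point of `Spec (F ⊗ A)` iff the point is on the hyperplane -/
theorem chartiso_van_iff {T : Scheme.{0}}
    (t : T ⟶ Spec (CommRingCat.of (F ⊗[k] Γ(X, C.D i)))) :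
    C.Van ((t ≫ chartiso_q k F Γ(X, C.D i)) ≫ hD.fromSpec)
      (fun j => (t ≫ chartiso_p k F Γ(X, C.D i)).appTop (chartiso_xi k F j)) ↔
      t.appTop (chartiso_fn (chartiso_eq C (i := i) F)) = 0 := by
  rw [C.van_iff_of_le _ _ i (chartiso_le C hD _)]
  have h1 : ∀ j : κ, (t ≫ chartiso_p k F Γ(X, C.D i)).appTop (chartiso_xi k F j) *
      ((t ≫ chartiso_q k F Γ(X, C.D i)) ≫ hD.fromSpec).appLE (C.D i) ⊤ (chartiso_le C hD _)
        (C.f i j) = t.appTop (chartiso_fn
          ((algebraMap (MvPolynomial κ k) F (MvPolynomial.X j)) ⊗ₜ[k] (C.f i j))) := by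
    intro j
    rw [chartiso_appLE, Scheme.Hom.comp_appTop, Scheme.Hom.comp_appTop, CommRingCat.comp_apply,
      CommRingCat.comp_apply, ← map_mul]
    unfold chartiso_xi chartiso_p chartiso_q
    rw [chartiso_fn_map, chartiso_fn_map, ← chartiso_fn_mul]
    congr 2
    exact (Algebra.TensorProduct.tmul_mul_tmul _ _ _ _).trans (by rw [mul_one, one_mul])
  rw [Finset.sum_congr rfl fun j _ => h1 j, ← map_sum, ← chartiso_fn_sum]
  rfl

theorem chartiso_rng {T : Scheme.{0}} (z : T ⟶ X) (h : ∀ p, z p ∈ C.D i) :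
    Set.range z ⊆ Set.range hD.fromSpec := by
  rintro _ ⟨p, rfl⟩
  rw [hD.range_fromSpec]
  exact h p

theorem chartiso_main (x : X ⟶ Spec (CommRingCat.of k)) (C : Coord x κ)
    (hD : IsAffineOpen (C.D i)) [Algebra k Γ(X, C.D i)]
    (ha : algebraMap k Γ(X, C.D i) = resHom x (C.D i))
    {Y : Scheme.{0}} (y : Y ⟶ Spec (CommRingCat.of F)) (toI : Y ⟶ C.I)
    (H : IsPullback toI y (chartiso_m C)
      (Spec.map (CommRingCat.ofHom (algebraMap (MvPolynomial κ k) F)))) :
    ∃ e : ((toI ≫ C.toZ) ⁻¹ᵁ C.D i).toScheme ≅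
      Spec (CommRingCat.of ((F ⊗[k] Γ(X, C.D i)) ⧸ Ideal.span {chartiso_eq C (i := i) F})),
      e.hom ≫ Spec.map (CommRingCat.ofHom (algebraMap F _)) =
        ((toI ≫ C.toZ) ⁻¹ᵁ C.D i).ι ≫ y := by
  have hP := chartiso_pq k F Γ(X, C.D i)
  have hW : ∀ p, (((toI ≫ C.toZ) ⁻¹ᵁ C.D i).ι ≫ toI ≫ C.toZ) p ∈ C.D i := fun p => p.2
  obtain ⟨j, hj1, hj2⟩ : ∃ j : ((toI ≫ C.toZ) ⁻¹ᵁ C.D i).toScheme ⟶
      Spec (CommRingCat.of (F ⊗[k] Γ(X, C.D i))),
      j ≫ chartiso_p k F Γ(X, C.D i) = ((toI ≫ C.toZ) ⁻¹ᵁ C.D i).ι ≫ y ∧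
      (j ≫ chartiso_q k F Γ(X, C.D i)) ≫ hD.fromSpec =
        ((toI ≫ C.toZ) ⁻¹ᵁ C.D i).ι ≫ toI ≫ C.toZ := by
    have h1 := IsOpenImmersion.lift_fac hD.fromSpec
      (((toI ≫ C.toZ) ⁻¹ᵁ C.D i).ι ≫ toI ≫ C.toZ) (chartiso_rng C hD _ hW)
    have h2 : (((toI ≫ C.toZ) ⁻¹ᵁ C.D i).ι ≫ y) ≫
        Spec.map (CommRingCat.ofHom (algebraMap k F)) =
        IsOpenImmersion.lift hD.fromSpec (((toI ≫ C.toZ) ⁻¹ᵁ C.D i).ι ≫ toI ≫ C.toZ)
          (chartiso_rng C hD _ hW) ≫
            Spec.map (CommRingCat.ofHom (algebraMap k Γ(X, C.D i))) := by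
      rw [← chartiso_from hD x ha, ← Category.assoc (IsOpenImmersion.lift _ _ _), h1,
        Category.assoc, ← chartiso_a C H, Category.assoc, Category.assoc, Category.assoc]
    refine ⟨hP.lift _ _ h2, hP.lift_fst _ _ _, ?_⟩
    rw [hP.lift_snd, h1]
  have hmono : ∀ (T : Scheme.{0}) (t t' : T ⟶ ((toI ≫ C.toZ) ⁻¹ᵁ C.D i).toScheme),
      t ≫ j = t' ≫ j → t = t' := by
    intro T t t' h
    rw [← cancel_mono ((toI ≫ C.toZ) ⁻¹ᵁ C.D i).ι]
    refine chartiso_d C H ?_ ?_
    · rw [Category.assoc, Category.assoc, ← hj2, ← Category.assoc, ← Category.assoc,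
        ← Category.assoc, ← Category.assoc, h]
    · rw [Category.assoc, Category.assoc, ← hj1, ← Category.assoc, ← Category.assoc, h]
  have hvan : j.appTop (chartiso_fn (chartiso_eq C (i := i) F)) = 0 := by
    rw [← chartiso_van_iff C hD j, hj2, hj1]
    exact chartiso_van C H _
  have hfac : ∀ (T : Scheme.{0}) (t : T ⟶ Spec (CommRingCat.of (F ⊗[k] Γ(X, C.D i)))),
      t.appTop (chartiso_fn (chartiso_eq C (i := i) F)) = 0 → ∃ t', t' ≫ j = t := by
    intro T t h
    have h1 := (chartiso_van_iff C hD t).2 h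
    obtain ⟨s, hs1, hs2⟩ := chartiso_c C H _ _ (by
      rw [Category.assoc, chartiso_from hD x ha, Category.assoc, Category.assoc, hP.w]) h1
    have h2 : ∀ p, s p ∈ (toI ≫ C.toZ) ⁻¹ᵁ C.D i := by
      intro p
      change (s ≫ toI ≫ C.toZ) p ∈ C.D i
      rw [hs1]
      exact chartiso_le C hD (t ≫ chartiso_q k F Γ(X, C.D i)) (Set.mem_univ p)
    have h3 : Set.range s ⊆ Set.range ((toI ≫ C.toZ) ⁻¹ᵁ C.D i).ι := by
      rintro _ ⟨p, rfl⟩
      rw [Scheme.Opens.range_ι]
      exact h2 p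
    have h4 := IsOpenImmersion.lift_fac ((toI ≫ C.toZ) ⁻¹ᵁ C.D i).ι s h3
    refine ⟨IsOpenImmersion.lift _ s h3, hP.hom_ext ?_ ?_⟩
    · rw [Category.assoc, hj1, ← Category.assoc, h4, hs2]
    · rw [← cancel_mono hD.fromSpec, Category.assoc, Category.assoc,
        ← Category.assoc j, hj2, ← Category.assoc, h4, hs1]
  have hcl : IsClosedImmersion (Spec.map (CommRingCat.ofHom (Ideal.Quotient.mk
      (Ideal.span {chartiso_eq C (i := i) F})))) :=
    IsClosedImmersion.spec_of_surjective _ Ideal.Quotient.mk_surjective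
  obtain ⟨a, ha'⟩ := (chartiso_quot _ j).2 hvan
  obtain ⟨b, hb⟩ := hfac _ _ ((chartiso_quot (chartiso_eq C (i := i) F)
    (Spec.map (CommRingCat.ofHom (Ideal.Quotient.mk _)))).1 ⟨𝟙 _, Category.id_comp _⟩)
  refine ⟨⟨a, b, ?_, ?_⟩, ?_⟩
  · apply hmono
    rw [Category.assoc, hb, ha', Category.id_comp]
  · rw [← cancel_mono (Spec.map (CommRingCat.ofHom (Ideal.Quotient.mk
      (Ideal.span {chartiso_eq C (i := i) F})))), Category.assoc, ha', hb, Category.id_comp]
  · change a ≫ Spec.map (CommRingCat.ofHom (algebraMap F _)) = _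
    rw [← hj1, ← ha', Category.assoc]
    congr 1
    unfold chartiso_p
    rw [← Spec.map_comp, ← CommRingCat.ofHom_comp]

end Main

theorem tChartIso : StChartIso := by
  intro k₀ k _ _ _ κ _ X x C i hD _ ha F _ _ _ _ _ _ _ Y₀ y₀ toI H
  exact chartiso_main x.left C hD ha y₀.left toI.left (H.map (Over.forget _))

end Pool.Agent.Lib.MP_4ca46c_ag.Std
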