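import Pool.Agent.Lib.MP_4ca46c_ag.Std.ConnSpec

/-!
# Geometric connectedness from the fibre over a point
-/

namespace Pool.Agent.Lib.MP_4ca46c_ag.Std

open CategoryTheory Limits AlgebraicGeometry TensorProduct
open Pool.Agent.Lib.MP_4ca46c_ag.Sign

/-- Morphisms between spectra of fields are surjective. -/
theorem conn_surjective {L M : Type} [Field L] [Field M] (ψ : L →+* M) :
    AlgebraicGeometry.Surjective (Spec.map (CommRingCat.ofHom ψ)) := by
  refine ⟨fun x => ?_⟩
  obtain ⟨z⟩ : Nonempty (Spec (CommRingCat.of M)) :=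
    inferInstanceAs (Nonempty (PrimeSpectrum M))
  haveI : Subsingleton (Spec (CommRingCat.of L)) :=
    inferInstanceAs (Subsingleton (PrimeSpectrum L))
  exact ⟨z, Subsingleton.elim _ _⟩

theorem tConn (h1 : StRatPt) (h2 : StGeomConn) : StConn := by
  intro F L _ _ _ _ Y₀ Y f g p y hpb hconn
  haveI : IsAlgClosed L := IsAlgClosure.isAlgClosed F
  set i := Y₀.fromSpecResidueField y with hi
  let φ : CommRingCat.of F ⟶ Y₀.residueField y := Spec.preimage (i ≫ f)
  have hφ : Spec.map φ = i ≫ f := Spec.map_preimage _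
  let κ : Type := Y₀.residueField y
  let M : Type := AlgebraicClosure κ
  let a : Spec (CommRingCat.of M) ⟶ Spec (CommRingCat.of κ) :=
    Spec.map (CommRingCat.ofHom (algebraMap κ M))
  -- the fibre over `y`
  let X := pullback f (i ≫ f)
  let fX : X ⟶ Spec (CommRingCat.of κ) := pullback.snd f (i ≫ f)
  have hX : IsPullback (pullback.fst f (i ≫ f)) fX f (i ≫ f) := IsPullback.of_hasPullback _ _
  let s : Spec (CommRingCat.of κ) ⟶ X := pullback.lift i (𝟙 _) (by rw [Category.id_comp])
  have hs : s ≫ fX = 𝟙 _ := pullback.lift_snd _ _ _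
  let X' := pullback fX a
  have hX' : IsPullback (pullback.fst fX a) (pullback.snd fX a) fX a := IsPullback.of_hasPullback _ _
  have hconn' : ConnectedSpace X' :=
    h1 κ M X X' fX (pullback.snd fX a) (pullback.fst fX a) s hs hX' hconn
  -- the embedding of `L` in `M`
  letI : Algebra F κ := φ.hom.toAlgebra
  letI : Algebra F M := ((algebraMap κ M).comp (algebraMap F κ)).toAlgebra
  haveI : Algebra.IsAlgebraic F L := IsAlgClosure.isAlgebraic
  let ψ : L →ₐ[F] M := IsAlgClosed.lift
  have hψ : (ψ : L →+* M).comp (algebraMap F L) = (algebraMap κ M).comp (algebraMap F κ) :=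
    ψ.comp_algebraMap
  let b : Spec (CommRingCat.of M) ⟶ Spec (CommRingCat.of L) :=
    Spec.map (CommRingCat.ofHom (ψ : L →+* M))
  have hab : a ≫ (i ≫ f) = b ≫ Spec.map (CommRingCat.ofHom (algebraMap F L)) := by
    rw [← hφ]
    change Spec.map (CommRingCat.ofHom (algebraMap κ M)) ≫ Spec.map φ = _
    rw [← Spec.map_comp, ← Spec.map_comp, ← CommRingCat.ofHom_comp, hψ]
    rfl
  -- the outer square
  have hout : IsPullback (pullback.fst fX a ≫ pullback.fst f (i ≫ f)) (pullback.snd fX a) f
      (b ≫ Spec.map (CommRingCat.ofHom (algebraMap F L))) := by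
    rw [← hab]
    exact hX'.paste_horiz hX
  let r : X' ⟶ Y := hpb.lift (pullback.fst fX a ≫ pullback.fst f (i ≫ f))
    (pullback.snd fX a ≫ b) (by rw [hout.w, Category.assoc])
  have hr1 : r ≫ p = pullback.fst fX a ≫ pullback.fst f (i ≫ f) := hpb.lift_fst _ _ _
  have hr2 : r ≫ g = pullback.snd fX a ≫ b := hpb.lift_snd _ _ _
  have hsq : IsPullback r (pullback.snd fX a) g b := by
    refine IsPullback.of_right ?_ hr2 hpb
    rw [hr1]
    exact hout
  have hsurj : AlgebraicGeometry.Surjective r :=
    MorphismProperty.of_isPullback hsq.flip (conn_surjective _)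
  haveI : ConnectedSpace Y := by
    haveI := hconn'
    exact hsurj.surj.connectedSpace r.continuous
  exact h2 L Y g inferInstance

end Pool.Agent.Lib.MP_4ca46c_ag.Std
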