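import Pool.Agent.Lib.MP_4ca46c_ag.Std.ChowSpec
import Pool.Agent.Lib.MP_4ca46c_ag.Sign.SmS

/-! # Cycles which do not meet -/

namespace Pool.Agent.Lib.MP_4ca46c_ag.Std

open CategoryTheory Limits AlgebraicGeometry TensorProduct
open Pool.Agent.Lib.MP_4ca46c_ag.Sign

section

theorem disjoint_iota (X : Scheme.{0}) (U : X.Opens) : IsOpenImmersion U.ι := inferInstance

theorem disjoint_fac (X Z : Scheme.{0}) (U : X.Opens) (g : Z ⟶ X) (h : ∀ z, g z ∈ U) :
    ∃ g₁ : Z ⟶ U.toScheme, g₁ ≫ U.ι = g := by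
  have hr : Set.range g ⊆ Set.range U.ι := by
    rintro _ ⟨z, rfl⟩
    rw [Scheme.Opens.range_ι]
    exact h z
  exact ⟨IsOpenImmersion.lift U.ι g hr, IsOpenImmersion.lift_fac _ _ _⟩

theorem disjoint_mem (X : Scheme.{0}) (U : X.Opens) (z : U.toScheme) : U.ι z ∈ U := by
  have h3 : U.ι z ∈ Set.range U.ι := ⟨_, rfl⟩
  rw [Scheme.Opens.range_ι] at h3
  exact h3

variable {k₀ : Type} [Field k₀]

/-- the complement of a closed subset, as a scheme over `k₀` -/
noncomputable def disjoint_open (Y : Sch k₀) (U : Y.left.Opens) : Sch k₀ :=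
  Over.mk (U.ι ≫ Y.hom)

/-- its inclusion -/
noncomputable def disjoint_incl (Y : Sch k₀) (U : Y.left.Opens) : disjoint_open Y U ⟶ Y :=
  Over.homMk U.ι rfl

theorem disjoint_incl_left (Y : Sch k₀) (U : Y.left.Opens) : (disjoint_incl Y U).left = U.ι := rfl

theorem disjoint_isOpen (Y : Sch k₀) (U : Y.left.Opens) :
    IsOpenImmersion (disjoint_incl Y U).left := by
  exact disjoint_iota Y.left U

theorem disjoint_lift {Y Y' : Sch k₀} (U : Y.left.Opens) (g : Y' ⟶ Y)
    (h : ∀ z, g.left z ∈ U) : ∃ g₁ : Y' ⟶ disjoint_open Y U, g₁ ≫ disjoint_incl Y U = g := by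
  obtain ⟨g₁, h1⟩ := disjoint_fac Y.left Y'.left U g.left h
  refine ⟨Over.homMk g₁ ?_, ?_⟩
  · change g₁ ≫ U.ι ≫ Y.hom = Y'.hom
    rw [← Category.assoc, h1]
    exact Over.w g
  · exact Over.OverMorphism.ext h1

end

theorem tDisjoint (k₀ K : Type) [Field k₀] [Field K] : StDisjoint k₀ K := by
  intro T hE F _ _ X Y Y' f g y hy hx hY' hf hdis a
  have hcl : IsClosed (Set.range f.left) := f.left.isClosedEmbedding.isClosed_range
  obtain ⟨U, hU⟩ : ∃ U : Y.left.Opens, ∀ z, z ∈ U ↔ z ∉ Set.range f.left :=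
    ⟨⟨(Set.range f.left)ᶜ, hcl.isOpen_compl⟩, fun z => Iff.rfl⟩
  have hj := disjoint_isOpen Y U
  obtain ⟨g₁, hg₁⟩ := disjoint_lift U g fun z => (hU _).2 (hdis z)
  have hSY : Sm Y := ⟨F, _, _, y, hy⟩
  have hSX : Sm X := ⟨F, _, _, f ≫ y, hx⟩
  have hSU : Sm (disjoint_open Y U) := ⟨F, _, _, disjoint_incl Y U ≫ y, (sms_open hy _ hj).1⟩
  have hP := IsPullback.of_hasPullback f (disjoint_incl Y U)
  have hPl : IsPullback (pullback.fst f (disjoint_incl Y U)).left
      (pullback.snd f (disjoint_incl Y U)).left f.left (disjoint_incl Y U).left :=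
    hP.map (Over.forget _)
  have hPo : IsOpenImmersion (pullback.fst f (disjoint_incl Y U)).left :=
    MorphismProperty.of_isPullback (P := @IsOpenImmersion) hPl.flip hj
  have hSP : Sm (pullback f (disjoint_incl Y U)) :=
    ⟨F, _, _, pullback.fst f (disjoint_incl Y U) ≫ f ≫ y, (sms_open hx _ hPo).1⟩
  have hemp : IsEmpty (pullback f (disjoint_incl Y U)).left := by
    refine ⟨fun z => ?_⟩
    have h1 : f.left ((pullback.fst f (disjoint_incl Y U)).left z) =
        (disjoint_incl Y U).left ((pullback.snd f (disjoint_incl Y U)).left z) := by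
      rw [← Scheme.Hom.comp_apply, ← Scheme.Hom.comp_apply, hPl.w]
    have h2 : (disjoint_incl Y U).left ((pullback.snd f (disjoint_incl Y U)).left z) ∈ U :=
      disjoint_mem Y.left U _
    rw [← h1] at h2
    exact (hU _).1 h2 ⟨_, rfl⟩
  have hone := hE.empty _ hemp
  have hzero : ∀ b : T.CH (pullback f (disjoint_incl Y U)), b = 0 := by
    intro b
    rw [← one_mul b, hone, zero_mul]
  have hprop : IsProper f.left := inferInstance
  have hflat : Flat (disjoint_incl Y U).left := inferInstance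
  have h1 := T.push_baseChange f (pullback.snd f (disjoint_incl Y U))
    (pullback.fst f (disjoint_incl Y U)) (disjoint_incl Y U) hP hSX hSY hSP hSU hprop hflat a
  rw [hzero (T.pull (pullback.fst f (disjoint_incl Y U)) a), map_zero] at h1
  rw [← hg₁, T.pull_comp g₁ (disjoint_incl Y U) hY' hSU hSY, h1, map_zero]

end Pool.Agent.Lib.MP_4ca46c_ag.Std
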