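import Pool.Agent.Lib.MP_4ca46c_ag.Std.ConnSpec

/-!
# Topology of the fibres of `Y₀ × Y₀ ⟶ Y₀`
-/

namespace Pool.Agent.Lib.MP_4ca46c_ag.Std

open CategoryTheory Limits AlgebraicGeometry

/-- The topological statement. -/
theorem fib_top {P Y : Type*} [TopologicalSpace P] [QuasiSober P] (s : P → Y) (d : Y → P)
    (hsd : ∀ y, s (d y) = y) (hD : IsClosed (Set.range d)) [Nonempty Y]
    (hirr : IsPreirreducible (Set.range d)ᶜ)
    (hiso : ∀ (y : Y) (x : P), s x = y → ∀ U : Set P, IsOpen U → U ∩ s ⁻¹' {y} ≠ {x}) :
    ∃ y : Y, _root_.IsConnected (s ⁻¹' {y}) := by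
  have hne : ((Set.range d)ᶜ).Nonempty := by
    by_contra h
    rw [Set.not_nonempty_iff_eq_empty, Set.compl_empty_iff] at h
    obtain ⟨y⟩ := ‹Nonempty Y›
    apply hiso y (d y) (hsd y) Set.univ isOpen_univ
    rw [Set.univ_inter]
    ext x
    rw [Set.mem_preimage, Set.mem_singleton_iff, Set.mem_singleton_iff]
    constructor
    · intro hx
      obtain ⟨z, rfl⟩ : x ∈ Set.range d := by
        rw [h]
        trivial
      rw [hsd] at hx
      rw [hx]
    · rintro rfl
      exact hsd y
  have hI : IsIrreducible ((Set.range d)ᶜ) := ⟨hne, hirr⟩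
  obtain ⟨ξ, hξ⟩ := QuasiSober.sober hI.closure isClosed_closure
  have hξm : ξ ∈ (Set.range d)ᶜ := by
    obtain ⟨q, hq⟩ := hne
    have h1 : q ∈ closure {ξ} := by
      rw [hξ.def]
      exact subset_closure hq
    exact (specializes_iff_mem_closure.mpr h1).mem_open hD.isOpen_compl hq
  refine ⟨s ξ, ⟨ξ, rfl⟩, ?_⟩
  have hsub : s ⁻¹' {s ξ} ⊆ closure {ξ} := by
    have h2 : ∀ x ∈ (Set.range d)ᶜ, x ∈ closure {ξ} := by
      intro x hx
      rw [hξ.def]
      exact subset_closure hx
    by_contra hns
    have hd : d (s ξ) ∉ closure {ξ} := by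
      intro hd
      apply hns
      intro x hx
      by_cases hxD : x ∈ Set.range d
      · obtain ⟨z, rfl⟩ := hxD
        rw [Set.mem_preimage, Set.mem_singleton_iff, hsd] at hx
        rw [hx]
        exact hd
      · exact h2 x hxD
    apply hiso (s ξ) (d (s ξ)) (hsd _) (closure {ξ})ᶜ isClosed_closure.isOpen_compl
    ext x
    rw [Set.mem_inter_iff, Set.mem_compl_iff, Set.mem_preimage, Set.mem_singleton_iff,
      Set.mem_singleton_iff]
    constructor
    · rintro ⟨h3, h4⟩
      have h5 : x ∈ Set.range d := by
        by_contra h6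
        exact h3 (h2 x h6)
      obtain ⟨z, rfl⟩ := h5
      rw [hsd] at h4
      rw [h4]
    · rintro rfl
      exact ⟨hd, hsd _⟩
  exact isPreconnected_singleton.subset_closure (Set.singleton_subset_iff.mpr rfl) hsub

theorem tFib (h : StIso) : StFib := by
  intro F _ Y₀ f m hm hf hsep hne hirr
  have hsd : ∀ y : Y₀, (pullback.snd f f) (pullback.diagonal f y) = y := by
    intro y
    have h1 : pullback.diagonal f ≫ pullback.snd f f = 𝟙 Y₀ := pullback.diagonal_snd f
    rw [← Scheme.Hom.comp_apply, h1]
    rfl
  have hbc : MorphismProperty.IsStableUnderBaseChange (@SmoothOfRelativeDimension.{0} m) :=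
    smoothOfRelativeDimension_isStableUnderBaseChange m
  have hsm : SmoothOfRelativeDimension m (pullback.snd f f) :=
    MorphismProperty.pullback_snd f f hf
  obtain ⟨y, hy⟩ := fib_top (P := (pullback f f : Scheme.{0})) (Y := Y₀) (pullback.snd f f)
    (pullback.diagonal f) hsd (pullback.diagonal f).isClosedEmbedding.isClosed_range hirr (by
      intro y x hx U hU hUx
      have hsm2 : SmoothOfRelativeDimension m
          ((pullback.snd f f).fiberToSpecResidueField y) :=
        MorphismProperty.pullback_snd _ _ hsm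
      have hxm : x ∈ Set.range ((pullback.snd f f).fiberι y) := by
        rw [Scheme.Hom.range_fiberι]
        exact hx
      obtain ⟨x', rfl⟩ := hxm
      refine h (Y₀.residueField y) ((pullback.snd f f).fiber y)
        ((pullback.snd f f).fiberToSpecResidueField y) m hm hsm2 x' ?_
      have h2 : ({x'} : Set ((pullback.snd f f).fiber y)) = (pullback.snd f f).fiberι y ⁻¹' U := by
        have hemb := ((pullback.snd f f).fiberι y).isEmbedding
        ext z
        rw [Set.mem_singleton_iff, Set.mem_preimage]
        constructor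
        · rintro rfl
          have h3 : ((pullback.snd f f).fiberι y) z ∈ U ∩ (pullback.snd f f) ⁻¹' {y} := by
            rw [hUx]
            rfl
          exact h3.1
        · intro hz
          apply hemb.injective
          have h3 : ((pullback.snd f f).fiberι y) z ∈ U ∩ (pullback.snd f f) ⁻¹' {y} := by
            refine ⟨hz, ?_⟩
            rw [← Scheme.Hom.range_fiberι]
            exact Set.mem_range_self z
          rw [hUx] at h3
          exact h3
      rw [h2]
      exact hU.preimage ((pullback.snd f f).fiberι y).continuous)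
  refine ⟨y, ?_⟩
  have h3 : ConnectedSpace ((pullback.snd f f).fiber y) := by
    have hemb := ((pullback.snd f f).fiberι y).isEmbedding
    have h4 : _root_.IsPreconnected (Set.univ : Set ((pullback.snd f f).fiber y)) := by
      rw [← hemb.isInducing.isPreconnected_image, Set.image_univ, Scheme.Hom.range_fiberι]
      exact hy.2
    obtain ⟨x, hx⟩ := hy.1
    rw [← Scheme.Hom.range_fiberι] at hx
    obtain ⟨x', -⟩ := hx
    exact connectedSpace_iff_univ.mpr ⟨⟨x', trivial⟩, h4⟩
  let e : (pullback.snd f f).fiber y ≅ pullback f (Y₀.fromSpecResidueField y ≫ f) :=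
    pullbackLeftPullbackSndIso f f (Y₀.fromSpecResidueField y)
  exact e.hom.surjective.connectedSpace e.hom.continuous

end Pool.Agent.Lib.MP_4ca46c_ag.Std
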