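import Mathlib
import Pool.Agent.Lib.MP_4ca46c_ag.Std.ChowSpec

set_option autoImplicit false

/-!
# The class of the generic hyperplane section
-/

namespace Pool.Agent.Lib.MP_4ca46c_ag.Std

open CategoryTheory Limits AlgebraicGeometry TensorProduct
open Pool.Agent.Lib.MP_4ca46c_ag.Sign Pool.Agent.Lib.MP_4ca46c_ag.Hyp

section base

variable {k₀ : Type} [Field k₀] {F F' : Type} [Field F] [Algebra k₀ F] [Field F'] [Algebra k₀ F']
  {X X' : Sch k₀} {x : X ⟶ pt k₀ F} {x' : X' ⟶ pt k₀ F'} {g : X' ⟶ X} {s : pt k₀ F' ⟶ pt k₀ F}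

theorem genclass_sm (h : IsPullback g x' x s) (hx : IsSm x) : IsSm x' := by
  have h1 := h.map (Over.forget _)
  exact ⟨MorphismProperty.of_isPullback (P := @Smooth) h1 hx.smooth,
    MorphismProperty.of_isPullback (P := @IsSeparated) h1 hx.separated,
    MorphismProperty.of_isPullback (P := @QuasiCompact) h1 hx.quasiCompact⟩

theorem genclass_var (h : IsPullback g x' x s) {n : ℕ} (hx : IsVar x n) : IsVar x' n := by
  have h1 := h.map (Over.forget _)
  have := smoothOfRelativeDimension_isStableUnderBaseChange n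
  exact ⟨MorphismProperty.of_isPullback (P := @SmoothOfRelativeDimension n) h1 hx.smooth,
    MorphismProperty.of_isPullback (P := @IsProper) h1 hx.proper,
    MorphismProperty.of_isPullback (P := @GeometricallyConnected) h1 hx.connected⟩

theorem genclass_flat_field [Algebra F F'] [IsScalarTower k₀ F F'] :
    Flat (ptMap k₀ (IsScalarTower.toAlgHom k₀ F F')).left := by
  change Flat (Spec.map (CommRingCat.ofHom (algebraMap F F')))
  rw [Flat.SpecMap_iff]
  change RingHom.Flat (algebraMap F F')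
  rw [RingHom.flat_algebraMap_iff]
  infer_instance

theorem genclass_flat_frac (R : Type) [CommRing R] [Algebra k₀ R] [Algebra R F]
    [IsScalarTower k₀ R F] [IsDomain R] [IsFractionRing R F] : Flat (spG k₀ R F).left := by
  change Flat (Spec.map (CommRingCat.ofHom (algebraMap R F)))
  rw [Flat.SpecMap_iff]
  change RingHom.Flat (algebraMap R F)
  rw [RingHom.flat_algebraMap_iff]
  exact IsLocalization.flat F (nonZeroDivisors R)

end base

section geo

variable {k₀ k : Type} [Field k₀] [Field k] [Algebra k₀ k] {κ : Type} [Fintype κ] {X : Sch k₀}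
  {x : X ⟶ pt k₀ k} (C : Coord x.left κ) {F : Type} [Field F] [Algebra k₀ F]
  [Algebra k F] [Algebra (MvPolynomial κ k) F] [IsScalarTower k₀ (MvPolynomial κ k) F]
  [IsScalarTower k (MvPolynomial κ k) F] [IsScalarTower k₀ k F]

variable (x) (F) in
omit [Fintype κ] in
theorem genclass_gA : ∃ gA : pullback x (ptMap k₀ (IsScalarTower.toAlgHom k₀ k F)) ⟶ Aff κ X,
    gA ≫ Aff.pr κ X = pullback.fst _ _ ∧
    IsPullback gA (pullback.snd x (ptMap k₀ (IsScalarTower.toAlgHom k₀ k F)))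
      (Aff.toSp κ x) (spG k₀ (MvPolynomial κ k) F) := by
  have hA := Aff.isPullback_toSp κ x
  have hw : (pullback.snd x (ptMap k₀ (IsScalarTower.toAlgHom k₀ k F)) ≫
      spG k₀ (MvPolynomial κ k) F) ≫ spB k₀ k (MvPolynomial κ k) =
      pullback.fst x (ptMap k₀ (IsScalarTower.toAlgHom k₀ k F)) ≫ x := by
    rw [Category.assoc, spG_spB]
    exact pullback.condition.symm
  refine ⟨hA.lift _ _ hw, hA.lift_snd _ _ _, ?_⟩
  have h1 : IsPullback (hA.lift _ _ hw ≫ Aff.pr κ X)
      (pullback.snd x (ptMap k₀ (IsScalarTower.toAlgHom k₀ k F))) x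
      (spG k₀ (MvPolynomial κ k) F ≫ spB k₀ k (MvPolynomial κ k)) := by
    rw [hA.lift_snd, spG_spB]
    exact IsPullback.of_hasPullback _ _
  exact IsPullback.of_right h1 (hA.lift_fst _ _ _) hA.flip

theorem genclass_i₀ {Y₀ : Sch k₀} {y₀ : Y₀ ⟶ pt k₀ F} {toI : Y₀ ⟶ Fam C}
    (H : IsPullback toI y₀ (Fam.inc C ≫ Aff.toSp κ x) (spG k₀ (MvPolynomial κ k) F))
    {gA : pullback x (ptMap k₀ (IsScalarTower.toAlgHom k₀ k F)) ⟶ Aff κ X}
    (hg : IsPullback gA (pullback.snd x (ptMap k₀ (IsScalarTower.toAlgHom k₀ k F)))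
      (Aff.toSp κ x) (spG k₀ (MvPolynomial κ k) F)) :
    ∃ i₀ : Y₀ ⟶ pullback x (ptMap k₀ (IsScalarTower.toAlgHom k₀ k F)),
      i₀ ≫ pullback.snd _ _ = y₀ ∧ IsPullback toI i₀ (Fam.inc C) gA := by
  have hw : (toI ≫ Fam.inc C) ≫ Aff.toSp κ x = y₀ ≫ spG k₀ (MvPolynomial κ k) F := by
    rw [Category.assoc]
    exact H.w
  refine ⟨hg.lift _ _ hw, hg.lift_snd _ _ _, ?_⟩
  have h1 : IsPullback toI (hg.lift _ _ hw ≫
      pullback.snd x (ptMap k₀ (IsScalarTower.toAlgHom k₀ k F)))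
      (Fam.inc C ≫ Aff.toSp κ x) (spG k₀ (MvPolynomial κ k) F) := by
    rw [hg.lift_snd]
    exact H
  exact IsPullback.of_bot h1 (hg.lift_fst _ _ _).symm hg

end geo

theorem genclass_ptMap {k₀ k F L : Type} [Field k₀] [Field k] [Field F] [Field L] [Algebra k₀ k]
    [Algebra k₀ F] [Algebra k₀ L] [Algebra k F] [Algebra F L] [Algebra k L]
    [IsScalarTower k₀ k F] [IsScalarTower k₀ F L] [IsScalarTower k₀ k L] [IsScalarTower k F L] :
    ptMap k₀ (IsScalarTower.toAlgHom k₀ F L) ≫ ptMap k₀ (IsScalarTower.toAlgHom k₀ k F) =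
      ptMap k₀ (IsScalarTower.toAlgHom k₀ k L) := by
  apply Over.OverMorphism.ext
  simp only [ptMap, Over.comp_left]
  refine (Spec.map_comp _ _).symm.trans ?_
  rw [← CommRingCat.ofHom_comp]
  congr 2
  ext a
  exact (IsScalarTower.algebraMap_apply k F L a).symm

theorem tGenClass (k₀ K : Type) [Field k₀] [Field K] (h1 : StAffSm) (h2 : StUnivX k₀ K) :
    StGenClass k₀ K := by
  intro T E k _ _ _ κ _ _ i X x m e he hX hc F _ _ _ _ _ _ _ _ Y₀ y₀ toI H hy₀ hd L _ _ _ _ _
    Y y p hp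
  have hU := h2 T E k κ i X x (m + 1) e he hX hc
  obtain ⟨N, hN⟩ : ∃ N, Fintype.card κ = N + 1 := by
    have : 0 < Fintype.card κ := Fintype.card_pos
    exact ⟨Fintype.card κ - 1, by omega⟩
  obtain ⟨-, sA, -, sF⟩ := h1 k₀ k X x κ (m + 1) N hX.isSm hX.smooth hN
  have sI := (sF (eCoord x e he inferInstance)).1
  generalize hC : eCoord x e he inferInstance = C at *
  generalize hh : T.pull e (hypClass T k i) = h at *
  have sX : Sm X := hX.sm
  obtain ⟨gA, gA1, gA2⟩ := genclass_gA x F (κ := κ)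
  obtain ⟨i₀, i1, i2⟩ := genclass_i₀ C H gA2
  have vXF : IsVar (pullback.snd x (ptMap k₀ (IsScalarTower.toAlgHom k₀ k F))) (m + 1) :=
    genclass_var (IsPullback.of_hasPullback _ _) hX
  have fA : Flat gA.left := MorphismProperty.of_isPullback (P := @Flat)
    (gA2.map (Over.forget _)).flip (genclass_flat_frac (k₀ := k₀) (F := F) (MvPolynomial κ k))
  have cI : IsClosedImmersion (Fam.inc C).left := inferInstanceAs (IsClosedImmersion C.inc)
  have e1 : T.push i₀ 1 = T.pull (pullback.fst x _) h := by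
    have h3 := T.push_baseChange (Fam.inc C) i₀ toI gA i2 ⟨_, _, _, _, sI⟩ ⟨_, _, _, _, sA⟩
      ⟨_, _, _, _, hy₀⟩ vXF.sm inferInstance fA 1
    rw [map_one (T.pull toI)] at h3
    rw [← h3, hU, ← T.pull_comp gA (Aff.pr κ X) vXF.sm ⟨_, _, _, _, sA⟩ sX, gA1]
  have c₀ : IsClosedImmersion i₀.left :=
    MorphismProperty.of_isPullback (P := @IsClosedImmersion) (i2.map (Over.forget _)) cI
  -- the level of `L`
  let _ : Algebra k L := ((algebraMap F L).comp (algebraMap k F)).toAlgebra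
  have tkFL : IsScalarTower k F L := IsScalarTower.of_algebraMap_eq' rfl
  have tkL : IsScalarTower k₀ k L := IsScalarTower.of_algebraMap_eq fun a => by
    rw [IsScalarTower.algebraMap_apply k F L, ← IsScalarTower.algebraMap_apply k₀ k F,
      ← IsScalarTower.algebraMap_apply k₀ F L]
  have aL : IsAlgClosed L := IsAlgClosure.isAlgClosed F
  have hQ := IsPullback.of_hasPullback
    (pullback.snd x (ptMap k₀ (IsScalarTower.toAlgHom k₀ k F)))
    (ptMap k₀ (IsScalarTower.toAlgHom k₀ F L))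
  have vXL := genclass_var hQ vXF
  obtain ⟨j, j1, j2⟩ : ∃ j : Y ⟶ pullback
      (pullback.snd x (ptMap k₀ (IsScalarTower.toAlgHom k₀ k F)))
      (ptMap k₀ (IsScalarTower.toAlgHom k₀ F L)), j ≫ pullback.snd _ _ = y ∧
      IsPullback p j i₀ (pullback.fst _ _) := by
    have hw : (p ≫ i₀) ≫ pullback.snd x (ptMap k₀ (IsScalarTower.toAlgHom k₀ k F)) =
        y ≫ ptMap k₀ (IsScalarTower.toAlgHom k₀ F L) := by
      rw [Category.assoc, i1, hp.w]
    refine ⟨hQ.lift _ _ hw, hQ.lift_snd _ _ _, ?_⟩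
    refine IsPullback.of_bot ?_ (hQ.lift_fst _ _ _).symm hQ
    rw [hQ.lift_snd, i1]
    exact hp
  have hbig := hQ.paste_horiz (IsPullback.of_hasPullback x
    (ptMap k₀ (IsScalarTower.toAlgHom k₀ k F)))
  rw [genclass_ptMap] at hbig
  have htr := E.tr_field x _ _ (m + 1) hX hbig
  have e3 : T.pull (pullback.fst (pullback.snd x (ptMap k₀ (IsScalarTower.toAlgHom k₀ k F)))
      (ptMap k₀ (IsScalarTower.toAlgHom k₀ F L)) ≫ pullback.fst x _) h =
      T.pull (pullback.fst _ _) (T.push i₀ 1) := by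
    rw [T.pull_comp _ _ vXL.sm vXF.sm sX, e1]
  refine ⟨?_, ?_⟩
  · by_contra hne
    have hemp : IsEmpty Y₀.left := not_nonempty_iff.1 hne
    rw [E.empty Y₀ hemp, map_zero, map_zero] at e3
    have h4 := T.cl_pull (pullback.fst (pullback.snd x
      (ptMap k₀ (IsScalarTower.toAlgHom k₀ k F)))
      (ptMap k₀ (IsScalarTower.toAlgHom k₀ F L)) ≫ pullback.fst x _) vXL.isWeil hX.isWeil h
    rw [e3, map_zero] at h4
    have h5 : T.cl X h = 0 := by
      refine T.poincare X hX.isWeil _ fun v => ?_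
      rw [← htr, map_mul, ← h4, zero_mul, map_zero]
    have h6 := (E.lefschetz x (m + 1) hX i e hc he).1 (m + 1) le_rfl 1 (by
      rw [Nat.sub_self]
      exact T.oneH_mem X hX.isWeil)
    rw [hh, h5, zero_pow (Nat.succ_ne_zero m), zero_mul] at h6
    have h7 := h6 rfl
    obtain ⟨q, -⟩ := hX.exists_point
    have h8 := congrArg (T.pullH q) h7
    rw [map_one, map_zero] at h8
    have h9 := T.tr_pt (k := k)
    rw [h8, map_zero] at h9
    exact zero_ne_one h9
  · intro hY z
    have hfl : Flat (pullback.fst (pullback.snd x (ptMap k₀ (IsScalarTower.toAlgHom k₀ k F)))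
        (ptMap k₀ (IsScalarTower.toAlgHom k₀ F L))).left :=
      MorphismProperty.of_isPullback (P := @Flat) (hQ.map (Over.forget _)).flip
        genclass_flat_field
    have e2 := T.push_baseChange i₀ j p _ j2 ⟨_, _, _, _, hy₀⟩ vXF.sm hY.sm vXL.sm
      inferInstance hfl 1
    rw [map_one (T.pull p), ← e3] at e2
    have e4 : p ≫ toI ≫ Fam.inc C ≫ Aff.pr κ X = j ≫ pullback.fst _ _ ≫ pullback.fst _ _ := by
      rw [← Category.assoc toI, i2.w, Category.assoc, gA1, ← Category.assoc, j2.w,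
        Category.assoc]
    rw [e4, T.pullH_comp _ _ hY.isWeil vXL.isWeil hX.isWeil, ← htr, map_mul,
      ← T.cl_pull _ vXL.isWeil hX.isWeil, e2,
      T.cl_push y _ j j1 m (m + 1) hY vXL, map_one, one_mul]

end Pool.Agent.Lib.MP_4ca46c_ag.Std
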