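import Mathlib
import Pool.Agent.Lib.MP_4ca46c_ag.Sign.Theory

/-!
# Specification: geometric connectedness of the generic hyperplane section

No cohomology is used. `Y₀` over `F` is the generic hyperplane section. The complement of the
diagonal in `Y₀ × Y₀` is a generic fibre of an affine bundle over an irreducible scheme, so it is
irreducible. The fibre of `Y₀ × Y₀ ⟶ Y₀` over a suitable point `y` is irreducible and has a
rational point, so `Y₀` is geometrically connected.
-/

namespace Pool.Agent.Lib.MP_4ca46c_ag.Std

open CategoryTheory Limits AlgebraicGeometry TensorProduct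
open Pool.Agent.Lib.MP_4ca46c_ag.Sign

/-- Local rings of smooth algebras over a field are domains.

PROOF. Mathlib: `Algebra.IsSmoothAt.exists_notMem_isStandardSmooth` gives `a ∉ p` with
`A_a` standard smooth over `k` (the relative dimension `n` is obtained from
`IsStandardSmooth`, e.g. by choosing a presentation), and
`Algebra.IsStandardSmoothOfRelativeDimension.exists_etale_mvPolynomial` an étale map
`P = k[x_1..x_n] → A_a`. Let `Q` be the fraction field of `P`; `P` is integrally closed.
`TensorProduct.toIntegralClosure_bijective_of_smooth` (`Mathlib/RingTheory/Smooth/IntegralClosure`)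
for `R = P`, `S = A_a`, `B = Q` shows that `A_a` is integrally closed in `A_a ⊗_P Q`. Let
`R' = A_p` (a localization of `A_a`) and `T = R' ⊗_P Q`, a localization of `A_a ⊗_P Q`, which is
étale over the field `Q`, so finite-dimensional and reduced
(`Algebra.FormallyUnramified.isReduced_of_field`, ...); so `T` is Artinian and reduced. `R' → T`
is injective (`R'` is flat over `P`, `P → Q` is injective) and `R'` is integrally closed in `T`.
An idempotent `e` of `T` is integral over `R'`, so it comes from the local ring `R'` and is `0`
or `1`. A reduced Artinian ring without nontrivial idempotents is a field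
(`IsArtinianRing.equivPi`), so `T` is a field and `R' ⊆ T` is a domain. (Alternative: show that
`A_a ⊗_P Q` is a finite product of fields `Q_i`, the idempotents lie in `A_a`.) -/
def StSmDomain : Prop := ∀ (k A : Type) [Field k] [CommRing A] [Algebra k A]
  [Algebra.Smooth k A] (p : Ideal A) [p.IsPrime], IsDomain (Localization.AtPrime p)

/-- Stalks of smooth schemes over a field are domains.

PROOF. Take an affine open neighbourhood `U` of `x`; `Γ(X, U)` is a smooth `k`-algebra and the
stalk is its localization at a prime (`IsAffineOpen.isLocalization_stalk`), `StSmDomain`. -/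
def StStalk : Prop := ∀ (k : Type) [Field k] (X : Scheme.{0})
  (f : X ⟶ Spec (CommRingCat.of k)), Smooth f → ∀ x : X, IsDomain (X.presheaf.stalk x)

/-- A connected Noetherian scheme whose stalks are domains is irreducible.

PROOF. The irreducible components are finitely many closed sets
(`TopologicalSpace.NoetherianSpace.finite_irreducibleComponents`) which cover `X`. Two different
components `Z₁`, `Z₂` are disjoint: let `x` be in both, `η_i` the generic point of `Z_i`
(`X` is quasi-sober); `η_i ⤳ x`, so `η_i` is in the range of `X.fromSpecStalk x`
(`Scheme.range_fromSpecStalk`); the stalk is a domain, so its zero ideal gives a point `ξ` with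
`ξ ⤳ η₁`, `ξ ⤳ η₂`, `closure ξ` is irreducible and contains `Z₁` and `Z₂`, so it equals both
(maximality). So each component is clopen, and equals `X` as `X` is connected. -/
def StIrr : Prop := ∀ (X : Scheme.{0}), IsNoetherian X → ConnectedSpace X →
  (∀ x : X, IsDomain (X.presheaf.stalk x)) → IrreducibleSpace X

/-- Over an algebraically closed field the tensor product of domains is a domain.

PROOF. (`A`, `B` nonzero, so `A ⊗ B` is nontrivial as a tensor product of nonzero vector spaces.)
Let `x * y = 0`. `x`, `y` come from `A' ⊗ B` with `A'` a finitely generated subalgebra of `A`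
(injective into `A ⊗ B`), so assume that `A` is a finitely generated domain. Write
`x = ∑ a_i ⊗ b_i`, `y = ∑ a'_j ⊗ b'_j` with `b_i` linearly independent and `b'_j` linearly
independent. For a maximal ideal `m` of `A`, `A / m = k` (Nullstellensatz), and reducing gives
`(∑ a_i(m) b_i) (∑ a'_j(m) b'_j) = 0` in the domain `B`: all `a_i(m) = 0` or all `a'_j(m) = 0`. So
`a_i a'_j ∈ m` for all `i, j, m`, and `a_i a'_j = 0` because `A` is Jacobson and reduced. So all
`a_i = 0` or all `a'_j = 0`. (Possibly parts are in Mathlib, see
`Mathlib/FieldTheory/LinearDisjoint.lean`, `Mathlib/RingTheory/LinearDisjoint.lean`.) -/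
def StTensor : Prop := ∀ (k A B : Type) [Field k] [IsAlgClosed k] [CommRing A] [IsDomain A]
  [Algebra k A] [CommRing B] [IsDomain B] [Algebra k B], IsDomain (A ⊗[k] B)

/-- A connected scheme over an algebraically closed field is geometrically connected.

PROOF. Let `K` be a field and `y : Spec K ⟶ Spec L`. The morphism `y` is
`GeometricallyIrreducible` (base changes are `Spec (M ⊗_L K)`, `StTensor`), hence
`GeometricallyConnected` and so is its base change `p : X ×_L K ⟶ X`. `p` is an open map
(`UniversallyOpen` of a morphism of spectra of fields, Mathlib has instances for morphisms to the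
spectrum of a field). So `X ×_L K` is connected by `GeometricallyConnected.connectedSpace`. -/
def StGeomConn : Prop := ∀ (L : Type) [Field L] [IsAlgClosed L] (X : Scheme.{0})
  (f : X ⟶ Spec (CommRingCat.of L)), ConnectedSpace X → GeometricallyConnected f

/-- A connected scheme over a field with a rational point stays connected under algebraic field
extensions.

PROOF. `p : X' ⟶ X` is integral, so a closed map, and it is open (universally open, base change
of a morphism of spectra of fields) and surjective. The fibre of `p` over `x = s (point)` is
one point (the fibre product of `s` and `p` is `Spec M`). If `X'` is the disjoint union of two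
nonempty clopen sets `U`, `V`, then `p U`, `p V` are clopen and nonempty, so equal to `X`, so both
`U` and `V` meet the fibre over `x`, which is one point: a contradiction. -/
def StRatPt : Prop := ∀ (κ M : Type) [Field κ] [Field M] [Algebra κ M]
  [Algebra.IsAlgebraic κ M] (X X' : Scheme.{0}) (f : X ⟶ Spec (CommRingCat.of κ))
  (f' : X' ⟶ Spec (CommRingCat.of M)) (p : X' ⟶ X) (s : Spec (CommRingCat.of κ) ⟶ X),
  s ≫ f = 𝟙 _ → IsPullback p f' f (Spec.map (CommRingCat.ofHom (algebraMap κ M))) →
  ConnectedSpace X → ConnectedSpace X'

/-- **Geometric connectedness.**

PROOF. Let `κ = κ(y)` be the residue field, `M` an algebraic closure of `κ`. The scheme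
`Y_κ = Y₀ ×_F κ` is connected (hypothesis) and has the rational point given by `y`; so
`Y_M = Y₀ ×_F M` is connected (`StRatPt`). There is an embedding `L → M` over `F`
(`IsAlgClosed.lift`), and `Y_M ⟶ Y_L` is surjective, so `Y_L` is connected. Then `StGeomConn`. -/
def StConn : Prop := ∀ (F L : Type) [Field F] [Field L] [Algebra F L] [IsAlgClosure F L]
  (Y₀ Y : Scheme.{0}) (f : Y₀ ⟶ Spec (CommRingCat.of F)) (g : Y ⟶ Spec (CommRingCat.of L))
  (p : Y ⟶ Y₀) (y : Y₀),
  IsPullback p g f (Spec.map (CommRingCat.ofHom (algebraMap F L))) →
  ConnectedSpace (pullback f (Y₀.fromSpecResidueField y ≫ f) : Scheme.{0}) →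
  GeometricallyConnected g

/-- A smooth scheme of relative dimension `≥ 1` over a field has no isolated points.

PROOF. Let `{x}` be open. It is an affine open subscheme `Spec A` (an open set with one point is
contained in, hence equal to, a basic affine open), smooth of relative dimension `m` over `κ`, so
after shrinking `A` is standard smooth of relative dimension `m`, and étale over
`P = κ[x_1..x_m]` (`exists_etale_mvPolynomial`). `A` is a Noetherian ring with one prime, so
Artinian and finite over `κ`. `P → A` is injective, since `A` is flat over the domain `P` and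
`A ≠ 0` (flat modules over a domain are torsion free). But `P` is infinite-dimensional over `κ`
for `m ≥ 1`. -/
def StIso : Prop := ∀ (κ : Type) [Field κ] (X : Scheme.{0}) (f : X ⟶ Spec (CommRingCat.of κ))
  (m : ℕ), 1 ≤ m → SmoothOfRelativeDimension m f → ∀ x : X, ¬ IsOpen ({x} : Set X)

/-- PROOF. Let `P = Y₀ ×_F Y₀` and `Q₀ ⊆ P` the complement of the diagonal, irreducible or empty
(hypothesis). For `y ∈ Y₀` let `P_y` be the fibre of the second projection, homeomorphic to
`Y_y = pullback f (fromSpecResidueField y ≫ f)` (the square of `pullback.snd f f` and
`Y₀.fromSpecResidueField y` is cartesian by pasting). The diagonal meets `P_y` in exactly one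
point `δ` (the diagonal is a section of `pullback.snd`; a point of `P_y` on the diagonal is the
image of `y`). If `Q₀` were empty, `P_y = {δ}` for any `y` (`Y₀` is nonempty), contradicting
`StIso` for `Y_y ⟶ Spec κ(y)` (smooth of relative dimension `m ≥ 1` by base change). So `Q₀` has a
generic point `ξ`; let `y = pullback.snd f f ξ`. Every point of `Q₀ ∩ P_y` is a specialization of
`ξ`, and `ξ ∈ Q₀ ∩ P_y`, so `Q₀ ∩ P_y` is irreducible (its closure in `P_y` is the closure of
`ξ`). `δ` is in this closure, otherwise `{δ}` is open in `P_y`, contradicting `StIso`. So
`P_y` is the closure of `ξ` in `P_y`: irreducible, hence connected. -/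
def StFib : Prop := ∀ (F : Type) [Field F] (Y₀ : Scheme.{0})
  (f : Y₀ ⟶ Spec (CommRingCat.of F)) (m : ℕ), 1 ≤ m → SmoothOfRelativeDimension m f →
  IsSeparated f → Nonempty Y₀ →
  IsPreirreducible ((Set.range (pullback.diagonal f))ᶜ) →
  ∃ y : Y₀, ConnectedSpace (pullback f (Y₀.fromSpecResidueField y ≫ f) : Scheme.{0})

/-- An affine bundle over an irreducible scheme is irreducible.

PROOF. Locally on `U` the map is `𝔸^m × V ⟶ V`, which is geometrically irreducible and
universally open (Mathlib: `AffineSpace.lean`, instance for `𝔸(n; S) ↘ S`; `n = Fin m`; smooth
morphisms are universally open). Both properties are local on the target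
(`IsZariskiLocalAtTarget`), so `f` has them, and
`GeometricallyIrreducible.irreducibleSpace` applies. -/
def StBundleIrr : Prop := ∀ (E U : Scheme.{0}) (f : E ⟶ U), IsAffineBundle f →
  IrreducibleSpace U → IrreducibleSpace E

/-- The generic fibre of an irreducible scheme over an integral affine scheme is preirreducible.

PROOF. Let `η` be the generic point of `Spec R`. `g : Q ⟶ W` is a base change of
`Spec (Frac R) ⟶ Spec R`, which is a preimmersion (`IsPreimmersion.mk_SpecMap`, localization), so
`g` is a preimmersion, in particular a topological embedding; its image is the set of points of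
`W` over `η` (`Scheme.Pullback.range_fst` or similar). If `Q` is nonempty, the generic point `w`
of `W` specializes to a point over `η`, so its image specializes to `η`, so it is `η`: `w` is in
the image of `g`. A subspace of an irreducible space containing the generic point is
irreducible. -/
def StGenIrr : Prop := ∀ (R F : Type) [CommRing R] [IsDomain R] [Field F] [Algebra R F]
  [IsFractionRing R F] (W Q : Scheme.{0}) (b : W ⟶ Spec (CommRingCat.of R))
  (g : Q ⟶ W) (c : Q ⟶ Spec (CommRingCat.of F)),
  IsPullback g c b (Spec.map (CommRingCat.ofHom (algebraMap R F))) →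
  IrreducibleSpace W → PreirreducibleSpace Q

end Pool.Agent.Lib.MP_4ca46c_ag.Std
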