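import Mathlib
import Pool.Agent.Lib.MP_4ca46c_ag.Std.ConnSpec

/-!
# A connected scheme over an algebraically closed field is geometrically connected
-/

namespace Pool.Agent.Lib.MP_4ca46c_ag.Std

open CategoryTheory Limits AlgebraicGeometry TensorProduct
open Pool.Agent.Lib.MP_4ca46c_ag.Sign

/-- Field extensions of an algebraically closed field are geometrically connected. -/
lemma geomconn_field (h : StTensor) (L K : Type) [Field L] [IsAlgClosed L] [Field K]
    (y : Spec (CommRingCat.of K) ⟶ Spec (CommRingCat.of L)) : GeometricallyConnected y := by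
  refine ⟨geometrically_iff_of_commRing_of_isClosedUnderIsomorphisms.mpr fun M _ _ ↦ ?_⟩
  obtain ⟨φ, rfl⟩ := Spec.map_surjective y
  algebraize [φ.hom]
  have hd : IsDomain (K ⊗[L] M) := h L K M
  have e := pullbackSpecIso L K M
  have hc : ConnectedSpace (Spec (CommRingCat.of (K ⊗[L] M))) := by
    have : IrreducibleSpace (Spec (CommRingCat.of (K ⊗[L] M))) :=
      inferInstanceAs (IrreducibleSpace (PrimeSpectrum (K ⊗[L] M)))
    infer_instance
  exact (e.hom.homeomorph.connectedSpace_iff).mpr hc

theorem tGeomConn (h : StTensor) : StGeomConn := by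
  intro L _ _ X f hX
  refine ⟨geometrically_iff_of_isClosedUnderIsomorphisms.mpr fun K _ y ↦ ?_⟩
  have := geomconn_field h L K y
  infer_instance

end Pool.Agent.Lib.MP_4ca46c_ag.Std
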