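import Pool.Agent.Lib.MP_4ca46c_ag.Std.ConnSpec

/-!
# Smooth schemes of positive dimension have no isolated points
-/

namespace Pool.Agent.Lib.MP_4ca46c_ag.Std

open CategoryTheory Limits AlgebraicGeometry TensorProduct
open Pool.Agent.Lib.MP_4ca46c_ag.Sign

theorem isopt_poly {R : Type} [CommRing R] [IsDomain R] [IsJacobsonRing R] {m : ℕ} (hm : 1 ≤ m)
    (y : PrimeSpectrum (MvPolynomial (Fin m) R)) :
    ¬ IsOpen ({y} : Set (PrimeSpectrum (MvPolynomial (Fin m) R))) := by
  intro ho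
  obtain ⟨_, ⟨f, rfl⟩, hyf, hf⟩ :=
    PrimeSpectrum.isTopologicalBasis_basic_opens.exists_subset_of_mem_open
      (Set.mem_singleton y) ho
  have hf0 : f ≠ 0 := by
    rintro rfl
    exact hyf y.asIdeal.zero_mem
  have hbot : (⟨⊥, Ideal.isPrime_bot⟩ : PrimeSpectrum (MvPolynomial (Fin m) R)) = y := by
    apply hf
    show f ∉ (⊥ : Ideal (MvPolynomial (Fin m) R))
    rwa [Ideal.mem_bot]
  have hmax : ∀ M : Ideal (MvPolynomial (Fin m) R), M.IsMaximal → f ∈ M := by
    intro M hM
    by_contra hfM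
    have h1 : (⟨M, hM.isPrime⟩ : PrimeSpectrum (MvPolynomial (Fin m) R)) = y := hf hfM
    have h2 : M = ⊥ := by
      have h3 := h1.trans hbot.symm
      exact congrArg PrimeSpectrum.asIdeal h3
    subst h2
    have h4 : (MvPolynomial.X (⟨0, hm⟩ : Fin m) : MvPolynomial (Fin m) R) ∉
        (⊥ : Ideal (MvPolynomial (Fin m) R)) := by
      rw [Ideal.mem_bot]
      exact MvPolynomial.X_ne_zero _
    obtain ⟨z, i, hi, hzi⟩ := hM.exists_inv h4
    rw [Ideal.mem_bot] at hi
    rw [hi, add_zero] at hzi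
    have h5 := congrArg (MvPolynomial.constantCoeff) hzi
    rw [map_mul, MvPolynomial.constantCoeff_X, mul_zero, map_one] at h5
    exact zero_ne_one h5
  have hjac : f ∈ (⊥ : Ideal (MvPolynomial (Fin m) R)).jacobson := by
    rw [Ideal.jacobson, Ideal.mem_sInf]
    intro M hM
    exact hmax M hM.2
  have hJ : IsJacobsonRing (MvPolynomial (Fin m) R) := inferInstance
  rw [hJ.out (Ideal.isPrime_bot).isRadical, Ideal.mem_bot] at hjac
  exact hf0 hjac

theorem isopt_etale {P A : Type} [CommRing P] [CommRing A] (g : P →+* A) (hg : g.Etale) :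
    IsOpenMap (PrimeSpectrum.comap g) := by
  algebraize [g]
  exact PrimeSpectrum.isOpenMap_comap_of_hasGoingDown_of_finitePresentation

theorem isopt_img {P A : Type} [CommRing P] [CommRing A] (g : P →+* A) (hg : g.Etale)
    (x : PrimeSpectrum A) (hx : IsOpen ({x} : Set (PrimeSpectrum A))) :
    IsOpen ({PrimeSpectrum.comap g x} : Set (PrimeSpectrum P)) := by
  have h1 := isopt_etale g hg _ hx
  rwa [Set.image_singleton] at h1

theorem tIso : StIso := by
  intro κ _ X f m hm hsm x hx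
  obtain ⟨U, hU, V, hV, hxV, e, hf⟩ := hsm.exists_isStandardSmoothOfRelativeDimension x
  have hsub : Subsingleton (Spec (CommRingCat.of κ)) :=
    inferInstanceAs (Subsingleton (PrimeSpectrum κ))
  have hUtop : U = ⊤ := by
    ext z
    have h1 : f x ∈ U := e hxV
    have h2 : z = f x := Subsingleton.elim _ _
    rw [h2]
    exact ⟨fun _ => trivial, fun _ => h1⟩
  subst hUtop
  have e1 : Γ(Spec (CommRingCat.of κ), ⊤) ≃+* κ :=
    (Scheme.ΓSpecIso (CommRingCat.of κ)).commRingCatIsoToRingEquiv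
  have hdom : IsDomain Γ(Spec (CommRingCat.of κ), ⊤) := e1.toMulEquiv.isDomain κ
  have hjac : IsJacobsonRing Γ(Spec (CommRingCat.of κ), ⊤) := (isJacobsonRing_iso e1).2 inferInstance
  obtain ⟨g, -, hg⟩ := hf.exists_etale_mvPolynomial
  obtain ⟨x', hx'⟩ : ∃ x' : Spec Γ(X, V), hV.fromSpec x' = x := by
    have h1 : x ∈ Set.range hV.fromSpec := by
      rw [hV.range_fromSpec]
      exact hxV
    exact h1
  have h2 : IsOpen ({x'} : Set (Spec Γ(X, V))) := by
    have h3 := hx.preimage hV.fromSpec.continuous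
    have h4 : hV.fromSpec ⁻¹' {x} = {x'} := by
      ext z
      rw [Set.mem_preimage, Set.mem_singleton_iff, Set.mem_singleton_iff, ← hx']
      exact hV.fromSpec.isOpenEmbedding.injective.eq_iff
    rwa [h4] at h3
  exact isopt_poly hm _ (isopt_img g hg x' h2)

end Pool.Agent.Lib.MP_4ca46c_ag.Std
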