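import Pool.Agent.Lib.MP_4ca46c_ag.Std.BertSpec

/-!
# Jacobian criterion for a hypersurface
-/

namespace Pool.Agent.Lib.MP_4ca46c_ag.Std

open TensorProduct

section unit

variable {F B : Type} [CommRing F] [CommRing B] [Algebra F B]

/-- Formal smoothness of the hypersurface, if a partial derivative is a unit. -/
lemma jac_smooth [Algebra.FormallySmooth F B] (f : B) (pr : (KaehlerDifferential F B) →ₗ[B] B)
    (hu : pr (KaehlerDifferential.D F B f) = 1) :
    Algebra.FormallySmooth F (B ⧸ Ideal.span {f}) := by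
  have hsurj : Function.Surjective (algebraMap B (B ⧸ Ideal.span {f})) :=
    Ideal.Quotient.mk_surjective
  have hker : ∀ b, b ∈ RingHom.ker (algebraMap B (B ⧸ Ideal.span {f})) ↔ ∃ a, a * f = b := by
    intro b
    rw [RingHom.mem_ker, Ideal.Quotient.algebraMap_eq, Ideal.Quotient.eq_zero_iff_mem,
      Ideal.mem_span_singleton']
  have hf : f ∈ RingHom.ker (algebraMap B (B ⧸ Ideal.span {f})) := (hker f).mpr ⟨1, one_mul f⟩
  set J := RingHom.ker (algebraMap B (B ⧸ Ideal.span {f})) with hJ
  let cf : J.Cotangent := J.toCotangent ⟨f, hf⟩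
  let θ : B →ₗ[B] J.Cotangent := LinearMap.toSpanSingleton B _ cf
  have hθ : ∀ b, θ b = b • cf := fun b => LinearMap.toSpanSingleton_apply _ _ _ _
  have hθf : LinearMap.ker (Algebra.linearMap B (B ⧸ Ideal.span {f})) ≤ LinearMap.ker θ := by
    intro b hb
    obtain ⟨a, rfl⟩ := (hker b).mp hb
    rw [LinearMap.mem_ker, hθ, mul_smul, ← map_smul, (J.toCotangent_eq_zero _).mpr, smul_zero]
    rw [pow_two]
    exact Ideal.mul_mem_mul hf hf
  let e := (Algebra.linearMap B (B ⧸ Ideal.span {f})).quotKerEquivOfSurjective hsurj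
  let θ' : (B ⧸ Ideal.span {f}) →ₗ[B] J.Cotangent :=
    (Submodule.liftQ _ θ hθf) ∘ₗ e.symm.toLinearMap
  have hθ' : ∀ b : B, θ' (algebraMap B _ b) = b • cf := by
    intro b
    have h1 : e.symm (algebraMap B _ b) = Submodule.Quotient.mk b := by
      rw [LinearEquiv.symm_apply_eq]
      rfl
    change (Submodule.liftQ _ θ hθf) (e.symm (algebraMap B _ b)) = _
    rw [h1, Submodule.liftQ_apply, hθ]
  let l : (B ⧸ Ideal.span {f}) ⊗[B] (KaehlerDifferential F B) →ₗ[B] J.Cotangent :=
    θ' ∘ₗ (TensorProduct.rid B (B ⧸ Ideal.span {f})).toLinearMap ∘ₗ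
      (LinearMap.lTensor (B ⧸ Ideal.span {f}) pr)
  refine (Algebra.FormallySmooth.iff_split_injection (R := F) (P := B)
    (A := B ⧸ Ideal.span {f}) hsurj).mpr ⟨l, ?_⟩
  refine LinearMap.ext fun x => ?_
  obtain ⟨⟨j, hj⟩, rfl⟩ := J.toCotangent_surjective x
  obtain ⟨a, rfl⟩ := (hker j).mp hj
  have h1 : J.toCotangent ⟨a * f, hj⟩ = a • cf := by
    rw [← map_smul]
    rfl
  rw [h1, map_smul, map_smul]
  congr 1
  change θ' ((TensorProduct.rid B (B ⧸ Ideal.span {f})) ((LinearMap.lTensor _ pr)
    (1 ⊗ₜ KaehlerDifferential.D F B f))) = cf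
  rw [LinearMap.lTensor_tmul, hu, TensorProduct.rid_tmul, one_smul]
  have h2 := hθ' 1
  rwa [map_one, one_smul] at h2

/-- The differentials of the hypersurface, if a partial derivative is a unit. -/
lemma jac_basis {I : Type} [Fintype I] [DecidableEq I] (x : I → B)
    (β : Module.Basis I B (KaehlerDifferential F B))
    (hβ : ∀ k, β k = KaehlerDifferential.D F B (x k)) (f : B) (m : I) (u : Bˣ)
    (hu : β.coord m (KaehlerDifferential.D F B f) = u) :
    ∃ β' : Module.Basis {k : I // k ≠ m} (B ⧸ Ideal.span {f})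
      (KaehlerDifferential F (B ⧸ Ideal.span {f})),
      Set.range β' ⊆ Set.range (KaehlerDifferential.D F (B ⧸ Ideal.span {f})) := by
  have hsurj : Function.Surjective (Ideal.Quotient.mkₐ F (Ideal.span {f})) :=
    Ideal.Quotient.mk_surjective
  have hker : ∀ b, Ideal.Quotient.mkₐ F (Ideal.span {f}) b = 0 ↔ ∃ a, a * f = b := by
    intro b
    rw [Ideal.Quotient.mkₐ_eq_mk, Ideal.Quotient.eq_zero_iff_mem, Ideal.mem_span_singleton']
  set π := Ideal.Quotient.mkₐ F (Ideal.span {f}) with hπ
  let v : {k : I // k ≠ m} → KaehlerDifferential F (B ⧸ Ideal.span {f}) := fun k =>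
    KaehlerDifferential.D F (B ⧸ Ideal.span {f}) (π (x k))
  -- the derivations
  let d : I → Derivation F B B := fun k => (β.coord k).compDer (KaehlerDifferential.D F B)
  have hd : ∀ k b, d k b = β.coord k (KaehlerDifferential.D F B b) := fun k b => rfl
  have hdx : ∀ k j, d k (x j) = if j = k then 1 else 0 := by
    intro k j
    rw [hd, ← hβ, Module.Basis.coord_apply, Module.Basis.repr_self, Finsupp.single_apply]
  let δ : I → Derivation F B B := fun k => d k - (↑u⁻¹ * d k f) • d m
  have hδ : ∀ k b, δ k b = d k b - ↑u⁻¹ * d k f * d m b := fun k b => rfl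
  have hδf : ∀ k, δ k f = 0 := by
    intro k
    rw [hδ, hd m f, hu, mul_comm (↑u⁻¹ : B), mul_assoc, Units.inv_mul, mul_one, sub_self]
  have hδ0 : ∀ k b, π b = 0 → π (δ k b) = 0 := by
    intro k b hb
    obtain ⟨a, rfl⟩ := (hker b).mp hb
    rw [Derivation.leibniz, hδf, smul_zero, zero_add, hker]
    exact ⟨δ k a, by rw [smul_eq_mul, mul_comm]⟩
  let Δ : I → Derivation F (B ⧸ Ideal.span {f}) (B ⧸ Ideal.span {f}) := fun k =>
    Derivation.liftOfSurjective hsurj (hδ0 k)
  have hΔ : ∀ k b, Δ k (π b) = π (δ k b) := fun k b =>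
    Derivation.liftOfSurjective_apply hsurj (hδ0 k) b
  have hli : LinearIndependent (B ⧸ Ideal.span {f}) v := by
    rw [Fintype.linearIndependent_iff]
    intro g hg k
    have h1 := congrArg (Δ k).liftKaehlerDifferential hg
    rw [map_zero, map_sum] at h1
    rw [← h1, Finset.sum_eq_single k]
    · rw [map_smul, Derivation.liftKaehlerDifferential_comp_D, hΔ, hδ, hdx, hdx, if_pos rfl,
        if_neg k.2, mul_zero, sub_zero, map_one, smul_eq_mul, mul_one]
    · intro j _ hj
      rw [map_smul, Derivation.liftKaehlerDifferential_comp_D, hΔ, hδ, hdx, hdx,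
        if_neg (fun h => hj (Subtype.ext h)), if_neg j.2, mul_zero, sub_zero, map_zero, smul_zero]
    · intro h
      exact absurd (Finset.mem_univ k) h
  -- the differentials span
  have hDb : ∀ b, KaehlerDifferential.D F (B ⧸ Ideal.span {f}) (π b) =
      ∑ k, π (d k b) • KaehlerDifferential.D F (B ⧸ Ideal.span {f}) (π (x k)) := by
    intro b
    have h1 := congrArg (KaehlerDifferential.map F F B (B ⧸ Ideal.span {f}))
      (β.sum_repr (KaehlerDifferential.D F B b))
    rw [map_sum, KaehlerDifferential.map_D] at h1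
    refine h1.symm.trans (Finset.sum_congr rfl fun k _ => ?_)
    rw [map_smul, hβ, KaehlerDifferential.map_D]
    exact (algebraMap_smul (B ⧸ Ideal.span {f}) _ _).symm
  have hgen : ∀ k, KaehlerDifferential.D F (B ⧸ Ideal.span {f}) (π (x k)) ∈
      Submodule.span (B ⧸ Ideal.span {f}) (Set.range v) := by
    have h0 : ∀ k, k ≠ m → KaehlerDifferential.D F (B ⧸ Ideal.span {f}) (π (x k)) ∈
        Submodule.span (B ⧸ Ideal.span {f}) (Set.range v) := fun k hk =>
      Submodule.subset_span ⟨⟨k, hk⟩, rfl⟩
    intro k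
    by_cases hk : k = m
    · subst hk
      have hf0 : π f = 0 := (hker f).mpr ⟨1, one_mul f⟩
      have h1 := hDb f
      rw [hf0, map_zero, ← Finset.add_sum_erase _ _ (Finset.mem_univ k), hd k f, hu] at h1
      have h2 : KaehlerDifferential.D F (B ⧸ Ideal.span {f}) (π (x k)) =
          π (↑u⁻¹ : B) • -(∑ j ∈ Finset.univ.erase k,
            π (d j f) • KaehlerDifferential.D F (B ⧸ Ideal.span {f}) (π (x j))) := by
        rw [← eq_neg_iff_add_eq_zero.mpr h1.symm, smul_smul, ← map_mul, Units.inv_mul, map_one,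
          one_smul]
      rw [h2]
      exact Submodule.smul_mem _ _ (neg_mem (sum_mem fun j hj =>
        Submodule.smul_mem _ _ (h0 j (Finset.mem_erase.mp hj).1)))
    · exact h0 k hk
  have hspan : ⊤ ≤ Submodule.span (B ⧸ Ideal.span {f}) (Set.range v) := by
    rw [← KaehlerDifferential.span_range_derivation, Submodule.span_le]
    rintro _ ⟨c, rfl⟩
    obtain ⟨b, rfl⟩ := hsurj c
    rw [SetLike.mem_coe, hDb]
    exact sum_mem fun k _ => Submodule.smul_mem _ _ (hgen k)
  refine ⟨Module.Basis.mk hli hspan, ?_⟩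
  rintro _ ⟨k, rfl⟩
  rw [Module.Basis.mk_apply]
  exact ⟨_, rfl⟩

end unit

/-- The case where a partial derivative is a unit. -/
lemma jac_std {F B : Type} [CommRing F] [CommRing B] [Algebra F B] [Algebra.FormallySmooth F B]
    [Algebra.FinitePresentation F B] {I : Type} [Fintype I] (x : I → B)
    (β : Module.Basis I B (KaehlerDifferential F B))
    (hβ : ∀ k, β k = KaehlerDifferential.D F B (x k)) (f : B) (m : I)
    (hu : IsUnit (β.coord m (KaehlerDifferential.D F B f))) (hnt : Nontrivial (B ⧸ Ideal.span {f}))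
    (n : ℕ) (hn : Fintype.card I = n + 1) :
    Algebra.IsStandardSmoothOfRelativeDimension n F (B ⧸ Ideal.span {f}) := by
  classical
  obtain ⟨u, hu⟩ := hu
  obtain ⟨β', hβ'⟩ := jac_basis x β hβ f m u hu.symm
  have h1 : Algebra.FormallySmooth F (B ⧸ Ideal.span {f}) :=
    jac_smooth f ((↑u⁻¹ : B) • β.coord m) (by
      rw [LinearMap.smul_apply, ← hu, smul_eq_mul, Units.inv_mul])
  have h2 : Algebra.FinitePresentation F (B ⧸ Ideal.span {f}) :=
    Algebra.FinitePresentation.quotient ⟨{f}, by simp⟩
  have h3 : Algebra.IsStandardSmooth F (B ⧸ Ideal.span {f}) :=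
    Algebra.IsStandardSmooth.of_basis_kaehlerDifferential β' hβ'
  rw [Algebra.IsStandardSmoothOfRelativeDimension.iff_of_isStandardSmooth,
    rank_eq_card_basis β']
  congr 1
  rw [Fintype.card_subtype_compl, hn]
  simp

/-- **Jacobian criterion for a hypersurface.** -/
theorem tJac : StJac := by
  intro F B _ _ _ n _ f q _ hf hD
  classical
  have hB : Nontrivial B := ⟨0, 1, fun h => ‹q.IsPrime›.ne_top ((Ideal.eq_top_iff_one q).mpr
    (h ▸ q.zero_mem))⟩
  have hstd : Algebra.IsStandardSmooth F B :=
    Algebra.IsStandardSmoothOfRelativeDimension.isStandardSmooth (n + 1)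
  obtain ⟨ι, σ, _, _, ⟨P, hP⟩⟩ := ‹Algebra.IsStandardSmoothOfRelativeDimension (n + 1) F B›
  have : Fintype ((Set.range P.map)ᶜ : Set ι) := Fintype.ofFinite _
  have hcard : Fintype.card ((Set.range P.map)ᶜ : Set ι) = n + 1 := by
    have h1 := P.rank_kaehlerDifferential
    rw [rank_eq_card_basis P.basisKaehler, hP] at h1
    exact_mod_cast h1
  set β := P.basisKaehler with hβdef
  have hβ : ∀ k, β k = KaehlerDifferential.D F B (P.val k) := fun k => P.basisKaehler_apply k
  obtain ⟨m, hm⟩ : ∃ m, β.coord m (KaehlerDifferential.D F B f) ∉ q := by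
    by_contra hcon
    push Not at hcon
    apply hD
    rw [← β.sum_repr (KaehlerDifferential.D F B f), TensorProduct.tmul_sum]
    refine Finset.sum_eq_zero fun k _ => ?_
    have h1 : algebraMap B q.ResidueField (β.repr (KaehlerDifferential.D F B f) k) = 0 :=
      Ideal.algebraMap_residueField_eq_zero.mpr (hcon k)
    rw [← TensorProduct.smul_tmul, Algebra.smul_def, mul_one, h1, TensorProduct.zero_tmul]
  set φ := β.coord m (KaehlerDifferential.D F B f) with hφ
  refine ⟨φ, hm, ?_⟩
  let β' : Module.Basis ((Set.range P.map)ᶜ : Set ι) (Localization.Away φ)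
      (KaehlerDifferential F (Localization.Away φ)) :=
    β.ofIsLocalizedModule (Localization.Away φ) (Submonoid.powers φ)
      (KaehlerDifferential.map F F B (Localization.Away φ))
  have hβ' : ∀ k, β' k = KaehlerDifferential.D F (Localization.Away φ)
      (algebraMap B (Localization.Away φ) (P.val k)) := by
    intro k
    rw [Module.Basis.ofIsLocalizedModule_apply, hβ, KaehlerDifferential.map_D]
  have hu : IsUnit (β'.coord m (KaehlerDifferential.D F (Localization.Away φ)
      (algebraMap B (Localization.Away φ) f))) := by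
    rw [← KaehlerDifferential.map_D F, Module.Basis.coord_apply,
      Module.Basis.ofIsLocalizedModule_repr_apply]
    exact IsLocalization.Away.algebraMap_isUnit φ
  have hloc : Algebra.IsStandardSmooth B (Localization.Away φ) :=
    Algebra.IsStandardSmooth.localization_away φ
  have hstd' : Algebra.IsStandardSmooth F (Localization.Away φ) :=
    Algebra.IsStandardSmooth.trans F B (Localization.Away φ)
  have hnt : Nontrivial (Localization.Away φ ⧸
      Ideal.span {algebraMap B (Localization.Away φ) f}) := by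
    rw [Ideal.Quotient.nontrivial_iff]
    intro htop
    have hφu : IsUnit (algebraMap B q.ResidueField φ) := by
      rw [isUnit_iff_ne_zero, Ne, Ideal.algebraMap_residueField_eq_zero]
      exact hm
    let ψ : Localization.Away φ →+* q.ResidueField := IsLocalization.Away.lift φ hφu
    have hψ : ∀ b, ψ (algebraMap B _ b) = algebraMap B q.ResidueField b := fun b =>
      IsLocalization.Away.lift_eq φ hφu b
    have h1 : Ideal.span {algebraMap B (Localization.Away φ) f} ≤ RingHom.ker ψ := by
      rw [Ideal.span_singleton_le_iff_mem, RingHom.mem_ker, hψ,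
        Ideal.algebraMap_residueField_eq_zero]
      exact hf
    rw [htop] at h1
    have h2 := h1 (Submodule.mem_top (x := 1))
    rw [RingHom.mem_ker, map_one] at h2
    exact one_ne_zero h2
  have hmain := jac_std (fun k : ((Set.range P.map)ᶜ : Set ι) =>
    algebraMap B (Localization.Away φ) (P.val k)) β' hβ'
    (algebraMap B (Localization.Away φ) f) m hu hnt n hcard
  have hI : (Ideal.span {f}).map (algebraMap B (Localization.Away φ)) =
      Ideal.span {algebraMap B (Localization.Away φ) f} := by
    rw [Ideal.map_span, Set.image_singleton]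
  rw [← hI] at hmain
  have hM : Algebra.algebraMapSubmonoid (B ⧸ Ideal.span {f}) (Submonoid.powers φ) =
      Submonoid.powers (Ideal.Quotient.mk (Ideal.span {f}) φ) := by
    rw [Algebra.algebraMapSubmonoid_powers]
    rfl
  have hL : IsLocalization (Submonoid.powers (Ideal.Quotient.mk (Ideal.span {f}) φ))
      (Localization.Away φ ⧸ (Ideal.span {f}).map (algebraMap B (Localization.Away φ))) := by
    rw [← hM]
    infer_instance
  let e := IsLocalization.algEquiv (Submonoid.powers (Ideal.Quotient.mk (Ideal.span {f}) φ))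
    (Localization.Away φ ⧸ (Ideal.span {f}).map (algebraMap B (Localization.Away φ)))
    (Localization.Away (Ideal.Quotient.mk (Ideal.span {f}) φ))
  have htow : IsScalarTower F (B ⧸ Ideal.span {f})
      (Localization.Away φ ⧸ (Ideal.span {f}).map (algebraMap B (Localization.Away φ))) := by
    refine IsScalarTower.of_algebraMap_eq fun r => ?_
    change Ideal.Quotient.mk _ (algebraMap F (Localization.Away φ) r) =
      Ideal.Quotient.mk _ (algebraMap B (Localization.Away φ) (algebraMap F B r))
    rw [← IsScalarTower.algebraMap_apply]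
  exact Algebra.IsStandardSmoothOfRelativeDimension.of_algEquiv n (e.restrictScalars F)

end Pool.Agent.Lib.MP_4ca46c_ag.Std
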