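import Pool.Agent.Lib.MP_4ca46c_ag.Std.ChowSpec

/-!
# Locally standard smooth algebras and smooth morphisms
-/

namespace Pool.Agent.Lib.MP_4ca46c_ag.Std

open CategoryTheory Limits AlgebraicGeometry TensorProduct
open Pool.Agent.Lib.MP_4ca46c_ag.Sign

theorem locsm_iff (F B : Type) [Field F] [CommRing B] [Algebra F B] (n : ℕ) :
    LocSm n F B ↔ RingHom.Locally (RingHom.IsStandardSmoothOfRelativeDimension n)
      (algebraMap F B) := by
  have h0 : ∀ b : B, Algebra.IsStandardSmoothOfRelativeDimension n F (Localization.Away b) ↔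
      RingHom.IsStandardSmoothOfRelativeDimension n
        ((algebraMap B (Localization.Away b)).comp (algebraMap F B)) := by
    intro b
    rw [← IsScalarTower.algebraMap_eq F B (Localization.Away b),
      RingHom.isStandardSmoothOfRelativeDimension_algebraMap]
  constructor
  · intro h
    refine ⟨{b | RingHom.IsStandardSmoothOfRelativeDimension n
        ((algebraMap B (Localization.Away b)).comp (algebraMap F B))}, ?_, fun t ht => ht⟩
    by_contra hne
    obtain ⟨q, hq, hle⟩ := Ideal.exists_le_maximal _ hne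
    obtain ⟨b, hb, hs⟩ := h q hq.isPrime
    exact hb (hle (Ideal.subset_span ((h0 b).1 hs)))
  · rintro ⟨s, hs, h⟩ q hq
    by_contra! hn
    apply hq.ne_top
    rw [← top_le_iff, ← hs, Ideal.span_le]
    intro t ht
    by_contra htq
    exact hn t htq ((h0 t).2 (h t ht))

theorem tLocSm₁ : StLocSm₁ := by
  intro F B _ _ _ n h
  rw [HasRingHomProperty.Spec_iff (P := @SmoothOfRelativeDimension n)]
  exact (locsm_iff F B n).1 h

theorem tLocSm₂ : StLocSm₂ := by
  intro k _ X x n hx U hU _ halg
  rw [locsm_iff, halg]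
  have h1 := HasRingHomProperty.appLE (P := @SmoothOfRelativeDimension n) x hx
    ⟨⊤, isAffineOpen_top _⟩ ⟨U, hU⟩ (by simp)
  obtain ⟨s, hs, h⟩ := h1
  refine ⟨s, hs, fun t ht => ?_⟩
  have h2 := (RingHom.isStandardSmoothOfRelativeDimension_respectsIso (n := n)).2 _
    (Scheme.ΓSpecIso (CommRingCat.of k)).symm.commRingCatIsoToRingEquiv (h t ht)
  exact h2

end Pool.Agent.Lib.MP_4ca46c_ag.Std
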