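import Mathlib
import Pool.Agent.Lib.MP_4ca46c_ag.Std.ChowSpec
import Pool.Agent.Lib.MP_4ca46c_ag.Sign.SmS
import Pool.Agent.Lib.MP_4ca46c_ag.Sign.VarCat

/-!
# Divisors on a product of projective spaces
-/

namespace Pool.Agent.Lib.MP_4ca46c_ag.Std

open CategoryTheory Limits AlgebraicGeometry TensorProduct
open Pool.Agent.Lib.MP_4ca46c_ag.Sign Pool.Agent.Lib.MP_4ca46c_ag.Hyp

theorem picprod_connected {k₀ : Type} [Field k₀] {F : Type} [Field F] [Algebra k₀ F] {X : Sch k₀}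
    {x : X ⟶ pt k₀ F} {n : ℕ} (h : IsVar x n) : ConnectedSpace X.left := by
  have h1 := h.connected
  have h2 : ConnectedSpace (pt k₀ F).left :=
    inferInstanceAs (ConnectedSpace (Spec (CommRingCat.of F)))
  have h3 : Subsingleton (pt k₀ F).left :=
    inferInstanceAs (Subsingleton (Spec (CommRingCat.of F)))
  exact GeometricallyConnected.connectedSpace_of_subsingleton x.left

theorem tPicProd (k₀ K : Type) [Field k₀] [Field K] (h1 : StPS) (h2 : StHyp) (h3 : StDi) :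
    StPicProd k₀ K := by
  classical
  intro T E k _ _ _ κ κ' _ _ _ _ i a ha
  -- dimensions
  obtain ⟨M, hM⟩ : ∃ M, Fintype.card κ = M + 2 := by
    have : 1 < Fintype.card κ := Fintype.one_lt_card
    exact ⟨Fintype.card κ - 2, by omega⟩
  obtain ⟨N', hN'⟩ : ∃ N', Fintype.card κ' = N' + 1 := by
    have : 1 < Fintype.card κ' := Fintype.one_lt_card
    exact ⟨Fintype.card κ' - 1, by omega⟩
  have hcard : Fintype.card {j // j ≠ i} = M + 1 := by
    have := Fintype.card_subtype_compl (fun j => j = i)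
    rw [Fintype.card_subtype_eq] at this
    have h5 : Fintype.card {j // j ≠ i} = Fintype.card {j // ¬ j = i} := rfl
    omega
  have vP : IsVar (PSo.str k₀ k κ) (M + 1) := h1 k₀ k κ (M + 1) (by omega)
  have vP' : IsVar (PSo.str k₀ k κ') N' := h1 k₀ k κ' N' hN'
  have vH : IsVar (PSo.str k₀ k {j // j ≠ i}) M := h1 k₀ k {j // j ≠ i} M hcard
  have vQ := Var.isVar_prod vP vP'
  have vT := Var.isVar_prod vH vP'
  obtain ⟨D, j, hcomp, hbun⟩ := h3 k₀ k κ (PSo k₀ k κ') (PSo.str k₀ k κ') i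
  set t := pullback.map (PSo.str k₀ k {j // j ≠ i}) (PSo.str k₀ k κ') (PSo.str k₀ k κ)
    (PSo.str k₀ k κ') (PSo.hyp k₀ k κ i) (𝟙 _) (𝟙 _) (by rw [PSo.hyp_str, Category.comp_id])
      (by rw [Category.id_comp, Category.comp_id]) with ht
  have tfst : t ≫ pullback.fst (PSo.str k₀ k κ) (PSo.str k₀ k κ') =
      pullback.fst _ _ ≫ PSo.hyp k₀ k κ i := pullback.lift_fst _ _ _
  have tsnd : t ≫ pullback.snd (PSo.str k₀ k κ) (PSo.str k₀ k κ') =
      pullback.snd _ _ := (pullback.lift_snd _ _ _).trans (Category.comp_id _)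
  have smQ := sms_isSm vQ
  have smD := (sms_open smQ j hcomp.isOpen).1
  have SQ : Sm (pullback (PSo.str k₀ k κ) (PSo.str k₀ k κ')) := sms_sm vQ
  have SP : Sm (PSo k₀ k κ) := sms_sm vP
  have SP' : Sm (PSo k₀ k κ') := sms_sm vP'
  have SH : Sm (PSo k₀ k {j // j ≠ i}) := sms_sm vH
  have ST : Sm (pullback (PSo.str k₀ k {j // j ≠ i}) (PSo.str k₀ k κ')) := sms_sm vT
  have SD : Sm D := ⟨k, _, _, _, smD⟩
  -- the restriction to `D`
  obtain ⟨b, hb, hb'⟩ := T.pull_surjective_of_affineBundle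
    (j ≫ pullback.snd (PSo.str k₀ k κ) (PSo.str k₀ k κ')) SD SP' hbun 1 (T.pull j a)
    (T.pull_mem j SD SQ 1 a ha)
  rw [T.pull_comp j _ SD SQ SP'] at hb'
  have hmem : a - T.pull (pullback.snd (PSo.str k₀ k κ) (PSo.str k₀ k κ')) b ∈
      T.codim (pullback (PSo.str k₀ k κ) (PSo.str k₀ k κ')) (0 + 1) :=
    Submodule.sub_mem _ ha (T.pull_mem _ SQ SP' 1 b hb)
  have hzero : T.pull j (a - T.pull (pullback.snd (PSo.str k₀ k κ) (PSo.str k₀ k κ')) b) = 0 := by
    rw [map_sub, hb', sub_self]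
  have hdim : SmoothOfRelativeDimension (M + N' + 1)
      (pullback.fst (PSo.str k₀ k κ) (PSo.str k₀ k κ') ≫ PSo.str k₀ k κ).left := by
    rw [show M + N' + 1 = M + 1 + N' by omega]
    exact vQ.smooth
  obtain ⟨b', hb1, hb2⟩ := T.localization
    (pullback.fst (PSo.str k₀ k {j // j ≠ i}) (PSo.str k₀ k κ') ≫ PSo.str k₀ k {j // j ≠ i})
    (pullback.fst (PSo.str k₀ k κ) (PSo.str k₀ k κ') ≫ PSo.str k₀ k κ) t j
    (by rw [← Category.assoc, tfst, Category.assoc, PSo.hyp_str]) (sms_isSm vT) smQ hcomp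
    (M + N') 1 vT.smooth hdim 0 _ hmem hzero
  obtain ⟨q, rfl⟩ := T.codim_zero _ ST (picprod_connected vT) b' hb1
  -- the push-forward of the fundamental class
  have hsq : IsPullback (pullback.fst (PSo.str k₀ k {j // j ≠ i}) (PSo.str k₀ k κ')) t
      (PSo.hyp k₀ k κ i) (pullback.fst (PSo.str k₀ k κ) (PSo.str k₀ k κ')) := by
    have h5 : IsPullback (t ≫ pullback.snd (PSo.str k₀ k κ) (PSo.str k₀ k κ'))
        (pullback.fst (PSo.str k₀ k {j // j ≠ i}) (PSo.str k₀ k κ')) (PSo.str k₀ k κ')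
        (PSo.hyp k₀ k κ i ≫ PSo.str k₀ k κ) := by
      rw [tsnd, PSo.hyp_str]
      exact (IsPullback.of_hasPullback _ _).flip
    exact (IsPullback.of_right h5 tfst (IsPullback.of_hasPullback _ _).flip).flip
  have hcl := (h2 k₀ k κ i).1
  have hflat : Flat (pullback.fst (PSo.str k₀ k κ) (PSo.str k₀ k κ')).left := by
    have hP : IsPullback (pullback.fst (PSo.str k₀ k κ) (PSo.str k₀ k κ')).left
        (pullback.snd (PSo.str k₀ k κ) (PSo.str k₀ k κ')).left (PSo.str k₀ k κ).left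
        (PSo.str k₀ k κ').left :=
      (IsPullback.of_hasPullback _ _).map (Over.forget _)
    have h6 := vP'.smooth.smooth
    have h7 : Flat (PSo.str k₀ k κ').left := inferInstance
    exact MorphismProperty.of_isPullback (P := @Flat) hP.flip h7
  have hbc := T.push_baseChange (PSo.hyp k₀ k κ i) t _ _ hsq SH SP ST SQ inferInstance hflat 1
  have hone : T.pull (pullback.fst (PSo.str k₀ k {j // j ≠ i}) (PSo.str k₀ k κ')) 1 = 1 :=
    map_one _
  rw [hone] at hbc
  refine ⟨q, b, hb, ?_⟩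
  rw [hypClass, hbc, ← map_smul, hb2]
  ring

end Pool.Agent.Lib.MP_4ca46c_ag.Std
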