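import Pool.Agent.Lib.MP_4ca46c_ag.Std.BertSpec

/-!
# Dimension count for the generic hyperplane section
-/

namespace Pool.Agent.Lib.MP_4ca46c_ag.Std

open TensorProduct

/-- The differentials of generators of a field span the differentials. -/
lemma ptb_span {k L : Type} [Field k] [Field L] [Algebra k L] (s : Set L)
    (hs : IntermediateField.adjoin k s = ⊤) :
    Submodule.span L (KaehlerDifferential.D k L '' s) = ⊤ := by
  set N := Submodule.span L (KaehlerDifferential.D k L '' s) with hN
  let F : IntermediateField k L :=
    { carrier := {x | KaehlerDifferential.D k L x ∈ N}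
      mul_mem' := by
        intro a b ha hb
        change KaehlerDifferential.D k L (a * b) ∈ N
        rw [Derivation.leibniz]
        exact add_mem (N.smul_mem _ hb) (N.smul_mem _ ha)
      add_mem' := by
        intro a b ha hb
        change KaehlerDifferential.D k L (a + b) ∈ N
        rw [map_add]
        exact add_mem ha hb
      algebraMap_mem' := by
        intro r
        change KaehlerDifferential.D k L (algebraMap k L r) ∈ N
        rw [Derivation.map_algebraMap]
        exact zero_mem _
      inv_mem' := by
        intro a ha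
        change KaehlerDifferential.D k L a⁻¹ ∈ N
        rw [Derivation.leibniz_inv]
        exact N.smul_mem _ ha }
  have h1 : IntermediateField.adjoin k s ≤ F := by
    rw [IntermediateField.adjoin_le_iff]
    intro x hx
    exact Submodule.subset_span ⟨x, hx, rfl⟩
  rw [hs] at h1
  rw [eq_top_iff, ← KaehlerDifferential.span_range_derivation, Submodule.span_le]
  rintro _ ⟨x, rfl⟩
  exact h1 (IntermediateField.mem_top (x := x))

/-- Choice of a basis among generators. -/
lemma ptb_basis {K V κ : Type} [Field K] [AddCommGroup V] [Module K V] (v : κ → V)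
    (hv : Submodule.span K (Set.range v) = ⊤) : ∃ b : Set κ, LinearIndepOn K v b ∧
      Submodule.span K (v '' b) = ⊤ := by
  obtain ⟨b, -, -, h1, h2⟩ := exists_linearIndepOn_extension (K := K) (v := v) (s := ∅)
    (t := Set.univ) (linearIndepOn_empty K v) (Set.empty_subset _)
  refine ⟨b, h2, ?_⟩
  rw [eq_top_iff, ← hv, Submodule.span_le, ← Set.image_univ]
  exact h1

/-- If the differentials of the elements of `s` span the differentials then `L` is algebraic over
`k(s)`. -/
lemma ptb_alg {k L : Type} [Field k] [Field L] [Algebra k L] [Algebra.EssFiniteType k L]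
    (s : Set L) (hs : Submodule.span L (KaehlerDifferential.D k L '' s) = ⊤) :
    Algebra.IsAlgebraic (IntermediateField.adjoin k s) L := by
  set M := IntermediateField.adjoin k s with hM
  have h1 : ∀ x, KaehlerDifferential.map k M L L x = 0 := by
    intro x
    have hx : x ∈ Submodule.span L (KaehlerDifferential.D k L '' s) := by
      rw [hs]
      exact Submodule.mem_top
    induction hx using Submodule.span_induction with
    | mem x hx =>
      obtain ⟨y, hy, rfl⟩ := hx
      rw [KaehlerDifferential.map_D]
      have hyM : y ∈ M := IntermediateField.subset_adjoin k s hy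
      exact (KaehlerDifferential.D M L).map_algebraMap (⟨y, hyM⟩ : M)
    | zero => rw [map_zero]
    | add x y _ _ hx hy => rw [map_add, hx, hy, add_zero]
    | smul c x _ hx => rw [map_smul, hx, smul_zero]
  have h2 : Algebra.FormallyUnramified M L := by
    refine ⟨⟨fun x y => ?_⟩⟩
    obtain ⟨x, rfl⟩ := KaehlerDifferential.map_surjective k M L x
    obtain ⟨y, rfl⟩ := KaehlerDifferential.map_surjective k M L y
    rw [h1, h1]
  have h3 : Algebra.EssFiniteType M L := Algebra.EssFiniteType.of_comp k M L
  have h4 : Algebra.IsSeparable M L := Algebra.FormallyUnramified.isSeparable M L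
  infer_instance

/-- Derivations and the linear relation. -/
lemma ptb_rel {k A E κ : Type} [Field k] [CommRing A] [Algebra k A] [Field E]
    [Algebra k E] [Algebra A E] [IsScalarTower k A E] [Fintype κ] (g : κ → A) (t : κ → E)
    (h2 : ∑ j, t j • ((1 : E) ⊗ₜ[A] KaehlerDifferential.D k A (g j)) = 0)
    (δ : Derivation k A E) : ∑ j, t j * δ (g j) = 0 := by
  have h3 := congrArg (LinearMap.liftBaseChange E δ.liftKaehlerDifferential) h2
  rw [map_zero, map_sum] at h3
  rw [← h3]
  refine Finset.sum_congr rfl fun j _ => ?_
  rw [map_smul, LinearMap.liftBaseChange_tmul, one_smul, Derivation.liftKaehlerDifferential_comp_D,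
    smul_eq_mul]

/-- **Dimension count.** -/
theorem tPt (hCard : StCard) : StPt := by
  intro k A E κ _ _ _ _ _ _ _ _ g i t hgi hgen ht h1 h2
  classical
  let L : IntermediateField k E := IntermediateField.adjoin k (Set.range fun j => algebraMap A E (g j))
  have hA : ∀ a : A, algebraMap A E a ∈ L := by
    intro a
    have ha : a ∈ Algebra.adjoin k (Set.range g) := by
      rw [hgen]
      exact Algebra.mem_top
    induction ha using Algebra.adjoin_induction with
    | mem x hx =>
      obtain ⟨j, rfl⟩ := hx
      exact IntermediateField.subset_adjoin _ _ ⟨j, rfl⟩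
    | algebraMap r =>
      rw [← IsScalarTower.algebraMap_apply]
      exact L.algebraMap_mem r
    | add x y _ _ hx hy =>
      rw [map_add]
      exact add_mem hx hy
    | mul x y _ _ hx hy =>
      rw [map_mul]
      exact mul_mem hx hy
  let φ : A →ₐ[k] L :=
    { toFun := fun a => ⟨algebraMap A E a, hA a⟩
      map_one' := Subtype.ext (map_one _)
      map_mul' := fun x y => Subtype.ext (map_mul _ x y)
      map_zero' := Subtype.ext (map_zero _)
      map_add' := fun x y => Subtype.ext (map_add _ x y)
      commutes' := fun r => Subtype.ext (IsScalarTower.algebraMap_apply k A E r).symm }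
  have hφ : ∀ a, ((φ a : L) : E) = algebraMap A E a := fun a => rfl
  have hγ : IntermediateField.adjoin k (Set.range fun j => φ (g j)) = ⊤ := by
    apply IntermediateField.lift_injective L
    rw [IntermediateField.lift_adjoin, IntermediateField.lift_top, ← Set.range_comp]
    rfl
  have hfin : Algebra.EssFiniteType k L :=
    IntermediateField.essFiniteType_iff.mpr
      (IntermediateField.fg_adjoin_of_finite (Set.finite_range _))
  have hspan : Submodule.span L (Set.range fun j => KaehlerDifferential.D k L (φ (g j))) = ⊤ := by
    rw [← ptb_span _ hγ, ← Set.range_comp]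
    rfl
  obtain ⟨b, hb, hb'⟩ := ptb_basis _ hspan
  have hib : i ∉ b := by
    intro hi
    refine hb.ne_zero hi ?_
    change KaehlerDifferential.D k L (φ (g i)) = 0
    rw [hgi, map_one, Derivation.map_one_eq_zero]
  let bas : Module.Basis b L (KaehlerDifferential k L) := Module.Basis.mk hb (by
    rw [← hb', Set.image_eq_range])
  have hbas : ∀ m : b, bas m = KaehlerDifferential.D k L (φ (g m)) := fun m =>
    Module.Basis.mk_apply hb _ m
  -- the relations
  have hrel : ∀ m : b, ∑ j, t j * ((bas.coord m (KaehlerDifferential.D k L (φ (g j))) : L) : E) =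
      0 := by
    intro m
    let H : A →ₗ[k] E := L.val.toLinearMap ∘ₗ ((bas.coord m).restrictScalars k) ∘ₗ
      (KaehlerDifferential.D k L : L →ₗ[k] KaehlerDifferential k L) ∘ₗ φ.toLinearMap
    have hH : ∀ a, H a = ((bas.coord m (KaehlerDifferential.D k L (φ a)) : L) : E) := fun a => rfl
    have h3 := ptb_rel g t h2 (Derivation.mk' H (by
      intro x y
      rw [hH, hH, hH, map_mul, Derivation.leibniz, map_add, map_smul, map_smul, smul_eq_mul,
        smul_eq_mul, Algebra.smul_def, Algebra.smul_def]
      rfl))
    exact h3
  -- algebraic elements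
  let J₀ : Finset κ := Finset.univ.filter fun j => j ∈ b
  let J₁ : Finset κ := Finset.univ.filter fun j => j ∉ b ∧ j ≠ i
  let S : Finset E := (J₀.image fun j => algebraMap A E (g j)) ∪ J₁.image t
  have hcard : S.card < Fintype.card κ := by
    refine lt_of_le_of_lt (Finset.card_union_le _ _) ?_
    refine lt_of_le_of_lt (add_le_add Finset.card_image_le Finset.card_image_le) ?_
    rw [← Finset.card_union_of_disjoint, ← Finset.card_univ]
    · refine Finset.card_lt_card ⟨Finset.subset_univ _, fun h => ?_⟩
      have h3 := h (Finset.mem_univ i)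
      simp [J₀, J₁, hib] at h3
    · rw [Finset.disjoint_left]
      intro j hj hj'
      simp only [J₀, J₁, Finset.mem_filter, Finset.mem_univ, true_and] at hj hj'
      exact hj'.1 hj
  let KS : IntermediateField k E := IntermediateField.adjoin k (S : Set E)
  let Alg : IntermediateField KS E := algebraicClosure KS E
  have hKS : ∀ x ∈ KS, x ∈ Alg := by
    intro x hx
    rw [mem_algebraicClosure_iff]
    exact isAlgebraic_algebraMap (⟨x, hx⟩ : KS)
  -- the field generated by the elements of the basis
  have hbD : Submodule.span L (KaehlerDifferential.D k L '' ((fun j => φ (g j)) '' b)) = ⊤ := by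
    rw [← hb', Set.image_image]
  have halg := ptb_alg _ hbD
  have hM : IntermediateField.adjoin k ((fun j => φ (g j)) '' b) ≤ KS.comap L.val := by
    rw [IntermediateField.adjoin_le_iff]
    rintro _ ⟨j, hj, rfl⟩
    change ((φ (g j) : L) : E) ∈ KS
    refine IntermediateField.subset_adjoin _ _ ?_
    rw [Finset.mem_coe]
    refine Finset.mem_union_left _ (Finset.mem_image.mpr ⟨j, ?_, rfl⟩)
    simp only [J₀, Finset.mem_filter, Finset.mem_univ, true_and]
    exact hj
  have hLA : ∀ x : L, (x : E) ∈ Alg := by
    intro x
    rw [mem_algebraicClosure_iff]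
    let ι : (IntermediateField.adjoin k ((fun j => φ (g j)) '' b)) →+* KS :=
      ((algebraMap L E).comp (algebraMap _ L)).codRestrict KS (fun y => hM y.2)
    exact (halg.isAlgebraic x).ringHom_of_comp_eq ι (algebraMap L E) ι.injective rfl
  have ht1 : ∀ j, j ∉ b → j ≠ i → t j ∈ Alg := by
    intro j hj hji
    refine hKS _ (IntermediateField.subset_adjoin _ _ ?_)
    rw [Finset.mem_coe]
    refine Finset.mem_union_right _ (Finset.mem_image_of_mem _ ?_)
    simp only [J₁, Finset.mem_filter, Finset.mem_univ, true_and]
    exact ⟨hj, hji⟩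
  have ht0 : ∀ j, j ∈ b → t j ∈ Alg := by
    intro m hm
    have h3 := hrel ⟨m, hm⟩
    rw [← Finset.add_sum_erase _ _ (Finset.mem_univ m)] at h3
    have h4 : ∀ j ∈ Finset.univ.erase m,
        t j * ((bas.coord ⟨m, hm⟩ (KaehlerDifferential.D k L (φ (g j))) : L) : E) ∈ Alg := by
      intro j hj
      by_cases hjb : j ∈ b
      · have h5 : bas.coord ⟨m, hm⟩ (KaehlerDifferential.D k L (φ (g j))) = 0 := by
          rw [← hbas ⟨j, hjb⟩, Module.Basis.coord_apply, Module.Basis.repr_self,
            Finsupp.single_eq_of_ne]
          intro h6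
          exact (Finset.mem_erase.mp hj).1 (congrArg Subtype.val h6).symm
        rw [h5]
        simp
      · by_cases hji : j = i
        · have h5 : KaehlerDifferential.D k L (φ (g j)) = 0 := by
            rw [hji, hgi, map_one, Derivation.map_one_eq_zero]
          rw [h5, map_zero]
          simp
        · exact mul_mem (ht1 j hjb hji) (hLA _)
    have h5 : bas.coord ⟨m, hm⟩ (KaehlerDifferential.D k L (φ (g m))) = 1 := by
      rw [← hbas ⟨m, hm⟩, Module.Basis.coord_apply, Module.Basis.repr_self, Finsupp.single_eq_same]
    rw [h5] at h3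
    have h6 : t m = - ∑ j ∈ Finset.univ.erase m,
        t j * ((bas.coord ⟨m, hm⟩ (KaehlerDifferential.D k L (φ (g j))) : L) : E) := by
      rw [eq_neg_iff_add_eq_zero, ← h3]
      simp
    rw [h6]
    exact neg_mem (sum_mem h4)
  have hti : t i ∈ Alg := by
    rw [← Finset.add_sum_erase _ _ (Finset.mem_univ i), hgi, map_one, mul_one] at h1
    rw [eq_neg_iff_add_eq_zero.mpr h1]
    refine neg_mem (sum_mem fun j hj => mul_mem ?_ (hLA (φ (g j))))
    by_cases hjb : j ∈ b
    · exact ht0 j hjb
    · exact ht1 j hjb (Finset.mem_erase.mp hj).1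
  have htA : ∀ j, t j ∈ Alg := by
    intro j
    by_cases hjb : j ∈ b
    · exact ht0 j hjb
    · by_cases hji : j = i
      · rw [hji]
        exact hti
      · exact ht1 j hjb hji
  have h3 := hCard k E κ S t ht fun j => mem_algebraicClosure_iff.mp (htA j)
  omega

end Pool.Agent.Lib.MP_4ca46c_ag.Std
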