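import Pool.Agent.Lib.MP_4ca46c_ag.Std.ConnSpec

set_option autoImplicit false

namespace Pool.Agent.Lib.MP_4ca46c_ag.Std

open CategoryTheory Limits AlgebraicGeometry TensorProduct
open Pool.Agent.Lib.MP_4ca46c_ag.Sign

theorem tRatPt : StRatPt := by
  intro κ M _ _ _ _ X X' f f' p s hs hp hX
  set j := Spec.map (CommRingCat.ofHom (algebraMap κ M)) with hj
  have hji : IsIntegralHom j := by
    rw [hj, IsIntegralHom.SpecMap_iff]
    intro x
    exact (Algebra.IsAlgebraic.isAlgebraic (R := κ) x).isIntegral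
  have hpi : IsIntegralHom p := MorphismProperty.of_isPullback hp.flip hji
  have hjo : UniversallyOpen j := inferInstance
  have hpo : UniversallyOpen p := MorphismProperty.of_isPullback hp.flip hjo
  have hjs : Surjective j := ⟨fun y => ⟨Classical.arbitrary _, Subsingleton.elim _ _⟩⟩
  have hps : Surjective p := MorphismProperty.of_isPullback hp.flip hjs
  have hclosed : IsClosedMap p := p.isClosedMap
  have hopen : IsOpenMap p := p.isOpenMap
  -- the fibre over the rational point
  let s' : Spec (CommRingCat.of M) ⟶ X' := hp.lift (j ≫ s) (𝟙 _) (by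
    rw [Category.assoc, hs, Category.comp_id, Category.id_comp])
  have hs1 : s' ≫ p = j ≫ s := hp.lift_fst _ _ _
  have hs2 : s' ≫ f' = 𝟙 _ := hp.lift_snd _ _ _
  have hout : IsPullback (s' ≫ f') j j (s ≫ f) := by
    rw [hs2, hs]
    exact IsPullback.of_horiz_isIso ⟨by rw [Category.id_comp, Category.comp_id]⟩
  have hsq : IsPullback s' j p s := IsPullback.of_right hout hs1 hp.flip
  obtain ⟨o⟩ : Nonempty (Spec (CommRingCat.of κ)) := inferInstance
  have hfib : ∀ x₁ x₂ : X', p x₁ = s o → p x₂ = s o → x₁ = x₂ := by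
    intro x₁ x₂ h₁ h₂
    obtain ⟨z₁, hz₁, -⟩ := Scheme.exists_preimage_of_isPullback hsq x₁ o h₁
    obtain ⟨z₂, hz₂, -⟩ := Scheme.exists_preimage_of_isPullback hsq x₂ o h₂
    rw [← hz₁, ← hz₂, Subsingleton.elim z₁ z₂]
  have hne : Nonempty X' := by
    obtain ⟨x⟩ : Nonempty X := inferInstance
    obtain ⟨y, -⟩ := hps.surj x
    exact ⟨y⟩
  have key : ∀ U : Set X', IsClopen U → U.Nonempty → ∃ u ∈ U, p u = s o := by
    intro U hU hUn
    have h1 : IsClopen (p '' U) := ⟨hclosed _ hU.1, hopen _ hU.2⟩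
    have h2 : p '' U = Set.univ := h1.eq_univ (hUn.image _)
    have h3 : s o ∈ p '' U := h2 ▸ Set.mem_univ _
    exact h3
  have hpre : PreconnectedSpace X' := by
    rw [preconnectedSpace_iff_clopen]
    intro U hU
    by_contra hcon
    push Not at hcon
    obtain ⟨h1, h2⟩ := hcon
    obtain ⟨u, hu, hpu⟩ := key U hU h1
    obtain ⟨w, hw, hpw⟩ := key Uᶜ hU.compl (Set.nonempty_compl.2 h2)
    exact hw (hfib u w hpu hpw ▸ hu)
  exact { toPreconnectedSpace := hpre, toNonempty := hne }

end Pool.Agent.Lib.MP_4ca46c_ag.Std
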