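import Mathlib
import Pool.Agent.Lib.MP_4ca46c_ag.Std.ChowSpec
import Pool.Agent.Lib.MP_4ca46c_ag.Sign.SmS
import Pool.Agent.Lib.MP_4ca46c_ag.Sign.VarCat

/-!
# The class of a hyperplane under the Segre embedding
-/

namespace Pool.Agent.Lib.MP_4ca46c_ag.Std

open CategoryTheory Limits AlgebraicGeometry TensorProduct
open Pool.Agent.Lib.MP_4ca46c_ag.Sign Pool.Agent.Lib.MP_4ca46c_ag.Hyp

theorem segrec_card {κ : Type} [Fintype κ] [Nontrivial κ] : ∃ M, Fintype.card κ = M + 2 :=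
  ⟨Fintype.card κ - 2, by
    have := Fintype.one_lt_card (α := κ)
    omega⟩

theorem segrec_ne {κ : Type} [Fintype κ] (i : κ) [Fintype {j // j ≠ i}] {M : ℕ}
    (h : Fintype.card κ = M + 2) : Fintype.card {j // j ≠ i} = M + 1 := by
  classical
  have h1 : Fintype.card {j // j ≠ i} = Fintype.card {j // ¬ j = i} := by
    congr
  have h2 := Fintype.card_subtype_compl (fun j => j = i)
  rw [Fintype.card_subtype_eq] at h2
  omega

/-- Pull-back of the class of the hyperplane `x_j = 0` along a transversal morphism. -/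
theorem segrec_pull {k₀ K : Type} [Field k₀] [Field K] (h1 : StPS) (h2 : StHyp)
    (T : WeilTheory k₀ K) (E : Extra T) (k : Type) [Field k] [Algebra k₀ k]
    [IsAlgClosed k] {κ κ' : Type} [Fintype κ] [Nontrivial κ] [Fintype κ'] [Nontrivial κ']
    (i : κ) (j : κ') (g : PSo k₀ k κ ⟶ PSo k₀ k κ')
    (hg : g ≫ PSo.str k₀ k κ' = PSo.str k₀ k κ) (u : PSo k₀ k {b // b ≠ i} ⟶
      PSo k₀ k {b // b ≠ j})
    (hu : IsPullback u (PSo.hyp k₀ k κ i) (PSo.hyp k₀ k κ' j) g) :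
    T.pull g (hypClass T k j) = hypClass T k i := by
  classical
  obtain ⟨M, hM⟩ := segrec_card (κ := κ)
  obtain ⟨M', hM'⟩ := segrec_card (κ := κ')
  have vP : IsVar (PSo.str k₀ k κ) (M + 1) := h1 k₀ k κ (M + 1) (by omega)
  have vP' : IsVar (PSo.str k₀ k κ') (M' + 1) := h1 k₀ k κ' (M' + 1) (by omega)
  have vH : IsVar (PSo.str k₀ k {j // j ≠ i}) M := h1 k₀ k {j // j ≠ i} M (segrec_ne i hM)
  have vH' : IsVar (PSo.str k₀ k {b // b ≠ j}) M' := h1 k₀ k {b // b ≠ j} M' (segrec_ne j hM')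
  have hcl := (h2 k₀ k κ' j).1
  have e1 : PSo.hyp k₀ k κ' j ≫ PSo.str k₀ k κ' = PSo.str k₀ k _ := PSo.hyp_str k₀ k κ' j
  have e2 : PSo.hyp k₀ k κ i ≫ g ≫ PSo.str k₀ k κ' = PSo.str k₀ k _ := by
    rw [hg, PSo.hyp_str]
  have key := E.transversal (PSo.str k₀ k κ') (PSo.hyp k₀ k κ' j) (PSo.hyp k₀ k κ i) u g hu
    (sms_isSm vP') (by rw [e1]; exact sms_isSm vH') (by rw [hg]; exact sms_isSm vP)
    (by rw [e2]; exact sms_isSm vH) inferInstance (M' + 1) M' (M + 1) M vP'.smooth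
    (by rw [e1]; exact vH'.smooth) (by rw [hg]; exact vP.smooth)
    (by rw [e2]; exact vH.smooth) (by omega) 1
  rw [map_one (T.pull u)] at key
  exact key

/-- The class of a hyperplane has codimension one. -/
theorem segrec_mem {k₀ K : Type} [Field k₀] [Field K] (h1 : StPS) (h2 : StHyp)
    (T : WeilTheory k₀ K) (k : Type) [Field k] [Algebra k₀ k]
    [IsAlgClosed k] {κ : Type} [Fintype κ] [Nontrivial κ] (i : κ) :
    hypClass T k i ∈ T.codim (PSo k₀ k κ) 1 := by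
  classical
  obtain ⟨M, hM⟩ := segrec_card (κ := κ)
  have vP : IsVar (PSo.str k₀ k κ) (M + 1) := h1 k₀ k κ (M + 1) (by omega)
  have vH : IsVar (PSo.str k₀ k {j // j ≠ i}) M := h1 k₀ k {j // j ≠ i} M (segrec_ne i hM)
  have hcl := (h2 k₀ k κ i).1
  exact T.push_mem (PSo.str k₀ k {j // j ≠ i}) (PSo.str k₀ k κ) (PSo.hyp k₀ k κ i)
    (PSo.hyp_str k₀ k κ i) (sms_isSm vH) (sms_isSm vP) inferInstance M (M + 1) vH.smooth
    vP.smooth 0 1 (by omega) 1 (T.one_mem _)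

theorem segrec_zero {k₀ K : Type} [Field k₀] [Field K] (h1 : StPS) (h2 : StHyp)
    (h3 : StDisjoint k₀ K) (T : WeilTheory k₀ K) (E : Extra T) (k : Type) [Field k] [Algebra k₀ k]
    [IsAlgClosed k] {κ : Type} [Fintype κ] [Nontrivial κ] (i : κ) {Y Z : Sch k₀} (hY : Sm Y)
    (f : Y ⟶ Z) (p : Z ⟶ PSo k₀ k κ)
    (hp : ∀ z, p.left z ∉ Set.range (PSo.hyp k₀ k κ i).left) :
    T.pull (f ≫ p) (hypClass T k i) = 0 := by
  classical
  obtain ⟨M, hM⟩ := segrec_card (κ := κ)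
  have vP : IsVar (PSo.str k₀ k κ) (M + 1) := h1 k₀ k κ (M + 1) (by omega)
  have vH : IsVar (PSo.str k₀ k {j // j ≠ i}) M := h1 k₀ k {j // j ≠ i} M (segrec_ne i hM)
  exact h3 T E k _ _ _ (PSo.hyp k₀ k κ i) (f ≫ p) (PSo.str k₀ k κ) (sms_isSm vP)
    (by rw [PSo.hyp_str]; exact sms_isSm vH) hY (h2 k₀ k κ i).1 (fun z => hp (f.left z)) 1

/-- **The class of a hyperplane under the Segre embedding.** -/
theorem tSegre (k₀ K : Type) [Field k₀] [Field K] (h1 : StPS) (h2 : StHyp)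
    (h3 : StDisjoint k₀ K) (h4 : StPicProd k₀ K) : StSegre k₀ K := by
  classical
  intro T E k _ _ _ κ κ' _ _ _ _ i a σ hσ hs₁ hs₂
  obtain ⟨s₁, p₁, u₁, a1, a2, a3, a4⟩ := hs₁
  obtain ⟨s₂, p₂, u₂, b1, b2, b3, b4⟩ := hs₂
  obtain ⟨M, hM⟩ := segrec_card (κ := κ)
  obtain ⟨M', hM'⟩ := segrec_card (κ := κ')
  obtain ⟨N, hN⟩ := segrec_card (κ := κ × κ')
  have vP : IsVar (PSo.str k₀ k κ) (M + 1) := h1 k₀ k κ (M + 1) (by omega)
  have vP' : IsVar (PSo.str k₀ k κ') (M' + 1) := h1 k₀ k κ' (M' + 1) (by omega)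
  have vR : IsVar (PSo.str k₀ k (κ × κ')) (N + 1) := h1 k₀ k (κ × κ') (N + 1) (by omega)
  have vQ := Var.isVar_prod vP vP'
  have SP : Sm (PSo k₀ k κ) := sms_sm vP
  have SP' : Sm (PSo k₀ k κ') := sms_sm vP'
  have SR : Sm (PSo k₀ k (κ × κ')) := sms_sm vR
  have SQ : Sm (pullback (PSo.str k₀ k κ) (PSo.str k₀ k κ')) := sms_sm vQ
  have g1 : (s₁ ≫ σ) ≫ PSo.str k₀ k (κ × κ') = PSo.str k₀ k κ' := by
    rw [Category.assoc, hσ, pullback.condition, ← Category.assoc, a1, Category.id_comp]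
  have g2 : (s₂ ≫ σ) ≫ PSo.str k₀ k (κ × κ') = PSo.str k₀ k κ := by
    rw [Category.assoc, hσ, ← Category.assoc, b1, Category.id_comp]
  have c1 := segrec_pull h1 h2 T E k a (i, a) (s₁ ≫ σ) g1 u₁ a4
  have c2 := segrec_pull h1 h2 T E k i (i, a) (s₂ ≫ σ) g2 u₂ b4
  rw [T.pull_comp s₁ σ SP' SQ SR] at c1
  rw [T.pull_comp s₂ σ SP SQ SR] at c2
  obtain ⟨q, b, hb, hab⟩ := h4 T E k κ κ' i _
    (T.pull_mem σ SQ SR 1 _ (segrec_mem h1 h2 T k (i, a)))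
  rw [hab, map_add, map_smul, ← T.pull_comp s₁ _ SP' SQ SP', ← T.pull_comp s₁ _ SP' SQ SP, a1,
    a2, T.pull_id SP', segrec_zero h1 h2 h3 T E k i SP' _ p₁ a3, smul_zero, add_zero] at c1
  rw [hab, map_add, map_smul, ← T.pull_comp s₂ _ SP SQ SP', ← T.pull_comp s₂ _ SP SQ SP, b1,
    b2, T.pull_id SP, c1, segrec_zero h1 h2 h3 T E k a SP _ p₂ b3, zero_add] at c2
  rw [hab, c1, ← map_smul, c2, add_comm]

end Pool.Agent.Lib.MP_4ca46c_ag.Std
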