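import Pool.Agent.Lib.MP_4ca46c_ag.Std.ConnSpec

/-!
# Local rings of smooth algebras over a field are domains

The statement `StSmDomain`. The key step `smdomain_split`: if `S` is étale over an integrally
closed domain `P` and `x * y = 0` in `S`, there is `e` in `S` with `e * x = x` and `e * y = 0`.
Such an idempotent exists in the fibre `S ⊗ Frac P`, a finite product of fields, and it is
integral over `S`; since smooth base change commutes with integral closure, it lies in `S`.
-/

namespace Pool.Agent.Lib.MP_4ca46c_ag.Std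

open CategoryTheory Limits AlgebraicGeometry TensorProduct
open Pool.Agent.Lib.MP_4ca46c_ag.Sign

/-- In a finite product of fields, a zero product is split by an idempotent. -/
lemma smdomain_prod {T : Type} [CommRing T] {I : Type} {F : I → Type} [∀ i, Field (F i)]
    (e : T ≃+* (∀ i, F i)) (x y : T) (h : x * y = 0) :
    ∃ t : T, t * t = t ∧ t * x = x ∧ t * y = 0 := by
  classical
  have hxy : ∀ i, e x i * e y i = 0 := fun i => by
    have := congrFun (congrArg e h) i
    simpa using this
  refine ⟨e.symm (fun i => if e x i = 0 then 0 else 1), ?_, ?_, ?_⟩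
  · apply e.injective
    funext i
    simp only [map_mul, RingEquiv.apply_symm_apply, Pi.mul_apply]
    split_ifs <;> simp
  · apply e.injective
    funext i
    simp only [map_mul, RingEquiv.apply_symm_apply, Pi.mul_apply]
    split_ifs with h0
    · simp [h0]
    · simp
  · apply e.injective
    funext i
    simp only [map_mul, RingEquiv.apply_symm_apply, Pi.mul_apply, map_zero, Pi.zero_apply]
    split_ifs with h0
    · simp
    · simpa [h0] using hxy i

/-- An étale algebra over a field: a zero product is split by an idempotent. -/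
lemma smdomain_field (Q T : Type) [Field Q] [CommRing T] [Algebra Q T] [Algebra.Etale Q T]
    (x y : T) (h : x * y = 0) : ∃ t : T, t * t = t ∧ t * x = x ∧ t * y = 0 := by
  obtain ⟨I, _, F, _, _, e, _⟩ := (Algebra.FormallyEtale.iff_exists_algEquiv_prod Q T).1
    inferInstance
  exact smdomain_prod e.toRingEquiv x y h

/-- `S` is integrally closed in `S ⊗ Frac P` for `S` smooth over an integrally closed domain
`P`. -/
lemma smdomain_int (P S Q : Type) [CommRing P] [IsDomain P] [IsIntegrallyClosed P] [CommRing S]
    [Algebra P S] [Algebra.Smooth P S] [Field Q] [Algebra P Q] [IsFractionRing P Q]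
    (z : S ⊗[P] Q) (hz : IsIntegral S z) : ∃ s : S, z = s ⊗ₜ[P] (1 : Q) := by
  obtain ⟨w, hw⟩ := (TensorProduct.toIntegralClosure_bijective_of_smooth (R := P) (S := S)
    (B := Q)).2 ⟨z, hz⟩
  have hw' : (TensorProduct.toIntegralClosure P S Q w : S ⊗[P] Q) = z := by rw [hw]
  rw [← hw']
  clear hw hw' hz
  induction w using TensorProduct.induction_on with
  | zero => exact ⟨0, by simp⟩
  | add a b ha hb =>
    obtain ⟨s, hs⟩ := ha
    obtain ⟨t, ht⟩ := hb
    exact ⟨s + t, by rw [map_add, TensorProduct.add_tmul, ← hs, ← ht]; rfl⟩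
  | tmul s c =>
    obtain ⟨r, hr⟩ := IsIntegrallyClosed.isIntegral_iff.1 (c.2 : IsIntegral P (c : Q))
    refine ⟨r • s, ?_⟩
    have h1 : (TensorProduct.toIntegralClosure P S Q (s ⊗ₜ[P] c) : S ⊗[P] Q)
        = s ⊗ₜ[P] (c : Q) := rfl
    rw [h1, ← hr, TensorProduct.smul_tmul, Algebra.smul_def, mul_one]

/-- The key step. -/
lemma smdomain_split (P S : Type) [CommRing P] [IsDomain P] [IsIntegrallyClosed P] [CommRing S]
    [Algebra P S] [Algebra.Etale P S] (x y : S) (h : x * y = 0) :
    ∃ e : S, e * x = x ∧ e * y = 0 := by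
  let Q := FractionRing P
  have hinj : Function.Injective (Algebra.TensorProduct.includeLeft : S →ₐ[P] S ⊗[P] Q) :=
    Algebra.TensorProduct.includeLeft_injective (IsFractionRing.injective P Q)
  let c := Algebra.TensorProduct.comm P S Q
  have hc : (c (x ⊗ₜ 1)) * (c (y ⊗ₜ 1)) = 0 := by
    rw [← map_mul, Algebra.TensorProduct.tmul_mul_tmul, h, TensorProduct.zero_tmul, map_zero]
  obtain ⟨t, ht, htx, hty⟩ := smdomain_field Q (Q ⊗[P] S) _ _ hc
  have ht' : c.symm t * c.symm t = c.symm t := by rw [← map_mul, ht]
  have hI : IsIntegral S (c.symm t) := by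
    refine ⟨Polynomial.X ^ 2 - Polynomial.X, ?_, ?_⟩
    · exact Polynomial.monic_X_pow_sub (by
        refine lt_of_le_of_lt Polynomial.degree_X_le ?_
        exact_mod_cast Nat.one_lt_two)
    · rw [Polynomial.eval₂_sub, Polynomial.eval₂_pow, Polynomial.eval₂_X, pow_two, ht', sub_self]
  obtain ⟨s, hs⟩ := smdomain_int P S Q _ hI
  refine ⟨s, hinj ?_, hinj ?_⟩
  · have h2 : c.symm t * (x ⊗ₜ 1) = x ⊗ₜ 1 := by
      apply c.injective
      rw [map_mul, AlgEquiv.apply_symm_apply, htx]
    rw [hs, Algebra.TensorProduct.tmul_mul_tmul, one_mul] at h2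
    exact h2
  · have h2 : c.symm t * (y ⊗ₜ 1) = 0 := by
      apply c.injective
      rw [map_mul, AlgEquiv.apply_symm_apply, hty, map_zero]
    rw [hs, Algebra.TensorProduct.tmul_mul_tmul, one_mul] at h2
    rw [map_zero]
    exact h2

theorem tSmDomain : StSmDomain := by
  intro k A _ _ _ _ p _
  obtain ⟨f, hf, n, _, _, _⟩ := Algebra.IsSmoothAt.exists_isStandardEtale_mvPolynomial
    (R := k) (p := p)
  have hmain : ∀ x y : A, x * y = 0 → algebraMap A (Localization.AtPrime p) x = 0 ∨
      algebraMap A (Localization.AtPrime p) y = 0 := by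
    intro x y hxy
    have hu : IsUnit (algebraMap A (Localization.AtPrime p) f) :=
      IsLocalization.map_units (Localization.AtPrime p) (⟨f, hf⟩ : p.primeCompl)
    let φ : Localization.Away f →+* Localization.AtPrime p := IsLocalization.Away.lift f hu
    have hφ : ∀ a : A, φ (algebraMap A (Localization.Away f) a)
        = algebraMap A (Localization.AtPrime p) a := fun a => IsLocalization.Away.lift_eq f hu a
    obtain ⟨e, hex, hey⟩ := smdomain_split (MvPolynomial (Fin n) k) (Localization.Away f)
      (algebraMap A _ x) (algebraMap A _ y) (by rw [← map_mul, hxy, map_zero])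
    have h1 : φ e * algebraMap A (Localization.AtPrime p) x
        = algebraMap A (Localization.AtPrime p) x := by
      have := congrArg φ hex
      rwa [map_mul, hφ] at this
    have h2 : φ e * algebraMap A (Localization.AtPrime p) y = 0 := by
      have := congrArg φ hey
      rwa [map_mul, hφ, map_zero] at this
    rcases IsLocalRing.isUnit_or_isUnit_of_add_one (a := φ e) (b := 1 - φ e) (by ring) with h | h
    · right
      exact (h.mul_right_eq_zero).1 h2
    · left
      apply (h.mul_right_eq_zero).1
      rw [sub_mul, one_mul, h1, sub_self]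
  haveI : NoZeroDivisors (Localization.AtPrime p) := by
    refine ⟨fun {a b} hab => ?_⟩
    obtain ⟨x, s, rfl⟩ := IsLocalization.exists_mk'_eq p.primeCompl a
    obtain ⟨y, t, rfl⟩ := IsLocalization.exists_mk'_eq p.primeCompl b
    rw [← IsLocalization.mk'_mul, IsLocalization.mk'_eq_zero_iff] at hab
    obtain ⟨u, hu⟩ := hab
    rw [← mul_assoc] at hu
    rcases hmain _ _ hu with h | h
    · left
      rw [map_mul] at h
      have h' := (IsUnit.mul_right_eq_zero
        (IsLocalization.map_units (Localization.AtPrime p) u)).1 h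
      rw [IsLocalization.mk'_eq_mul_mk'_one, h', zero_mul]
    · right
      rw [IsLocalization.mk'_eq_mul_mk'_one, h, zero_mul]
  exact NoZeroDivisors.to_isDomain _

end Pool.Agent.Lib.MP_4ca46c_ag.Std
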