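import Mathlib
import Pool.Agent.Lib.MP_4ca46c_ag.Std.BertSpec2

/-!
# The generic hyperplane section is smooth
-/

namespace Pool.Agent.Lib.MP_4ca46c_ag.Std

open CategoryTheory Limits AlgebraicGeometry TensorProduct
open Pool.Agent.Lib.MP_4ca46c_ag.Sign Pool.Agent.Lib.MP_4ca46c_ag.Hyp

theorem smoothgen_iso {X Y Z : Scheme.{0}} (n : ℕ) (e : X ≅ Y) (f : Y ⟶ Z) (g : X ⟶ Z)
    (h : e.hom ≫ f = g) (hf : SmoothOfRelativeDimension n f) :
    SmoothOfRelativeDimension n g := by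
  subst h
  have st := smoothOfRelativeDimension_isStableUnderBaseChange.{0} n
  have ri : MorphismProperty.RespectsIso (@SmoothOfRelativeDimension.{0} n) :=
    st.respectsIso
  exact (MorphismProperty.cancel_left_of_respectsIso (@SmoothOfRelativeDimension.{0} n)
    e.hom _).2 hf

theorem smoothgen_main (h2 : StChartIso) (h3 : StLocSm₁) (h4 : StLocSm₂) (h5 : StBert)
    {k₀ k : Type} [Field k₀] [Field k] [Algebra k₀ k] {κ : Type} [Fintype κ] {X : Sch k₀}
    (x : X ⟶ pt k₀ k) (C : Coord x.left κ) (h1 : ∀ (i : κ) (_ : Algebra k Γ(X.left, C.D i)),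
      algebraMap k Γ(X.left, C.D i) = resHom x.left _ → IsAffineOpen (C.D i) ∧
        Algebra.adjoin k (Set.range (C.f i)) = ⊤) (n : ℕ)
    (hx : SmoothOfRelativeDimension (n + 1) x.left) (F : Type) [Field F] [Algebra k₀ F]
    [Algebra k F] [Algebra (MvPolynomial κ k) F] [IsScalarTower k₀ (MvPolynomial κ k) F]
    [IsScalarTower k (MvPolynomial κ k) F] [IsScalarTower k₀ k F]
    [IsFractionRing (MvPolynomial κ k) F] (Y₀ : Sch k₀) (y₀ : Y₀ ⟶ pt k₀ F)
    (toI : Y₀ ⟶ Fam C)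
    (hpb : IsPullback toI y₀ (Fam.inc C ≫ Aff.toSp κ x) (spG k₀ (MvPolynomial κ k) F)) :
    SmoothOfRelativeDimension n y₀.left := by
  refine IsZariskiLocalAtSource.of_iSup_eq_top (P := @SmoothOfRelativeDimension.{0} n)
    (fun i => (toI ≫ Fam.inc C ≫ Aff.pr κ X).left ⁻¹ᵁ C.D i) (C.iSup_pre _) fun i => ?_
  let alg : Algebra k Γ(X.left, C.D i) := (resHom x.left (C.D i)).toAlgebra
  obtain ⟨hA, hgen⟩ := h1 i alg rfl
  obtain ⟨e', he'⟩ := h2 k₀ k κ X x C i hA rfl F Y₀ y₀ toI hpb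
  exact smoothgen_iso n e' _ _ he' (h3 F _ n (h5 k _ F κ n (C.f i) i (C.f_self i) hgen
    (h4 k X.left x.left (n + 1) hx (C.D i) hA rfl)))

/-- **The generic hyperplane section is smooth.** -/
theorem tSmoothGen (h1 : StChart) (h2 : StChartIso) (h3 : StLocSm₁) (h4 : StLocSm₂)
    (h5 : StBert) : StSmoothGen := by
  intro k₀ k _ _ _ κ _ X x e he hc n hx F _ _ _ _ _ _ _ _ Y₀ y₀ toI hpb
  exact smoothgen_main h2 h3 h4 h5 x (eCoord x e he inferInstance)
    (fun i _ h => h1 k₀ k κ X x e he hc i h) n hx F Y₀ y₀ toI hpb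

end Pool.Agent.Lib.MP_4ca46c_ag.Std
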