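import Mathlib
import Pool.Agent.Lib.MP_4ca46c_ag.Std.ConnSpec

/-!
# Stalks of smooth schemes are domains; connected schemes with domain stalks are irreducible
-/

namespace Pool.Agent.Lib.MP_4ca46c_ag.Std

open CategoryTheory Limits AlgebraicGeometry TensorProduct TopologicalSpace
open Pool.Agent.Lib.MP_4ca46c_ag.Sign

theorem tStalk (h : StSmDomain) : StStalk := by
  intro k _ X f hf x
  obtain ⟨V, hV, hxV, -⟩ := exists_isAffineOpen_mem_and_subset (U := (⊤ : X.Opens)) (x := x)
    trivial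
  have h1 : (f.appLE ⊤ V (by simp)).hom.Smooth :=
    f.smooth_appLE (isAffineOpen_top _) hV _
  let g : k →+* Γ(X, V) := (f.appLE ⊤ V (by simp)).hom.comp
    (Scheme.ΓSpecIso (CommRingCat.of k)).inv.hom
  have h2 : g.Smooth :=
    (RingHom.Smooth.of_bijective (ConcreteCategory.bijective_of_isIso _)).comp h1
  let := g.toAlgebra
  have h3 : Algebra.Smooth k Γ(X, V) := h2
  have h4 : IsDomain (Localization.AtPrime (hV.primeIdealOf ⟨x, hxV⟩).asIdeal) :=
    h k Γ(X, V) (hV.primeIdealOf ⟨x, hxV⟩).asIdeal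
  let := X.presheaf.algebra_section_stalk ⟨x, hxV⟩
  have h5 := hV.isLocalization_stalk ⟨x, hxV⟩
  exact (IsLocalization.algEquiv (hV.primeIdealOf ⟨x, hxV⟩).asIdeal.primeCompl
      (X.presheaf.stalk x)
      (Localization.AtPrime (hV.primeIdealOf ⟨x, hxV⟩).asIdeal)).toMulEquiv.isDomain _

lemma stalk_specializes (X : Scheme.{0}) (x : X) (hd : IsDomain (X.presheaf.stalk x)) :
    ∃ ξ : X, ∀ y : X, y ⤳ x → ξ ⤳ y := by
  refine ⟨X.fromSpecStalk x (⟨⊥, Ideal.isPrime_bot⟩ : PrimeSpectrum (X.presheaf.stalk x)),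
    fun y hy => ?_⟩
  have : y ∈ Set.range (X.fromSpecStalk x) := by
    rw [Scheme.range_fromSpecStalk]; exact hy
  obtain ⟨p, rfl⟩ := this
  refine Specializes.map ?_ (X.fromSpecStalk x).continuous
  exact (PrimeSpectrum.le_iff_specializes _ _).mp bot_le

lemma stalk_comp_unique (X : Scheme.{0}) (x : X) (hd : IsDomain (X.presheaf.stalk x))
    (Z₁ Z₂ : Set X) (h₁ : Z₁ ∈ irreducibleComponents X) (h₂ : Z₂ ∈ irreducibleComponents X)
    (hx₁ : x ∈ Z₁) (hx₂ : x ∈ Z₂) : Z₁ = Z₂ := by
  obtain ⟨ξ, hξ⟩ := stalk_specializes X x hd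
  have key : ∀ Z ∈ irreducibleComponents X, x ∈ Z → Z = closure {ξ} := by
    intro Z hZ hx
    have hc : IsClosed Z := isClosed_of_mem_irreducibleComponents Z hZ
    obtain ⟨η, hη⟩ := QuasiSober.sober hZ.1 hc
    have h1 : η ⤳ x := by
      rw [specializes_iff_mem_closure, hη.def]; exact hx
    have h2 : Z ⊆ closure {ξ} := by
      rw [← hη.def]
      exact (specializes_iff_closure_subset.mp (hξ η h1))
    exact h2.antisymm (hZ.2 isIrreducible_singleton.closure h2)
  rw [key Z₁ h₁ hx₁, key Z₂ h₂ hx₂]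

theorem tIrr : StIrr := by
  intro X hN hC hd
  obtain ⟨x₀⟩ := hC.toNonempty
  have hfin : (irreducibleComponents X).Finite := finite_irreducibleComponents_of_isNoetherian
  set Z := irreducibleComponent x₀ with hZ
  have hZm : Z ∈ irreducibleComponents X := irreducibleComponent_mem_irreducibleComponents x₀
  have hcl : IsClosed Z := isClosed_of_mem_irreducibleComponents Z hZm
  have hcompl : Zᶜ = ⋃₀ (irreducibleComponents X \ {Z}) := by
    ext y
    constructor
    · intro hy
      refine ⟨irreducibleComponent y, ⟨irreducibleComponent_mem_irreducibleComponents y, ?_⟩,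
        mem_irreducibleComponent⟩
      intro he
      apply hy
      rw [← Set.mem_singleton_iff.mp he]
      exact mem_irreducibleComponent
    · rintro ⟨W, ⟨hW, hne⟩, hyW⟩ hyZ
      exact hne (stalk_comp_unique X y (hd y) W Z hW hZm hyW hyZ)
  have hcl' : IsClosed Zᶜ := by
    rw [hcompl, Set.sUnion_eq_biUnion]
    exact (hfin.subset Set.sdiff_subset).isClosed_biUnion
      fun W hW => isClosed_of_mem_irreducibleComponents W hW.1
  have huniv : Z = Set.univ :=
    IsClopen.eq_univ ⟨hcl, isClosed_compl_iff.mp hcl'⟩ ⟨x₀, mem_irreducibleComponent⟩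
  have hirr : IsIrreducible Z := hZm.1
  rw [huniv] at hirr
  exact (irreducibleSpace_def X).mpr hirr

end Pool.Agent.Lib.MP_4ca46c_ag.Std
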