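import Pool.Agent.Lib.MP_4ca46c_ag.Std.ConnSpec

/-!
# Tensor products of domains over an algebraically closed field
-/

namespace Pool.Agent.Lib.MP_4ca46c_ag.Std

open TensorProduct
open Pool.Agent.Lib.MP_4ca46c_ag.Sign

/-- Over an algebraically closed field every maximal ideal of a finitely generated algebra is the
kernel of a character. -/
lemma tensord_char {k A : Type} [Field k] [IsAlgClosed k] [CommRing A] [Algebra k A]
    [Algebra.FiniteType k A] (m : Ideal A) [m.IsMaximal] : ∃ f : A →ₐ[k] k, RingHom.ker f = m := by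
  let _ : Field (A ⧸ m) := Ideal.Quotient.field m
  have h1 : Module.Finite k (A ⧸ m) := finite_of_finite_type_of_isJacobsonRing k (A ⧸ m)
  have h2 : Function.Bijective (algebraMap k (A ⧸ m)) :=
    IsAlgClosed.algebraMap_bijective_of_isIntegral
  let e : k ≃ₐ[k] (A ⧸ m) := AlgEquiv.ofBijective (Algebra.ofId k (A ⧸ m)) h2
  refine ⟨e.symm.toAlgHom.comp (Ideal.Quotient.mkₐ k m), ?_⟩
  ext a
  rw [RingHom.mem_ker, AlgHom.comp_apply]
  constructor
  · intro h
    have h3 : (Ideal.Quotient.mkₐ k m) a = 0 := by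
      have h4 : e.symm ((Ideal.Quotient.mkₐ k m) a) = 0 := h
      rwa [EmbeddingLike.map_eq_zero_iff] at h4
    exact Ideal.Quotient.eq_zero_iff_mem.mp h3
  · intro h
    have h3 : (Ideal.Quotient.mkₐ k m) a = 0 := Ideal.Quotient.eq_zero_iff_mem.mpr h
    rw [h3, map_zero]

lemma tensord_fg {k A B κ : Type} [Field k] [IsAlgClosed k] [CommRing A] [IsDomain A]
    [Algebra k A] [Algebra.FiniteType k A] [CommRing B] [IsDomain B] [Algebra k B]
    (ℬ : Module.Basis κ k B) (c d : κ →₀ A)
    (h : (c.sum fun i m => m ⊗ₜ[k] ℬ i) * (d.sum fun i m => m ⊗ₜ[k] ℬ i) = 0) (i j : κ) :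
    c i * d j = 0 := by
  classical
  have hJ : IsJacobsonRing A := isJacobsonRing_of_finiteType (A := k)
  have h1 : (⊥ : Ideal A).jacobson = ⊥ := hJ.out (Ideal.isPrime_bot (α := A)).isRadical
  have h2 : c i * d j ∈ (⊥ : Ideal A).jacobson := by
    rw [Ideal.jacobson, Ideal.mem_sInf]
    rintro m ⟨-, hm⟩
    obtain ⟨f, hf⟩ := tensord_char (k := k) m
    let φ : A ⊗[k] B →ₐ[k] B := Algebra.TensorProduct.lift ((Algebra.ofId k B).comp f)
      (AlgHom.id k B) (fun _ _ => Commute.all _ _)
    have hφ : ∀ a b, φ (a ⊗ₜ b) = f a • b := by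
      intro a b
      rw [Algebra.TensorProduct.lift_tmul, AlgHom.comp_apply, AlgHom.id_apply, Algebra.smul_def]
      rfl
    have hsum : ∀ c : κ →₀ A, φ (c.sum fun i m => m ⊗ₜ[k] ℬ i) = 0 → ∀ i, f (c i) = 0 := by
      intro c hc i
      rw [Finsupp.sum, map_sum] at hc
      simp only [hφ] at hc
      by_cases hi : i ∈ c.support
      · exact linearIndependent_iff'.mp ℬ.linearIndependent c.support _ hc i hi
      · rw [Finsupp.notMem_support_iff.mp hi, map_zero]
    have h3 := congrArg φ h
    rw [map_mul, map_zero] at h3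
    rw [← hf, RingHom.mem_ker, map_mul]
    rcases mul_eq_zero.mp h3 with h4 | h4
    · rw [hsum c h4 i, zero_mul]
    · rw [hsum d h4 j, mul_zero]
  rw [h1] at h2
  exact h2

/-- **Over an algebraically closed field the tensor product of domains is a domain.** -/
theorem tTensor : StTensor := by
  intro k A B _ _ _ _ _ _ _ _
  classical
  have : Nontrivial (A ⊗[k] B) :=
    Algebra.TensorProduct.nontrivial_of_algebraMap_injective_of_isDomain k A B
      (algebraMap k A).injective (algebraMap k B).injective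
  suffices h : NoZeroDivisors (A ⊗[k] B) from NoZeroDivisors.to_isDomain _
  refine ⟨fun {x y} hxy => ?_⟩
  let ℬ := Module.Basis.ofVectorSpace k B
  obtain ⟨c, rfl⟩ := TensorProduct.eq_repr_basis_right ℬ x
  obtain ⟨d, rfl⟩ := TensorProduct.eq_repr_basis_right ℬ y
  let A' : Subalgebra k A := Algebra.adjoin k (↑(c.support.image c ∪ d.support.image d) : Set A)
  have : Algebra.FiniteType k A' := by
    rw [← Subalgebra.fg_iff_finiteType]
    exact ⟨_, rfl⟩
  let g : A → A' := fun a => if h : a ∈ A' then ⟨a, h⟩ else 0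
  have hg0 : g 0 = 0 := by
    have h1 : (0 : A) ∈ A' := zero_mem A'
    simp only [g, dif_pos h1]
    rfl
  have hg : ∀ a ∈ A', ((g a : A') : A) = a := by
    intro a ha
    simp only [g, dif_pos ha]
  have hc : ∀ i, c i ∈ A' := by
    intro i
    by_cases hi : i ∈ c.support
    · exact Algebra.subset_adjoin (by
        rw [Finset.mem_coe]
        exact Finset.mem_union_left _ (Finset.mem_image_of_mem _ hi))
    · rw [Finsupp.notMem_support_iff.mp hi]
      exact zero_mem A'
  have hd : ∀ i, d i ∈ A' := by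
    intro i
    by_cases hi : i ∈ d.support
    · exact Algebra.subset_adjoin (by
        rw [Finset.mem_coe]
        exact Finset.mem_union_right _ (Finset.mem_image_of_mem _ hi))
    · rw [Finsupp.notMem_support_iff.mp hi]
      exact zero_mem A'
  let J : A' ⊗[k] B →ₐ[k] A ⊗[k] B := Algebra.TensorProduct.map A'.val (AlgHom.id k B)
  have hJ : Function.Injective J := by
    have h1 := Module.Flat.rTensor_preserves_injective_linearMap (M := B) A'.val.toLinearMap
      Subtype.val_injective
    exact h1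
  have hJc : ∀ c : (Module.Basis.ofVectorSpaceIndex k B) →₀ A, (∀ i, c i ∈ A') → J ((c.mapRange g hg0).sum fun i m => m ⊗ₜ[k] ℬ i) =
      c.sum fun i m => m ⊗ₜ[k] ℬ i := by
    intro c hc
    rw [Finsupp.sum_mapRange_index (fun i => by rw [TensorProduct.zero_tmul]), Finsupp.sum,
      Finsupp.sum, map_sum]
    refine Finset.sum_congr rfl fun i _ => ?_
    have h1 : J (g (c i) ⊗ₜ[k] ℬ i) = ((g (c i) : A') : A) ⊗ₜ[k] ℬ i := rfl
    rw [h1, hg _ (hc i)]
  have h1 : ((c.mapRange g hg0).sum fun i m => m ⊗ₜ[k] ℬ i) *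
      ((d.mapRange g hg0).sum fun i m => m ⊗ₜ[k] ℬ i) = 0 := by
    apply hJ
    rw [map_mul, hJc c hc, hJc d hd, hxy, map_zero]
  have h2 := tensord_fg ℬ _ _ h1
  have h3 : ∀ i j, c i * d j = 0 := by
    intro i j
    have h4 := congrArg Subtype.val (h2 i j)
    rw [Finsupp.mapRange_apply, Finsupp.mapRange_apply] at h4
    have h5 : ((g (c i) : A') : A) * ((g (d j) : A') : A) = 0 := h4
    rwa [hg _ (hc i), hg _ (hd j)] at h5
  by_cases hc0 : c = 0
  · left
    rw [hc0, Finsupp.sum_zero_index]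
  · right
    obtain ⟨i, hi⟩ := Finsupp.ne_iff.mp hc0
    have hd0 : d = 0 := by
      ext j
      exact (mul_eq_zero.mp (h3 i j)).resolve_left hi
    rw [hd0, Finsupp.sum_zero_index]

end Pool.Agent.Lib.MP_4ca46c_ag.Std
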