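import Pool.Agent.Lib.MP_4ca46c_ag.Std.ChowSpec
import Pool.Agent.Lib.MP_4ca46c_ag.Sign.SmS

/-! # The class of the universal hyperplane section of projective space -/

namespace Pool.Agent.Lib.MP_4ca46c_ag.Std

open CategoryTheory Limits AlgebraicGeometry TensorProduct
open Pool.Agent.Lib.MP_4ca46c_ag.Sign Pool.Agent.Lib.MP_4ca46c_ag.Hyp

variable (k₀ K : Type) [Field k₀] [Field K]

theorem univp_inc_proper {k₀ : Type} [Field k₀] {k : Type} [Field k] [Algebra k₀ k] {X : Sch k₀}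
    {x : X ⟶ pt k₀ k} {κ : Type} [Fintype κ] (C : Coord x.left κ) :
    IsProper (Fam.inc C).left := inferInstanceAs (IsProper C.inc)

theorem tUnivP (h1 : StAffSm) (h2 : StPS) (h3 : StHyp) : StUnivP k₀ K := by
  intro T E k _ _ _ κ _ _ i
  classical
  obtain ⟨M, hM⟩ : ∃ M, Fintype.card κ = (M + 1) + 1 := by
    have := Fintype.one_lt_card (α := κ)
    exact ⟨Fintype.card κ - 2, by omega⟩
  have hM' : Fintype.card {j // j ≠ i} = M + 1 := by
    rw [Fintype.card_subtype_compl, hM]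
    simp
  have hP := h2 k₀ k κ (M + 1) hM
  have hH := h2 k₀ k {j // j ≠ i} M hM'
  obtain ⟨hb, hA, hAd, hF⟩ := h1 k₀ k (PSo k₀ k κ) (PSo.str k₀ k κ) κ (M + 1) (M + 1)
    (sms_isSm hP) hP.smooth hM
  obtain ⟨hI, hId⟩ := hF (pCoord k κ)
  obtain ⟨hc, u, hu⟩ := h3 k₀ k κ i
  have hprop := univp_inc_proper (pCoord (k₀ := k₀) k κ)
  have hSP : Sm (PSo k₀ k κ) := sms_sm hP
  have hSA : Sm (Aff κ (PSo k₀ k κ)) := ⟨_, _, _, _, hA⟩
  -- the class has codimension one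
  have hmem := T.push_mem (Fam.inc (pCoord k κ) ≫ Aff.pr κ (PSo k₀ k κ) ≫ PSo.str k₀ k κ)
    (Aff.pr κ (PSo k₀ k κ) ≫ PSo.str k₀ k κ) (Fam.inc (pCoord k κ)) rfl hI hA hprop _ _ hId hAd
    0 1 (by omega) 1 (T.one_mem _)
  obtain ⟨b, _, hb2⟩ := T.pull_surjective_of_affineBundle (Aff.pr κ (PSo k₀ k κ)) hSA hSP hb 1 _
    hmem
  -- restriction to the section
  have hs : Aff.sec (unitVec (PSo k₀ k κ).left i) ≫ Aff.pr κ (PSo k₀ k κ) ≫ PSo.str k₀ k κ =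
      PSo.str k₀ k κ := by
    rw [← Category.assoc, Aff.sec_pr, Category.id_comp]
  have ht := E.transversal (Aff.pr κ (PSo k₀ k κ) ≫ PSo.str k₀ k κ) (Fam.inc (pCoord k κ))
    (PSo.hyp k₀ k κ i) u (Aff.sec (unitVec (PSo k₀ k κ).left i)) hu hA hI
    (by rw [hs]; exact sms_isSm hP) (by rw [hs, PSo.hyp_str]; exact sms_isSm hH) hprop
    _ _ (M + 1) M hAd hId (by rw [hs]; exact hP.smooth)
    (by rw [hs, PSo.hyp_str]; exact hH.smooth) (by omega) 1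
  rw [map_one (T.pull u)] at ht
  rw [← hb2, ← T.pull_comp _ _ hSP hSA hSP, Aff.sec_pr, T.pull_id hSP] at ht
  rw [← hb2, ht]
  rfl

end Pool.Agent.Lib.MP_4ca46c_ag.Std
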