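import Mathlib
import Pool.Agent.Lib.MP_4ca46c_ag.Std.ChowSpec
import Pool.Agent.Lib.MP_4ca46c_ag.Sign.SmS

/-!
# The class of the universal hyperplane section of `X`
-/

namespace Pool.Agent.Lib.MP_4ca46c_ag.Std

open CategoryTheory Limits AlgebraicGeometry TensorProduct
open Pool.Agent.Lib.MP_4ca46c_ag.Sign Pool.Agent.Lib.MP_4ca46c_ag.Hyp

theorem tUnivX (k₀ K : Type) [Field k₀] [Field K] (h1 : StAffSm) (h2 : StPS)
    (h3 : StUnivP k₀ K) : StUnivX k₀ K := by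
  intro T hE k _ _ _ κ _ _ i X x n e he hv hc
  obtain ⟨N, hN⟩ : ∃ N, Fintype.card κ = N + 1 :=
    ⟨Fintype.card κ - 1, by have := Fintype.one_lt_card (α := κ); omega⟩
  have hP : IsVar (PSo.str k₀ k κ) N := h2 k₀ k κ N hN
  obtain ⟨-, p2, p3, p4⟩ := h1 k₀ k (PSo k₀ k κ) (PSo.str k₀ k κ) κ N N (sms_isSm hP) hP.smooth hN
  obtain ⟨-, x2, x3, x4⟩ := h1 k₀ k X x κ n N (sms_isSm hv) hv.smooth hN
  obtain ⟨p5, p6⟩ := p4 (pCoord k κ)
  obtain ⟨x5, x6⟩ := x4 (eCoord x e he inferInstance)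
  have hg : Aff.map κ e ≫ Aff.pr κ (PSo k₀ k κ) ≫ PSo.str k₀ k κ = Aff.pr κ X ≫ x := by
    rw [← Category.assoc, Aff.map_pr, Category.assoc, he]
  have key := hE.transversal (Aff.pr κ (PSo k₀ k κ) ≫ PSo.str k₀ k κ) (Fam.inc (pCoord k κ))
    (Fam.inc (eCoord x e he inferInstance)) (Fam.map x e he inferInstance) (Aff.map κ e)
    (Fam.isPullback_map x e he inferInstance) p2 p5 (by rw [hg]; exact x2) (by rw [hg]; exact x5)
    (by
      change IsProper (pCoord k κ).inc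
      infer_instance) (N + N + 1) (N + N) (n + N + 1) (n + N) p3 p6 (by rw [hg]; exact x3)
    (by rw [hg]; exact x6) (by omega) 1
  rw [h3 T hE k κ i, map_one (T.pull (Fam.map x e he inferInstance))] at key
  rw [← key]
  have sX : Sm X := sms_sm hv
  have sP : Sm (PSo k₀ k κ) := sms_sm hP
  have sAX : Sm (Aff κ X) := ⟨k, _, _, _, x2⟩
  have sAP : Sm (Aff κ (PSo k₀ k κ)) := ⟨k, _, _, _, p2⟩
  rw [← T.pull_comp (Aff.map κ e) (Aff.pr κ (PSo k₀ k κ)) sAX sAP sP, Aff.map_pr,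
    T.pull_comp (Aff.pr κ X) e sAX sX sP]

end Pool.Agent.Lib.MP_4ca46c_ag.Std
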