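import Pool.Agent.Lib.MP_4ca46c_ag.Std.GeoFacts
import Pool.Agent.Lib.MP_4ca46c_ag.Std.AffSm
import Pool.Agent.Lib.MP_4ca46c_ag.Std.Disjoint
import Pool.Agent.Lib.MP_4ca46c_ag.Std.UnivP
import Pool.Agent.Lib.MP_4ca46c_ag.Std.UnivX
import Pool.Agent.Lib.MP_4ca46c_ag.Std.GenClass
import Pool.Agent.Lib.MP_4ca46c_ag.Std.PicProd
import Pool.Agent.Lib.MP_4ca46c_ag.Std.SegreC
import Pool.Agent.Lib.MP_4ca46c_ag.Std.LocSm
import Pool.Agent.Lib.MP_4ca46c_ag.Std.Chart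
import Pool.Agent.Lib.MP_4ca46c_ag.Std.ChartIso
import Pool.Agent.Lib.MP_4ca46c_ag.Std.SmoothGen
import Pool.Agent.Lib.MP_4ca46c_ag.Std.BundleIrr
import Pool.Agent.Lib.MP_4ca46c_ag.Std.Stalk
import Pool.Agent.Lib.MP_4ca46c_ag.Std.Fib
import Pool.Agent.Lib.MP_4ca46c_ag.Std.Conn
import Pool.Agent.Lib.MP_4ca46c_ag.Std.Jac
import Pool.Agent.Lib.MP_4ca46c_ag.Std.PtB
import Pool.Agent.Lib.MP_4ca46c_ag.Std.Bert
import Pool.Agent.Lib.MP_4ca46c_ag.Std.Card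
import Pool.Agent.Lib.MP_4ca46c_ag.Std.GeomConn
import Pool.Agent.Lib.MP_4ca46c_ag.Std.RatPt
import Pool.Agent.Lib.MP_4ca46c_ag.Std.TensorD
import Pool.Agent.Lib.MP_4ca46c_ag.Std.SmDomain
import Pool.Agent.Lib.MP_4ca46c_ag.Std.IsoPt

/-!
# All the facts
-/

namespace Pool.Agent.Lib.MP_4ca46c_ag.Std

theorem fStalk : StStalk := tStalk tSmDomain
theorem fGeomConn : StGeomConn := tGeomConn tTensor
theorem fConn : StConn := tConn tRatPt fGeomConn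
theorem fFib : StFib := tFib tIso
theorem fBert : StBert := tBert (tPt tCard) tJac
theorem fSmoothGen : StSmoothGen := tSmoothGen tChart tChartIso tLocSm₁ tLocSm₂ fBert

variable (k₀ K : Type) [Field k₀] [Field K]

theorem fUnivP : StUnivP k₀ K := tUnivP k₀ K tAffSm tPS tHyp
theorem fUnivX : StUnivX k₀ K := tUnivX k₀ K tAffSm tPS (fUnivP k₀ K)
theorem fGenClass : StGenClass k₀ K := tGenClass k₀ K tAffSm (fUnivX k₀ K)
theorem fPicProd : StPicProd k₀ K := tPicProd k₀ K tPS tHyp tDi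
theorem fSegre : StSegre k₀ K := tSegre k₀ K tPS tHyp (tDisjoint k₀ K) (fPicProd k₀ K)

end Pool.Agent.Lib.MP_4ca46c_ag.Std
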