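import Mathlib
import Pool.Agent.Lib.MP_4ca46c_ag.Std.Aff
import Pool.Agent.Lib.MP_4ca46c_ag.Hyp.Coef
import Pool.Agent.Lib.MP_4ca46c_ag.Hyp.Affine

/-!
# The family of hyperplane sections
-/

namespace Pool.Agent.Lib.MP_4ca46c_ag.Std

open CategoryTheory Limits AlgebraicGeometry
open Pool.Agent.Lib.MP_4ca46c_ag.Sign Pool.Agent.Lib.MP_4ca46c_ag.Hyp

variable {k₀ k : Type} [Field k₀] [Field k] [Algebra k₀ k] {Z : Sch k₀}

/-- The structure morphism, as a morphism of schemes. -/
noncomputable abbrev sl (str : Z ⟶ pt k₀ k) : Z.left ⟶ Spec (CommRingCat.of k) := str.left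

section compl

variable (str : Z ⟶ pt k₀ k) [IsSeparated str.left]

theorem diag_closed : IsClosedImmersion (pullback.diagonal str).left := by
  have h : (pullback.diagonal str).left ≫ (pullback.fst str str).left = 𝟙 _ := by
    rw [← Over.comp_left, pullback.diagonal_fst]
    rfl
  have hp : IsPullback (pullback.fst str str).left (pullback.snd str str).left str.left str.left :=
    (IsPullback.of_hasPullback str str).map (Over.forget _)
  have h1 : IsSeparated (pullback.fst str str).left :=
    MorphismProperty.of_isPullback (P := @IsSeparated) hp.flip inferInstance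
  have h2 : IsClosedImmersion ((pullback.diagonal str).left ≫ (pullback.fst str str).left) := by
    rw [h]
    infer_instance
  exact IsClosedImmersion.of_comp _ (pullback.fst str str).left

/-- The complement of the diagonal. -/
noncomputable def dOpen : (pullback str str).left.Opens :=
  ⟨(Set.range (pullback.diagonal str).left)ᶜ, by
    have := diag_closed str
    exact (pullback.diagonal str).left.isClosedEmbedding.isClosed_range.isOpen_compl⟩

/-- The complement of the diagonal, as a scheme. -/
noncomputable def dU : Sch k₀ := Over.mk ((dOpen str).ι ≫ (pullback str str).hom)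

/-- The inclusion of the complement of the diagonal. -/
noncomputable def dincl : dU str ⟶ pullback str str := Over.homMk (dOpen str).ι rfl

theorem d_compl : IsComplement (pullback.diagonal str) (dincl str) :=
  ⟨diag_closed str, inferInstanceAs (IsOpenImmersion (dOpen str).ι), by
    change Set.range (dOpen str).ι = _
    rw [Scheme.Opens.range_ι]
    rfl⟩

end compl

variable {str : Z ⟶ pt k₀ k} {κ : Type} [Fintype κ] (C : Coord str.left κ)

/-- The projection of the universal hyperplane section to `Z`. -/
noncomputable abbrev hZ : Fam C ⟶ Z := Fam.inc C ≫ Aff.pr κ Z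

/-- The projection to the space of equations. -/
noncomputable abbrev hB : Fam C ⟶ sp k₀ (MvPolynomial κ k) := Fam.inc C ≫ Aff.toSp κ str

/-- The coordinates, over `Spec k`. -/
noncomputable abbrev hC (C : Coord str.left κ) : Coord (sl str) κ := C

theorem h_comm : hZ C ≫ str = hB C ≫ spB k₀ k (MvPolynomial κ k) := by
  rw [Category.assoc, Category.assoc, (Aff.isPullback_toSp κ str).w]

theorem hZ_left : (hZ C).left = (hC C).toZ := rfl

theorem hB_left : (hB C).left = (hC C).toA := rfl

theorem h_comm₂ : (pullback.fst (hB C) (hB C) ≫ hZ C) ≫ str =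
    (pullback.snd (hB C) (hB C) ≫ hZ C) ≫ str :=
  (Category.assoc _ _ _).trans ((whisker_eq _ (h_comm C)).trans ((Category.assoc _ _ _).symm.trans
    ((eq_whisker pullback.condition _).trans ((Category.assoc _ _ _).trans
      ((whisker_eq _ (h_comm C).symm).trans (Category.assoc _ _ _).symm)))))

theorem h_mono : Mono (pullback.lift (hZ C) (hB C) (h_comm C)) := by
  refine ⟨fun {T} t t' h => ?_⟩
  have h1 := congrArg (fun φ => φ ≫ pullback.fst _ _) h
  have h2 := congrArg (fun φ => φ ≫ pullback.snd _ _) h
  simp only [Category.assoc, pullback.lift_fst, pullback.lift_snd] at h1 h2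
  apply Over.OverMorphism.ext
  exact (hC C).toA_ext (congrArg CommaMorphism.left h1) (congrArg CommaMorphism.left h2)

section bundle

variable [IsSeparated str.left] [DecidableEq κ]

/-- The map `I ×_B I ⟶ Z × Z`. -/
noncomputable def hq : pullback (hB C) (hB C) ⟶ pullback str str :=
  pullback.lift (f := str) (g := str) (pullback.fst (hB C) (hB C) ≫ hZ C)
    (pullback.snd (hB C) (hB C) ≫ hZ C)
    (h_comm₂ C)

theorem h_bundle : IsAffineBundle (pullback.snd (hq C) (dincl str)).left := by
  have w : ∀ {X Y : Sch k₀} {f g : X ⟶ Y}, f = g → f.left = g.left := fun h => by rw [h]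
  have q1 : hq C ≫ pullback.fst str str = pullback.fst (hB C) (hB C) ≫ hZ C :=
    pullback.lift_fst _ _ _
  have q2 : hq C ≫ pullback.snd str str = pullback.snd (hB C) (hB C) ≫ hZ C :=
    pullback.lift_snd _ _ _
  refine (hC C).bundle (dincl str ≫ pullback.fst str str).left (dincl str ≫ pullback.snd str str).left
    ?_ ?_ _ (pullback.fst (hq C) (dincl str) ≫ pullback.fst (hB C) (hB C)).left
    (pullback.fst (hq C) (dincl str) ≫ pullback.snd (hB C) (hB C)).left ?_ ?_ ?_ ?_ ?_
  · have h : (dincl str ≫ pullback.fst str str) ≫ str =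
        (dincl str ≫ pullback.snd str str) ≫ str := by
      rw [Category.assoc, Category.assoc, pullback.condition]
    exact w h
  · intro u hu
    let X : Sch k₀ := Over.mk ((dU str).left.fromSpecResidueField u ≫ (dU str).hom)
    let x : X ⟶ dU str := Over.homMk ((dU str).left.fromSpecResidueField u) rfl
    have h1 : x ≫ dincl str ≫ pullback.fst str str = x ≫ dincl str ≫ pullback.snd str str := by
      apply Over.OverMorphism.ext
      exact hu
    have h2 : x ≫ dincl str = (x ≫ dincl str ≫ pullback.fst str str) ≫
        pullback.diagonal str := by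
      apply pullback.hom_ext
      · rw [Category.assoc, Category.assoc, pullback.diagonal_fst, Category.comp_id]
      · rw [Category.assoc, Category.assoc, pullback.diagonal_snd, Category.comp_id, h1]
    have h3 : u ∈ Set.range ((dU str).left.fromSpecResidueField u) := by
      rw [Scheme.range_fromSpecResidueField]
      rfl
    obtain ⟨y, hy⟩ := h3
    have h4 : (dincl str).left u ∈ Set.range (pullback.diagonal str).left := by
      refine ⟨(x ≫ dincl str ≫ pullback.fst str str).left y, ?_⟩
      have h5 := congrArg (fun φ => φ y) (w h2)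
      refine Eq.trans ?_ (h5.symm.trans ?_)
      · rfl
      · change (dincl str).left ((dU str).left.fromSpecResidueField u y) = _
        rw [hy]
    have h6 : (dincl str).left u ∈ Set.range (dincl str).left := ⟨u, rfl⟩
    rw [(d_compl str).compl] at h6
    exact h6 h4
  · have h : (pullback.fst (hq C) (dincl str) ≫ pullback.fst (hB C) (hB C)) ≫ hZ C =
        pullback.snd (hq C) (dincl str) ≫ dincl str ≫ pullback.fst str str := by
      rw [Category.assoc, ← q1, ← Category.assoc, pullback.condition, Category.assoc]
    exact w h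
  · have h : (pullback.fst (hq C) (dincl str) ≫ pullback.snd (hB C) (hB C)) ≫ hZ C =
        pullback.snd (hq C) (dincl str) ≫ dincl str ≫ pullback.snd str str := by
      rw [Category.assoc, ← q2, ← Category.assoc, pullback.condition, Category.assoc]
    exact w h
  · have h : (pullback.fst (hq C) (dincl str) ≫ pullback.fst (hB C) (hB C)) ≫ hB C =
        (pullback.fst (hq C) (dincl str) ≫ pullback.snd (hB C) (hB C)) ≫ hB C := by
      rw [Category.assoc, Category.assoc, pullback.condition]
    exact (((hC C).toA_iff _ _).1 (w h)).2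
  · intro T u t₁ t₂ ht₁ ht₂ ht₃
    let X : Sch k₀ := Over.mk (u ≫ (dU str).hom)
    let x : X ⟶ dU str := Over.homMk u rfl
    let x₁ : X ⟶ Fam C := Over.homMk t₁
      ((congrArg (fun φ => t₁ ≫ φ) (Over.w (hZ C))).symm.trans ((Category.assoc _ _ _).symm.trans
        ((congrArg (fun φ => φ ≫ Z.hom) ht₁).trans ((Category.assoc _ _ _).trans (congrArg
          (fun φ => u ≫ φ) (Over.w (dincl str ≫ pullback.fst str str)))))))
    let x₂ : X ⟶ Fam C := Over.homMk t₂
      ((congrArg (fun φ => t₂ ≫ φ) (Over.w (hZ C))).symm.trans ((Category.assoc _ _ _).symm.trans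
        ((congrArg (fun φ => φ ≫ Z.hom) ht₂).trans ((Category.assoc _ _ _).trans (congrArg
          (fun φ => u ≫ φ) (Over.w (dincl str ≫ pullback.snd str str)))))))
    have e₁ : x₁ ≫ hZ C = x ≫ dincl str ≫ pullback.fst str str := by
      apply Over.OverMorphism.ext
      exact ht₁
    have e₂ : x₂ ≫ hZ C = x ≫ dincl str ≫ pullback.snd str str := by
      apply Over.OverMorphism.ext
      exact ht₂
    have e₃ : x₁ ≫ hB C = x₂ ≫ hB C := by
      apply Over.OverMorphism.ext
      refine ((hC C).toA_iff t₁ t₂).2 ⟨?_, ht₃⟩
      have h : (x₁ ≫ hZ C) ≫ str = (x₂ ≫ hZ C) ≫ str := by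
        rw [e₁, e₂, Category.assoc, Category.assoc, Category.assoc, Category.assoc,
          pullback.condition]
      exact w h
    let p : X ⟶ pullback (hB C) (hB C) := pullback.lift x₁ x₂ e₃
    have e₄ : p ≫ hq C = x ≫ dincl str := by
      apply pullback.hom_ext
      · rw [Category.assoc, q1, ← Category.assoc, pullback.lift_fst, e₁, Category.assoc]
      · rw [Category.assoc, q2, ← Category.assoc, pullback.lift_snd, e₂, Category.assoc]
    let l : X ⟶ pullback (hq C) (dincl str) := pullback.lift p x e₄
    have f1 : l ≫ pullback.snd (hq C) (dincl str) = x := pullback.lift_snd _ _ _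
    have f2 : l ≫ pullback.fst (hq C) (dincl str) ≫ pullback.fst (hB C) (hB C) = x₁ := by
      rw [← Category.assoc, pullback.lift_fst, pullback.lift_fst]
    have f3 : l ≫ pullback.fst (hq C) (dincl str) ≫ pullback.snd (hB C) (hB C) = x₂ := by
      rw [← Category.assoc, pullback.lift_fst, pullback.lift_snd]
    exact ⟨l.left, w f1, w f2, w f3⟩
  · intro T t t' h1 h2 h3
    have h0 : t' ≫ (pullback (hq C) (dincl str)).hom = t ≫ (pullback (hq C) (dincl str)).hom := by
      rw [← Over.w (pullback.snd (hq C) (dincl str)), ← Category.assoc, ← Category.assoc, h1]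
    let X : Sch k₀ := Over.mk (t ≫ (pullback (hq C) (dincl str)).hom)
    let x : X ⟶ pullback (hq C) (dincl str) := Over.homMk t rfl
    let x' : X ⟶ pullback (hq C) (dincl str) := Over.homMk t' h0
    have e : x = x' := by
      apply pullback.hom_ext
      · apply pullback.hom_ext
        · apply Over.OverMorphism.ext
          exact h2
        · apply Over.OverMorphism.ext
          exact h3
      · apply Over.OverMorphism.ext
        exact h1
    exact w e

end bundle

/-- The family of hyperplane sections and its generic fibre. -/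
noncomputable def preSec (x : Z ⟶ pt k₀ k) [IsSeparated x.left] (C : Coord x.left κ)
    {F : Type} [Field F] [Algebra k₀ F] [Algebra (MvPolynomial κ k) F]
    [IsScalarTower k₀ (MvPolynomial κ k) F] (Y₀ : Sch k₀) (y₀ : Y₀ ⟶ pt k₀ F) (toI : Y₀ ⟶ Fam C)
    (fibre : IsPullback toI y₀ (Fam.inc C ≫ Aff.toSp κ x) (spG k₀ (MvPolynomial κ k) F)) :
    PreSec x (MvPolynomial κ k) F where
  I := Fam C
  toZ := Fam.inc C ≫ Aff.pr κ Z
  toB := Fam.inc C ≫ Aff.toSp κ x
  comm := h_comm C
  mono := h_mono C
  U := dU x
  incl := dincl x
  complement := d_compl x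
  bundle := by
    classical
    exact h_bundle C
  Y₀ := Y₀
  y₀ := y₀
  toI := toI
  fibre := fibre



end Pool.Agent.Lib.MP_4ca46c_ag.Std
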