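import Mathlib
import Pool.Agent.Lib.MP_4ca46c_ag.Std.PreSec
import Pool.Agent.Lib.MP_4ca46c_ag.Std.ConnSpec
import Pool.Agent.Lib.MP_4ca46c_ag.Sign.VarCat
import Pool.Agent.Lib.MP_4ca46c_ag.Sign.SmS

/-!
# Geometric connectedness of the generic section
-/

namespace Pool.Agent.Lib.MP_4ca46c_ag.Std

open CategoryTheory Limits AlgebraicGeometry TensorProduct
open Pool.Agent.Lib.MP_4ca46c_ag.Sign

variable {k₀ : Type} [Field k₀]

/-- A smooth proper connected variety is irreducible. -/
theorem isVar_irreducible (hSt : StStalk) (hIrr : StIrr) {k : Type} [Field k] [Algebra k₀ k]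
    {X : Sch k₀} {x : X ⟶ pt k₀ k} {n : ℕ} (hx : IsVar x n) : IrreducibleSpace X.left := by
  have h1 := hx.smooth
  have h2 := hx.proper
  have h3 := hx.connected
  have h4 : IsLocallyNoetherian X.left := sms_noetherian (sms_isSm hx)
  have hn : IsNoetherian (pt k₀ k).left := by
    change IsNoetherian (Spec (CommRingCat.of k))
    infer_instance
  have h5 : CompactSpace X.left := by
    have : CompactSpace (pt k₀ k).left := inferInstance
    exact QuasiCompact.compactSpace_of_compactSpace x.left
  have h6 : IsNoetherian X.left := {}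
  have h8 : Smooth x.left := h1.smooth
  exact hIrr X.left h6 hx.connectedSpace (hSt k X.left x.left h8)

/-- Nonempty open subspaces of irreducible spaces are irreducible. -/
theorem preirr_range {X Y : Type*} [TopologicalSpace X] [TopologicalSpace Y]
    [PreirreducibleSpace X] {f : X → Y} (hf : Continuous f) : IsPreirreducible (Set.range f) := by
  rw [← Set.image_univ]
  exact PreirreducibleSpace.isPreirreducible_univ.image f hf.continuousOn

namespace PreSec

variable {k : Type} [Field k] [Algebra k₀ k] {Z : Sch k₀} {str : Z ⟶ pt k₀ k}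
    {R F : Type} [CommRing R] [IsDomain R] [Algebra k₀ R] [Algebra k R] [IsScalarTower k₀ k R]
    [Field F] [Algebra k₀ F] [Algebra R F] [IsScalarTower k₀ R F] [IsFractionRing R F]
    (G : PreSec str R F)

/-- The complement of the diagonal of `Y₀` is irreducible (or empty). -/
theorem preirr₀ (hSt : StStalk) (hIrr : StIrr) (hB : StBundleIrr) (hG : StGenIrr) {n : ℕ}
    (hZ : IsVar str n) : PreirreducibleSpace (pullback G.rho G.incl).left := by
  have hZ2 := Var.isVar_prod hZ hZ
  have h1 : IrreducibleSpace (pullback str str).left := isVar_irreducible hSt hIrr hZ2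
  by_cases hU : Nonempty G.U.left
  · have ho := G.complement.isOpen
    have h2 : IrreducibleSpace G.U.left := by
      have h4 := (PreirreducibleSpace.isPreirreducible_univ
        (X := (pullback str str).left)).preimage G.incl.left.isOpenEmbedding
      exact { isPreirreducible_univ := h4, toNonempty := hU }
    have h3 : IrreducibleSpace (pullback G.q G.incl).left := hB _ _ _ G.bundle h2
    exact hG R F _ _ _ _ _ G.generic_left h3
  · have h2 : IsEmpty (pullback G.rho G.incl).left :=
      ⟨fun x => hU ⟨(pullback.snd G.rho G.incl).left x⟩⟩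
    constructor
    rintro u v - - ⟨x, -⟩ -
    exact h2.elim x

/-- The complement of the diagonal of `Y₀` is irreducible (or empty), as a set. -/
theorem preirr₁ (h : PreirreducibleSpace (pullback G.rho G.incl).left) :
    IsPreirreducible (Set.range (pullback.diagonal G.y₀.left))ᶜ := by
  have h1 : IsPreirreducible (Set.range (pullback.diagonal G.y₀).left)ᶜ := by
    rw [← G.isCompl.compl]
    exact preirr_range (pullback.fst G.rho G.incl).left.continuous
  have hP : IsPullback (pullback.fst G.y₀ G.y₀).left (pullback.snd G.y₀ G.y₀).left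
      G.y₀.left G.y₀.left :=
    (IsPullback.of_hasPullback G.y₀ G.y₀).map (Over.forget _)
  have h2 : (pullback.diagonal G.y₀).left ≫ hP.isoPullback.hom = pullback.diagonal G.y₀.left := by
    apply pullback.hom_ext
    · rw [Category.assoc, hP.isoPullback_hom_fst, pullback.diagonal_fst, ← Over.comp_left,
        pullback.diagonal_fst]
      rfl
    · rw [Category.assoc, hP.isoPullback_hom_snd, pullback.diagonal_snd, ← Over.comp_left,
        pullback.diagonal_snd]
      rfl
  have h3 : (Set.range (pullback.diagonal G.y₀.left))ᶜ =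
      hP.isoPullback.hom '' (Set.range (pullback.diagonal G.y₀).left)ᶜ := by
    have hb : Function.Bijective hP.isoPullback.hom :=
      (Scheme.homeoOfIso hP.isoPullback).bijective
    rw [Set.image_compl_eq hb, ← Set.range_comp, ← h2]
    rfl
  rw [h3]
  exact h1.image _ hP.isoPullback.hom.continuous.continuousOn

/-- **Geometric connectedness of the generic section.** -/
theorem conn (hSt : StStalk) (hIrr : StIrr) (hB : StBundleIrr) (hG : StGenIrr) (hF : StFib)
    (hC : StConn) {n : ℕ} (hZ : IsVar str n) {m : ℕ} (hm : 1 ≤ m)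
    (hs : SmoothOfRelativeDimension m G.y₀.left) (hsep : IsSeparated G.y₀.left)
    (hne : Nonempty G.Y₀.left) {L : Type} [Field L] [Algebra k₀ L] [Algebra F L]
    [IsScalarTower k₀ F L] [IsAlgClosure F L] {Y : Sch k₀} (y : Y ⟶ pt k₀ L) (p : Y ⟶ G.Y₀)
    (hp : IsPullback p y G.y₀ (ptMap k₀ (IsScalarTower.toAlgHom k₀ F L))) :
    GeometricallyConnected y.left := by
  obtain ⟨z, hz⟩ := hF F G.Y₀.left G.y₀.left m hm hs hsep hne
    (G.preirr₁ (G.preirr₀ hSt hIrr hB hG hZ))
  exact hC F L G.Y₀.left Y.left G.y₀.left y.left p.left z (hp.map (Over.forget _)) hz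

end PreSec

end Pool.Agent.Lib.MP_4ca46c_ag.Std
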