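import Mathlib
import Pool.Agent.Lib.MP_4ca46c_ag.Sign.SpecA

/-!
# Linear algebra with a third factor (the cohomology of a curve)

`V = H(X)` (dimension `n`), `U = H(C)` with `C` a curve, `M = V ⊗ V = H(X × X)`,
`M ⊗ U = H(X × X × C)`. There is an algebraic `w` of degree `-1` on `M ⊗ U` with
`H' w H' = a H'` in even degrees and `b H'` in odd degrees, `a - b = 1`, where
`H' = H ⊗ 1 + 1 ⊗ L_C`, `H = LL L`. At least one of `a`, `b` is not zero; using the classes of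
degree `0`, `2` of `C` (if `a ≠ 0`) or of degree `1` (if `b ≠ 0`) we get the vanishing of traces
(`TProp`) on the even part of `M`, which is all that is needed in Lemma Q and in step 5.
-/

namespace Pool.Agent.Lib.MP_4ca46c_ag.Std

open Module TensorProduct LinearMap
open Pool.Agent.Lib.MP_4ca46c_ag.Sign

section Defs

variable {K M U : Type} [Field K] [AddCommGroup M] [Module K M] [AddCommGroup U] [Module K U]

/-- The projector onto degree `c` of `M ⊗ U`, `U` in degrees `0` to `2d`. -/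
noncomputable def prM (d : ℕ) (p : ℤ → Module.End K M) (q : ℤ → Module.End K U) (c : ℤ) :
    Module.End K (M ⊗[K] U) :=
  ∑ i ∈ Finset.Icc (0 : ℤ) (2 * d), TensorProduct.map (p (c - i)) (q i)

/-- The Lefschetz operator `H ⊗ 1 + 1 ⊗ L_C`. -/
noncomputable def LM (H : Module.End K M) (LC : Module.End K U) : Module.End K (M ⊗[K] U) :=
  TensorProduct.map H 1 + TensorProduct.map 1 LC

/-- Vanishing of traces on the even part of `M`. -/
def TProp (Z : GrAlg K M) (H : Module.End K M) (n : ℕ) : Prop :=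
  (∀ r : ℤ, ∀ Ξ ∈ Z.R r, H * Ξ ∈ Z.N (r + 1) → ∀ Θ ∈ Z.R (-r), ∀ c : ℤ, Even c →
    c + 2 * r < 2 * n → LinearMap.trace K M (Θ * Ξ * Z.pr c) = 0) ∧
  (∀ r : ℤ, ∀ Θ ∈ Z.R (-r), Θ * H ∈ Z.N (-r + 1) → ∀ Ξ ∈ Z.R r, ∀ c : ℤ, Even c →
    2 * n < c + 2 * r → LinearMap.trace K M (Θ * Ξ * Z.pr c) = 0)

/-- Operators on `M ⊗ U` with coefficients in `K`. -/
structure TripAlg [FiniteDimensional K M] [FiniteDimensional K U] (Z : GrAlg K M)
    (P : GrAlg K (M ⊗[K] U)) (q : ℤ → Module.End K U) : Prop where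
  q_mul : ∀ i j, q i * q j = if i = j then q i else 0
  q_out : ∀ i, i < 0 ∨ 2 < i → q i = 0
  q_ne : ∀ i, 0 ≤ i → i ≤ 2 → q i ≠ 0
  prP : ∀ c, P.pr c = prM 1 Z.pr q c
  tensor : ∀ r, ∀ f ∈ Z.R r, ∀ j, TensorProduct.map f (q j) ∈ P.R r
  ptr : ∀ r, ∀ u ∈ P.R r, ptrR u ∈ Z.R r

end Defs

section Structures

variable {K V U : Type} [Field K] [AddCommGroup V] [Module K V] [AddCommGroup U] [Module K U]

/-- Algebraic operators on `U = H(C)` (the groups `E`) and on `(V ⊗ V) ⊗ U = H(X × X × C)`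
(the groups `D`), where `C` is a curve with `H^1(C) ≠ 0`. -/
structure TripData [FiniteDimensional K V] [FiniteDimensional K U] (n : ℕ)
    (pr : ℤ → Module.End K V) (L : Module.End K V)
    (B : ℤ → AddSubgroup (Module.End K (V ⊗[K] V))) (q : ℤ → Module.End K U)
    (LC : Module.End K U) (E : ℤ → AddSubgroup (Module.End K U))
    (D : ℤ → AddSubgroup (Module.End K ((V ⊗[K] V) ⊗[K] U))) : Prop where
  lefC : LefMod 1 q LC
  q_zero_ne : q 0 ≠ 0
  q_one_ne : q 1 ≠ 0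
  ratE : RatAlg q E
  ratD : RatAlg (prM 1 (prT n pr) q) D
  q_mem : ∀ i, q i ∈ E 0
  LC_mem : LC ∈ E 1
  tensor : ∀ r s, ∀ f ∈ B r, ∀ g ∈ E s, TensorProduct.map f g ∈ D (r + s)
  /-- partial supertrace -/
  ptr : ∀ r, ∀ u ∈ D r, ptrR (u * TensorProduct.map 1 (sgn 1 q)) ∈ B r
  /-- hard Lefschetz for `X × X × C` -/
  inj : ∀ c : ℤ, c < 2 * n + 1 → ∀ z, prM 1 (prT n pr) q c z = z → LM (LL L) LC z = 0 → z = 0
  surj : ∀ c : ℤ, 2 * n + 1 < c → ∀ z, prM 1 (prT n pr) q c z = z →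
    ∃ y, prM 1 (prT n pr) q (c - 2) y = y ∧ LM (LL L) LC y = z

end Structures

section Statements

/-- **The traces vanish.**

PROOF. General facts: (a) `P.N` and tensor products: if `f ∈ Z.N r` then `f ⊗ q j ∈ P.N r`, since
for `u ∈ P.R (-r)`: `tr (u (f ⊗ q j)) = tr (u (1 ⊗ q j) (f ⊗ 1)) = tr (ptrR (u (1 ⊗ q j)) f) = 0`
by `trace_mul_map_one`; here `1 ⊗ q j ∈ P.R 0` (`tensor` for `1`), so `u (1 ⊗ q j) ∈ P.R (-r)`.
(b) `(Θ ⊗ q j) (Ξ ⊗ q j) P.pr (c + j) = (Θ Ξ Z.pr c) ⊗ q j` by `prP` and `q_mul` (for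
`0 ≤ j ≤ 2`), and its trace is `tr (Θ Ξ Z.pr c) * tr (q j)` with `tr (q j) ≠ 0`: the trace of an
idempotent `≠ 0` in characteristic zero is its rank (`LinearMap.IsIdempotentElem`,
`LinearMap.trace` of a projection is the `finrank` of its range; e.g. `IsProj.trace`).
(c) `LC * q j = q (j + 2) * LC` is `hcomm`; so `LC * q 1 = LC * q 2 = 0` and
`q 0 * LC = q 1 * LC = 0` (`q i * LC = LC * q (i - 2)`, with `q_out`).
T1: let `Ξ`, `Θ`, `c` be as in `TProp`. If `b ≠ 0` put `j = 1`, otherwise `a ≠ 0` and `j = 2`.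
Put `lam = b` or `a`, so that `H' w H' = lam H'` in all degrees of the parity of `c + j` (`c` is
even). `Ξ' = Ξ ⊗ q j`, `H' Ξ' = (H Ξ) ⊗ q j ∈ P.N (r + 1)` by (a), (c). On degree `c + j` we have
`lam Ξ' = w H' Ξ'`: for `z` of degree `c + j` the vector `w H' Ξ' z - lam Ξ' z` has degree
`c + j + 2r ≤ 2n < 2n + 1` (`c + 2r` is even and `< 2n`, so `≤ 2n - 2`) and is killed by `H'`. So
`lam Θ' Ξ' P.pr (c + j) = (Θ' w) (H' Ξ') P.pr (c + j)` with `(Θ' w) (H' Ξ') ∈ P.N 0`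
(`N_left`), which has trace `0` (`N_trace_pr`, cyclicity). By (b) `tr (Θ Ξ Z.pr c) = 0`.
T2: if `b ≠ 0` put `j = 1`, otherwise `j = 0`. `Θ' H' = (Θ H) ⊗ q j ∈ P.N (-r + 1)`. For `z` of
degree `c + j` the vector `Ξ' z` has degree `c + j + 2r ≥ 2n + 2 > 2n + 1`, so it is `H' y` with
`y` of degree `c + j + 2r - 2` and `H' w Ξ' z = H' w H' y = lam H' y = lam Ξ' z`. So
`lam Θ' Ξ' P.pr (c + j) = (Θ' H') (w Ξ') P.pr (c + j)`, of trace `0`. -/
def StT : Prop := ∀ (K M U : Type) [Field K] [CharZero K] [AddCommGroup M] [Module K M]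
  [FiniteDimensional K M] [AddCommGroup U] [Module K U] [FiniteDimensional K U]
  (Z : GrAlg K M) (P : GrAlg K (M ⊗[K] U)) (q : ℤ → Module.End K U) (H : Module.End K M)
  (LC : Module.End K U) (w : Module.End K (M ⊗[K] U)) (n : ℕ) (a b : K),
  TripAlg Z P q → H ∈ Z.R 1 → (∀ j, LC * q j = q (j + 2) * LC) → w ∈ P.R (-1) →
  (a ≠ 0 ∨ b ≠ 0) →
  (∀ c, Even c → LM H LC * w * LM H LC * P.pr c = a • (LM H LC * P.pr c)) →
  (∀ c, Odd c → LM H LC * w * LM H LC * P.pr c = b • (LM H LC * P.pr c)) →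
  (∀ c : ℤ, c < 2 * n + 1 → ∀ z, P.pr c z = z → LM H LC z = 0 → z = 0) →
  (∀ c : ℤ, 2 * n + 1 < c → ∀ z, P.pr c z = z → ∃ y, P.pr (c - 2) y = y ∧ LM H LC y = z) →
  TProp Z H n

/-- **Lemma Q** with `TProp` instead of `QInv`.

PROOF. As `Sign.StQ` (file `Sign/Q.lean`): the two cases `c + 2r < 2n` and `c + 2r > 2n`,
`c = 2 i₀` even, are now immediate from `TProp` for `Ξ = Om`, `Θ = W` (`H Om ∈ Z.N (r+1)`,
`W H ∈ Z.N (-r+1)`). -/
def StQT : Prop := ∀ (K V : Type) [Field K] [CharZero K] [AddCommGroup V] [Module K V]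
  [FiniteDimensional K V] (G : GrAlg K V) (Z : GrAlg K (V ⊗[K] V)) (n : ℕ)
  (L : Module.End K V), Square G Z n L → TProp Z (LL L) n →
  ∀ (r : ℕ), ∀ f ∈ G.R 0, ∀ g ∈ G.R (-r), L ^ (r + 1) * f ∈ G.N (r + 1) →
    g * L ^ (r + 1) ∈ G.N 1 → ∀ j : ℤ, j ≠ (n : ℤ) - r →
    LinearMap.trace K V (g * L ^ r * f * G.pr j) = 0

/-- PROOF. As `Sign.StE` (file `Sign/E.lean`). `Om` vanishes on degrees `≠ 2d`, so for
`Θ ∈ Z.R (-r)`: `tr (Θ Om) = tr (Θ Om Z.pr (2d)) = 0` by `TProp`, since `2d` is even and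
`2d + 2r < 2n` and `H Om ∈ Z.N (r + 1)`. Hence `Om ∈ Z.N r`; the rest is unchanged. -/
def StET : Prop := ∀ (K V : Type) [Field K] [CharZero K] [AddCommGroup V] [Module K V]
  [FiniteDimensional K V] (G : GrAlg K V) (Z : GrAlg K (V ⊗[K] V)) (n : ℕ)
  (L : Module.End K V), Square G Z n L → TProp Z (LL L) n →
  (∀ i, G.pr i ∈ G.R 0) → ∀ (d r : ℕ), r + d + 1 ≤ n → ∀ f ∈ G.R 0,
    G.pr d * f * G.pr d = f → L ^ (r + 1) * f ∈ G.N (r + 1) → L ^ r * f ∈ G.N r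

/-- **The sign conjecture for `X`.**

PROOF. Write `H' = LM (LL L) LC`, `lam c = a` for `c` even, `b` for `c` odd. `H' ∈ D 1`
(`L ∈ A 1`, `1 ∈ A 0`, `LC ∈ E 1`, `1 ∈ E 0`). `e₁ = ptrR (w H' (1 ⊗ q 0)) ∈ B 0`, because
`(1 ⊗ q 0) (1 ⊗ sgn 1 q) = 1 ⊗ q 0`; `e₂ = ptrR (e₁ (1 ⊗ pr 0)) ∈ A 0` likewise. For
`0 ≤ i ≤ 2n` the vector space `(V^i ⊗ V^0) ⊗ U^0` has degree `i < 2n + 1` and there
`w H' z = lam i z` (the difference is killed by `H'`, use `inj`). Hence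
`w H' ((pr i ⊗ pr 0) ⊗ q 0) = lam i ((pr i ⊗ pr 0) ⊗ q 0)`, so
`e₁ (pr i ⊗ pr 0) = lam i tr(q 0) (pr i ⊗ pr 0)` (`ptrR (u (f ⊗ 1)) = ptrR u * f`), and
`e₂ pr i = lam i tr(q 0) tr(pr 0) pr i`. Put `t = tr(q 0) tr(pr 0)`, a positive integer (traces
of nonzero idempotents). Then `e = (1/t) e₂ ∈ A 0` is `a` on the even part and `b` on the odd
part, so `e - b` is the projector onto the even part (`a - b = 1`) and
`sgn n pr = 2 (e - b) - 1 ∈ A 0`. -/
def StSgnT : Prop := ∀ (K V U : Type) [Field K] [CharZero K] [AddCommGroup V] [Module K V]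
  [FiniteDimensional K V] [AddCommGroup U] [Module K U] [FiniteDimensional K U]
  (n : ℕ) (pr : ℤ → Module.End K V) (L : Module.End K V)
  (A : ℤ → AddSubgroup (Module.End K V)) (B : ℤ → AddSubgroup (Module.End K (V ⊗[K] V)))
  (q : ℤ → Module.End K U) (LC : Module.End K U) (E : ℤ → AddSubgroup (Module.End K U))
  (D : ℤ → AddSubgroup (Module.End K ((V ⊗[K] V) ⊗[K] U)))
  (w : Module.End K ((V ⊗[K] V) ⊗[K] U)) (a b : ℚ),
  OpData n pr L A B → TripData n pr L B q LC E D → w ∈ D (-1) → a - b = 1 →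
  (∀ c, Even c → LM (LL L) LC * w * LM (LL L) LC * prM 1 (prT n pr) q c =
    (a : K) • (LM (LL L) LC * prM 1 (prT n pr) q c)) →
  (∀ c, Odd c → LM (LL L) LC * w * LM (LL L) LC * prM 1 (prT n pr) q c =
    (b : K) • (LM (LL L) LC * prM 1 (prT n pr) q c)) →
  sgn n pr ∈ A 0

/-- Passing to coefficients in `K`.

PROOF. `P.R r = span K (D r)`, `P.pr = prM 1 (prT n pr) q`. The projector relations
`P.pr i * P.pr j = ..` follow from those for `prT n pr` (they hold for `Z.pr`, `hZpr`) and `q`.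
`q 2 ≠ 0` by hard Lefschetz for the curve (`lefC.surj`/`inj` with `j = 1`: `LC` is injective on
`U^0 ≠ 0` with values in `U^2`). `ptr`: for `u ∈ D r`,
`ptrR u = ptrR ((u (1 ⊗ s)) (1 ⊗ s))` with `s = sgn 1 q`, `s * s = 1`, `s ∈ E 0`, and
`u (1 ⊗ s) ∈ D r`; extend by linearity to the spans. -/
def StSpanT : Prop := ∀ (K V U : Type) [Field K] [CharZero K] [AddCommGroup V] [Module K V]
  [FiniteDimensional K V] [AddCommGroup U] [Module K U] [FiniteDimensional K U]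
  (n : ℕ) (pr : ℤ → Module.End K V) (L : Module.End K V)
  (A : ℤ → AddSubgroup (Module.End K V)) (B : ℤ → AddSubgroup (Module.End K (V ⊗[K] V)))
  (q : ℤ → Module.End K U) (LC : Module.End K U) (E : ℤ → AddSubgroup (Module.End K U))
  (D : ℤ → AddSubgroup (Module.End K ((V ⊗[K] V) ⊗[K] U))) (Z : GrAlg K (V ⊗[K] V)),
  OpData n pr L A B → TripData n pr L B q LC E D → Z.pr = prT n pr →
  (∀ r, Z.R r = Submodule.span K (B r)) →
  ∃ P : GrAlg K ((V ⊗[K] V) ⊗[K] U), P.pr = prM 1 (prT n pr) q ∧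
    (∀ r, P.R r = Submodule.span K (D r)) ∧ TripAlg Z P q

/-- **Main theorem on operators**, with the third factor. Assembly. -/
def StMainT : Prop := ∀ (K V U : Type) [Field K] [CharZero K] [AddCommGroup V] [Module K V]
  [FiniteDimensional K V] [AddCommGroup U] [Module K U] [FiniteDimensional K U]
  (n : ℕ) (pr : ℤ → Module.End K V) (L : Module.End K V)
  (A : ℤ → AddSubgroup (Module.End K V)) (B : ℤ → AddSubgroup (Module.End K (V ⊗[K] V)))
  (q : ℤ → Module.End K U) (LC : Module.End K U) (E : ℤ → AddSubgroup (Module.End K U))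
  (D : ℤ → AddSubgroup (Module.End K ((V ⊗[K] V) ⊗[K] U)))
  (w : Module.End K ((V ⊗[K] V) ⊗[K] U)) (a b : ℚ),
  OpData n pr L A B → TripData n pr L B q LC E D → w ∈ D (-1) → a - b = 1 →
  (∀ c, Even c → LM (LL L) LC * w * LM (LL L) LC * prM 1 (prT n pr) q c =
    (a : K) • (LM (LL L) LC * prM 1 (prT n pr) q c)) →
  (∀ c, Odd c → LM (LL L) LC * w * LM (LL L) LC * prM 1 (prT n pr) q c =
    (b : K) • (LM (LL L) LC * prM 1 (prT n pr) q c)) →
  (∀ i, pr i ∈ A 0) ∧ ∃ Lam ∈ A (-1), IsLam n pr L Lam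

end Statements

end Pool.Agent.Lib.MP_4ca46c_ag.Std
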