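import Mathlib
import Pool.Agent.Lib.MP_4ca46c_ag.Sign.Conj
import Pool.Agent.Lib.MP_4ca46c_ag.Sign.ToWeil
import Pool.Agent.Lib.MP_4ca46c_ag.Sign.SpecC

/-!
# Generic sections of an arbitrary polarised variety, without vanishing class

`V` is an arbitrary polarised variety (in the application `V = X × X × C` with `C` a curve), `W`
is the generic hyperplane section of `V`. This is `Sign.GenericSection` with `V.sq` replaced by
`V.X` and without the vanishing class. All proofs in the folder `Sign` carry over: replace `V.sq`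
by `V.X`, `V.sqStr` by `V.str`.
-/

namespace Pool.Agent.Lib.MP_4ca46c_ag.Std

open CategoryTheory Limits AlgebraicGeometry TensorProduct MonoidalCategory
  CartesianMonoidalCategory
open Pool.Agent.Lib.MP_4ca46c_ag.Sign

variable {k₀ : Type} [Field k₀] {K : Type} [Field K]

/-- `W` is a generic member of a family of closed subschemes of `V` which is complete for pairs
of points (for instance a generic hyperplane section). -/
structure GenSec {T : WeilTheory k₀ K} (V W : PVar T) where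
  /-- the function field of the base -/
  F : Type
  [field : Field F]
  [algebra₀ : Algebra k₀ F]
  [algebra : Algebra V.k F]
  [tower : IsScalarTower k₀ V.k F]
  [algebraW : Algebra F W.k]
  [towerW : IsScalarTower k₀ F W.k]
  [closure : IsAlgClosure F W.k]
  /-- the base of the family -/
  B : Sch k₀
  b : B ⟶ pt k₀ V.k
  generic : pt k₀ F ⟶ B
  generic_over : generic ≫ b = ptMap k₀ (IsScalarTower.toAlgHom k₀ V.k F)
  generic_flat : Flat generic.left
  generic_mono : Mono generic.left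
  generic_quasiCompact : QuasiCompact generic.left
  /-- the family, a subscheme of `V × B` -/
  I : Sch k₀
  toZ : I ⟶ V.X
  toB : I ⟶ B
  comm : toZ ≫ V.str = toB ≫ b
  mono : Mono (pullback.lift toZ toB comm)
  /-- the space of pairs of different points of `V` -/
  U : Sch k₀
  incl : U ⟶ pullback V.str V.str
  complement : IsComplement (pullback.diagonal V.str) incl
  /-- two different points impose independent conditions -/
  bundle : IsAffineBundle (pullback.snd (pullback.lift (f := V.str) (g := V.str)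
    (pullback.fst toB toB ≫ toZ) (pullback.snd toB toB ≫ toZ)
    (by rw [Category.assoc, Category.assoc, comm, ← Category.assoc, ← Category.assoc,
      pullback.condition])) incl).left
  /-- the generic fibre -/
  Y₀ : Sch k₀
  y₀ : Y₀ ⟶ pt k₀ F
  toI : Y₀ ⟶ I
  fibre : IsPullback toI y₀ toB generic
  smooth : SmoothOfRelativeDimension W.n y₀.left
  proper : IsProper y₀.left
  /-- `W` is the geometric generic fibre -/
  toY₀ : W.X ⟶ Y₀
  isBaseChange : IsPullback toY₀ W.str y₀ (ptMap k₀ (IsScalarTower.toAlgHom k₀ F W.k))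
  dim : W.n + 1 = V.n
  /-- the class of `W` is `h` -/
  cls : ∀ z, T.tr W.X (T.pullH (toY₀ ≫ toI ≫ toZ) z) = T.tr V.X (T.cl V.X V.h * z)

namespace GenSec

attribute [instance] field algebra₀ algebra tower algebraW towerW closure

variable {T : WeilTheory k₀ K} {V W : PVar T} (G : GenSec V W)

/-- The map `I ×_B I ⟶ Z × Z`. -/
noncomputable def q : pullback G.toB G.toB ⟶ pullback V.str V.str :=
  pullback.lift (pullback.fst G.toB G.toB ≫ G.toZ) (pullback.snd G.toB G.toB ≫ G.toZ)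
    (by rw [Category.assoc, Category.assoc, G.comm, ← Category.assoc, ← Category.assoc,
      pullback.condition])

/-- Pairs of different points on members of the family. -/
noncomputable abbrev W₀ : Sch k₀ := pullback G.q G.incl

/-- The map `Y₀ ⟶ Z`. -/
noncomputable def r₀ : G.Y₀ ⟶ V.X := G.toI ≫ G.toZ

theorem r₀_comp : G.r₀ ≫ V.str =
    G.y₀ ≫ ptMap k₀ (IsScalarTower.toAlgHom k₀ V.k G.F) := by
  rw [r₀, Category.assoc, G.comm, ← Category.assoc, G.fibre.w, Category.assoc, G.generic_over]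

/-- The map `ρ : Y₀ × Y₀ ⟶ Z × Z`. -/
noncomputable def rho : pullback G.y₀ G.y₀ ⟶ pullback V.str V.str :=
  pullback.lift (pullback.fst G.y₀ G.y₀ ≫ G.r₀) (pullback.snd G.y₀ G.y₀ ≫ G.r₀)
    (by rw [Category.assoc, Category.assoc, r₀_comp, ← Category.assoc, ← Category.assoc,
      pullback.condition])

/-- The complement of the diagonal of `Y₀`. -/
noncomputable abbrev Q₀ : Sch k₀ := pullback G.rho G.incl

/-- The map `Y₀ × Y₀ ⟶ I ×_B I`. -/
noncomputable def toI2 : pullback G.y₀ G.y₀ ⟶ pullback G.toB G.toB :=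
  pullback.lift (pullback.fst G.y₀ G.y₀ ≫ G.toI) (pullback.snd G.y₀ G.y₀ ≫ G.toI)
    (by rw [Category.assoc, Category.assoc, G.fibre.w, ← Category.assoc, ← Category.assoc,
      pullback.condition])

theorem q_fst : G.q ≫ pullback.fst V.str V.str = pullback.fst G.toB G.toB ≫ G.toZ :=
  pullback.lift_fst _ _ _

theorem q_snd : G.q ≫ pullback.snd V.str V.str = pullback.snd G.toB G.toB ≫ G.toZ :=
  pullback.lift_snd _ _ _

theorem rho_fst : G.rho ≫ pullback.fst V.str V.str = pullback.fst G.y₀ G.y₀ ≫ G.r₀ :=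
  pullback.lift_fst _ _ _

theorem rho_snd : G.rho ≫ pullback.snd V.str V.str = pullback.snd G.y₀ G.y₀ ≫ G.r₀ :=
  pullback.lift_snd _ _ _

theorem toI2_fst : G.toI2 ≫ pullback.fst G.toB G.toB = pullback.fst G.y₀ G.y₀ ≫ G.toI :=
  pullback.lift_fst _ _ _

theorem toI2_snd : G.toI2 ≫ pullback.snd G.toB G.toB = pullback.snd G.y₀ G.y₀ ≫ G.toI :=
  pullback.lift_snd _ _ _

theorem toI2_q : G.toI2 ≫ G.q = G.rho := by
  apply pullback.hom_ext
  · rw [Category.assoc, q_fst, rho_fst, ← Category.assoc, toI2_fst, Category.assoc]; rfl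
  · rw [Category.assoc, q_snd, rho_snd, ← Category.assoc, toI2_snd, Category.assoc]; rfl

/-- The map `Q₀ ⟶ W₀`. -/
noncomputable def Q₀W₀ : G.Q₀ ⟶ G.W₀ :=
  pullback.lift (pullback.fst G.rho G.incl ≫ G.toI2) (pullback.snd G.rho G.incl)
    (by rw [Category.assoc, toI2_q, pullback.condition])

/-- The base change map `Y × Y ⟶ Y₀ × Y₀`. -/
noncomputable def e2 : W.sq ⟶ pullback G.y₀ G.y₀ :=
  pullback.lift (W.p₁ ≫ G.toY₀) (W.p₂ ≫ G.toY₀)
    (by
      have h : W.p₁ ≫ W.str = W.p₂ ≫ W.str := pullback.condition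
      rw [Category.assoc, Category.assoc, G.isBaseChange.w, ← Category.assoc, h,
        Category.assoc])

theorem e2_fst : G.e2 ≫ pullback.fst G.y₀ G.y₀ = W.p₁ ≫ G.toY₀ := pullback.lift_fst _ _ _

theorem e2_snd : G.e2 ≫ pullback.snd G.y₀ G.y₀ = W.p₂ ≫ G.toY₀ := pullback.lift_snd _ _ _

theorem Q₀W₀_fst : G.Q₀W₀ ≫ pullback.fst G.q G.incl = pullback.fst G.rho G.incl ≫ G.toI2 :=
  pullback.lift_fst _ _ _

theorem Q₀W₀_snd : G.Q₀W₀ ≫ pullback.snd G.q G.incl = pullback.snd G.rho G.incl :=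
  pullback.lift_snd _ _ _

/-- The map `Y ⟶ Z`. -/
noncomputable def r : W.X ⟶ V.X := G.toY₀ ≫ G.toI ≫ G.toZ

end GenSec

section Statements

variable (k₀ K)

/-- Smoothness of the schemes which occur. PROOF: as `Sign.StSm` (file `Sign/SmS.lean`), with
`V.sq` replaced by `V.X` and `V.sqStr` by `V.str`. -/
def StSm : Prop := ∀ (T : WeilTheory k₀ K) (V W : PVar T) (G : GenSec V W),
  Sm V.X ∧ Sm (pullback V.str V.str) ∧ Sm G.U ∧ Sm G.W₀ ∧ Sm (pullback G.y₀ G.y₀) ∧
  Sm G.Q₀ ∧ Sm G.Y₀ ∧ Sm W.sq ∧ IsVar V.str V.n ∧ IsVar W.sqStr (W.n + W.n) ∧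
  IsVar (pullback.fst V.str V.str ≫ V.str) (V.n + V.n) ∧
  IsSm (pullback.fst G.y₀ G.y₀ ≫ G.y₀) ∧
  SmoothOfRelativeDimension (W.n + W.n) (pullback.fst G.y₀ G.y₀ ≫ G.y₀).left ∧ IsSm G.y₀ ∧
  ConnectedSpace G.Y₀.left ∧ QuasiCompact G.incl.left

/-- The complement of the diagonal of `Y₀` is the preimage of `U`. PROOF: as `Sign.StCompl`
(file `Sign/Compl.lean`). -/
def StCompl : Prop := ∀ (T : WeilTheory k₀ K) (V W : PVar T) (G : GenSec V W),
  IsComplement (pullback.diagonal G.y₀) (pullback.fst G.rho G.incl)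

/-- The map `Q₀ ⟶ W₀` is a base change of `generic : Spec F ⟶ B`. PROOF: as `Sign.StGeneric`
(file `Sign/Generic.lean`). -/
def StGeneric : Prop := ∀ (T : WeilTheory k₀ K) (V W : PVar T) (G : GenSec V W),
  Flat G.Q₀W₀.left ∧ Mono G.Q₀W₀.left ∧ QuasiCompact G.Q₀W₀.left

/-- **Cycles on `Y₀ × Y₀`.** PROOF: as `Sign.StStep0` (file `Sign/Step0.lean`). -/
def StStep0 : Prop := ∀ (T : WeilTheory k₀ K) (V W : PVar T) (G : GenSec V W),
  ∀ a ∈ T.codim (pullback G.y₀ G.y₀) W.n, ∃ (κ : ℚ),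
    ∃ w ∈ T.codim (pullback V.str V.str) W.n,
      a = κ • T.push (pullback.diagonal G.y₀) 1 + T.pull G.rho w

/-- **Averaging.** PROOF: as `Sign.StAverage` (file `Sign/Average.lean`). -/
def StAverage : Prop := ∀ (T : WeilTheory k₀ K) (V W : PVar T) (G : GenSec V W),
  W.SignOp → ∃ N₀ : ℕ, 0 < N₀ ∧ ∃ b ∈ T.codim (pullback G.y₀ G.y₀) W.n,
    ∀ i, ∀ y ∈ T.deg W.X i, ∀ y', T.tr W.sq (T.cl W.sq (T.pull G.e2 b) * T.pullH W.p₂ y *
      T.pullH W.p₁ y') = if Even i then (N₀ : K) * T.tr W.X (y * y') else 0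

/-- **The relation.** With `H = cl h` there is an algebraic `w` of degree `-1` on `V` and a
rational number `κ` with `H w H = (1 - κ) H` in even degrees and `- κ H` in odd degrees.

PROOF. As `Sign.StKey` (file `Sign/Key.lean`), without the first part (`κ = 0`). Let `b`, `N₀` be
from `StAverage`, `b = κ₀ • push diagonal 1 + pull ρ w₀` by `StStep0`. `e2 ≫ ρ = r × r =: R`, and
`pull e2 (push diagonal 1) = push (diagonal of Y) 1`. For all `y, y'`:
(1) `tr (cl (push diag 1) * p₂^* y * p₁^* y') = tr (y * y')`.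
(3) `tr (pullH R v) = tr (P₁^* H * P₂^* H * v)` for `v ∈ H(V × V)` (Künneth, `cls`). For
`z ∈ H^i(V)`, `z' ∈ H(V)` take `y = r^* z`, `y' = r^* z'`: `StAverage` gives
`N₀ [i even] tr (r^* (z z')) = κ₀ tr (r^* (z z')) + tr (pullH R (cl w₀ * P₂^* z * P₁^* z'))
= κ₀ tr (H z z') + tr (cl w₀ * P₂^* (H z) * P₁^* (H z'))`, and `tr (r^* (z z')) = tr (H z z')`.
So `w = (1 / N₀) w₀` and `κ = κ₀ / N₀`. -/
def StKey : Prop := ∀ (T : WeilTheory k₀ K) (V W : PVar T), GenSec V W →
  W.SignOp → ∃ κ : ℚ, ∃ w ∈ T.codim (pullback V.str V.str) W.n,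
    ∀ i, ∀ z ∈ T.deg V.X i, ∀ z', T.tr (pullback V.str V.str)
      (T.cl _ w * T.pullH (pullback.snd V.str V.str) (T.cl V.X V.h * z) *
        T.pullH (pullback.fst V.str V.str) (T.cl V.X V.h * z')) =
      ((if Even i then 1 else 0) - (κ : K)) * T.tr V.X (T.cl V.X V.h * z * z')

end Statements

end Pool.Agent.Lib.MP_4ca46c_ag.Std
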