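import Mathlib
import Pool.Agent.Lib.MP_4ca46c_ag.Std.LinSpec
import Pool.Agent.Lib.MP_4ca46c_ag.Std.Section
import Pool.Agent.Lib.MP_4ca46c_ag.Sign.OpV
import Pool.Agent.Lib.MP_4ca46c_ag.Sign.Rel

/-!
# The variety `X × X × C`
-/

namespace Pool.Agent.Lib.MP_4ca46c_ag.Std

open CategoryTheory Limits AlgebraicGeometry TensorProduct MonoidalCategory
  CartesianMonoidalCategory
open Pool.Agent.Lib.MP_4ca46c_ag.Sign

section Abstract

variable {K : Type} [Field K] [CharZero K] {𝒱 : Type 1} [Category.{0} 𝒱]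
  [CartesianMonoidalCategory 𝒱] (W : Geo.WeilCohomology K 𝒱)

/-- The Künneth isomorphism for `X × X × C`. -/
noncomputable def kun3 (X C : 𝒱) :
    (W.H X ⊗[K] W.H X) ⊗[K] W.H C ≃ₗ[K] W.H ((X ⊗ X) ⊗ C) :=
  (TensorProduct.congr (W.kun X X) (LinearEquiv.refl K (W.H C))).trans (W.kun (X ⊗ X) C)

/-- Hard Lefschetz for the class `h` of `X`. -/
def HL (X : 𝒱) (h : W.H X) : Prop :=
  (∀ j ≤ W.dim X, ∀ u ∈ W.gr X (W.dim X - j), h ^ j * u = 0 → u = 0) ∧
  (∀ j ≤ W.dim X, ∀ v ∈ W.gr X (W.dim X + j), ∃ u ∈ W.gr X (W.dim X - j), h ^ j * u = v)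

/-- The class `h ⊗ 1 ⊗ 1 + 1 ⊗ h ⊗ 1 + 1 ⊗ 1 ⊗ h_C`. -/
noncomputable def h3 {X C : 𝒱} (h : W.H X) (hC : W.H C) : W.H ((X ⊗ X) ⊗ C) :=
  W.pull (fst (X ⊗ X) C) (W.pull (fst X X) h + W.pull (snd X X) h) + W.pull (snd (X ⊗ X) C) hC

/-- The operators on `(H(X) ⊗ H(X)) ⊗ H(C)` given by correspondences. -/
noncomputable def opD (X C : 𝒱) (r : ℤ) :
    AddSubgroup (Module.End K ((W.H X ⊗[K] W.H X) ⊗[K] W.H C)) :=
  (W.Cor ((X ⊗ X) ⊗ C) ((X ⊗ X) ⊗ C) r).comap ((kun3 W X C).conj.toLinearMap.toAddMonoidHom)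

end Abstract

section AbstractStatements

/-- `TripData` for `X` and a curve `C`.

PROOF. As `Sign.opv_data` (file `Sign/OpV.lean`). `lefC`: `opv_lef`. `q 0 ≠ 0`: `pr_zero_ne` in
`opv_data`; `q 1 ≠ 0`: `q 1 y = y` for the class `y`. `ratE`, `ratD`: `cor_rat`, `cor_id`,
`cor_comp`, `opv_comm`, transported by `(kun3 W X C).conj`; the conjugate of
`prM 1 (prT n pr) q c` is `opv_pr W ((X ⊗ X) ⊗ C) c` (as `opv_prT`). `q_mem`: `q 0`, `q 2` as
`pr_zero`, `pr_top` in `opv_data` (`dim C = 1`), `q i = 0` outside `[0, 2]` and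
`q 1 = 1 - q 0 - q 2` (`opv_sum`). `LC_mem`: `cor_mul`. `tensor`: `cor_tens`, applied to
`X ⊗ X` and `C`. `ptr`: `cor_ptr` applied to `X ⊗ X` and `C` (see `opv_ptr`,
`Geo/Trace.lean`, `Geo/Tens.lean`). `inj`, `surj`: from hard Lefschetz for `h3 W h hC` on
`(X ⊗ X) ⊗ C`, of dimension `2n + 1`: `H'^j` injective in degree `dim - j` implies `H'` injective
in degree `< dim`; `LM (LL L) LC` corresponds to multiplication by `h3 W h hC` (as `rel_LL`). -/
def StTripData : Prop := ∀ (K : Type) [Field K] [CharZero K] (𝒱 : Type 1) [Category.{0} 𝒱]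
  [CartesianMonoidalCategory 𝒱] (W : Geo.WeilCohomology K 𝒱) (X C : 𝒱) (h : W.H X)
  (hC : W.H C), h ∈ W.Alg X 1 → hC ∈ W.Alg C 1 → W.dim C = 1 → (∃ y ∈ W.gr C 1, y ≠ 0) →
  HL W C hC → HL W ((X ⊗ X) ⊗ C) (h3 W h hC) →
  TripData (W.dim X) (opv_pr W X) (LinearMap.mulLeft K h)
    (fun r => (W.Cor (X ⊗ X) (X ⊗ X) r).comap ((W.kun X X).conj.toLinearMap.toAddMonoidHom))
    (opv_pr W C) (LinearMap.mulLeft K hC) (fun r => W.Cor C C r) (opD W X C)

/-- The relation on `(H(X) ⊗ H(X)) ⊗ H(C)`.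

PROOF. As `Sign.rel_op` (file `Sign/Rel.lean`): `w = (kun3 W X C).symm.conj (W.op u)`. -/
def StRelT : Prop := ∀ (K : Type) [Field K] [CharZero K] (𝒱 : Type 1) [Category.{0} 𝒱]
  [CartesianMonoidalCategory 𝒱] (W : Geo.WeilCohomology K 𝒱) (X C : 𝒱) (h : W.H X)
  (hC : W.H C) (lam : ℕ → K) (N : ℕ) (u : W.H (((X ⊗ X) ⊗ C) ⊗ ((X ⊗ X) ⊗ C))),
  h ∈ W.Alg X 1 → hC ∈ W.Alg C 1 → W.dim C = 1 →
  u ∈ W.Alg (((X ⊗ X) ⊗ C) ⊗ ((X ⊗ X) ⊗ C)) N → N + 1 = W.dim ((X ⊗ X) ⊗ C) →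
  (∀ i, ∀ z ∈ W.gr ((X ⊗ X) ⊗ C) i, ∀ z', W.tr (((X ⊗ X) ⊗ C) ⊗ ((X ⊗ X) ⊗ C))
    (u * W.pull (snd ((X ⊗ X) ⊗ C) ((X ⊗ X) ⊗ C)) (h3 W h hC * z) *
      W.pull (fst ((X ⊗ X) ⊗ C) ((X ⊗ X) ⊗ C)) (h3 W h hC * z')) =
    lam i * W.tr ((X ⊗ X) ⊗ C) (h3 W h hC * z * z')) →
  ∃ w ∈ opD W X C (-1), ∀ i : ℕ,
    LM (LL (LinearMap.mulLeft K h)) (LinearMap.mulLeft K hC) * w *
      LM (LL (LinearMap.mulLeft K h)) (LinearMap.mulLeft K hC) *
        prM 1 (prT (W.dim X) (opv_pr W X)) (opv_pr W C) i =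
    lam i • (LM (LL (LinearMap.mulLeft K h)) (LinearMap.mulLeft K hC) *
      prM 1 (prT (W.dim X) (opv_pr W X)) (opv_pr W C) i)

end AbstractStatements

variable {k₀ : Type} [Field k₀] {K : Type} [Field K]

/-- A polarised variety over the algebraically closed field `k`. -/
structure POver (T : WeilTheory k₀ K) (k : Type) [Field k] [Algebra k₀ k] [IsAlgClosed k] where
  X : Sch k₀
  str : X ⟶ pt k₀ k
  n : ℕ
  isVar : IsVar str n
  h : T.CH X
  h_mem : h ∈ T.codim X 1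
  lefschetz_injective : ∀ j ≤ n, ∀ u ∈ T.deg X (n - j), T.cl X h ^ j * u = 0 → u = 0
  lefschetz_surjective : ∀ j ≤ n, ∀ v ∈ T.deg X (n + j), ∃ u ∈ T.deg X (n - j),
    T.cl X h ^ j * u = v

namespace POver

variable {T : WeilTheory k₀ K} {k : Type} [Field k] [Algebra k₀ k] [IsAlgClosed k]

/-- The underlying polarised variety. -/
noncomputable def toPVar (P : POver T k) : PVar T where
  k := k
  X := P.X
  str := P.str
  n := P.n
  isVar := P.isVar
  h := P.h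
  h_mem := P.h_mem
  lefschetz_injective := P.lefschetz_injective
  lefschetz_surjective := P.lefschetz_surjective

/-- The underlying variety. -/
noncomputable def var (P : POver T k) : Var k₀ k := ⟨P.X, P.str, P.n, P.isVar⟩

/-- The scheme `X × X × C`. -/
noncomputable abbrev tripX (X C : POver T k) : Sch k₀ :=
  pullback (pullback.fst X.str X.str ≫ X.str) C.str

/-- The structure map of `X × X × C`. -/
noncomputable abbrev tripStr (X C : POver T k) : tripX X C ⟶ pt k₀ k :=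
  pullback.fst (pullback.fst X.str X.str ≫ X.str) C.str ≫ pullback.fst X.str X.str ≫ X.str

/-- The class `h ⊗ 1 ⊗ 1 + 1 ⊗ h ⊗ 1 + 1 ⊗ 1 ⊗ h_C`. -/
noncomputable def tripH (X C : POver T k) : T.CH (tripX X C) :=
  T.pull (pullback.fst (pullback.fst X.str X.str ≫ X.str) C.str)
    (T.pull (pullback.fst X.str X.str) X.h + T.pull (pullback.snd X.str X.str) X.h) +
  T.pull (pullback.snd (pullback.fst X.str X.str ≫ X.str) C.str) C.h

theorem tripVar (X C : POver T k) : IsVar (tripStr X C) (X.n + X.n + C.n) :=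
  Var.isVar_prod (Var.isVar_prod X.isVar X.isVar) C.isVar

theorem tripH_mem (X C : POver T k) : tripH X C ∈ T.codim (tripX X C) 1 := by
  have h1 := (Var.isVar_prod X.isVar X.isVar).sm
  refine Submodule.add_mem _ (T.pull_mem _ (tripVar X C).sm h1 _ _
    (Submodule.add_mem _ (T.pull_mem _ h1 X.isVar.sm _ _ X.h_mem)
      (T.pull_mem _ h1 X.isVar.sm _ _ X.h_mem)))
    (T.pull_mem _ (tripVar X C).sm C.isVar.sm _ _ C.h_mem)

/-- Hard Lefschetz for `X × X × C`. -/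
def TripHL (X C : POver T k) : Prop :=
  (∀ j ≤ X.n + X.n + C.n, ∀ u ∈ T.deg (tripX X C) (X.n + X.n + C.n - j),
    T.cl (tripX X C) (tripH X C) ^ j * u = 0 → u = 0) ∧
  (∀ j ≤ X.n + X.n + C.n, ∀ v ∈ T.deg (tripX X C) (X.n + X.n + C.n + j),
    ∃ u ∈ T.deg (tripX X C) (X.n + X.n + C.n - j), T.cl (tripX X C) (tripH X C) ^ j * u = v)

/-- The polarised variety `X × X × C`. -/
noncomputable def trip (X C : POver T k) (H : TripHL X C) : POver T k where
  X := tripX X C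
  str := tripStr X C
  n := X.n + X.n + C.n
  isVar := tripVar X C
  h := tripH X C
  h_mem := tripH_mem X C
  lefschetz_injective := H.1
  lefschetz_surjective := H.2

end POver

section Statements

variable (k₀ K)

/-- **The local theorem**: the sign conjecture for a generic section `W` of `X × X × C` implies
the conjectures of Künneth and Lefschetz type for `X`. -/
def StLocalT : Prop := ∀ (T : WeilTheory k₀ K) (k : Type) [Field k] [Algebra k₀ k]
  [IsAlgClosed k] (X C : POver T k), C.n = 1 → (∃ y ∈ T.deg C.X 1, y ≠ 0) →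
  ∀ (H : POver.TripHL X C) (W : PVar T), GenSec (POver.trip X C H).toPVar W → W.SignConj →
    X.toPVar.KunnethConj ∧ X.toPVar.LefschetzConj

end Statements

end Pool.Agent.Lib.MP_4ca46c_ag.Std
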