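import Mathlib
import Pool.Agent.Lib.MP_4ca46c_ag.Std.ChowSpec
import Pool.Agent.Lib.MP_4ca46c_ag.Std.TripSpec

/-!
# Projective varieties: polarisations and products
-/

namespace Pool.Agent.Lib.MP_4ca46c_ag.Std

open CategoryTheory Limits AlgebraicGeometry TensorProduct
open Pool.Agent.Lib.MP_4ca46c_ag.Sign Pool.Agent.Lib.MP_4ca46c_ag.Hyp

variable {k₀ : Type} [Field k₀] {K : Type} [Field K]

theorem exists_card (κ : Type) [Fintype κ] [Nontrivial κ] : ∃ M, Fintype.card κ = M + 1 + 1 := by
  have h := Fintype.one_lt_card (α := κ)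
  exact ⟨Fintype.card κ - 2, by omega⟩

theorem card_ne' {κ : Type} [Fintype κ] {M : ℕ} (h : Fintype.card κ = M + 1 + 1) (i : κ)
    [Fintype {j // j ≠ i}] : Fintype.card {j // j ≠ i} = M + 1 := by
  classical
  have h1 : Fintype.card {j // j ≠ i} = Fintype.card κ - 1 := by
    rw [Fintype.card_subtype_compl]
    simp
  omega

theorem hypClass_mem (T : WeilTheory k₀ K) (hPS : StPS) (hHyp : StHyp) (k : Type) [Field k]
    [Algebra k₀ k] [IsAlgClosed k] {κ : Type} [Fintype κ] [Nontrivial κ] (i : κ) :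
    hypClass T k i ∈ T.codim (PSo k₀ k κ) 1 := by
  classical
  obtain ⟨M, hM⟩ := exists_card κ
  have h1 := hPS k₀ k κ (M + 1) hM
  have h2 := hPS k₀ k {j // j ≠ i} M (card_ne' hM i)
  have h3 := (hHyp k₀ k κ i).1
  exact T.push_mem _ _ (PSo.hyp k₀ k κ i) (PSo.hyp_str k₀ k κ i) h2.isSm h1.isSm inferInstance
    M (M + 1) h2.smooth h1.smooth 0 1 (by omega) _ (T.one_mem _)

namespace ProjVar

section

variable {k : Type} [Field k] [Algebra k₀ k] [IsAlgClosed k] (V : ProjVar k₀ k)

/-- The hyperplane class. -/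
noncomputable def h (T : WeilTheory k₀ K) : T.CH V.X := T.pull V.emb (hypClass T k V.i)

theorem h_mem (T : WeilTheory k₀ K) (hPS : StPS) (hHyp : StHyp) : V.h T ∈ T.codim V.X 1 := by
  obtain ⟨M, hM⟩ := exists_card V.κ
  exact T.pull_mem _ V.isVar.sm (hPS k₀ k V.κ (M + 1) hM).sm _ _ (hypClass_mem T hPS hHyp k V.i)

variable {T : WeilTheory k₀ K}

/-- The polarised variety. -/
noncomputable def toPOver (E : Extra T) (hPS : StPS) (hHyp : StHyp) : POver T k where
  X := V.X
  str := V.str
  n := V.n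
  isVar := V.isVar
  h := V.h T
  h_mem := V.h_mem T hPS hHyp
  lefschetz_injective := (E.lefschetz V.str V.n V.isVar V.i V.emb V.closed V.emb_str).1
  lefschetz_surjective := (E.lefschetz V.str V.n V.isVar V.i V.emb V.closed V.emb_str).2

end

section prod

variable {k : Type} [Field k] [Algebra k₀ k] (V W : ProjVar k₀ k)

/-- The product of the embeddings. -/
noncomputable def embProd : pullback V.str W.str ⟶
    pullback (PSo.str k₀ k V.κ) (PSo.str k₀ k W.κ) :=
  pullback.lift (pullback.fst _ _ ≫ V.emb) (pullback.snd _ _ ≫ W.emb)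
    (by rw [Category.assoc, Category.assoc, V.emb_str, W.emb_str, pullback.condition])

theorem embProd_fst : V.embProd W ≫ pullback.fst _ _ = pullback.fst _ _ ≫ V.emb :=
  pullback.lift_fst _ _ _

theorem embProd_snd : V.embProd W ≫ pullback.snd _ _ = pullback.snd _ _ ≫ W.emb :=
  pullback.lift_snd _ _ _

theorem embProd_closed : IsClosedImmersion (V.embProd W).left := by
  -- first `(e × 1)`, then `(1 × e')`
  have hV := V.closed
  have hW := W.closed
  let A := pullback (PSo.str k₀ k V.κ) W.str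
  let u : pullback V.str W.str ⟶ A := pullback.lift (pullback.fst _ _ ≫ V.emb)
    (pullback.snd _ _) (by rw [Category.assoc, V.emb_str, pullback.condition])
  let v : A ⟶ pullback (PSo.str k₀ k V.κ) (PSo.str k₀ k W.κ) :=
    pullback.lift (pullback.fst _ _) (pullback.snd _ _ ≫ W.emb)
      (by rw [Category.assoc, W.emb_str, pullback.condition])
  have huv : V.embProd W = u ≫ v := by
    apply pullback.hom_ext
    · rw [embProd_fst, Category.assoc, pullback.lift_fst, pullback.lift_fst]
    · rw [embProd_snd, Category.assoc, pullback.lift_snd, ← Category.assoc, pullback.lift_snd]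
  have hu : IsPullback (pullback.fst V.str W.str) u V.emb (pullback.fst _ _) := by
    have h1 : IsPullback (pullback.fst V.str W.str) (u ≫ pullback.snd _ _)
        (V.emb ≫ PSo.str k₀ k V.κ) W.str := by
      rw [V.emb_str, pullback.lift_snd]
      exact IsPullback.of_hasPullback _ _
    exact IsPullback.of_bot h1 (pullback.lift_fst _ _ _).symm (IsPullback.of_hasPullback _ _)
  have hv : IsPullback (pullback.snd (PSo.str k₀ k V.κ) W.str) v W.emb (pullback.snd _ _) := by
    have h1 : IsPullback (pullback.snd (PSo.str k₀ k V.κ) W.str) (v ≫ pullback.fst _ _)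
        (W.emb ≫ PSo.str k₀ k W.κ) (PSo.str k₀ k V.κ) := by
      rw [W.emb_str, pullback.lift_fst]
      exact (IsPullback.of_hasPullback _ _).flip
    exact IsPullback.of_bot h1 (pullback.lift_snd _ _ _).symm (IsPullback.of_hasPullback _ _).flip
  have h1 : IsClosedImmersion u.left :=
    MorphismProperty.of_isPullback (P := @IsClosedImmersion) (hu.map (Over.forget _)) hV
  have h2 : IsClosedImmersion v.left :=
    MorphismProperty.of_isPullback (P := @IsClosedImmersion) (hv.map (Over.forget _)) hW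
  rw [huv, Over.comp_left]
  infer_instance

/-- The Segre embedding. -/
noncomputable def segreMap (hSeg : StSegreGeo) (k₀ k : Type) [Field k₀] [Field k] [Algebra k₀ k]
    (κ κ' : Type) [Fintype κ] [Fintype κ'] :
    pullback (PSo.str k₀ k κ) (PSo.str k₀ k κ') ⟶ PSo k₀ k (κ × κ') :=
  (hSeg k₀ k κ κ').choose

variable [IsAlgClosed k]

/-- The product of two projective varieties. -/
noncomputable def prod (hSeg : StSegreGeo) : ProjVar k₀ k where
  X := pullback V.str W.str
  str := pullback.fst V.str W.str ≫ V.str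
  n := V.n + W.n
  isVar := Var.isVar_prod V.isVar W.isVar
  κ := V.κ × W.κ
  i := (V.i, W.i)
  emb := V.embProd W ≫ segreMap hSeg k₀ k V.κ W.κ
  closed := by
    have h1 := V.embProd_closed W
    have h2 := (hSeg k₀ k V.κ W.κ).choose_spec.1
    change IsClosedImmersion ((V.embProd W).left ≫ (segreMap hSeg k₀ k V.κ W.κ).left)
    have h3 : IsClosedImmersion (segreMap hSeg k₀ k V.κ W.κ).left := h2
    infer_instance
  emb_str := by
    rw [Category.assoc, segreMap, (hSeg k₀ k V.κ W.κ).choose_spec.2.1, ← Category.assoc,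
      embProd_fst, Category.assoc, V.emb_str]

variable {V W}

theorem h_prod {T : WeilTheory k₀ K} (E : Extra T) (hPS : StPS) (hSeg : StSegreGeo)
    (hS : StSegre k₀ K) : (V.prod W hSeg).h T =
      T.pull (pullback.fst V.str W.str) (V.h T) + T.pull (pullback.snd V.str W.str) (W.h T) := by
  obtain ⟨M, hM⟩ := exists_card V.κ
  obtain ⟨N, hN⟩ := exists_card W.κ
  obtain ⟨P, hP⟩ := exists_card (V.κ × W.κ)
  have h1 := hPS k₀ k V.κ (M + 1) hM
  have h2 := hPS k₀ k W.κ (N + 1) hN
  have h3 := hPS k₀ k (V.κ × W.κ) (P + 1) hP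
  have h12 := Var.isVar_prod h1 h2
  have hX := Var.isVar_prod V.isVar W.isVar
  have hspec := (hSeg k₀ k V.κ W.κ).choose_spec
  have key := hS T E k V.κ W.κ V.i W.i (segreMap hSeg k₀ k V.κ W.κ) hspec.2.1
    (hspec.2.2 V.i W.i).1 (hspec.2.2 V.i W.i).2
  change T.pull (V.embProd W ≫ segreMap hSeg k₀ k V.κ W.κ) (hypClass T k (V.i, W.i)) = _
  rw [T.pull_comp _ _ hX.sm h12.sm h3.sm, key, map_add, ← T.pull_comp _ _ hX.sm h12.sm h1.sm,
    ← T.pull_comp _ _ hX.sm h12.sm h2.sm, embProd_fst, embProd_snd,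
    T.pull_comp _ _ hX.sm V.isVar.sm h1.sm, T.pull_comp _ _ hX.sm W.isVar.sm h2.sm]
  rfl

end prod

section trip

variable {k : Type} [Field k] [Algebra k₀ k] [IsAlgClosed k]

/-- The variety `X × X × C`. -/
noncomputable def trip (hSeg : StSegreGeo) (X C : ProjVar k₀ k) : ProjVar k₀ k :=
  (X.prod X hSeg).prod C hSeg

variable {T : WeilTheory k₀ K} (E : Extra T) (hPS : StPS) (hHyp : StHyp) (hSeg : StSegreGeo)
  (hS : StSegre k₀ K) (X C : ProjVar k₀ k)

include hS hPS in
theorem h_trip : (trip hSeg X C).h T =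
    POver.tripH (X.toPOver E hPS hHyp) (C.toPOver E hPS hHyp) := by
  change ((X.prod X hSeg).prod C hSeg).h T = _
  rw [h_prod E hPS hSeg hS, h_prod E hPS hSeg hS]
  rfl

include hS hSeg in
theorem tripHL : POver.TripHL (X.toPOver E hPS hHyp) (C.toPOver E hPS hHyp) := by
  have h := E.lefschetz (trip hSeg X C).str (trip hSeg X C).n (trip hSeg X C).isVar
    (trip hSeg X C).i (trip hSeg X C).emb (trip hSeg X C).closed (trip hSeg X C).emb_str
  have e := h_trip E hPS hHyp hSeg hS X C
  rw [ProjVar.h] at e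
  rw [e] at h
  exact h

theorem trip_eq : ((trip hSeg X C).toPOver E hPS hHyp) =
    POver.trip (X.toPOver E hPS hHyp) (C.toPOver E hPS hHyp)
      (tripHL E hPS hHyp hSeg hS X C) := by
  have e := h_trip E hPS hHyp hSeg hS X C
  unfold toPOver POver.trip
  congr 1

end trip

end ProjVar

end Pool.Agent.Lib.MP_4ca46c_ag.Std
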