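import Mathlib
import Pool.Agent.Lib.MP_4ca46c_ag.Std.Facts
import Pool.Agent.Lib.MP_4ca46c_ag.Std.ProdV
import Pool.Agent.Lib.MP_4ca46c_ag.Std.PreConn
import Pool.Agent.Lib.MP_4ca46c_ag.Std.HypSec

/-!
# The generic hyperplane section of a projective variety
-/

namespace Pool.Agent.Lib.MP_4ca46c_ag.Std

open CategoryTheory Limits AlgebraicGeometry TensorProduct
open Pool.Agent.Lib.MP_4ca46c_ag.Sign Pool.Agent.Lib.MP_4ca46c_ag.Hyp

variable {k₀ : Type} [Field k₀]

namespace ProjVar

variable {k : Type} [Field k] [Algebra k₀ k] (V : ProjVar k₀ k)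

/-- The polynomial ring of the space of equations. -/
abbrev R : Type := MvPolynomial V.κ k

/-- The function field of the space of equations. -/
abbrev F : Type := FractionRing V.R

/-- The algebraic closure of the function field. -/
abbrev L : Type := AlgebraicClosure V.F

theorem monoEmb : Mono V.emb.left := by
  have hcl := V.closed
  infer_instance

/-- The homogeneous coordinates. -/
noncomputable abbrev C : Coord V.str.left V.κ := eCoord V.str V.emb V.emb_str V.monoEmb

/-- The projection of the universal section to the space of equations. -/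
noncomputable abbrev toB : Fam V.C ⟶ sp k₀ V.R := Fam.inc V.C ≫ Aff.toSp V.κ V.str

/-- The generic hyperplane section. -/
noncomputable def Y₀ : Sch k₀ := pullback V.toB (spG k₀ V.R V.F)

/-- The structure morphism. -/
noncomputable def y₀ : V.Y₀ ⟶ pt k₀ V.F := pullback.snd _ _

/-- The inclusion in the universal section. -/
noncomputable def toI : V.Y₀ ⟶ Fam V.C := pullback.fst _ _

theorem fibre : IsPullback V.toI V.y₀ V.toB (spG k₀ V.R V.F) := IsPullback.of_hasPullback _ _

/-- The geometric generic hyperplane section. -/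
noncomputable def Y : Sch k₀ := pullback V.y₀ (ptMap k₀ (IsScalarTower.toAlgHom k₀ V.F V.L))

/-- The structure morphism. -/
noncomputable def y : V.Y ⟶ pt k₀ V.L := pullback.snd _ _

/-- The base change map. -/
noncomputable def p : V.Y ⟶ V.Y₀ := pullback.fst _ _

theorem isBC : IsPullback V.p V.y V.y₀ (ptMap k₀ (IsScalarTower.toAlgHom k₀ V.F V.L)) :=
  IsPullback.of_hasPullback _ _

theorem smooth₀ (m : ℕ) (hn : V.n = m + 1) : SmoothOfRelativeDimension m V.y₀.left := by
  have hsmV : SmoothOfRelativeDimension (m + 1) V.str.left := by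
    rw [← hn]
    exact V.isVar.smooth
  exact fSmoothGen k₀ k V.κ V.X V.str V.emb V.emb_str V.closed m hsmV V.F V.Y₀ V.y₀ V.toI V.fibre

theorem proper₀ : IsProper V.y₀.left := by
  have h1 : IsPullback V.toI.left V.y₀.left V.toB.left (spG k₀ V.R V.F).left :=
    V.fibre.map (Over.forget _)
  have h2 : IsProper V.toB.left := by
    have hprop : IsProper (sl V.str) := V.isVar.proper
    have h3 : IsProper (hC V.C).toA := inferInstance
    exact h3
  exact MorphismProperty.of_isPullback (P := @IsProper) h1 h2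

theorem isSm₀ (m : ℕ) (hn : V.n = m + 1) : IsSm V.y₀ := by
  have h1 := V.proper₀
  exact ⟨(V.smooth₀ m hn).smooth, inferInstance, inferInstance⟩

/-- The family of hyperplane sections. -/
noncomputable def G : PreSec V.str V.R V.F :=
  have h1 := V.isVar.proper
  preSec V.str V.C V.Y₀ V.y₀ V.toI V.fibre

theorem proper_y : IsProper V.y.left := by
  have h1 : IsPullback V.p.left V.y.left V.y₀.left
    (ptMap k₀ (IsScalarTower.toAlgHom k₀ V.F V.L)).left := V.isBC.map (Over.forget _)
  exact MorphismProperty.of_isPullback (P := @IsProper) h1 V.proper₀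

/-- The map `Y₀ ⟶ X`. -/
noncomputable def r₀ : V.Y₀ ⟶ V.X := V.toI ≫ Fam.inc V.C ≫ Aff.pr V.κ V.X

theorem r₀_str : V.r₀ ≫ V.str = V.y₀ ≫ ptMap k₀ (IsScalarTower.toAlgHom k₀ k V.F) := by
  rw [← spG_spB k₀ k V.R V.F]
  exact V.G.r₀_comp

theorem joint {T : Sch k₀} (t t' : T ⟶ V.Y₀) (h1 : t ≫ V.y₀ = t' ≫ V.y₀)
    (h2 : t ≫ V.r₀ = t' ≫ V.r₀) : t = t' :=
  V.G.joint_mono t t' h1 h2

/-- The map to projective space. -/
noncomputable def r : V.Y ⟶ PSo k₀ k V.κ := V.p ≫ V.r₀ ≫ V.emb

theorem pt_comp : ptMap k₀ (IsScalarTower.toAlgHom k₀ V.F V.L) ≫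
    ptMap k₀ (IsScalarTower.toAlgHom k₀ k V.F) = ptMap k₀ (IsScalarTower.toAlgHom k₀ k V.L) := by
  apply Over.OverMorphism.ext
  simp only [ptMap, Over.comp_left]
  refine (Spec.map_comp _ _).symm.trans ?_
  rw [← CommRingCat.ofHom_comp]
  congr 2

theorem r_str : V.r ≫ PSo.str k₀ k V.κ = V.y ≫ ptMap k₀ (IsScalarTower.toAlgHom k₀ k V.L) := by
  have h2 : V.p ≫ V.y₀ = V.y ≫ ptMap k₀ (IsScalarTower.toAlgHom k₀ V.F V.L) := V.isBC.w
  rw [r, Category.assoc, Category.assoc, V.emb_str, V.r₀_str, ← Category.assoc, h2,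
    Category.assoc, pt_comp]

theorem r_mono (T : Sch k₀) (t t' : T ⟶ V.Y) (h1 : t ≫ V.y = t' ≫ V.y)
    (h2 : t ≫ V.r = t' ≫ V.r) : t = t' := by
  have hm := V.monoEmb
  have h3 : V.p ≫ V.y₀ = V.y ≫ ptMap k₀ (IsScalarTower.toAlgHom k₀ V.F V.L) := V.isBC.w
  refine V.isBC.hom_ext (V.joint (t ≫ V.p) (t' ≫ V.p) ?_ ?_) h1
  · rw [Category.assoc, Category.assoc, h3, ← Category.assoc, h1, Category.assoc]
  · apply Over.OverMorphism.ext
    rw [← cancel_mono V.emb.left]
    have h4 : (t ≫ V.p) ≫ V.r₀ ≫ V.emb = (t' ≫ V.p) ≫ V.r₀ ≫ V.emb := by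
      rw [r] at h2
      rw [Category.assoc, Category.assoc, h2]
    have h5 := congrArg CommaMorphism.left h4
    exact (Category.assoc _ _ _).trans (h5.trans (Category.assoc _ _ _).symm)

theorem exists_emb : ∃ e : V.Y ⟶ PSo k₀ V.L V.κ,
    IsClosedImmersion e.left ∧ e ≫ PSo.str k₀ V.L V.κ = V.y :=
  tEmb k₀ k V.L (IsScalarTower.toAlgHom k₀ k V.L) V.κ V.Y V.y V.r V.proper_y V.r_str V.r_mono

end ProjVar

theorem spG_flat (R F : Type) [CommRing R] [IsDomain R] [Algebra k₀ R] [Field F] [Algebra k₀ F]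
    [Algebra R F] [IsScalarTower k₀ R F] [IsFractionRing R F] : Flat (spG k₀ R F).left := by
  change Flat (Spec.map (CommRingCat.ofHom (algebraMap R F)))
  rw [HasRingHomProperty.Spec_iff (P := @Flat)]
  exact (RingHom.flat_algebraMap_iff).2 (IsLocalization.flat F (nonZeroDivisors R))

theorem spG_mono (R F : Type) [CommRing R] [IsDomain R] [Algebra k₀ R] [Field F] [Algebra k₀ F]
    [Algebra R F] [IsScalarTower k₀ R F] [IsFractionRing R F] : Mono (spG k₀ R F).left := by
  have h : IsPreimmersion (Spec.map (CommRingCat.ofHom (algebraMap R F))) :=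
    IsPreimmersion.of_isLocalization (nonZeroDivisors R)
  exact inferInstanceAs (Mono (Spec.map (CommRingCat.ofHom (algebraMap R F))))

theorem spG_qc (R F : Type) [CommRing R] [Algebra k₀ R] [Field F] [Algebra k₀ F]
    [Algebra R F] [IsScalarTower k₀ R F] : QuasiCompact (spG k₀ R F).left :=
  inferInstanceAs (QuasiCompact (Spec.map (CommRingCat.ofHom (algebraMap R F))))

namespace ProjVar

variable {K : Type} [Field K] {k : Type} [Field k] [Algebra k₀ k] [IsAlgClosed k]
  {T : WeilTheory k₀ K} (E : Extra T) (V : ProjVar k₀ k)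

include E in
theorem genClass (m : ℕ) (hn : V.n = m + 1) : Nonempty V.Y₀.left ∧ (IsVar V.y m → ∀ z,
    T.tr V.Y (T.pullH (V.p ≫ V.toI ≫ Fam.inc V.C ≫ Aff.pr V.κ V.X) z) =
      T.tr V.X (T.cl V.X (V.h T) * z)) := by
  have hV : IsVar V.str (m + 1) := by
    rw [← hn]
    exact V.isVar
  exact fGenClass k₀ K T E k V.κ V.i V.X V.str m V.emb V.emb_str hV V.closed V.F V.Y₀ V.y₀
    V.toI V.fibre (V.isSm₀ m hn) (V.smooth₀ m hn) V.L V.Y V.y V.p V.isBC

include E in
theorem isVar_y (m : ℕ) (hm : 1 ≤ m) (hn : V.n = m + 1) : IsVar V.y m := by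
  have h1 : IsPullback V.p.left V.y.left V.y₀.left
    (ptMap k₀ (IsScalarTower.toAlgHom k₀ V.F V.L)).left := V.isBC.map (Over.forget _)
  have h2 := smoothOfRelativeDimension_isStableUnderBaseChange m
  have h3 := V.proper₀
  have h4 : IsSeparated V.y₀.left := inferInstance
  exact ⟨MorphismProperty.of_isPullback (P := @SmoothOfRelativeDimension m) h1 (V.smooth₀ m hn),
    V.proper_y, V.G.conn fStalk tIrr tBundleIrr tGenIrr fFib fConn V.isVar hm (V.smooth₀ m hn) h4
      (V.genClass E m hn).1 V.y V.p V.isBC⟩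

/-- The generic hyperplane section, as a projective variety. -/
noncomputable def W (m : ℕ) (hm : 1 ≤ m) (hn : V.n = m + 1) : ProjVar k₀ V.L where
  X := V.Y
  str := V.y
  n := m
  isVar := V.isVar_y E m hm hn
  κ := V.κ
  i := V.i
  emb := V.exists_emb.choose
  closed := V.exists_emb.choose_spec.1
  emb_str := V.exists_emb.choose_spec.2

/-- The generic hyperplane section is a generic section in the sense of `GenSec`. -/
noncomputable def genSec (m : ℕ) (hm : 1 ≤ m) (hn : V.n = m + 1) :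
    GenSec (V.toPOver E tPS tHyp).toPVar ((V.W E m hm hn).toPOver E tPS tHyp).toPVar where
  F := V.F
  field := inferInstance
  algebra₀ := inferInstance
  algebra := inferInstanceAs (Algebra k V.F)
  tower := inferInstanceAs (IsScalarTower k₀ k V.F)
  algebraW := inferInstanceAs (Algebra V.F V.L)
  towerW := inferInstanceAs (IsScalarTower k₀ V.F V.L)
  closure := inferInstanceAs (IsAlgClosure V.F V.L)
  B := sp k₀ V.R
  b := spB k₀ k V.R
  generic := spG k₀ V.R V.F
  generic_over := spG_spB k₀ k V.R V.F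
  generic_flat := spG_flat V.R V.F
  generic_mono := spG_mono V.R V.F
  generic_quasiCompact := spG_qc V.R V.F
  I := V.G.I
  toZ := V.G.toZ
  toB := V.G.toB
  comm := V.G.comm
  mono := V.G.mono
  U := V.G.U
  incl := V.G.incl
  complement := V.G.complement
  bundle := V.G.bundle
  Y₀ := V.Y₀
  y₀ := V.y₀
  toI := V.toI
  fibre := V.fibre
  smooth := V.smooth₀ m hn
  proper := V.proper₀
  toY₀ := V.p
  isBaseChange := V.isBC
  dim := hn.symm
  cls := (V.genClass E m hn).2 (V.isVar_y E m hm hn)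

end ProjVar

end Pool.Agent.Lib.MP_4ca46c_ag.Std
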