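import Mathlib
import Pool.Agent.Lib.MP_4ca46c_ag.Std.Section
import Pool.Agent.Lib.MP_4ca46c_ag.Sign.Key

/-!
# The relation `H w H = (1 - κ) H`, `- κ H`
-/

namespace Pool.Agent.Lib.MP_4ca46c_ag.Std

open CategoryTheory Limits AlgebraicGeometry TensorProduct
open Pool.Agent.Lib.MP_4ca46c_ag.Sign

variable {k₀ : Type} [Field k₀] {K : Type} [Field K]

section geometry

variable {T : WeilTheory k₀ K} {V W : PVar T} (G : GenSec V W)

theorem key_squareBase : IsPullback G.e2 (W.p₁ ≫ W.str) (pullback.fst G.y₀ G.y₀ ≫ G.y₀)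
    (ptMap k₀ (IsScalarTower.toAlgHom k₀ G.F W.k)) := by
  have hw : W.p₁ ≫ W.str = W.p₂ ≫ W.str := pullback.condition
  refine ⟨⟨?_⟩, ⟨PullbackCone.IsLimit.mk _ (fun s => ?_) ?_ ?_ ?_⟩⟩
  · rw [← Category.assoc, G.e2_fst, Category.assoc, G.isBaseChange.w, Category.assoc]
  · refine pullback.lift
      (G.isBaseChange.lift (s.fst ≫ pullback.fst G.y₀ G.y₀) s.snd ?_)
      (G.isBaseChange.lift (s.fst ≫ pullback.snd G.y₀ G.y₀) s.snd ?_) ?_
    · rw [Category.assoc]; exact s.condition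
    · rw [Category.assoc, ← pullback.condition]; exact s.condition
    · rw [G.isBaseChange.lift_snd, G.isBaseChange.lift_snd]
  · intro s
    apply pullback.hom_ext
    · rw [Category.assoc, G.e2_fst, ← Category.assoc, PVar.p₁, pullback.lift_fst,
        G.isBaseChange.lift_fst]
    · rw [Category.assoc, G.e2_snd, ← Category.assoc, PVar.p₂, pullback.lift_snd,
        G.isBaseChange.lift_fst]
  · intro s
    rw [← Category.assoc, PVar.p₁, pullback.lift_fst, G.isBaseChange.lift_snd]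
  · intro s m hm1 hm2
    apply pullback.hom_ext
    · rw [pullback.lift_fst]
      apply G.isBaseChange.hom_ext
      · rw [G.isBaseChange.lift_fst, Category.assoc, ← hm1, Category.assoc, G.e2_fst]
        rfl
      · rw [G.isBaseChange.lift_snd, ← hm2, Category.assoc]
        rfl
    · rw [pullback.lift_snd]
      apply G.isBaseChange.hom_ext
      · rw [G.isBaseChange.lift_fst, Category.assoc, ← hm1, Category.assoc, G.e2_snd]
        rfl
      · rw [G.isBaseChange.lift_snd, ← hm2, hw, Category.assoc]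
        rfl

theorem key_flatE2 : Flat G.e2.left := by
  have h1 := ((key_squareBase G).map (Over.forget _)).flip
  refine MorphismProperty.of_isPullback (P := @Flat) h1 ?_
  change Flat (Spec.map (CommRingCat.ofHom (algebraMap G.F W.k)))
  rw [Flat.SpecMap_iff]
  change RingHom.Flat (algebraMap G.F W.k)
  rw [RingHom.flat_algebraMap_iff]
  infer_instance

theorem key_squareDiag : IsPullback G.toY₀ (pullback.diagonal W.str) (pullback.diagonal G.y₀)
    G.e2 := by
  refine ⟨⟨?_⟩, ⟨PullbackCone.IsLimit.mk _ (fun s => s.snd ≫ W.p₁) ?_ ?_ ?_⟩⟩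
  · apply pullback.hom_ext
    · rw [Category.assoc, pullback.diagonal_fst, Category.comp_id, Category.assoc, G.e2_fst,
        ← Category.assoc, PVar.p₁, pullback.diagonal_fst, Category.id_comp]
    · rw [Category.assoc, pullback.diagonal_snd, Category.comp_id, Category.assoc, G.e2_snd,
        ← Category.assoc, PVar.p₂, pullback.diagonal_snd, Category.id_comp]
  · intro s
    have h1 := s.condition =≫ pullback.fst G.y₀ G.y₀
    rw [Category.assoc, pullback.diagonal_fst, Category.comp_id, Category.assoc, G.e2_fst] at h1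
    rw [Category.assoc]
    exact h1.symm
  · intro s
    have h1 := s.condition =≫ pullback.fst G.y₀ G.y₀
    rw [Category.assoc, pullback.diagonal_fst, Category.comp_id, Category.assoc, G.e2_fst] at h1
    have h2 := s.condition =≫ pullback.snd G.y₀ G.y₀
    rw [Category.assoc, pullback.diagonal_snd, Category.comp_id, Category.assoc, G.e2_snd] at h2
    have hw : W.p₁ ≫ W.str = W.p₂ ≫ W.str := pullback.condition
    have h3 : s.snd ≫ W.p₁ = s.snd ≫ W.p₂ := by
      apply G.isBaseChange.hom_ext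
      · rw [Category.assoc, Category.assoc, ← h1, ← h2]
      · rw [Category.assoc, Category.assoc, hw]
    apply pullback.hom_ext
    · rw [Category.assoc, pullback.diagonal_fst, Category.comp_id]
      rfl
    · rw [Category.assoc, pullback.diagonal_snd, Category.comp_id, h3]
      rfl
  · intro s m _ hm2
    rw [← hm2, Category.assoc, PVar.p₁, pullback.diagonal_fst, Category.comp_id]

theorem key_RFst : (G.e2 ≫ G.rho) ≫ pullback.fst V.str V.str =
    W.p₁ ≫ (G.toY₀ ≫ G.toI ≫ G.toZ) := by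
  rw [Category.assoc, G.rho_fst, ← Category.assoc, G.e2_fst, Category.assoc]
  rfl

theorem key_RSnd : (G.e2 ≫ G.rho) ≫ pullback.snd V.str V.str =
    W.p₂ ≫ (G.toY₀ ≫ G.toI ≫ G.toZ) := by
  rw [Category.assoc, G.rho_snd, ← Category.assoc, G.e2_snd, Category.assoc]
  rfl

end geometry

/-- In positive characteristic there is no cohomology. -/
theorem key_noChar (T : WeilTheory k₀ K) (h : ¬ CharZero K) (X : Sch k₀) (y : T.H X) : y = 0 := by
  by_contra hne
  exact h (key_charZero T hne)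

theorem tKey (k₀ K : Type) [Field k₀] [Field K] (h1 : StSm k₀ K) (h2 : StStep0 k₀ K)
    (h3 : StAverage k₀ K) : StKey k₀ K := by
  intro T V W G hsign
  by_cases hchar : CharZero K
  swap
  · refine ⟨0, 0, Submodule.zero_mem _, fun i z hz z' => ?_⟩
    rw [key_noChar T hchar _ (T.cl V.X V.h * z * z'), map_zero, zero_mul, zero_mul, map_zero,
      map_zero, mul_zero]
  obtain ⟨sZ, sZZ, -, -, sYY₀, -, sY₀, sYY, vZ, vYY, vZZ, vYY₀, -, -, -, -⟩ := h1 T V W G
  obtain ⟨N₀, hN₀, b, hb, hav⟩ := h3 T V W G hsign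
  obtain ⟨κ, w₀, hw₀, hbw⟩ := h2 T V W G b hb
  have wY : IsWeil W.X := key_isWeil W
  have wYY : IsWeil W.sq := ⟨W.k, _, _, W.closed, _, _, vYY⟩
  have wZ : IsWeil V.X := key_isWeil V
  have wZZ : IsWeil (pullback V.str V.str) := ⟨V.k, _, _, V.closed, _, _, vZZ⟩
  have sY : Sm W.X := ⟨W.k, _, _, W.str, by
    have h1 := W.isVar.smooth
    have h2 := W.isVar.proper
    exact ⟨h1.smooth, inferInstance, inferInstance⟩⟩
  set r : W.X ⟶ V.X := G.toY₀ ≫ G.toI ≫ G.toZ with hr
  set R : W.sq ⟶ pullback V.str V.str := G.e2 ≫ G.rho with hR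
  set P₁ := pullback.fst V.str V.str with hP₁
  set P₂ := pullback.snd V.str V.str with hP₂
  have hpW : IsPullback W.p₁ W.p₂ W.str W.str := IsPullback.of_hasPullback W.str W.str
  have hpZ : IsPullback P₁ P₂ V.str V.str := IsPullback.of_hasPullback V.str V.str
  -- pull-back along `R`
  have hR1 : ∀ a, T.pullH R (T.pullH P₁ a) = T.pullH W.p₁ (T.pullH r a) := by
    intro a
    rw [← T.pullH_comp R P₁ wYY wZZ wZ, ← T.pullH_comp W.p₁ r wYY wY wZ, hR, hP₁, key_RFst]
  have hR2 : ∀ a, T.pullH R (T.pullH P₂ a) = T.pullH W.p₂ (T.pullH r a) := by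
    intro a
    rw [← T.pullH_comp R P₂ wYY wZZ wZ, ← T.pullH_comp W.p₂ r wYY wY wZ, hR, hP₂, key_RSnd]
  -- the class of `b`
  have hcl : T.cl W.sq (T.pull G.e2 b) =
      (κ : K) • T.cl W.sq (T.push (pullback.diagonal W.str) 1) + T.pullH R (T.cl _ w₀) := by
    rw [hbw, map_add, map_add, map_smul, key_cl_smul,
      T.push_baseChange (pullback.diagonal G.y₀) (pullback.diagonal W.str) G.toY₀ G.e2
        (key_squareDiag G) sY₀ sYY₀ sY sYY (key_proper_diag G.y₀ G.proper vYY₀) (key_flatE2 G),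
      map_one, ← T.pull_comp G.e2 G.rho sYY sYY₀ sZZ, ← T.cl_pull R wYY wZZ]
  have hdiag : ∀ y y', T.tr W.sq (T.cl W.sq (T.push (pullback.diagonal W.str) 1) *
      T.pullH W.p₂ y * T.pullH W.p₁ y') = T.tr W.X (y * y') := by
    intro y y'
    rw [mul_assoc, T.cl_push W.str W.sqStr (pullback.diagonal W.str)
      (by rw [PVar.sqStr, ← Category.assoc, PVar.p₁, pullback.diagonal_fst, Category.id_comp])
      _ _ W.isVar vYY, map_one, one_mul, map_mul, ← T.pullH_comp _ _ wY wYY wY,
      ← T.pullH_comp _ _ wY wYY wY, PVar.p₁, PVar.p₂, pullback.diagonal_fst,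
      pullback.diagonal_snd, T.pullH_id wY, T.pullH_id wY]
  -- the Lefschetz class
  set H := T.cl V.X V.h with hH
  have hHdeg : H ∈ T.deg V.X (2 * 1) := T.cl_mem _ wZ 1 _ V.h_mem
  have hH1 : ∀ v, T.pullH P₁ H * v = v * T.pullH P₁ H :=
    key_central T wZZ (T.pullH_mem P₁ wZZ wZ _ _ hHdeg)
  have hH2 : ∀ v, T.pullH P₂ H * v = v * T.pullH P₂ H :=
    key_central T wZZ (T.pullH_mem P₂ wZZ wZ _ _ hHdeg)
  have hcls : ∀ z, T.tr W.X (T.pullH r z) = T.tr V.X (H * z) := G.cls
  clear_value H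
  have htrR : ∀ u, T.tr W.sq (T.pullH R u) =
      T.tr _ (T.pullH P₁ H * (T.pullH P₂ H * u)) := by
    intro u
    refine key_ind T V.str V.str P₁ P₂ _ _ vZ vZ hpZ
      (C := fun u => T.tr W.sq (T.pullH R u) =
        T.tr _ (T.pullH P₁ H * (T.pullH P₂ H * u))) ?_ ?_ ?_ u
    · rw [map_zero, map_zero, mul_zero, mul_zero, map_zero]
    · intro u v hu hv
      rw [map_add, map_add, hu, hv, mul_add, mul_add, map_add]
    · intro i j a _ c _
      have e1 : T.pullH P₁ H * (T.pullH P₂ H * (T.pullH P₁ a * T.pullH P₂ c)) =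
          T.pullH P₁ (H * a) * T.pullH P₂ (H * c) := by
        rw [map_mul (T.pullH P₁), map_mul (T.pullH P₂)]
        have := key_alg hH1 hH2 1 (T.pullH P₁ a) (T.pullH P₂ c)
        rwa [one_mul, one_mul] at this
      rw [map_mul (T.pullH R), hR1, hR2, T.tr_kunneth W.str W.str W.p₁ W.p₂ _ _ W.isVar W.isVar
        hpW, hcls, hcls, e1, T.tr_kunneth V.str V.str P₁ P₂ _ _ vZ vZ hpZ]
  have hN : (N₀ : K) ≠ 0 := by
    exact_mod_cast hN₀.ne'
  refine ⟨κ / N₀, ((1 : ℚ) / N₀) • w₀, Submodule.smul_mem _ _ hw₀, fun i z hz z' => ?_⟩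
  have h4 := hav i (T.pullH r z) (T.pullH_mem r wY wZ _ _ hz) (T.pullH r z')
  have h5 : T.tr W.sq (T.pullH R (T.cl _ w₀) * T.pullH W.p₂ (T.pullH r z) *
      T.pullH W.p₁ (T.pullH r z')) = T.tr _ (T.cl (pullback V.str V.str) w₀ *
        T.pullH P₂ (H * z) * T.pullH P₁ (H * z')) := by
    rw [← hR1, ← hR2, ← map_mul, ← map_mul, htrR]
    congr 1
    rw [map_mul (T.pullH P₁), map_mul (T.pullH P₂), ← mul_assoc, hH1, mul_assoc]
    exact key_alg hH2 hH1 _ _ _
  rw [hcl, add_mul, add_mul, map_add, smul_mul_assoc, smul_mul_assoc, map_smul, hdiag, h5,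
    ← map_mul (T.pullH r) z z', hcls, smul_eq_mul] at h4
  rw [key_cl_smul, smul_mul_assoc, smul_mul_assoc, map_smul, smul_eq_mul, mul_assoc H]
  have h6 : ((((1 : ℚ) / N₀ : ℚ)) : K) = 1 / N₀ := by push_cast; ring
  have h7 : (((κ / N₀ : ℚ)) : K) = (κ : K) / N₀ := by push_cast; ring
  rw [h6, h7]
  have h8 : T.tr (pullback V.str V.str) (T.cl (pullback V.str V.str) w₀ *
      T.pullH P₂ (H * z) * T.pullH P₁ (H * z')) =
      (if Even i then (N₀ : K) * T.tr V.X (H * (z * z')) else 0) -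
        (κ : K) * T.tr V.X (H * (z * z')) := by
    rw [← h4]
    ring
  rw [h8]
  split_ifs with hi
  · field_simp
  · field_simp
    ring

end Pool.Agent.Lib.MP_4ca46c_ag.Std
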