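import Pool.Agent.Lib.MP_4ca46c_ag.Std.LinSpec
import Pool.Agent.Lib.MP_4ca46c_ag.Sign.AB
import Pool.Agent.Lib.MP_4ca46c_ag.Sign.E

/-!
# Descent of the radical along the Lefschetz operator, with the vanishing of traces
-/

namespace Pool.Agent.Lib.MP_4ca46c_ag.Std

open Module TensorProduct LinearMap
open Pool.Agent.Lib.MP_4ca46c_ag.Sign

theorem tET : StET := by
  intro K V _ _ _ _ _ G Z n L hS hT hpr d r hdr f hf hfd hN
  have h2 : StAB := tAB
  have hL := hS.L_mem
  have hLr : ∀ m : ℕ, L ^ m ∈ G.R m := by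
    intro m
    have := G.pow_mem' hL m
    rwa [mul_one] at this
  have hfl : G.pr d * f = f := by
    calc G.pr d * f = G.pr d * (G.pr d * f * G.pr d) := by rw [hfd]
      _ = G.pr d * G.pr d * f * G.pr d := by simp only [mul_assoc]
      _ = f := by rw [G.pr_idem, hfd]
  have hfr : f * G.pr d = f := by
    calc f * G.pr d = G.pr d * f * G.pr d * G.pr d := by rw [hfd]
      _ = G.pr d * f * G.pr d := by rw [mul_assoc, G.pr_idem]
      _ = f := hfd
  have hLf : ∀ a : ℕ, L ^ a * f = G.pr (d + 2 * a) * (L ^ a * f) := by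
    intro a
    rw [← mul_assoc, ← e_pow_pr hL, mul_assoc, hfl]
  have hLfR : ∀ a : ℕ, L ^ a * f ∈ G.R a := fun a => G.mul_mem' (hLr a) hf (by ring)
  -- `Om` is of degree `r`
  have hOmR : e_Om L f r ∈ Z.R r := by
    rw [e_Om]
    refine (Z.R r).sum_mem fun a ha => (Z.R r).smul_mem _ ?_
    rw [Finset.mem_range] at ha
    have h3 := hS.tensor a (r - a : ℕ) _ (hLfR a) _ (hLfR (r - a))
    rwa [show (a : ℤ) + ((r - a : ℕ) : ℤ) = r by
      rw [Nat.cast_sub (Nat.lt_succ_iff.1 ha)]; ring] at h3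
  -- `Om` vanishes on degrees different from `2 d`
  have hOm : e_Om L f r * prT n G.pr (2 * d) = e_Om L f r := by
    rw [e_Om, Finset.sum_mul]
    refine Finset.sum_congr rfl fun a ha => ?_
    rw [smul_mul_assoc]
    congr 1
    rw [prT, Finset.mul_sum, Finset.sum_eq_single (d : ℤ)]
    · rw [e_map_mul, show (2 * (d : ℤ) - d) = d by ring, mul_assoc, mul_assoc, hfr]
    · intro i _ hi
      rw [e_map_mul, mul_assoc, ← hfr, mul_assoc f, G.pr_ne (Ne.symm hi), mul_zero, mul_zero,
        TensorProduct.map_zero_left]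
    · intro hi
      exfalso
      apply hi
      rw [Finset.mem_Icc]
      constructor <;> omega
  have hHOm : LL L * e_Om L f r ∈ Z.N (r + 1) := by
    rw [e_LL_Om]
    have hR : L ^ (r + 1) * f ∈ G.R ((r : ℤ) + 1) := hN.1
    refine (Z.N _).add_mem ?_ ((Z.N _).smul_mem _ ?_)
    · have := (h2 K V G Z n L hS 0 (r + 1) f hf _ hR).2.1 hN
      rwa [zero_add] at this
    · have := (h2 K V G Z n L hS (r + 1) 0 _ hR f hf).1 hN
      rwa [add_zero] at this
  have hOmN : e_Om L f r ∈ Z.N r := by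
    refine ⟨hOmR, fun Θ hΘ => ?_⟩
    have h3 := hT.1 r (e_Om L f r) hOmR hHOm Θ hΘ (2 * d) ⟨d, by ring⟩ (by omega)
    rwa [hS.prZ, mul_assoc, hOm] at h3
  -- project
  have hP : TensorProduct.map (G.pr (d + 2 * r)) (G.pr d) ∈ Z.R 0 := by
    have := hS.tensor 0 0 _ (hpr (d + 2 * r)) _ (hpr d)
    rwa [add_zero] at this
  have hPOm : TensorProduct.map (G.pr (d + 2 * r)) (G.pr d) * e_Om L f r =
      (-1 : K) ^ r • TensorProduct.map (L ^ r * f) f := by
    rw [e_Om, Finset.mul_sum, Finset.sum_eq_single r]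
    · rw [mul_smul_comm, e_map_mul, ← hLf r, Nat.sub_self, pow_zero, one_mul, hfl]
    · intro a _ hne
      rw [mul_smul_comm, e_map_mul, hLf a, ← mul_assoc (G.pr (d + 2 * r)),
        G.pr_ne (by omega), zero_mul, TensorProduct.map_zero_left, smul_zero]
    · intro hr
      exact absurd (Finset.mem_range.2 (Nat.lt_succ_self r)) hr
  have hmain : TensorProduct.map (L ^ r * f) f ∈ Z.N (r + 0) := by
    have h3 := GrAlg.N_left hOmN hP (zero_add _)
    rw [hPOm] at h3
    have h4 := (Z.N r).smul_mem ((-1 : K) ^ r) h3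
    rw [smul_smul, ← mul_pow] at h4
    rw [add_zero]
    simpa using h4
  rcases (h2 K V G Z n L hS r 0 _ (hLfR r) f hf).2.2 hmain with h | h
  · exact h
  · exact GrAlg.N_left h (hLr r) (by ring)

end Pool.Agent.Lib.MP_4ca46c_ag.Std
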