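import Pool.Agent.Lib.MP_4ca46c_ag.Std.LinSpec
import Pool.Agent.Lib.MP_4ca46c_ag.Sign.AB
import Pool.Agent.Lib.MP_4ca46c_ag.Sign.Q

/-!
# Lemma Q with `TProp`
-/

namespace Pool.Agent.Lib.MP_4ca46c_ag.Std

open Module TensorProduct LinearMap
open Pool.Agent.Lib.MP_4ca46c_ag.Sign

/-- **Lemma Q** with `TProp`. -/
theorem tQT : StQT := by
  intro K V _ _ _ _ _ G Z n L hS hT r f hf g hg hLf hgL j hj
  classical
  set t : ℤ → K := fun i => LinearMap.trace K V (g * L ^ r * f * G.pr i) with ht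
  have htr : ∀ c, LinearMap.trace K _ (qW L g r * qOm L f r * Z.pr c) =
      (-1 : K) ^ r * (r + 1) * ∑ i ∈ Finset.Icc (0 : ℤ) (2 * n), t i * t (c - i) := fun c =>
    q_trace hS r hf hg c
  have hOm := q_Om_mem hS hf r
  have hW := q_W_mem hS r hg
  -- `H Om` and `W H` are in the radical
  have hHO : LL L * qOm L f r ∈ Z.N (r + 1) := by
    rw [q_LL_Om]
    have hLf' : L ^ (r + 1) * f ∈ G.R ((r : ℤ) + 1) := hLf.1
    refine (Z.N _).add_mem ?_ (Submodule.smul_mem _ _ ?_)
    · have h := (tAB K V G Z n L hS 0 (r + 1) f hf _ hLf').2.1 hLf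
      rwa [zero_add] at h
    · have h := (tAB K V G Z n L hS (r + 1) 0 _ hLf' f hf).1 hLf
      rwa [add_zero] at h
  have hWH : qW L g r * LL L ∈ Z.N (-r + 1) := by
    rw [q_W_LL]
    refine (Z.N _).add_mem ?_ (Submodule.smul_mem _ _ ?_)
    · exact (tAB K V G Z n L hS (-r) 1 g hg _ hgL.1).2.1 hgL
    · have h := (tAB K V G Z n L hS 1 (-r) _ hgL.1 g hg).1 hgL
      rwa [add_comm] at h
  -- vanishing of the traces
  have hlow : ∀ i : ℤ, i < n - r →
      LinearMap.trace K _ (qW L g r * qOm L f r * Z.pr (2 * i)) = 0 := fun i hi =>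
    hT.1 r _ hOm hHO _ hW (2 * i) (even_two_mul i) (by omega)
  have hhigh : ∀ i : ℤ, n - r < i →
      LinearMap.trace K _ (qW L g r * qOm L f r * Z.pr (2 * i)) = 0 := fun i hi =>
    hT.2 r _ hW hWH _ hOm (2 * i) (even_two_mul i) (by omega)
  -- the extremal index
  by_contra hne
  have hne' : t j ≠ 0 := hne
  have hout : ∀ i, i < 0 ∨ 2 * (n : ℤ) < i → t i = 0 := fun i hi => by
    show LinearMap.trace K V (g * L ^ r * f * G.pr i) = 0
    rw [hS.lef.out i hi, mul_zero, map_zero]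
  have hin : ∀ i, t i ≠ 0 → 0 ≤ i ∧ i ≤ 2 * n := fun i hi => by
    constructor
    · by_contra h
      exact hi (hout i (Or.inl (by omega)))
    · by_contra h
      exact hi (hout i (Or.inr (by omega)))
  have hnz : ∀ i, t i ≠ 0 → (∀ k, k ≠ i → t k * t (2 * i - k) = 0) →
      LinearMap.trace K _ (qW L g r * qOm L f r * Z.pr (2 * i)) ≠ 0 := by
    intro i hi hk
    rw [htr, Finset.sum_eq_single i (fun k _ hki => hk k hki)
      (fun h => absurd (Finset.mem_Icc.2 (hin i hi)) h), show 2 * i - i = i by ring]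
    refine mul_ne_zero (mul_ne_zero (pow_ne_zero _ (neg_ne_zero.2 one_ne_zero)) ?_)
      (mul_ne_zero hi hi)
    exact Nat.cast_add_one_ne_zero r
  set S : Finset ℤ := (Finset.Icc (0 : ℤ) (2 * n)).filter (fun i => t i ≠ 0) with hSdef
  have hmem : ∀ i, i ∈ S ↔ t i ≠ 0 := fun i => by
    rw [hSdef, Finset.mem_filter, Finset.mem_Icc]
    exact ⟨fun h => h.2, fun h => ⟨hin i h, h⟩⟩
  have hSne : S.Nonempty := ⟨j, (hmem j).2 hne'⟩
  rcases lt_or_gt_of_ne hj with hlt | hgt
  · -- least index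
    have hmin : ∀ k, k < S.min' hSne → t k = 0 := fun k hk => by
      by_contra h
      exact absurd (S.min'_le k ((hmem k).2 h)) (not_le.2 hk)
    have h0 : t (S.min' hSne) ≠ 0 := (hmem _).1 (S.min'_mem hSne)
    have hle : S.min' hSne ≤ j := S.min'_le j ((hmem j).2 hne')
    refine hnz _ h0 ?_ (hlow _ (by omega))
    intro k hk
    rcases lt_or_gt_of_ne hk with h | h
    · rw [hmin k h, zero_mul]
    · rw [hmin (2 * S.min' hSne - k) (by omega), mul_zero]
  · have hmax : ∀ k, S.max' hSne < k → t k = 0 := fun k hk => by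
      by_contra h
      exact absurd (S.le_max' k ((hmem k).2 h)) (not_le.2 hk)
    have h0 : t (S.max' hSne) ≠ 0 := (hmem _).1 (S.max'_mem hSne)
    have hle : j ≤ S.max' hSne := S.le_max' j ((hmem j).2 hne')
    refine hnz _ h0 ?_ (hhigh _ (by omega))
    intro k hk
    rcases lt_or_gt_of_ne hk with h | h
    · rw [hmax (2 * S.max' hSne - k) (by omega), mul_zero]
    · rw [hmax k h, zero_mul]

end Pool.Agent.Lib.MP_4ca46c_ag.Std
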