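import Pool.Agent.Lib.MP_4ca46c_ag.Std.LinSpec
import Pool.Agent.Lib.MP_4ca46c_ag.Sign.Sgn

/-!
# The sign conjecture for `X`, with the third factor
-/

namespace Pool.Agent.Lib.MP_4ca46c_ag.Std

open Module TensorProduct LinearMap
open Pool.Agent.Lib.MP_4ca46c_ag.Sign

theorem linsgn_deg {K V U : Type} [Field K] [AddCommGroup V] [Module K V] [AddCommGroup U]
    [Module K U] {n : ℕ} {pr : ℤ → Module.End K V} {L : Module.End K V} {q : ℤ → Module.End K U}
    {LC : Module.End K U} (h : LefMod n pr L) (hC : LefMod 1 q LC) {i : ℤ}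
    (hi : i ∈ Finset.Icc (0 : ℤ) (2 * n)) :
    prM 1 (prT n pr) q i * TensorProduct.map (TensorProduct.map (pr i) (pr 0)) (q 0) =
      TensorProduct.map (TensorProduct.map (pr i) (pr 0)) (q 0) := by
  rw [prM, Finset.sum_mul, Finset.sum_eq_single 0]
  · rw [← TensorProduct.map_mul, sub_zero, sgn_deg h hi, hC.pr_mul, if_pos rfl]
  · intro k _ hk
    rw [← TensorProduct.map_mul, hC.pr_mul, if_neg hk, TensorProduct.map_zero_right]
  · intro h0
    exact absurd (Finset.mem_Icc.2 ⟨le_rfl, by norm_num⟩) h0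

/-- StSgnT -/
theorem tSgnT : StSgnT := by
  intro K V U _ _ _ _ _ _ _ _ n pr L A B q LC E D w a b h t hw hab heven hodd
  have hlef := h.lef
  have hlefC := t.lefC
  have h00 : (0 : ℤ) ∈ Finset.Icc (0 : ℤ) (2 * n) := Finset.mem_Icc.2 ⟨le_rfl, by omega⟩
  have h00' : (0 : ℤ) ∈ Finset.Icc (0 : ℤ) (2 * (1 : ℕ)) := Finset.mem_Icc.2 ⟨le_rfl, by norm_num⟩
  -- `H'` is in `D 1`
  have hH : LL L ∈ B 1 := by
    have e1 := h.tensor 1 0 L h.L_mem 1 h.ratA.one
    have e2 := h.tensor 0 1 1 h.ratA.one L h.L_mem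
    rw [add_zero] at e1
    rw [zero_add] at e2
    exact (B 1).add_mem e1 e2
  have hH' : LM (LL L) LC ∈ D 1 := by
    have e1 := t.tensor 1 0 (LL L) hH 1 t.ratE.one
    have e2 := t.tensor 0 1 1 h.ratB.one LC t.LC_mem
    rw [add_zero] at e1
    rw [zero_add] at e2
    exact (D 1).add_mem e1 e2
  set H' := LM (LL L) LC with hH'def
  have hwH : w * H' ∈ D 0 := by
    have := t.ratD.mul _ _ _ hw _ hH'
    rwa [neg_add_cancel] at this
  have hu : w * H' * TensorProduct.map 1 (q 0) ∈ D 0 := by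
    have e1 := t.tensor 0 0 1 h.ratB.one (q 0) (t.q_mem 0)
    have := t.ratD.mul _ _ _ hwH _ e1
    rwa [add_zero, add_zero] at this
  have he₁ : ptrR (w * H' * TensorProduct.map 1 (q 0)) ∈ B 0 := by
    have e1 := t.ptr 0 _ hu
    rwa [mul_assoc (w * H'), ← TensorProduct.map_mul, one_mul, sgn_pr_mul hlefC h00',
      if_pos Even.zero, one_smul] at e1
  set e₁ := ptrR (w * H' * TensorProduct.map 1 (q 0)) with he₁def
  have hu₂ : e₁ * TensorProduct.map 1 (pr 0) ∈ B 0 := by
    have e1 := h.tensor 0 0 1 h.ratA.one (pr 0) h.pr_zero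
    have := h.ratB.mul _ _ _ he₁ _ e1
    rwa [add_zero, add_zero] at this
  have he₂ : ptrR (e₁ * TensorProduct.map 1 (pr 0)) ∈ A 0 := by
    have e1 := h.ptr 0 _ hu₂
    rwa [mul_assoc e₁, ← TensorProduct.map_mul, one_mul, sgn_pr_mul hlef h00,
      if_pos Even.zero, one_smul] at e1
  set e₂ := ptrR (e₁ * TensorProduct.map 1 (pr 0)) with he₂def
  -- the action on the graded pieces
  have hlam : ∀ c, H' * w * H' * prM 1 (prT n pr) q c =
      ((if Even c then a else b : ℚ) : K) • (H' * prM 1 (prT n pr) q c) := by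
    intro c
    rcases Int.even_or_odd c with hc | hc
    · rw [if_pos hc]
      exact heven c hc
    · rw [if_neg (Int.not_even_iff_odd.2 hc)]
      exact hodd c hc
  have key : ∀ i ∈ Finset.Icc (0 : ℤ) (2 * n),
      w * H' * TensorProduct.map (TensorProduct.map (pr i) (pr 0)) (q 0) =
        ((if Even i then a else b : ℚ) : K) •
          TensorProduct.map (TensorProduct.map (pr i) (pr 0)) (q 0) := by
    intro i hi
    have hin : i < 2 * n + 1 := by
      have := (Finset.mem_Icc.1 hi).2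
      omega
    have hcomm : w * H' * prM 1 (prT n pr) q i = prM 1 (prT n pr) q i * (w * H') := by
      have := t.ratD.comm 0 _ hwH i
      rwa [mul_zero, add_zero] at this
    refine LinearMap.ext fun v => ?_
    rw [Module.End.mul_apply, LinearMap.smul_apply]
    generalize hz' : (TensorProduct.map (TensorProduct.map (pr i) (pr 0)) (q 0)) v = z
    have hz : prM 1 (prT n pr) q i z = z := by
      rw [← hz', ← Module.End.mul_apply, linsgn_deg hlef hlefC hi]
    have hd : prM 1 (prT n pr) q i ((w * H') z) = (w * H') z := by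
      rw [← Module.End.mul_apply, ← hcomm, Module.End.mul_apply, hz]
    rw [← sub_eq_zero]
    refine t.inj i hin _ ?_ ?_
    · rw [map_sub, map_smul, hd, hz]
    · have e1 := congrArg (fun f : Module.End K ((V ⊗[K] V) ⊗[K] U) => f z) (hlam i)
      simp only [Module.End.mul_apply, LinearMap.smul_apply, hz] at e1
      rw [← hH'def, map_sub, map_smul, Module.End.mul_apply, e1, sub_self]
  obtain ⟨m₁, hm₁, htr₁⟩ := sgn_trace hlefC t.q_zero_ne
  obtain ⟨m₂, hm₂, htr₂⟩ := sgn_trace hlef h.pr_zero_ne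
  have hm₁K : (m₁ : K) ≠ 0 := Nat.cast_ne_zero.2 hm₁
  have hm₂K : (m₂ : K) ≠ 0 := Nat.cast_ne_zero.2 hm₂
  have key1 : ∀ i ∈ Finset.Icc (0 : ℤ) (2 * n), e₁ * TensorProduct.map (pr i) (pr 0) =
      (((if Even i then a else b : ℚ) : K) * m₁) • TensorProduct.map (pr i) (pr 0) := by
    intro i hi
    rw [he₁def, ← sgn_ptrR_mul, mul_assoc (w * H'), ← TensorProduct.map_mul, one_mul, mul_one,
      key i hi, map_smul, ptrR_map, htr₁, smul_smul]
  have key2 : ∀ i ∈ Finset.Icc (0 : ℤ) (2 * n), e₂ * pr i =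
      (((if Even i then a else b : ℚ) : K) * m₁ * m₂) • pr i := by
    intro i hi
    rw [he₂def, ← sgn_ptrR_mul, mul_assoc e₁, ← TensorProduct.map_mul, one_mul, mul_one,
      key1 i hi, map_smul, ptrR_map, htr₂, smul_smul]
  have hab' : (a : K) - (b : K) = 1 := by exact_mod_cast congrArg (fun x : ℚ => (x : K)) hab
  have hfin : sgn n pr = ((((2 : ℚ) / (m₁ * m₂) : ℚ) : K) • e₂ +
      ((-(2 * b + 1) : ℚ) : K) • (1 : Module.End K V)) := by
    have hdec : ∀ f g : Module.End K V, (∀ i ∈ Finset.Icc (0 : ℤ) (2 * n), f * pr i = g * pr i) →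
        f = g := by
      intro f g hfg
      rw [← mul_one f, ← mul_one g, ← hlef.sum, Finset.mul_sum, Finset.mul_sum]
      exact Finset.sum_congr rfl hfg
    apply hdec
    intro i hi
    rw [sgn_mul_pr hlef hi, add_mul, smul_mul_assoc, smul_mul_assoc, one_mul, key2 i hi,
      smul_smul, ← add_smul]
    congr 1
    push_cast
    rcases Int.even_or_odd i with hev | hod
    · rw [if_pos hev, if_pos hev]
      field_simp
      linear_combination (-2 : K) * hab'
    · rw [if_neg (Int.not_even_iff_odd.2 hod), if_neg (Int.not_even_iff_odd.2 hod)]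
      field_simp
      ring
  rw [hfin]
  exact (A 0).add_mem (h.ratA.smul 0 _ _ he₂) (h.ratA.smul 0 _ _ h.ratA.one)

end Pool.Agent.Lib.MP_4ca46c_ag.Std
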