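import Pool.Agent.Lib.MP_4ca46c_ag.Std.LinSpec
import Pool.Agent.Lib.MP_4ca46c_ag.Sign.Span

/-!
# Passing to coefficients in `K`, with a third factor
-/

namespace Pool.Agent.Lib.MP_4ca46c_ag.Std

open Module TensorProduct LinearMap
open Pool.Agent.Lib.MP_4ca46c_ag.Sign

section

variable {K M U : Type} [Field K] [AddCommGroup M] [Module K M] [AddCommGroup U] [Module K U]

theorem linspan_prM_mul {p : ℤ → Module.End K M} {q : ℤ → Module.End K U}
    (hp : ∀ i j, p i * p j = if i = j then p i else 0)
    (hq : ∀ i j, q i * q j = if i = j then q i else 0) (m : ℕ) (c d : ℤ) :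
    prM m p q c * prM m p q d = if c = d then prM m p q c else 0 := by
  classical
  have h1 : prM m p q c * prM m p q d = ∑ i ∈ Finset.Icc (0 : ℤ) (2 * m),
      TensorProduct.map (p (c - i) * p (d - i)) (q i) := by
    conv_lhs => rw [prM, prM]
    rw [Finset.sum_mul_sum]
    refine Finset.sum_congr rfl fun i hi => ?_
    rw [Finset.sum_eq_single i]
    · rw [← TensorProduct.map_mul, hq, if_pos rfl]
    · intro j _ hj
      rw [← TensorProduct.map_mul, hq, if_neg hj.symm, TensorProduct.map_zero_right]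
    · intro h'
      exact absurd hi h'
  rw [h1]
  split_ifs with hcd
  · subst hcd
    rw [prM]
    refine Finset.sum_congr rfl fun i _ => ?_
    rw [hp, if_pos rfl]
  · refine Finset.sum_eq_zero fun i _ => ?_
    rw [hp, if_neg (by omega), TensorProduct.map_zero_left]

theorem linspan_q_two {q : ℤ → Module.End K U} {LC : Module.End K U} (h : LefMod 1 q LC)
    (h0 : q 0 ≠ 0) : q 2 ≠ 0 := by
  intro h2
  apply h0
  refine LinearMap.ext fun x => ?_
  rw [LinearMap.zero_apply]
  refine h.inj 1 le_rfl (q 0 x) ?_ ?_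
  · have h3 : ((1 : ℕ) : ℤ) - ((1 : ℕ) : ℤ) = 0 := by norm_num
    rw [h3, ← Module.End.mul_apply, h.pr_mul, if_pos rfl]
  · have h4 : LC * q 0 = q (0 + 2) * LC := h.comm 0
    rw [zero_add, h2, zero_mul] at h4
    rw [pow_one, ← Module.End.mul_apply, h4, LinearMap.zero_apply]

theorem linspan_sgn_mem {q : ℤ → Module.End K U} {E : ℤ → AddSubgroup (Module.End K U)}
    (h : RatAlg q E) (hq : ∀ i, q i ∈ E 0) (m : ℕ) : sgn m q ∈ E 0 := by
  rw [sgn]
  refine AddSubgroup.sum_mem _ fun i _ => ?_
  split_ifs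
  · have h1 := h.smul 0 1 (q i) (hq i)
    rwa [Rat.cast_one] at h1
  · have h1 := h.smul 0 (-1) (q i) (hq i)
    rwa [Rat.cast_neg, Rat.cast_one] at h1

end

theorem tSpanT : StSpanT := by
  intro K V U _ _ _ _ _ _ _ _ n pr L A B q LC E D Z h hT hZpr hZR
  classical
  let P : GrAlg K ((V ⊗[K] V) ⊗[K] U) := spanG (prM 1 (prT n pr) q) D hT.ratD
    (linspan_prM_mul (span_prT_mul h.lef) hT.lefC.pr_mul 1)
  have hs : sgn 1 q ∈ E 0 := linspan_sgn_mem hT.ratE hT.q_mem 1
  -- partial traces of algebraic operators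
  have hR : ∀ r, ∀ u ∈ D r, ptrR u ∈ B r := by
    intro r u hu
    have h1 : TensorProduct.map (1 : Module.End K (V ⊗[K] V)) (sgn 1 q) ∈ D 0 := by
      simpa using hT.tensor 0 0 1 h.ratB.one _ hs
    have h2 : u * TensorProduct.map 1 (sgn 1 q) ∈ D r := by
      simpa using hT.ratD.mul r 0 u hu _ h1
    have h3 := hT.ptr r _ h2
    rwa [mul_assoc, ← TensorProduct.map_mul, mul_one, span_sgn_sgn hT.lefC,
      TensorProduct.map_one, mul_one] at h3
  refine ⟨P, rfl, fun _ => rfl, ?_⟩
  refine ⟨hT.lefC.pr_mul, ?_, ?_, ?_, ?_, ?_⟩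
  · intro i hi
    refine hT.lefC.out i ?_
    rcases hi with hi | hi
    · exact Or.inl hi
    · right
      push_cast
      omega
  · intro i h0 h2
    have h3 : i = 0 ∨ i = 1 ∨ i = 2 := by omega
    rcases h3 with rfl | rfl | rfl
    · exact hT.q_zero_ne
    · exact hT.q_one_ne
    · exact linspan_q_two hT.lefC hT.q_zero_ne
  · intro c
    rw [hZpr]
    rfl
  · intro r f hf j
    rw [hZR] at hf
    change TensorProduct.map f (q j) ∈
      Submodule.span K (D r : Set (Module.End K ((V ⊗[K] V) ⊗[K] U)))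
    induction hf using Submodule.span_induction with
    | zero => rw [TensorProduct.map_zero_left]; exact Submodule.zero_mem _
    | add x y _ _ hx hy => rw [TensorProduct.map_add_left]; exact Submodule.add_mem _ hx hy
    | smul c x _ hx => rw [TensorProduct.map_smul_left]; exact Submodule.smul_mem _ _ hx
    | mem x hx =>
      have h1 := hT.tensor r 0 x hx (q j) (hT.q_mem j)
      rw [add_zero] at h1
      exact Submodule.subset_span h1
  · intro r u hu
    change u ∈ Submodule.span K (D r : Set (Module.End K ((V ⊗[K] V) ⊗[K] U))) at hu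
    rw [hZR]
    induction hu using Submodule.span_induction with
    | zero => rw [map_zero]; exact Submodule.zero_mem _
    | add x y _ _ hx hy => rw [map_add]; exact Submodule.add_mem _ hx hy
    | smul c x _ hx => rw [map_smul]; exact Submodule.smul_mem _ _ hx
    | mem x hx => exact Submodule.subset_span (hR r x hx)

end Pool.Agent.Lib.MP_4ca46c_ag.Std
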