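import Pool.Agent.Lib.MP_4ca46c_ag.Std.LinSpec

/-!
# The traces vanish (`StT`)
-/

namespace Pool.Agent.Lib.MP_4ca46c_ag.Std

open Module TensorProduct LinearMap
open Pool.Agent.Lib.MP_4ca46c_ag.Sign

section

variable {K M U : Type} [Field K] [CharZero K] [AddCommGroup M] [Module K M]
  [FiniteDimensional K M] [AddCommGroup U] [Module K U] [FiniteDimensional K U]
  {Z : GrAlg K M} {P : GrAlg K (M ⊗[K] U)} {q : ℤ → Module.End K U}

omit [CharZero K] in
/-- tensor products with `q j` and the radical -/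
theorem lint_mem_N (h : TripAlg Z P q) {r : ℤ} {f : Module.End K M} (hf : f ∈ Z.N r) (j : ℤ) :
    TensorProduct.map f (q j) ∈ P.N r := by
  refine ⟨h.tensor r f hf.1 j, fun u hu => ?_⟩
  have h1 : TensorProduct.map f (q j) =
      TensorProduct.map (1 : Module.End K M) (q j) *
        TensorProduct.map f (1 : Module.End K U) := by
    rw [← TensorProduct.map_mul, one_mul, mul_one]
  rw [h1, ← mul_assoc, trace_mul_map_one]
  have h2 : TensorProduct.map (1 : Module.End K M) (q j) ∈ P.R 0 := h.tensor 0 1 Z.one_mem j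
  exact hf.2 _ (h.ptr _ _ (P.mul_mem' hu h2 (by ring)))

omit [CharZero K] in
/-- `1 ⊗ q j` and the projectors -/
theorem lint_pr (h : TripAlg Z P q) (c : ℤ) {j : ℤ} (h0 : 0 ≤ j) (h2 : j ≤ 2) :
    TensorProduct.map (1 : Module.End K M) (q j) * P.pr (c + j) =
      TensorProduct.map (Z.pr c) (q j) := by
  rw [h.prP, prM, Finset.mul_sum, Finset.sum_eq_single j]
  · rw [← TensorProduct.map_mul, one_mul, h.q_mul, if_pos rfl]
    congr 2
    ring
  · intro i _ hi
    rw [← TensorProduct.map_mul, h.q_mul, if_neg (Ne.symm hi), TensorProduct.map_zero_right]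
  · intro hj
    exact absurd (Finset.mem_Icc.2 ⟨h0, by simpa using h2⟩) hj

/-- the trace of `q j` -/
theorem lint_trace_ne (h : TripAlg Z P q) {j : ℤ} (h0 : 0 ≤ j) (h2 : j ≤ 2) :
    LinearMap.trace K U (q j) ≠ 0 := by
  have hid : IsIdempotentElem (q j) := by
    have := h.q_mul j j
    rwa [if_pos rfl] at this
  have hproj : LinearMap.IsProj (LinearMap.range (q j)) (q j) := by
    refine ⟨fun x => ⟨x, rfl⟩, ?_⟩
    rintro _ ⟨x, rfl⟩
    exact LinearMap.congr_fun hid x
  rw [hproj.trace]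
  have h3 : Module.finrank K (LinearMap.range (q j)) ≠ 0 := by
    intro h4
    have h5 : LinearMap.range (q j) = ⊥ := Submodule.finrank_eq_zero.1 h4
    exact h.q_ne j h0 h2 (LinearMap.range_eq_bot.1 h5)
  exact_mod_cast h3

/-- from the trace on `M ⊗ U` to the trace on `M` -/
theorem lint_descend (h : TripAlg Z P q) {Θ Ξ : Module.End K M} (c : ℤ)
    {j : ℤ} (h0 : 0 ≤ j) (h2 : j ≤ 2)
    (ht : LinearMap.trace K _ (TensorProduct.map Θ (q j) * TensorProduct.map Ξ (q j) *
      P.pr (c + j)) = 0) :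
    LinearMap.trace K M (Θ * Ξ * Z.pr c) = 0 := by
  have h3 : TensorProduct.map Θ (q j) * TensorProduct.map Ξ (q j) * P.pr (c + j) =
      TensorProduct.map (Θ * Ξ * Z.pr c) (q j) := by
    have h4 : TensorProduct.map Ξ (q j) = TensorProduct.map Ξ (1 : Module.End K U) *
        TensorProduct.map (1 : Module.End K M) (q j) := by
      rw [← TensorProduct.map_mul, one_mul, mul_one]
    rw [h4, mul_assoc, mul_assoc, lint_pr h c h0 h2, ← TensorProduct.map_mul,
      ← TensorProduct.map_mul, one_mul, h.q_mul, if_pos rfl, mul_assoc]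
  rw [h3, LinearMap.trace_tensorProduct'] at ht
  exact (mul_eq_zero.1 ht).resolve_right (lint_trace_ne h h0 h2)

end

theorem tT : StT := by
  intro K M U _ _ _ _ _ _ _ _ Z P q H LC w n a b h hH hcomm hw hab heven hodd hinj hsurj
  -- the Lefschetz operator on `Ξ ⊗ q j`
  have hL1 : ∀ (Ξ : Module.End K M) (j : ℤ), 1 ≤ j →
      LM H LC * TensorProduct.map Ξ (q j) = TensorProduct.map (H * Ξ) (q j) := by
    intro Ξ j hj
    rw [LM, add_mul, ← TensorProduct.map_mul, ← TensorProduct.map_mul, one_mul, one_mul, hcomm,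
      h.q_out (j + 2) (Or.inr (by omega)), zero_mul, TensorProduct.map_zero_right, add_zero]
  have hL2 : ∀ (Θ : Module.End K M) (j : ℤ), j ≤ 1 →
      TensorProduct.map Θ (q j) * LM H LC = TensorProduct.map (Θ * H) (q j) := by
    intro Θ j hj
    have h1 : q j * LC = 0 := by
      have h2 := hcomm (j - 2)
      rw [h.q_out (j - 2) (Or.inl (by omega)), mul_zero, sub_add_cancel] at h2
      exact h2.symm
    rw [LM, mul_add, ← TensorProduct.map_mul, ← TensorProduct.map_mul, mul_one, mul_one, h1,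
      TensorProduct.map_zero_right, add_zero]
  -- the scalar for the parity of `j`
  have hlam : ∀ (j : ℤ) (lam : K), ((j = 1 ∧ lam = b) ∨ (Even j ∧ lam = a)) → ∀ c, Even c →
      LM H LC * w * LM H LC * P.pr (c + j) = lam • (LM H LC * P.pr (c + j)) := by
    rintro j lam (⟨rfl, rfl⟩ | ⟨hj, rfl⟩) c hc
    · exact hodd _ (hc.add_one)
    · exact heven _ (hc.add hj)
  refine ⟨?_, ?_⟩
  · intro r Ξ hΞ hHΞ Θ hΘ c hc hlt
    obtain ⟨j, lam, hj1, hj2, hjl, hne⟩ : ∃ (j : ℤ) (lam : K), 1 ≤ j ∧ j ≤ 2 ∧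
        ((j = 1 ∧ lam = b) ∨ (Even j ∧ lam = a)) ∧ lam ≠ 0 := by
      rcases hab with ha | hb
      · exact ⟨2, a, by norm_num, le_refl _, Or.inr ⟨even_two, rfl⟩, ha⟩
      · exact ⟨1, b, le_refl _, by norm_num, Or.inl ⟨rfl, rfl⟩, hb⟩
    refine lint_descend h c (by omega) hj2 ?_
    set Ξ' := TensorProduct.map Ξ (q j) with hΞ'
    set Θ' := TensorProduct.map Θ (q j) with hΘ'
    have hΞm : Ξ' ∈ P.R r := h.tensor r Ξ hΞ j
    have hΘm : Θ' ∈ P.R (-r) := h.tensor (-r) Θ hΘ j
    have hHΞ' : LM H LC * Ξ' ∈ P.N (r + 1) := by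
      rw [hΞ', hL1 Ξ j hj1]
      exact lint_mem_N h hHΞ j
    have hr : Even (c + 2 * r) := hc.add (even_two_mul r)
    have hkey : w * (LM H LC * Ξ') * P.pr (c + j) = lam • (Ξ' * P.pr (c + j)) := by
      have h1 : w * (LM H LC * Ξ') * P.pr (c + j) =
          P.pr (c + 2 * r + j) * (w * (LM H LC * Ξ')) := by
        rw [P.comm r _ (P.mul_mem' hw hHΞ'.1 (by ring))]
        congr 2
        ring
      have h2 : Ξ' * P.pr (c + j) = P.pr (c + 2 * r + j) * Ξ' := by
        rw [P.comm r _ hΞm]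
        congr 2
        ring
      refine LinearMap.ext fun x => ?_
      rw [← sub_eq_zero]
      refine hinj (c + 2 * r + j) (by
        obtain ⟨k, hk⟩ := hr
        omega) _ ?_ ?_
      · rw [h1, h2]
        have h3 := P.pr_idem (c + 2 * r + j)
        have h4 : ∀ y, P.pr (c + 2 * r + j) (P.pr (c + 2 * r + j) y) =
            P.pr (c + 2 * r + j) y := fun y => LinearMap.congr_fun h3 y
        simp only [map_sub, LinearMap.smul_apply, map_smul, Module.End.mul_apply, h4]
      · have h5 := hlam j lam hjl (c + 2 * r) hr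
        have h6 : LM H LC * (w * (LM H LC * Ξ') * P.pr (c + j)) =
            lam • (LM H LC * (Ξ' * P.pr (c + j))) := by
          rw [mul_assoc w, mul_assoc (LM H LC), h2, ← mul_assoc, ← mul_assoc, ← mul_assoc, h5,
            smul_mul_assoc, mul_assoc]
        have h7 := LinearMap.congr_fun h6 x
        rw [map_sub, LinearMap.smul_apply, map_smul]
        rw [LinearMap.smul_apply] at h7
        rw [sub_eq_zero]
        exact h7
    have h8 : lam • (Θ' * Ξ' * P.pr (c + j)) = Θ' * w * (LM H LC * Ξ') * P.pr (c + j) := by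
      rw [mul_assoc Θ' Ξ', ← mul_smul_comm, ← hkey]
      simp only [mul_assoc]
    have h9 : LinearMap.trace K _ (lam • (Θ' * Ξ' * P.pr (c + j))) = 0 := by
      rw [h8, LinearMap.trace_mul_comm]
      exact GrAlg.N_trace_pr (GrAlg.N_left hHΞ' (P.mul_mem' hΘm hw rfl) (by ring)) _
    rw [map_smul, smul_eq_mul] at h9
    exact (mul_eq_zero.1 h9).resolve_left hne
  · intro r Θ hΘ hΘH Ξ hΞ c hc hlt
    obtain ⟨j, lam, hj1, hj2, hjl, hne⟩ : ∃ (j : ℤ) (lam : K), 0 ≤ j ∧ j ≤ 1 ∧
        ((j = 1 ∧ lam = b) ∨ (Even j ∧ lam = a)) ∧ lam ≠ 0 := by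
      rcases hab with ha | hb
      · exact ⟨0, a, le_refl _, by norm_num, Or.inr ⟨Even.zero, rfl⟩, ha⟩
      · exact ⟨1, b, by norm_num, le_refl _, Or.inl ⟨rfl, rfl⟩, hb⟩
    refine lint_descend h c hj1 (by omega) ?_
    set Ξ' := TensorProduct.map Ξ (q j) with hΞ'
    set Θ' := TensorProduct.map Θ (q j) with hΘ'
    have hΞm : Ξ' ∈ P.R r := h.tensor r Ξ hΞ j
    have hΘm : Θ' ∈ P.R (-r) := h.tensor (-r) Θ hΘ j
    have hΘH' : Θ' * LM H LC ∈ P.N (-r + 1) := by
      rw [hΘ', hL2 Θ j hj2]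
      exact lint_mem_N h hΘH j
    have hr : Even (c + 2 * r) := hc.add (even_two_mul r)
    have h2 : Ξ' * P.pr (c + j) = P.pr (c + 2 * r + j) * Ξ' := by
      rw [P.comm r _ hΞm]
      congr 2
      ring
    have hkey : LM H LC * (w * Ξ') * P.pr (c + j) = lam • (Ξ' * P.pr (c + j)) := by
      refine LinearMap.ext fun x => ?_
      have h3 := P.pr_idem (c + 2 * r + j)
      obtain ⟨y, hy1, hy2⟩ := hsurj (c + 2 * r + j) (by
        obtain ⟨k, hk⟩ := hr
        omega) ((Ξ' * P.pr (c + j)) x) (by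
          rw [h2]
          exact LinearMap.congr_fun h3 (Ξ' x))
      have h5 := hlam j lam hjl (c + 2 * r - 2) (hr.sub even_two)
      have h6 : c + 2 * r - 2 + j = c + 2 * r + j - 2 := by ring
      rw [h6] at h5
      have h7 := LinearMap.congr_fun h5 y
      have h8 : (LM H LC * w * LM H LC) y = lam • (LM H LC y) := by
        have h9 : (LM H LC * w * LM H LC) (P.pr (c + 2 * r + j - 2) y) =
          lam • (LM H LC (P.pr (c + 2 * r + j - 2) y)) := h7
        rwa [hy1] at h9
      have h10 : (LM H LC * w) (LM H LC y) = lam • (LM H LC y) := h8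
      rw [hy2] at h10
      exact h10
    have h8 : lam • (Θ' * Ξ' * P.pr (c + j)) = (Θ' * LM H LC) * (w * Ξ') * P.pr (c + j) := by
      rw [mul_assoc Θ' Ξ', ← mul_smul_comm, ← hkey]
      simp only [mul_assoc]
    have h9 : LinearMap.trace K _ (lam • (Θ' * Ξ' * P.pr (c + j))) = 0 := by
      rw [h8, LinearMap.trace_mul_comm]
      exact GrAlg.N_trace_pr (GrAlg.N_right hΘH' (P.mul_mem' hw hΞm rfl) (by ring)) _
    rw [map_smul, smul_eq_mul] at h9
    exact (mul_eq_zero.1 h9).resolve_left hne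

end Pool.Agent.Lib.MP_4ca46c_ag.Std
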