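import Mathlib
import Pool.Agent.Lib.MP_4ca46c_ag.Std.LinT
import Pool.Agent.Lib.MP_4ca46c_ag.Std.LinQ
import Pool.Agent.Lib.MP_4ca46c_ag.Std.LinE
import Pool.Agent.Lib.MP_4ca46c_ag.Std.LinSgn
import Pool.Agent.Lib.MP_4ca46c_ag.Std.LinSpan
import Pool.Agent.Lib.MP_4ca46c_ag.Sign.K1
import Pool.Agent.Lib.MP_4ca46c_ag.Sign.K2
import Pool.Agent.Lib.MP_4ca46c_ag.Sign.I
import Pool.Agent.Lib.MP_4ca46c_ag.Sign.Ind
import Pool.Agent.Lib.MP_4ca46c_ag.Sign.Rat
import Pool.Agent.Lib.MP_4ca46c_ag.Sign.Lam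
import Pool.Agent.Lib.MP_4ca46c_ag.Sign.Span

/-!
# The main theorem on operators, with the cohomology of a curve
-/

namespace Pool.Agent.Lib.MP_4ca46c_ag.Std

open Module TensorProduct LinearMap
open Pool.Agent.Lib.MP_4ca46c_ag.Sign

theorem tMainT : StMainT := by
  intro K V U _ _ _ _ _ _ _ _ n pr L A B q LC E D w a b hO hT hw hab heven hodd
  have hsg : sgn n pr ∈ A 0 :=
    tSgnT K V U n pr L A B q LC E D w a b hO hT hw hab heven hodd
  obtain ⟨G, Z, hGpr, hGR, hZR, hS⟩ := tSpan K V n pr L A B hO hsg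
  have hZpr : Z.pr = prT n pr := by
    funext c
    rw [hS.prZ, hGpr]
  obtain ⟨P, hPpr, hPR, hTA⟩ := tSpanT K V U n pr L A B q LC E D Z hO hT hZpr hZR
  have hL : L ∈ G.R 1 := hS.L_mem
  have hlef : LefMod n G.pr L := hS.lef
  have hTP : TProp Z (LL L) n := by
    refine tT K (V ⊗[K] V) U Z P q (LL L) LC w n (a : K) (b : K) hTA ?_ hT.lefC.comm ?_ ?_ ?_ ?_
      ?_ ?_
    · have h1 : TensorProduct.map L (1 : Module.End K V) ∈ Z.R (1 + 0) :=
        hS.tensor 1 0 L hL 1 G.one_mem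
      have h2 : TensorProduct.map (1 : Module.End K V) L ∈ Z.R (0 + 1) :=
        hS.tensor 0 1 1 G.one_mem L hL
      rw [add_zero] at h1
      rw [zero_add] at h2
      exact Submodule.add_mem _ h1 h2
    · rw [hPR]
      exact Submodule.subset_span hw
    · by_contra h
      push Not at h
      have ha : a = 0 := by exact_mod_cast h.1
      have hb : b = 0 := by exact_mod_cast h.2
      rw [ha, hb] at hab
      norm_num at hab
    · rw [hPpr]
      exact heven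
    · rw [hPpr]
      exact hodd
    · rw [hPpr]
      exact hT.inj
    · rw [hPpr]
      exact hT.surj
  have hQ := tQT K V G Z n L hS hTP
  obtain ⟨x, hx1, hx2, hx3⟩ := tK1 K V G n L hlef hL hQ
  have hK : ∀ i, G.pr i ∈ G.R 0 := tK2 K V G n L hlef x hx1 hx2 hx3
  have hE := tET K V G Z n L hS hTP hK
  have hI := tI K V G n L hlef hL hK hE
  rw [hGpr] at hlef
  have hR : ∀ i : ℕ, i < n → ∃ θ ∈ A (-((n - i : ℕ) : ℤ)), θ * L ^ (n - i) * pr i = pr i := by
    refine tRat K V n pr L A hlef hO.ratA hO.L_mem hO.trace fun i hi => ?_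
    obtain ⟨g, hg, hg2⟩ := hI i hi
    rw [hGpr] at hg2
    rw [hGR] at hg
    exact ⟨g, hg, hg2⟩
  have hC : ∀ i, pr i ∈ A 0 := tInd K V n pr L A hlef hO.ratA hO.L_mem hR
  exact ⟨hC, tLam K V n pr L A hlef hO.ratA hO.L_mem hC hR⟩

end Pool.Agent.Lib.MP_4ca46c_ag.Std
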