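import Pool.Agent.Lib.MP_4ca46c_ag.Std.Section
import Pool.Agent.Lib.MP_4ca46c_ag.Sign.SmS

/-! # SmS: smoothness of the schemes which occur (version without vanishing class) -/

namespace Pool.Agent.Lib.MP_4ca46c_ag.Std

open CategoryTheory Limits AlgebraicGeometry TensorProduct
open Pool.Agent.Lib.MP_4ca46c_ag.Sign

variable (k₀ K : Type) [Field k₀] [Field K]

theorem tSm : StSm k₀ K := by
  intro T V W G
  have hZ : IsVar V.str V.n := V.isVar
  have hY2 : IsVar W.sqStr (W.n + W.n) := Var.isVar_prod W.isVar W.isVar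
  have hZ2 : IsVar (pullback.fst V.str V.str ≫ V.str) (V.n + V.n) :=
    Var.isVar_prod hZ hZ
  let _ := G.field
  let _ := G.algebra₀
  obtain ⟨hY₀, hY₀2, hY₀3⟩ := sms_prod G.smooth G.proper
  have hincl := G.complement.isOpen
  obtain ⟨hU, hqc⟩ := sms_open (sms_isSm hZ2) G.incl hincl
  -- the bundle
  have hW₀ : Sm G.W₀ := by
    have h1 : Smooth (pullback.snd G.q G.incl).left := sms_bundle_smooth _ G.bundle
    have h2 : IsAffineHom (pullback.snd G.q G.incl).left := sms_bundle_affine _ G.bundle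
    refine ⟨_, _, _, pullback.snd G.q G.incl ≫ G.incl ≫ pullback.fst V.str V.str ≫ V.str,
      ?_, ?_, ?_⟩
    · have h3 := hU.smooth
      rw [Over.comp_left]
      exact smooth_comp _ _
    · have h3 := hU.separated
      rw [Over.comp_left]
      infer_instance
    · have h3 := hU.quasiCompact
      rw [Over.comp_left]
      infer_instance
  -- the open subscheme
  have hQ : IsPullback (pullback.fst G.rho G.incl).left (pullback.snd G.rho G.incl).left
      G.rho.left G.incl.left :=
    (IsPullback.of_hasPullback G.rho G.incl).map (Over.forget _)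
  have hQo : IsOpenImmersion (pullback.fst G.rho G.incl).left :=
    MorphismProperty.of_isPullback (P := @IsOpenImmersion) hQ.flip hincl
  obtain ⟨hQ₀, _⟩ := sms_open hY₀2 (pullback.fst G.rho G.incl) hQo
  -- connectedness
  have hconn : ConnectedSpace G.Y₀.left := by
    have h1 : IsPullback G.toY₀.left W.str.left G.y₀.left
      (ptMap k₀ (IsScalarTower.toAlgHom k₀ G.F W.k)).left :=
      G.isBaseChange.map (Over.forget _)
    have h2 : Surjective (ptMap k₀ (IsScalarTower.toAlgHom k₀ G.F W.k)).left :=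
      sms_surj (IsScalarTower.toAlgHom k₀ G.F W.k)
    have h3 : Surjective G.toY₀.left :=
      MorphismProperty.of_isPullback (P := @Surjective) h1.flip h2
    have h4 := W.isVar.connectedSpace
    exact h3.surj.connectedSpace G.toY₀.left.continuous
  exact ⟨sms_sm hZ, sms_sm hZ2, ⟨_, _, _, _, hU⟩, hW₀, ⟨_, _, _, _, hY₀2⟩, ⟨_, _, _, _, hQ₀⟩,
    ⟨_, _, _, _, hY₀⟩, sms_sm hY2, hZ, hY2, hZ2, hY₀2, hY₀3, hY₀, hconn, hqc⟩

end Pool.Agent.Lib.MP_4ca46c_ag.Std
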