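import Pool.Agent.Lib.MP_4ca46c_ag.Std.TripSpec
import Pool.Agent.Lib.MP_4ca46c_ag.Geo.Hard

/-!
# `TripData` from the geometry
-/

namespace Pool.Agent.Lib.MP_4ca46c_ag.Std

open CategoryTheory Limits AlgebraicGeometry TensorProduct MonoidalCategory
  CartesianMonoidalCategory
open Pool.Agent.Lib.MP_4ca46c_ag.Sign

section Abstract

variable {K : Type} [Field K] [CharZero K] {𝒱 : Type 1} [Category.{0} 𝒱]
  [CartesianMonoidalCategory 𝒱] (W : Geo.WeilCohomology K 𝒱) {X C : 𝒱}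

theorem tripd_kun3_tmul (m : W.H X ⊗[K] W.H X) (b : W.H C) :
    kun3 W X C (m ⊗ₜ b) = W.tm (W.kun X X m) b := by
  rw [kun3, LinearEquiv.trans_apply, TensorProduct.congr_tmul, LinearEquiv.refl_apply, W.kun_tmul]

theorem tripd_conj_mul (f g : Module.End K ((W.H X ⊗[K] W.H X) ⊗[K] W.H C)) :
    (kun3 W X C).conj (f * g) = (kun3 W X C).conj f * (kun3 W X C).conj g := by
  rw [Module.End.mul_eq_comp, LinearEquiv.conj_comp]
  rfl

theorem tripd_conj_map (f : Module.End K (W.H X ⊗[K] W.H X)) (g : Module.End K (W.H C)) :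
    (kun3 W X C).conj (TensorProduct.map f g) = W.tens ((W.kun X X).conj f) g := by
  refine W.hom_ext_tm fun a b => ?_
  obtain ⟨m, rfl⟩ := (W.kun X X).surjective a
  rw [W.tens_tm, ← tripd_kun3_tmul, LinearEquiv.conj_apply_apply, LinearEquiv.symm_apply_apply,
    TensorProduct.map_tmul, tripd_kun3_tmul, LinearEquiv.conj_apply_apply,
    LinearEquiv.symm_apply_apply]

/-- the projectors -/
theorem tripd_prM (hd : W.dim C = 1) (c : ℤ) :
    (kun3 W X C).conj (prM 1 (prT (W.dim X) (opv_pr W X)) (opv_pr W C) c) =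
      opv_pr W ((X ⊗ X) ⊗ C) c := by
  have h1 : (kun3 W X C).conj (prM 1 (prT (W.dim X) (opv_pr W X)) (opv_pr W C) c) =
      ∑ i ∈ Finset.Icc (0 : ℤ) (2 * (W.dim C : ℤ)),
        W.tens (opv_pr W (X ⊗ X) (c - i)) (opv_pr W C i) := by
    rw [prM, map_sum, hd]
    refine Finset.sum_congr rfl fun i _ => ?_
    rw [tripd_conj_map, opv_prT]
  rw [h1]
  refine W.hom_ext_tm fun a b => ?_
  refine W.ind (P := fun a => (∑ i ∈ Finset.Icc (0 : ℤ) (2 * (W.dim C : ℤ)),
        W.tens (opv_pr W (X ⊗ X) (c - i)) (opv_pr W C i)) (W.tm a b) =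
    opv_pr W ((X ⊗ X) ⊗ C) c (W.tm a b)) a (by rw [W.tm_zero_left, map_zero, map_zero])
    (fun i a ha => ?_) (fun r s hr hs => by rw [W.tm_add_left, map_add, map_add, hr, hs])
  refine W.ind (P := fun b => (∑ i ∈ Finset.Icc (0 : ℤ) (2 * (W.dim C : ℤ)),
        W.tens (opv_pr W (X ⊗ X) (c - i)) (opv_pr W C i)) (W.tm a b) =
    opv_pr W ((X ⊗ X) ⊗ C) c (W.tm a b)) b (by rw [W.tm_zero_right, map_zero, map_zero])
    (fun j b hb => ?_) (fun r s hr hs => by rw [W.tm_add_right, map_add, map_add, hr, hs])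
  rw [opv_apply W c (W.tm_gr ha hb), LinearMap.sum_apply]
  by_cases hj : 2 * W.dim C < j
  · rw [W.gr_top hb hj]
    simp [W.tm_zero_right]
  · rw [Finset.sum_eq_single (j : ℤ)]
    · rw [W.tens_tm, opv_apply W _ ha, opv_apply W _ hb, if_pos rfl]
      push_cast
      by_cases h : c = i + j
      · rw [if_pos h, if_pos (by omega)]
      · rw [if_neg h, if_neg (by omega), W.tm_zero_left]
    · intro k _ hk
      rw [W.tens_tm, opv_apply W _ hb, if_neg hk, W.tm_zero_right]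
    · intro h
      exact absurd (Finset.mem_Icc.2 ⟨by omega, by omega⟩) h

/-- `LM (LL L) LC` is multiplication by `h3` -/
theorem tripd_LM {h : W.H X} (hh : h ∈ W.gr X 2) {hC : W.H C} (hhC : hC ∈ W.gr C 2)
    (t : (W.H X ⊗[K] W.H X) ⊗[K] W.H C) :
    kun3 W X C (LM (LL (LinearMap.mulLeft K h)) (LinearMap.mulLeft K hC) t) =
      h3 W h hC * kun3 W X C t := by
  induction t using TensorProduct.induction_on with
  | zero => simp only [map_zero, mul_zero]
  | add x y hx hy => rw [map_add, map_add, map_add, mul_add, hx, hy]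
  | tmul a b =>
    rw [LM, LinearMap.add_apply, TensorProduct.map_tmul, TensorProduct.map_tmul, map_add,
      tripd_kun3_tmul, tripd_kun3_tmul, tripd_kun3_tmul, rel_LL W hh]
    change W.pull (fst (X ⊗ X) C) (relH W h * W.kun X X a) * W.pull (snd (X ⊗ X) C) b +
      W.pull (fst (X ⊗ X) C) (W.kun X X a) * W.pull (snd (X ⊗ X) C) (hC * b) =
      (W.pull (fst (X ⊗ X) C) (relH W h) + W.pull (snd (X ⊗ X) C) hC) *
        (W.pull (fst (X ⊗ X) C) (W.kun X X a) * W.pull (snd (X ⊗ X) C) b)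
    rw [map_mul, map_mul, add_mul]
    congr 1
    · rw [mul_assoc]
    · rw [← mul_assoc, ← mul_assoc, rel_central W (W.pull_gr (snd (X ⊗ X) C) hhC)]

theorem tripd_h3_gr {h : W.H X} (hh : h ∈ W.gr X 2) {hC : W.H C} (hhC : hC ∈ W.gr C 2) :
    h3 W h hC ∈ W.gr ((X ⊗ X) ⊗ C) 2 :=
  Submodule.add_mem _ (W.pull_gr _ (Submodule.add_mem _ (W.pull_gr _ hh) (W.pull_gr _ hh)))
    (W.pull_gr _ hhC)

/-- degrees of elements -/
theorem tripd_deg (hd : W.dim C = 1) (c : ℕ) (z : (W.H X ⊗[K] W.H X) ⊗[K] W.H C) :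
    prM 1 (prT (W.dim X) (opv_pr W X)) (opv_pr W C) (c : ℤ) z = z ↔
      kun3 W X C z ∈ W.gr ((X ⊗ X) ⊗ C) c := by
  rw [← opv_fix, ← tripd_prM W hd, LinearEquiv.conj_apply_apply, LinearEquiv.symm_apply_apply]
  exact (kun3 W X C).injective.eq_iff.symm

theorem tripd_neg (hd : W.dim C = 1) {c : ℤ} (hc : c < 0)
    {z : (W.H X ⊗[K] W.H X) ⊗[K] W.H C}
    (hz : prM 1 (prT (W.dim X) (opv_pr W X)) (opv_pr W C) c z = z) : z = 0 := by
  apply (kun3 W X C).injective
  rw [map_zero, ← hz]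
  have h1 := LinearMap.congr_fun (tripd_prM W (X := X) hd c) (kun3 W X C z)
  rw [LinearEquiv.conj_apply_apply, LinearEquiv.symm_apply_apply, opv_out W c (Or.inl hc)] at h1
  exact h1

theorem tripd_ptr (hd : W.dim C = 1) (r : ℤ)
    (u : Module.End K ((W.H X ⊗[K] W.H X) ⊗[K] W.H C))
    (hu : (kun3 W X C).conj u ∈ W.Cor ((X ⊗ X) ⊗ C) ((X ⊗ X) ⊗ C) r) :
    (W.kun X X).conj (ptrR (u * TensorProduct.map 1 (sgn 1 (opv_pr W C)))) ∈
      W.Cor (X ⊗ X) (X ⊗ X) r := by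
  obtain ⟨p, hp, h⟩ := W.cor_ptr hu
  have hs : sgn 1 (opv_pr W C) = W.eps C := by
    rw [← opv_sgn, hd]
  have h1 : (W.kun X X).conj (ptrR (u * TensorProduct.map 1 (sgn 1 (opv_pr W C)))) = p := by
    refine opv_trace_ext fun a => ?_
    obtain ⟨a', rfl⟩ : ∃ a', a = (W.kun X X).conj a' :=
      ⟨(W.kun X X).symm.conj a, (((W.kun X X).conj).apply_symm_apply a).symm⟩
    rw [← opv_conj_mul, LinearMap.trace_conj', ← trace_mul_map_one, mul_assoc,
      ← TensorProduct.map_mul, one_mul, mul_one, hs, ← LinearMap.trace_conj' _ (kun3 W X C),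
      tripd_conj_mul, tripd_conj_map]
    exact h _
  rw [h1]
  exact hp

theorem tripd_q_mem {q : ℤ → Module.End K (W.H C)} {A : AddSubgroup (Module.End K (W.H C))}
    (h0 : q 0 ∈ A) (h2 : q 2 ∈ A) (hone : (1 : Module.End K (W.H C)) ∈ A)
    (hout : ∀ i, i < 0 ∨ 2 * ((1 : ℕ) : ℤ) < i → q i = 0)
    (hsum : ∑ i ∈ Finset.Icc (0 : ℤ) (2 * ((1 : ℕ) : ℤ)), q i = 1) (i : ℤ) : q i ∈ A := by
  have h3 : Finset.Icc (0 : ℤ) (2 * ((1 : ℕ) : ℤ)) = {0, 1, 2} := by decide
  rw [h3, Finset.sum_insert (by decide), Finset.sum_insert (by decide),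
    Finset.sum_singleton] at hsum
  have h1 : q 1 ∈ A := by
    have h4 : q 1 = 1 - q 0 - q 2 := by
      rw [← hsum]
      abel
    rw [h4]
    exact sub_mem (sub_mem hone h0) h2
  by_cases hi : i < 0 ∨ 2 * ((1 : ℕ) : ℤ) < i
  · rw [hout i hi]
    exact zero_mem _
  · push Not at hi
    obtain ⟨hi1, hi2⟩ := hi
    norm_num at hi2
    interval_cases i
    · exact h0
    · exact h1
    · exact h2

end Abstract

theorem tTripData : StTripData := by
  intro K _ _ 𝒱 _ _ W X C h hC hh hhC hd hy hlC hlT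
  have hh2 : h ∈ W.gr X 2 := W.alg_gr hh
  have hhC2 : hC ∈ W.gr C 2 := W.alg_gr hhC
  have O := opv_data W (X := C) hhC hlC.1 hlC.2
  have hdim : W.dim ((X ⊗ X) ⊗ C) = 2 * W.dim X + 1 := by
    rw [W.dim_tensor, W.dim_tensor, hd]
    ring
  have hlef : LefMod 1 (opv_pr W C) (LinearMap.mulLeft K hC) := by
    have h1 := O.lef
    rwa [hd] at h1
  refine
    { lefC := hlef
      q_zero_ne := O.pr_zero_ne
      q_one_ne := ?_
      ratE := O.ratA
      ratD := ?_
      q_mem := ?_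
      LC_mem := O.L_mem
      tensor := ?_
      ptr := fun r u hu => tripd_ptr W hd r u hu
      inj := ?_
      surj := ?_ }
  · obtain ⟨y, hy1, hy0⟩ := hy
    intro h0
    have h1 : opv_pr W C ((1 : ℕ) : ℤ) y = y := (opv_fix W).2 hy1
    rw [Nat.cast_one, h0, LinearMap.zero_apply] at h1
    exact hy0 h1.symm
  · exact
      { smul := fun r q f hf => by
          change (kun3 W X C).conj ((q : K) • f) ∈ W.Cor ((X ⊗ X) ⊗ C) ((X ⊗ X) ⊗ C) r
          rw [map_smul]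
          exact W.cor_rat hf q
        one := by
          change (kun3 W X C).conj (LinearMap.id) ∈ W.Cor ((X ⊗ X) ⊗ C) ((X ⊗ X) ⊗ C) 0
          rw [LinearEquiv.conj_id]
          exact W.cor_id _
        mul := fun r s f hf g hg => by
          change (kun3 W X C).conj (f * g) ∈ W.Cor ((X ⊗ X) ⊗ C) ((X ⊗ X) ⊗ C) (r + s)
          rw [tripd_conj_mul]
          exact W.cor_comp hf hg
        comm := fun r f hf k => by
          apply (kun3 W X C).conj.injective
          rw [tripd_conj_mul, tripd_conj_mul, tripd_prM W hd, tripd_prM W hd]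
          exact opv_comm W r _ hf k }
  · have h2 := O.pr_top
    rw [hd, Nat.cast_one, mul_one] at h2
    exact tripd_q_mem W O.pr_zero h2 O.ratA.one hlef.out hlef.sum
  · intro r s f hf g hg
    change (kun3 W X C).conj (TensorProduct.map f g) ∈ W.Cor ((X ⊗ X) ⊗ C) ((X ⊗ X) ⊗ C) (r + s)
    rw [tripd_conj_map]
    exact W.cor_tens hf hg
  · intro c hc z hz h0
    by_cases hc0 : c < 0
    · exact tripd_neg W hd hc0 hz
    · obtain ⟨k, rfl⟩ : ∃ k : ℕ, c = k := ⟨c.toNat, by omega⟩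
      rw [tripd_deg W hd] at hz
      have h1 := tripd_LM W hh2 hhC2 z
      rw [h0, map_zero] at h1
      apply (kun3 W X C).injective
      rw [map_zero]
      have hk : k < W.dim ((X ⊗ X) ⊗ C) := by
        rw [hdim]
        omega
      have e1 : W.dim ((X ⊗ X) ⊗ C) - (W.dim ((X ⊗ X) ⊗ C) - k) = k := by omega
      refine hlT.1 (W.dim ((X ⊗ X) ⊗ C) - k) (by omega) _ (by rw [e1]; exact hz) ?_
      obtain ⟨m, hm⟩ : ∃ m, W.dim ((X ⊗ X) ⊗ C) - k = m + 1 :=
        ⟨W.dim ((X ⊗ X) ⊗ C) - k - 1, by omega⟩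
      rw [hm, pow_succ, mul_assoc, ← h1, mul_zero]
  · intro c hc z hz
    obtain ⟨k, rfl⟩ : ∃ k : ℕ, c = k := ⟨c.toNat, by omega⟩
    rw [tripd_deg W hd] at hz
    have hk : W.dim ((X ⊗ X) ⊗ C) < k := by
      rw [hdim]
      omega
    by_cases hk2 : 2 * W.dim ((X ⊗ X) ⊗ C) < k
    · have h1 := W.gr_top hz hk2
      have h2 : z = 0 := by
        apply (kun3 W X C).injective
        rw [h1, map_zero]
      subst h2
      exact ⟨0, map_zero _, map_zero _⟩
    · have e1 : W.dim ((X ⊗ X) ⊗ C) + (k - W.dim ((X ⊗ X) ⊗ C)) = k := by omega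
      obtain ⟨u, hu, hu2⟩ := hlT.2 (k - W.dim ((X ⊗ X) ⊗ C)) (by omega) (kun3 W X C z)
        (by rw [e1]; exact hz)
      obtain ⟨m, hm⟩ : ∃ m, k - W.dim ((X ⊗ X) ⊗ C) = m + 1 :=
        ⟨k - W.dim ((X ⊗ X) ⊗ C) - 1, by omega⟩
      have h2 : h3 W h hC ^ m * u ∈ W.gr ((X ⊗ X) ⊗ C) (k - 2) := by
        have h4 := SetLike.mul_mem_graded (SetLike.pow_mem_graded m (tripd_h3_gr W hh2 hhC2)) hu
        have e2 : m • 2 + (W.dim ((X ⊗ X) ⊗ C) - (k - W.dim ((X ⊗ X) ⊗ C))) = k - 2 := by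
          rw [smul_eq_mul]
          omega
        rw [e2] at h4
        exact h4
      refine ⟨(kun3 W X C).symm (h3 W h hC ^ m * u), ?_, ?_⟩
      · have e3 : ((k : ℤ) - 2) = ((k - 2 : ℕ) : ℤ) := by omega
        rw [e3, tripd_deg W hd, LinearEquiv.apply_symm_apply]
        exact h2
      · apply (kun3 W X C).injective
        rw [tripd_LM W hh2 hhC2, LinearEquiv.apply_symm_apply, ← mul_assoc, ← pow_succ', ← hm, hu2]

end Pool.Agent.Lib.MP_4ca46c_ag.Std
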