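import Pool.Agent.Lib.MP_4ca46c_ag.Std.TripSpec

/-!
# The relation on `(H(X) ⊗ H(X)) ⊗ H(C)`
-/

set_option autoImplicit false

namespace Pool.Agent.Lib.MP_4ca46c_ag.Std

open CategoryTheory Limits AlgebraicGeometry TensorProduct MonoidalCategory
  CartesianMonoidalCategory
open Pool.Agent.Lib.MP_4ca46c_ag.Sign

variable {K : Type} [Field K] [CharZero K] {𝒱 : Type 1} [Category.{0} 𝒱]
  [CartesianMonoidalCategory 𝒱] (W : Geo.WeilCohomology K 𝒱) {X C : 𝒱}

theorem tripr_h3_gr {h : W.H X} {hC : W.H C} (hh : h ∈ W.gr X 2) (hhC : hC ∈ W.gr C 2) :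
    h3 W h hC ∈ W.gr ((X ⊗ X) ⊗ C) 2 :=
  Submodule.add_mem _ (W.pull_gr _ (Submodule.add_mem _ (W.pull_gr _ hh) (W.pull_gr _ hh)))
    (W.pull_gr _ hhC)

theorem tripr_kun3_tmul (s : W.H X ⊗[K] W.H X) (y : W.H C) :
    kun3 W X C (s ⊗ₜ y) =
      W.pull (fst (X ⊗ X) C) (W.kun X X s) * W.pull (snd (X ⊗ X) C) y := by
  rw [kun3, LinearEquiv.trans_apply, TensorProduct.congr_tmul, LinearEquiv.refl_apply, W.kun_tmul]
  rfl

/-- the Lefschetz operator is multiplication by `h3` -/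
theorem tripr_LM {h : W.H X} {hC : W.H C} (hh : h ∈ W.gr X 2) (hhC : hC ∈ W.gr C 2)
    (t : (W.H X ⊗[K] W.H X) ⊗[K] W.H C) :
    kun3 W X C (LM (LL (LinearMap.mulLeft K h)) (LinearMap.mulLeft K hC) t) =
      h3 W h hC * kun3 W X C t := by
  induction t using TensorProduct.induction_on with
  | zero => simp
  | add x y hx hy => rw [map_add, map_add, map_add, mul_add, hx, hy]
  | tmul s y =>
    rw [LM, LinearMap.add_apply, TensorProduct.map_tmul, TensorProduct.map_tmul, map_add,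
      tripr_kun3_tmul, tripr_kun3_tmul, tripr_kun3_tmul, rel_LL W hh]
    change W.pull (fst (X ⊗ X) C) (relH W h * W.kun X X s) * W.pull (snd (X ⊗ X) C) y +
      W.pull (fst (X ⊗ X) C) (W.kun X X s) * W.pull (snd (X ⊗ X) C) (hC * y) =
      (W.pull (fst (X ⊗ X) C) (relH W h) + W.pull (snd (X ⊗ X) C) hC) *
        (W.pull (fst (X ⊗ X) C) (W.kun X X s) * W.pull (snd (X ⊗ X) C) y)
    rw [map_mul, map_mul, add_mul]
    congr 1
    · rw [mul_assoc]
    · rw [← mul_assoc, ← mul_assoc, rel_central W (W.pull_gr (snd (X ⊗ X) C) hhC)]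

/-- the projectors -/
theorem tripr_prM (hd : W.dim C = 1) {i j k : ℕ} {a b : W.H X} {y : W.H C}
    (ha : a ∈ W.gr X i) (hb : b ∈ W.gr X j) (hy : y ∈ W.gr C k) (c : ℤ) :
    prM 1 (prT (W.dim X) (opv_pr W X)) (opv_pr W C) c ((a ⊗ₜ b) ⊗ₜ y) =
      if (i : ℤ) + j + k = c then (a ⊗ₜ b) ⊗ₜ y else 0 := by
  by_cases hk : 2 * W.dim C < k
  · rw [W.gr_top hy hk]
    simp
  · rw [hd] at hk
    rw [prM, LinearMap.sum_apply, Finset.sum_eq_single (k : ℤ)]
    · rw [TensorProduct.map_tmul, opv_apply W _ hy, if_pos rfl,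
        rel_prT W (pr := opv_pr W X) (fun i => rfl) ha hb]
      by_cases h : (i : ℤ) + j + k = c
      · rw [if_pos h, if_pos (by omega)]
      · rw [if_neg h, if_neg (by omega), TensorProduct.zero_tmul]
    · intro l _ hl
      rw [TensorProduct.map_tmul, opv_apply W _ hy, if_neg hl, TensorProduct.tmul_zero]
    · intro h
      exact absurd (Finset.mem_Icc.2 ⟨by omega, by push_cast; omega⟩) h

/-- operators agree if they agree on homogeneous tensors -/
theorem tripr_ext {f g : Module.End K ((W.H X ⊗[K] W.H X) ⊗[K] W.H C)}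
    (h : ∀ (i j k : ℕ) (a b : W.H X) (y : W.H C), a ∈ W.gr X i → b ∈ W.gr X j → y ∈ W.gr C k →
      f ((a ⊗ₜ b) ⊗ₜ y) = g ((a ⊗ₜ b) ⊗ₜ y)) : f = g := by
  refine TensorProduct.ext_threefold fun a b y => ?_
  refine W.ind (P := fun a => f ((a ⊗ₜ b) ⊗ₜ y) = g ((a ⊗ₜ b) ⊗ₜ y)) a (by simp)
    (fun i a ha => ?_)
    (fun r s hr hs => by simp only [TensorProduct.add_tmul, map_add, hr, hs])
  refine W.ind (P := fun b => f ((a ⊗ₜ b) ⊗ₜ y) = g ((a ⊗ₜ b) ⊗ₜ y)) b (by simp)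
    (fun j b hb => ?_)
    (fun r s hr hs => by simp only [TensorProduct.tmul_add, TensorProduct.add_tmul, map_add, hr, hs])
  exact W.ind (P := fun y => f ((a ⊗ₜ b) ⊗ₜ y) = g ((a ⊗ₜ b) ⊗ₜ y)) y (by simp)
    (fun k y hy => h i j k a b y ha hb hy)
    (fun r s hr hs => by simp only [TensorProduct.tmul_add, map_add, hr, hs])

theorem tripr_gr {i j k : ℕ} {a b : W.H X} {y : W.H C}
    (ha : a ∈ W.gr X i) (hb : b ∈ W.gr X j) (hy : y ∈ W.gr C k) :
    kun3 W X C ((a ⊗ₜ b) ⊗ₜ y) ∈ W.gr ((X ⊗ X) ⊗ C) (i + j + k) := by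
  rw [tripr_kun3_tmul, W.kun_tmul]
  exact SetLike.mul_mem_graded (W.pull_gr _ (W.tm_gr ha hb)) (W.pull_gr _ hy)

theorem tRelT : StRelT := by
  intro K _ _ 𝒱 _ _ W X C h hC lam N u hh hhC hd hu hN hrel
  have hg : h ∈ W.gr X 2 := W.alg_gr hh
  have hgC : hC ∈ W.gr C 2 := W.alg_gr hhC
  have h3g := tripr_h3_gr W hg hgC
  have key : ∀ (i : ℕ) (z : W.H ((X ⊗ X) ⊗ C)), z ∈ W.gr ((X ⊗ X) ⊗ C) i →
      h3 W h hC * W.op u (h3 W h hC * z) = lam i • (h3 W h hC * z) := by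
    intro i z hz
    refine W.ext_tr fun z' => ?_
    have h1 := hrel i z hz z'
    rw [← W.op_spec] at h1
    rw [rel_central W h3g, mul_assoc, h1, smul_mul_assoc, map_smul, smul_eq_mul]
  refine ⟨(kun3 W X C).symm.conj (W.op u), ?_, fun c => ?_⟩
  · change (kun3 W X C).conj ((kun3 W X C).symm.conj (W.op u)) ∈
      W.Cor ((X ⊗ X) ⊗ C) ((X ⊗ X) ⊗ C) (-1)
    rw [rel_conj]
    exact W.mem_cor.2 (Or.inr ⟨N, u, by omega, hu, rfl⟩)
  · refine tripr_ext W fun i j k a b y ha hb hy => ?_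
    rw [Module.End.mul_apply, tripr_prM W hd ha hb hy c]
    by_cases hc : (i : ℤ) + j + k = c
    · have h2 := tripr_gr W ha hb hy
      have h4 : i + j + k = c := by exact_mod_cast hc
      rw [h4] at h2
      have h5 := key c _ h2
      rw [if_pos hc, Module.End.mul_apply, Module.End.mul_apply]
      apply (kun3 W X C).injective
      rw [tripr_LM W hg hgC]
      have h6 : (kun3 W X C) (((kun3 W X C).symm.conj (W.op u))
          ((LM (LL (LinearMap.mulLeft K h)) (LinearMap.mulLeft K hC)) ((a ⊗ₜ b) ⊗ₜ y))) =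
          W.op u (kun3 W X C (LM (LL (LinearMap.mulLeft K h)) (LinearMap.mulLeft K hC)
            ((a ⊗ₜ b) ⊗ₜ y))) := by
        rw [LinearEquiv.conj_apply]
        simp
      rw [h6, tripr_LM W hg hgC, h5, LinearMap.smul_apply, Module.End.mul_apply,
        tripr_prM W hd ha hb hy c, if_pos hc, map_smul, tripr_LM W hg hgC]
    · rw [if_neg hc, map_zero, LinearMap.smul_apply, Module.End.mul_apply,
        tripr_prM W hd ha hb hy c, if_neg hc, map_zero, smul_zero]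

end Pool.Agent.Lib.MP_4ca46c_ag.Std
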