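import Mathlib
import Pool.Agent.Lib.MP_4ca46c_ag.Std.MainT
import Pool.Agent.Lib.MP_4ca46c_ag.Std.TripD
import Pool.Agent.Lib.MP_4ca46c_ag.Std.TripR
import Pool.Agent.Lib.MP_4ca46c_ag.Std.SmS
import Pool.Agent.Lib.MP_4ca46c_ag.Std.Compl
import Pool.Agent.Lib.MP_4ca46c_ag.Std.Average
import Pool.Agent.Lib.MP_4ca46c_ag.Std.Key
import Pool.Agent.Lib.MP_4ca46c_ag.Sign.Trans

/-!
# The sign conjecture for a generic section of `X × X × C` implies the conjectures of Künneth and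
Lefschetz type for `X`
-/

namespace Pool.Agent.Lib.MP_4ca46c_ag.Std

open CategoryTheory Limits AlgebraicGeometry TensorProduct MonoidalCategory
  CartesianMonoidalCategory
open Pool.Agent.Lib.MP_4ca46c_ag.Sign

section Abstract

variable {K V U : Type} [Field K] [AddCommGroup V] [Module K V] [AddCommGroup U] [Module K U]

theorem prM_neg {n : ℕ} {pr : ℤ → Module.End K V} (hout : ∀ i, i < 0 → pr i = 0)
    (q : ℤ → Module.End K U) {c : ℤ} (hc : c < 0) : prM 1 (prT n pr) q c = 0 := by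
  rw [prM]
  refine Finset.sum_eq_zero fun i hi => ?_
  have hi' := Finset.mem_Icc.1 hi
  have h1 : prT n pr (c - i) = 0 := by
    rw [prT]
    refine Finset.sum_eq_zero fun j hj => ?_
    have hj' := Finset.mem_Icc.1 hj
    rw [hout (c - i - j) (by omega), TensorProduct.map_zero_right]
  rw [h1, TensorProduct.map_zero_left]

end Abstract

variable (k₀ K : Type) [Field k₀] [Field K] [CharZero K]

theorem tKeyT (k₀ K : Type) [Field k₀] [Field K] : Std.StKey k₀ K :=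
  Std.tKey k₀ K (Std.tSm k₀ K) (Std.tStep0 k₀ K (Std.tSm k₀ K))
    (Std.tAverage k₀ K (Std.tSm k₀ K))

theorem tLocalT : StLocalT k₀ K := by
  intro T k _ _ _ X C hC1 hy H W G hW
  obtain ⟨-, -, -, hSW, -⟩ := tTrans k₀ K T W
  obtain ⟨-, hK, -, -, hL⟩ := tTrans k₀ K T X.toPVar
  obtain ⟨κ, w, hw, hrel⟩ := tKeyT k₀ K T _ W G (hSW.1 hW)
  let 𝒲 := weil T k
  let Xv : Var k₀ k := X.var
  let Cv : Var k₀ k := C.var
  let h : 𝒲.H Xv := T.cl X.X X.h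
  let hC : 𝒲.H Cv := T.cl C.X C.h
  have hh : h ∈ 𝒲.Alg Xv 1 := ⟨X.h, X.h_mem, rfl⟩
  have hhC : hC ∈ 𝒲.Alg Cv 1 := ⟨C.h, C.h_mem, rfl⟩
  have hdC : 𝒲.dim Cv = 1 := hC1
  have e3 : h3 𝒲 h hC = T.cl (POver.tripX X C) (POver.tripH X C) := by
    have hX2 := Var.isVar_prod X.isVar X.isVar
    have hT := POver.tripVar X C
    rw [POver.tripH, map_add, T.cl_pull _ hT.isWeil hX2.isWeil, map_add,
      T.cl_pull _ hX2.isWeil X.isVar.isWeil, T.cl_pull _ hX2.isWeil X.isVar.isWeil,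
      T.cl_pull _ hT.isWeil C.isVar.isWeil]
    rfl
  have hlC : HL 𝒲 Cv hC := ⟨C.lefschetz_injective, C.lefschetz_surjective⟩
  have hlT : HL 𝒲 ((Xv ⊗ Xv) ⊗ Cv) (h3 𝒲 h hC) := by
    rw [e3]
    exact H
  have hTD := tTripData K (Var k₀ k) 𝒲 Xv Cv h hC hh hhC hdC hy hlC hlT
  have hOD : OpData X.n (opv_pr 𝒲 Xv) (LinearMap.mulLeft K h) (fun r => 𝒲.Cor Xv Xv r)
      (fun r => (𝒲.Cor (Xv ⊗ Xv) (Xv ⊗ Xv) r).comap
        ((𝒲.kun Xv Xv).conj.toLinearMap.toAddMonoidHom)) :=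
    opv_data 𝒲 (X := Xv) hh X.lefschetz_injective X.lefschetz_surjective
  obtain ⟨w', hw', hrel'⟩ := tRelT K (Var k₀ k) 𝒲 Xv Cv h hC
    (fun i => (if Even i then 1 else 0) - (κ : K)) W.n (T.cl _ w) hh hhC hdC ⟨w, hw, rfl⟩
    G.dim (by
      rw [e3]
      exact hrel)
  have hneg : ∀ c : ℤ, c < 0 → prM 1 (prT X.n (opv_pr 𝒲 Xv)) (opv_pr 𝒲 Cv) c = 0 :=
    fun c hc => prM_neg (fun i hi => opv_out 𝒲 i (Or.inl hi)) _ hc
  have hmain := tMainT K (𝒲.H Xv) (𝒲.H Cv) X.n (opv_pr 𝒲 Xv) (LinearMap.mulLeft K h)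
    (fun r => 𝒲.Cor Xv Xv r) (fun r => (𝒲.Cor (Xv ⊗ Xv) (Xv ⊗ Xv) r).comap
        ((𝒲.kun Xv Xv).conj.toLinearMap.toAddMonoidHom)) (opv_pr 𝒲 Cv) (LinearMap.mulLeft K hC)
    (fun r => 𝒲.Cor Cv Cv r) (opD 𝒲 Xv Cv) w' (1 - κ) (-κ) hOD hTD hw' (by ring) ?_ ?_
  · exact ⟨hK.2 hmain.1, hL.2 hmain.2⟩
  · intro c hc
    rcases lt_or_ge c 0 with h0 | h0
    · rw [hneg c h0, mul_zero, mul_zero, smul_zero]
    · obtain ⟨i, rfl⟩ := Int.eq_ofNat_of_zero_le h0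
      refine (hrel' i).trans ?_
      have he : Even i := (Int.even_coe_nat i).1 hc
      congr 1
      rw [if_pos he]
      push_cast
      ring
  · intro c hc
    rcases lt_or_ge c 0 with h0 | h0
    · rw [hneg c h0, mul_zero, mul_zero, smul_zero]
    · obtain ⟨i, rfl⟩ := Int.eq_ofNat_of_zero_le h0
      refine (hrel' i).trans ?_
      have ho : ¬ Even i := fun he => (Int.not_even_iff_odd.2 hc) ((Int.even_coe_nat i).2 he)
      congr 1
      rw [if_neg ho]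
      push_cast
      ring

end Pool.Agent.Lib.MP_4ca46c_ag.Std
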