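import Mathlib
import Pool.Agent.Lib.MP_4ca46c_ag.Std.GenV
import Pool.Agent.Lib.MP_4ca46c_ag.Std.LocalT
import Pool.Agent.Lib.MP_4ca46c_ag.Sign.Local

/-!
# The sign conjecture, the conjecture of Künneth type and the conjecture of Lefschetz type are
equivalent, for all smooth projective varieties
-/

namespace Pool.Agent.Lib.MP_4ca46c_ag.Std

open CategoryTheory Limits AlgebraicGeometry TensorProduct
open Pool.Agent.Lib.MP_4ca46c_ag.Sign Pool.Agent.Lib.MP_4ca46c_ag.Hyp

variable {k₀ : Type} [Field k₀] {K : Type} [Field K]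

namespace ProjVar

section

variable {k : Type} [Field k] [Algebra k₀ k] [IsAlgClosed k]
  {T : WeilTheory k₀ K} (E : Extra T) (V : ProjVar k₀ k)

/-- The polarised variety. -/
noncomputable abbrev toP : PVar T := (V.toPOver E tPS tHyp).toPVar

end

variable [CharZero K] {k : Type} [Field k] [Algebra k₀ k] [IsAlgClosed k]
  {T : WeilTheory k₀ K} (E : Extra T)

/-- **One variety**: the sign conjecture for a suitable projective variety `W` of dimension
`2 dim X` implies the conjectures of Künneth and Lefschetz type for `X`. -/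
theorem exists_section (C : ProjVar k₀ k) (hC : C.n = 1) (hy : ∃ y ∈ T.deg C.X 1, y ≠ 0)
    (X : ProjVar k₀ k) : ∃ (L : Type) (_ : Field L) (_ : Algebra k₀ L) (_ : IsAlgClosed L)
      (W : ProjVar k₀ L), W.n = 2 * X.n ∧
      ((W.toP E).SignConj → (X.toP E).KunnethConj ∧ (X.toP E).LefschetzConj) := by
  by_cases h0 : X.n = 0
  · refine ⟨k, inferInstance, inferInstance, inferInstance, X, by rw [h0], fun _ => ?_⟩
    exact (tEasy' k₀ K T (X.toP E)).2.2 h0
  · let V := trip tSegreGeo X C
    have hn : V.n = 2 * X.n + 1 := by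
      change X.n + X.n + C.n = _
      omega
    have hm : 1 ≤ 2 * X.n := by omega
    let W := V.W E (2 * X.n) hm hn
    refine ⟨V.L, inferInstance, inferInstance, inferInstance, W, rfl, fun hW => ?_⟩
    have G := V.genSec E (2 * X.n) hm hn
    have e := trip_eq E tPS tHyp tSegreGeo (fSegre k₀ K) X C
    have G' : GenSec (POver.trip (X.toPOver E tPS tHyp) (C.toPOver E tPS tHyp)
      (tripHL E tPS tHyp tSegreGeo (fSegre k₀ K) X C)).toPVar (W.toP E) := by
      rw [← e]
      exact G
    exact tLocalT k₀ K T k (X.toPOver E tPS tHyp) (C.toPOver E tPS tHyp) hC hy _ _ G' hW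

end ProjVar

/-- **The equivalence for all smooth projective varieties.** -/
theorem final_tfae [CharZero K] {T : WeilTheory k₀ K} (E : Extra T)
    (hC : ∀ (k : Type) [Field k] [Algebra k₀ k] [IsAlgClosed k],
      ∃ C : ProjVar k₀ k, C.n = 1 ∧ ∃ y ∈ T.deg C.X 1, y ≠ 0) :
    [∀ (k : Type) [Field k] [Algebra k₀ k] [IsAlgClosed k] (V : ProjVar k₀ k),
        (V.toP E).SignConj,
      ∀ (k : Type) [Field k] [Algebra k₀ k] [IsAlgClosed k] (V : ProjVar k₀ k),
        (V.toP E).KunnethConj,
      ∀ (k : Type) [Field k] [Algebra k₀ k] [IsAlgClosed k] (V : ProjVar k₀ k),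
        (V.toP E).LefschetzConj].TFAE := by
  have h12 : (∀ (k : Type) [Field k] [Algebra k₀ k] [IsAlgClosed k] (V : ProjVar k₀ k),
        (V.toP E).SignConj) → ∀ (k : Type) [Field k] [Algebra k₀ k] [IsAlgClosed k]
        (V : ProjVar k₀ k), (V.toP E).KunnethConj ∧ (V.toP E).LefschetzConj := by
    intro h k _ _ _ V
    obtain ⟨C, hC1, hy⟩ := hC k
    obtain ⟨L, _, _, _, W, -, hW⟩ := ProjVar.exists_section E C hC1 hy V
    exact hW (h L W)
  tfae_have 1 → 3 := fun h k _ _ _ V => (h12 h k V).2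
  tfae_have 3 → 2 := fun h k _ _ _ V => (tEasy' k₀ K T (V.toP E)).1 (h k V)
  tfae_have 2 → 1 := fun h k _ _ _ V => (tEasy' k₀ K T (V.toP E)).2.1 (h k V)
  tfae_finish

end Pool.Agent.Lib.MP_4ca46c_ag.Std
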