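import Mathlib
import Pool.Agent.Lib.MP_4ca46c_ag.Std.ChowSpec
import Pool.Agent.Lib.MP_4ca46c_ag.Hyp.Segre
import Pool.Agent.Lib.MP_4ca46c_ag.Hyp.Embed
import Pool.Agent.Lib.MP_4ca46c_ag.Hyp.HypCompl

/-!
# Projective space, hyperplanes and the Segre embedding over `k₀`
-/

namespace Pool.Agent.Lib.MP_4ca46c_ag.Std

open CategoryTheory Limits AlgebraicGeometry MvPolynomial
open Pool.Agent.Lib.MP_4ca46c_ag.Sign Pool.Agent.Lib.MP_4ca46c_ag.Hyp

attribute [local instance] MvPolynomial.gradedAlgebra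

theorem geo_over {k₀ : Type} [Field k₀] {X Y : Sch k₀} {f g : X ⟶ Y} (h : f = g) :
    f.left = g.left := by rw [h]

theorem tPS : StPS := by
  intro k₀ k _ _ _ _ κ _ N h
  exact pso_var k₀ k κ N (by rw [Nat.card_eq_fintype_card, h])

theorem geo_unitVec {κ : Type} {T X : Scheme.{0}} [DecidableEq κ] (t : T ⟶ X) (i : κ) :
    (fun l => t.appTop (unitVec X i l)) = (Pi.single i 1 : κ → Γ(T, ⊤)) := by
  funext l
  by_cases h : l = i
  · subst h
    rw [Pi.single_eq_same, unitVec, if_pos rfl, map_one]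
  · rw [Pi.single_eq_of_ne h, unitVec, if_neg h, map_zero]

theorem tHyp : StHyp := by
  intro k₀ k _ _ _ κ _ i
  classical
  refine ⟨hyp_closed i, ?_⟩
  refine sec_isPullback (pCoord k κ) (unitVec (PSo k₀ k κ).left i) (PSo.hyp k₀ k κ i)
    (hyp_mono i) fun T t => ?_
  rw [geo_unitVec]
  exact hyp_iff t i

section Segre

variable (k₀ k : Type) [Field k₀] [Field k] [Algebra k₀ k] (κ κ' : Type)

/-- The Segre embedding, over `k₀`. -/
noncomputable def segO : pullback (PSo.str k₀ k κ) (PSo.str k₀ k κ') ⟶ PSo k₀ k (κ × κ') :=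
  Over.homMk (segre (pullback.fst (PSo.str k₀ k κ) (PSo.str k₀ k κ')).left
    (pullback.snd (PSo.str k₀ k κ) (PSo.str k₀ k κ')).left)
    ((Category.assoc _ _ _).symm.trans ((eq_whisker (segre_str _ _) _).trans
      ((Category.assoc _ _ _).trans (Over.w (pullback.fst (PSo.str k₀ k κ) (PSo.str k₀ k κ'))))))

theorem segO_str : segO k₀ k κ κ' ≫ PSo.str k₀ k (κ × κ') =
    pullback.fst _ _ ≫ PSo.str k₀ k κ := by
  apply Over.OverMorphism.ext
  exact segre_str _ _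

theorem segO_left {k₀ k : Type} [Field k₀] [Field k] [Algebra k₀ k] {κ κ' : Type} {S : Sch k₀}
    (s : S ⟶ pullback (PSo.str k₀ k κ) (PSo.str k₀ k κ')) (a : S ⟶ PSo k₀ k κ)
    (b : S ⟶ PSo k₀ k κ') (ha : s ≫ pullback.fst _ _ = a) (hb : s ≫ pullback.snd _ _ = b) :
    (s ≫ segO k₀ k κ κ').left = segre a.left b.left := by
  subst ha hb
  exact comp_segre _ _ s.left

theorem segO_closed [Finite κ] [Finite κ'] : IsClosedImmersion (segO k₀ k κ κ').left := by
  have pb : IsPullback (pullback.fst (PSo.str k₀ k κ) (PSo.str k₀ k κ')).left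
      (pullback.snd (PSo.str k₀ k κ) (PSo.str k₀ k κ')).left (psStr k κ) (psStr k κ') :=
    (IsPullback.of_hasPullback (PSo.str k₀ k κ) (PSo.str k₀ k κ')).map (Over.forget _)
  have i1 : IsProper (psStr k κ) := inferInstance
  have i2 : IsProper (psStr k κ') := inferInstance
  have h1 : IsProper (pullback.fst (PSo.str k₀ k κ) (PSo.str k₀ k κ')).left :=
    MorphismProperty.of_isPullback (P := @IsProper) pb.flip i2
  have h2 : IsProper ((pullback.fst (PSo.str k₀ k κ) (PSo.str k₀ k κ')).left ≫ psStr k κ) :=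
    MorphismProperty.comp_mem @IsProper _ _ h1 i1
  exact @Coord.closed_toPS k _ (κ × κ') _ _ h2 (Coord.prod (psCoord k κ) (psCoord k κ') pb)

end Segre

theorem geo_point (k₀ k : Type) [Field k₀] [Field k] [Algebra k₀ k] {κ : Type} (i : κ) :
    ∃ p : pt k₀ k ⟶ PSo k₀ k κ, p ≫ PSo.str k₀ k κ = 𝟙 _ ∧ ⊤ ≤ p.left ⁻¹ᵁ psD i ∧
      ∀ z, p.left z ∉ Set.range (PSo.hyp k₀ k κ i).left := by
  classical
  obtain ⟨e, he, hi, -⟩ := exists_point (k := k) i
  refine ⟨Over.homMk e ?_, ?_, hi, fun z hz => ?_⟩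
  · exact (Category.assoc _ _ _).symm.trans ((eq_whisker he _).trans (Category.id_comp _))
  · apply Over.OverMorphism.ext
    exact he
  · have h1 : e z ∈ Set.range (hypMap k i) := hz
    rw [range_hyp] at h1
    exact h1 (hi (Set.mem_univ z))

theorem segO_left' {k₀ k : Type} [Field k₀] [Field k] [Algebra k₀ k] {κ κ' : Type} {S : Sch k₀}
    (s : S ⟶ pullback (PSo.str k₀ k κ) (PSo.str k₀ k κ')) (a : S.left ⟶ PS k κ)
    (b : S.left ⟶ PS k κ') (ha : (s ≫ pullback.fst _ _).left = a)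
    (hb : (s ≫ pullback.snd _ _).left = b) : (s ≫ segO k₀ k κ κ').left = segre a b := by
  subst ha hb
  exact comp_segre _ _ s.left

theorem geo_exists {k₀ : Type} [Field k₀] {A B T' T : Sch k₀} (m : A ⟶ B) (f : T ⟶ B)
    (v : T' ⟶ T) {u : T'.left ⟶ A.left} (H : IsPullback u v.left m.left f.left) :
    ∃ u', IsPullback u' v m f := by
  refine ⟨Over.homMk u ?_, over_isPullback _ _ _ _ H⟩
  have h1 : m.left ≫ B.hom = A.hom := Over.w m
  have h2 : f.left ≫ B.hom = T.hom := Over.w f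
  have h3 : v.left ≫ T.hom = T'.hom := Over.w v
  rw [← h1, ← Category.assoc, H.w, Category.assoc, h2, h3]

theorem geo_congr {A B T' T : Scheme.{0}} {m : A ⟶ B} {f g : T ⟶ B} {v : T' ⟶ T} {u : T' ⟶ A}
    (e : f = g) (H : IsPullback u v m f) : IsPullback u v m g := e ▸ H

theorem tSegreGeo : StSegreGeo := by
  intro k₀ k _ _ _ κ κ' _ _
  refine ⟨segO k₀ k κ κ', segO_closed k₀ k κ κ', segO_str k₀ k κ κ', fun i a => ⟨?_, ?_⟩⟩
  · obtain ⟨p, hp, hi, hr⟩ := geo_point k₀ k i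
    let s : PSo k₀ k κ' ⟶ pullback (PSo.str k₀ k κ) (PSo.str k₀ k κ') :=
      pullback.lift (PSo.str k₀ k κ' ≫ p) (𝟙 _) (by
        rw [Category.assoc, hp, Category.comp_id, Category.id_comp])
    have h1 : s ≫ pullback.fst _ _ = PSo.str k₀ k κ' ≫ p := pullback.lift_fst _ _ _
    have h2 : s ≫ pullback.snd _ _ = 𝟙 _ := pullback.lift_snd _ _ _
    have h3 := segO_left' s (PSo.str k₀ k κ' ≫ p).left (𝟙 (PS k κ')) (by rw [h1]) (by rw [h2]; rfl)
    have h4 : ⊤ ≤ (PSo.str k₀ k κ' ≫ p).left ⁻¹ᵁ psD i := fun x _ => hi (Set.mem_univ _)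
    obtain ⟨u, hu⟩ := segre_isPullback (PSo.str k₀ k κ' ≫ p).left (𝟙 (PS k κ')) h4 a
      (IsPullback.id_horiz (hypMap k a))
    obtain ⟨u', hu'⟩ := geo_exists (PSo.hyp k₀ k (κ × κ') (i, a)) (s ≫ segO k₀ k κ κ')
      (PSo.hyp k₀ k κ' a) (geo_congr h3.symm hu)
    exact ⟨s, p, u', h2, h1, hr, hu'⟩
  · obtain ⟨p, hp, hi, hr⟩ := geo_point k₀ k a
    let s : PSo k₀ k κ ⟶ pullback (PSo.str k₀ k κ) (PSo.str k₀ k κ') :=
      pullback.lift (𝟙 _) (PSo.str k₀ k κ ≫ p) (by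
        rw [Category.assoc, hp, Category.comp_id, Category.id_comp])
    have h1 : s ≫ pullback.fst _ _ = 𝟙 _ := pullback.lift_fst _ _ _
    have h2 : s ≫ pullback.snd _ _ = PSo.str k₀ k κ ≫ p := pullback.lift_snd _ _ _
    have h3 := segO_left' s (𝟙 (PS k κ)) (PSo.str k₀ k κ ≫ p).left (by rw [h1]; rfl) (by rw [h2])
    have h4 : ⊤ ≤ (PSo.str k₀ k κ ≫ p).left ⁻¹ᵁ psD a := fun x _ => hi (Set.mem_univ _)
    obtain ⟨u, hu⟩ := segre_isPullback' (𝟙 (PS k κ)) (PSo.str k₀ k κ ≫ p).left h4 i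
      (IsPullback.id_horiz (hypMap k i))
    obtain ⟨u', hu'⟩ := geo_exists (PSo.hyp k₀ k (κ × κ') (i, a)) (s ≫ segO k₀ k κ κ')
      (PSo.hyp k₀ k κ i) (geo_congr h3.symm hu)
    exact ⟨s, p, u', h1, h2, hr, hu'⟩

theorem tDi : StDi := by
  intro k₀ k _ _ _ κ _ X x i
  classical
  have pb : IsPullback (pullback.fst (PSo.str k₀ k κ) x).left
      (pullback.snd (PSo.str k₀ k κ) x).left (psStr k κ) x.left :=
    (IsPullback.of_hasPullback (PSo.str k₀ k κ) x).map (Over.forget _)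
  set m := pullback.map (PSo.str k₀ k {j // j ≠ i}) x (PSo.str k₀ k κ) x
    (PSo.hyp k₀ k κ i) (𝟙 X) (𝟙 _) (by rw [PSo.hyp_str, Category.comp_id])
      (by rw [Category.id_comp, Category.comp_id]) with hm
  have m1 : m ≫ pullback.fst _ _ = pullback.fst _ _ ≫ PSo.hyp k₀ k κ i := pullback.lift_fst _ _ _
  have m2 : m ≫ pullback.snd _ _ = pullback.snd _ _ := (pullback.lift_snd _ _ _).trans
    (Category.comp_id _)
  have h1 : IsPullback (m ≫ pullback.snd (PSo.str k₀ k κ) x)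
      (pullback.fst (PSo.str k₀ k {j // j ≠ i}) x) x (PSo.hyp k₀ k κ i ≫ PSo.str k₀ k κ) := by
    rw [m2, PSo.hyp_str]
    exact (IsPullback.of_hasPullback (PSo.str k₀ k {j // j ≠ i}) x).flip
  have h2 : IsPullback m (pullback.fst (PSo.str k₀ k {j // j ≠ i}) x)
      (pullback.fst (PSo.str k₀ k κ) x) (PSo.hyp k₀ k κ i) :=
    IsPullback.of_right h1 m1 (IsPullback.of_hasPullback (PSo.str k₀ k κ) x).flip
  have h3 : IsPullback m.left (pullback.fst (PSo.str k₀ k {j // j ≠ i}) x).left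
      (pullback.fst (PSo.str k₀ k κ) x).left (hypMap k i) := h2.map (Over.forget _)
  refine ⟨Over.mk (((pullback.fst (PSo.str k₀ k κ) x).left ⁻¹ᵁ psD i).ι ≫
    (pullback (PSo.str k₀ k κ) x).hom), Over.homMk
      ((pullback.fst (PSo.str k₀ k κ) x).left ⁻¹ᵁ psD i).ι rfl, ⟨?_, ?_, ?_⟩, ?_⟩
  · exact MorphismProperty.of_isPullback (P := @IsClosedImmersion) h3.flip (hyp_closed i)
  · exact inferInstanceAs (IsOpenImmersion
      ((pullback.fst (PSo.str k₀ k κ) x).left ⁻¹ᵁ psD i).ι)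
  · exact range_hyp_pullback h3
  · exact chart_bundle pb i

/-- **Embeddings over an extension field.** A proper scheme `Y` over `L`, with a morphism to
projective space over `k` which separates the points over `L`, has a closed immersion in projective
space over `L`. -/
theorem tEmb (k₀ k L : Type) [Field k₀] [Field k] [Algebra k₀ k] [Field L] [Algebra k₀ L]
    (φ : k →ₐ[k₀] L) (κ : Type) (Y : Sch k₀) (y : Y ⟶ pt k₀ L) (r : Y ⟶ PSo k₀ k κ)
    (hy : IsProper y.left) (hr : r ≫ PSo.str k₀ k κ = y ≫ ptMap k₀ φ)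
    (hm : ∀ (T : Sch k₀) (t t' : T ⟶ Y), t ≫ y = t' ≫ y → t ≫ r = t' ≫ r → t = t') :
    ∃ e : Y ⟶ PSo k₀ L κ, IsClosedImmersion e.left ∧ e ≫ PSo.str k₀ L κ = y := by
  let s : Y.left ⟶ Spec (CommRingCat.of L) := y.left
  have hs : IsProper s := hy
  let C : Coord s κ := (psCoord k κ).comap r.left s (Spec.map (CommRingCat.ofHom φ.toRingHom))
    (geo_over hr) fun T z z' h1 h2 => by
      have h3 : z' ≫ Y.hom = z ≫ Y.hom := by
        rw [← Over.w y, ← Category.assoc, ← Category.assoc]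
        exact (eq_whisker h2 _).symm
      let t : Over.mk (z ≫ Y.hom) ⟶ Y := Over.homMk z rfl
      let t' : Over.mk (z ≫ Y.hom) ⟶ Y := Over.homMk z' h3
      have h4 := hm _ t t' (Over.OverMorphism.ext h2) (Over.OverMorphism.ext h1)
      exact geo_over h4
  refine ⟨Over.homMk (C.toPS s) ?_, C.closed_toPS s, ?_⟩
  · exact (Category.assoc _ _ _).symm.trans ((eq_whisker (C.toPS_str s) _).trans (Over.w y))
  · apply Over.OverMorphism.ext
    exact C.toPS_str s

end Pool.Agent.Lib.MP_4ca46c_ag.Std
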