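import Mathlib

/-!
# Algebraically closed fields of infinite transcendence degree
-/

namespace Pool.Agent.Lib.MP_4ca46c_ag.Std

open Cardinal

theorem equiv_of_trdeg (k₀ k L : Type) [Field k₀] [Field k] [Field L] [Algebra k₀ k]
    [Algebra k₀ L] [IsAlgClosed k] [IsAlgClosed L]
    (h : Algebra.trdeg k₀ L = Algebra.trdeg k₀ k) : Nonempty (L ≃ₐ[k₀] k) := by
  obtain ⟨s, hs⟩ := exists_isTranscendenceBasis k₀ L
  obtain ⟨t, ht⟩ := exists_isTranscendenceBasis k₀ k
  have h1 : #s = #t := by rw [hs.cardinalMk_eq_trdeg, ht.cardinalMk_eq_trdeg, h]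
  obtain ⟨e⟩ := Cardinal.eq.1 h1
  have i1 : IsAlgClosure (Algebra.adjoin k₀ (Set.range ((↑) : s → L))) L :=
    IsAlgClosed.isAlgClosure_of_transcendence_basis _ hs
  have i2 : IsAlgClosure (Algebra.adjoin k₀ (Set.range ((↑) : t → k))) k :=
    IsAlgClosed.isAlgClosure_of_transcendence_basis _ ht
  let e' : Algebra.adjoin k₀ (Set.range ((↑) : s → L)) ≃ₐ[k₀]
      Algebra.adjoin k₀ (Set.range ((↑) : t → k)) :=
    hs.1.aevalEquiv.symm.trans ((MvPolynomial.renameEquiv k₀ e).trans ht.1.aevalEquiv)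
  refine ⟨AlgEquiv.ofRingEquiv (f := IsAlgClosure.equivOfEquiv L k e'.toRingEquiv)
    fun r => ?_⟩
  have h2 := IsAlgClosure.equivOfEquiv_algebraMap (L := L) (M := k) e'.toRingEquiv
    (algebraMap k₀ _ r)
  rw [← IsScalarTower.algebraMap_apply] at h2
  rw [h2]
  have h3 : e'.toRingEquiv (algebraMap k₀ _ r) = algebraMap k₀ _ r := e'.commutes r
  rw [h3, ← IsScalarTower.algebraMap_apply]

theorem trdeg_closure (k₀ k κ F L : Type) [Field k₀] [Field k] [Field F] [Field L]
    [Algebra k₀ k] [Algebra k₀ F] [Algebra k₀ L] [Algebra k F] [Algebra F L] [Algebra k L]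
    [IsScalarTower k₀ k L] [IsScalarTower k F L] [Algebra (MvPolynomial κ k) F]
    [IsScalarTower k (MvPolynomial κ k) F] [IsFractionRing (MvPolynomial κ k) F]
    [Algebra.IsAlgebraic F L] : Algebra.trdeg k₀ L = Algebra.trdeg k₀ k + #κ := by
  have h1 := trdeg_add_eq k₀ k (A := L)
  have h2 := trdeg_add_eq k F (A := L)
  have h3 := trdeg_add_eq k (MvPolynomial κ k) (A := F)
  have h4 : Algebra.trdeg F L = 0 := trdeg_eq_zero
  have h5 : Algebra.trdeg (MvPolynomial κ k) F = 0 := by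
    have : Algebra.IsAlgebraic (MvPolynomial κ k) F :=
      IsLocalization.isAlgebraic F (nonZeroDivisors (MvPolynomial κ k))
    exact trdeg_eq_zero
  rw [← h1, ← h2, ← h3, h4, h5, add_zero, add_zero, MvPolynomial.trdeg_of_isDomain]
  simp

theorem closure_equiv (k₀ k κ F L : Type) [Field k₀] [Field k] [Field F] [Field L] [Finite κ]
    [Algebra k₀ k] [Algebra k₀ F] [Algebra k₀ L] [Algebra k F] [Algebra F L] [Algebra k L]
    [IsScalarTower k₀ k L] [IsScalarTower k F L] [Algebra (MvPolynomial κ k) F]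
    [IsScalarTower k (MvPolynomial κ k) F] [IsFractionRing (MvPolynomial κ k) F]
    [Algebra.IsAlgebraic F L] [IsAlgClosed k] [IsAlgClosed L]
    (h : ℵ₀ ≤ Algebra.trdeg k₀ k) : Nonempty (L ≃ₐ[k₀] k) := by
  refine equiv_of_trdeg k₀ k L ?_
  rw [trdeg_closure k₀ k κ F L]
  refine Cardinal.add_eq_left h (le_trans (le_of_lt ?_) h)
  exact Cardinal.lt_aleph0_of_finite κ

end Pool.Agent.Lib.MP_4ca46c_ag.Std
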