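import Mathlib
import Pool.Agent.Lib.MP_4ca46c_ag.Std.ChowSpec
import Pool.Agent.Lib.MP_4ca46c_ag.Std.BertSpec

/-!
# Specification: the Fermat curve has cohomology in degree 1
-/

namespace Pool.Agent.Lib.MP_4ca46c_ag.Std

open CategoryTheory Limits AlgebraicGeometry TensorProduct
open Pool.Agent.Lib.MP_4ca46c_ag.Sign Pool.Agent.Lib.MP_4ca46c_ag.Hyp

/-- The affine Fermat polynomial `1 + ∑ X_j ^ d`. -/
noncomputable def fermat (k : Type) [Field k] (σ : Type) [Fintype σ] (d : ℕ) :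
    MvPolynomial σ k := 1 + ∑ j, MvPolynomial.X j ^ d

/-- The affine Fermat curve is irreducible.

PROOF. `σ ≃ Fin 2`, and `MvPolynomial (Fin 2) k ≃ Polynomial R` with `R = MvPolynomial (Fin 1) k`
(`MvPolynomial.renameEquiv`, `MvPolynomial.finSuccEquiv`); the polynomial becomes
`X ^ d + C (1 + Y ^ d)` with `Y = X 0 ∈ R` (`d ≠ 0` as `(d : k) ≠ 0`). `R` is a UFD and a domain. Let
`a ^ d = -1` in `k` (algebraically closed), `a ≠ 0`, and `P = (Y - a) ⊆ R`, a prime ideal (kernel of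
the evaluation at `a`). `1 + Y ^ d = Y ^ d - a ^ d = (Y - a) * S` with
`S = ∑ Y ^ i * a ^ (d - 1 - i)` (`Commute.geom_sum₂_mul`), `S(a) = d * a ^ (d - 1) ≠ 0`. So
`1 + Y ^ d ∈ P`, `∉ P ^ 2`. By Eisenstein (`Polynomial.irreducible_of_eisenstein_criterion`;
the polynomial is monic, so primitive) it is irreducible, hence prime in the UFD `Polynomial R`;
transport back. -/
def StFermPrime : Prop := ∀ (k : Type) [Field k] [IsAlgClosed k] (σ : Type) [Fintype σ] (d : ℕ),
  Fintype.card σ = 2 → (d : k) ≠ 0 → (Ideal.span {fermat k σ d}).IsPrime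

/-- The affine Fermat curve is smooth.

PROOF. Let `B = MvPolynomial σ k`, standard smooth of relative dimension `2 = 1 + 1`
(`Hyp.smooth_mvPoly`, file `Hyp/AffSmooth.lean`). A prime of `B / (f)` is the image of a prime
`q ∋ f` of `B`. `StJac` gives the element `b` if `1 ⊗ D f ≠ 0` in `κ(q) ⊗ Ω[B/k]`. Now
`D f = ∑ d * X_j ^ (d - 1) • D (X_j)` and the `D (X_j)` are a basis
(`KaehlerDifferential.mvPolynomialBasis`; `Module.Basis.baseChange` for `κ(q) ⊗ Ω`). If
`1 ⊗ D f = 0` then the images of `d * X_j ^ (d - 1)` in `κ(q)` vanish, so (`(d : k) ≠ 0`; `d ≥ 1`; if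
`d = 1` this is already absurd) `X_j ∈ q` for all `j`, and `1 = f - ∑ X_j ^ d ∈ q`, a
contradiction. -/
def StFermSm : Prop := ∀ (k : Type) [Field k] (σ : Type) [Fintype σ] (d : ℕ),
  Fintype.card σ = 2 → (d : k) ≠ 0 →
  LocSm 1 k (MvPolynomial σ k ⧸ Ideal.span {fermat k σ d})

section

variable (k₀ K : Type) [Field k₀] [Field K]

/-- **A curve with an automorphism without fixed points has cohomology in degree 1.** Here
`γ : C ⟶ C × C` is the graph of the automorphism `σ`, which does not meet the diagonal `δ`.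

PROOF. Suppose that `H^1(C) = 0`. Let `H = H(C)`.
(0) `2 ≠ 0` in `K`: `(2 : T.CH C)` is a unit (a `ℚ`-algebra), so `(2 : H)` is a unit (`cl` is a ring
homomorphism), and `1 ≠ 0` in `H` (see (2)).
(1) `H^i = 0` for `i > 2`: `H` is the sum of the `H^j` (`T.internal`), `u * v ∈ H^(i+j)` for
`v ∈ H^j` and `tr = 0` outside degree `2` (`T.tr_eq_zero`), so `tr (u * v) = 0` for all `v`, and `u = 0`
by `T.poincare`.
(2) `H^0 = K * 1` (`T.deg_zero`). `u ∈ H^2` with `tr u = 0` is `0` (as in (1), using `H^0 = K * 1`).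
`1 ≠ 0` in `H(C)`: a rational point `p : pt ⟶ C` (`IsVar.exists_point` or `Sign/Point.lean`) gives
`pullH p 1 = 1` and `tr 1 = 1` on `pt` (`T.tr_pt`). So there is `o ∈ H^2` with `tr o = 1` (Poincaré
for `u = 1`; decompose). Every `u ∈ H` is `a * 1 + b * o`, `a, b ∈ K`.
(3) `pullH σ = id`: it fixes `1`, preserves `H^2` and the trace (`T.tr_iso`), so it fixes `o`.
(4) Let `P = C × C = pullback x x`, `p₁`, `p₂` the projections, `Δ = cl (push δ 1)`. `H(P)` is spanned
by the products `pullH p₁ u * pullH p₂ v` (surjectivity in `T.kunneth`). So `pullH γ = pullH δ` on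
`H(P)`: both send such a product to `u * v` by (3).
(5) `T.pull γ (T.push δ 1) = 0` by `StDisjoint` (`f = δ`, `g = γ`), so
`0 = cl (pull γ (push δ 1)) = pullH γ Δ = pullH δ Δ` (`T.cl_pull`).
(6) `tr (Δ * w) = tr (pullH δ w)` (`T.cl_push`, `cl 1 = 1`) for all `w`. Let
`Δ' = pullH p₁ o + pullH p₂ o`. For `w = pullH p₁ u * pullH p₂ v`, `tr (Δ' * w) =
tr (o * u) * tr v + tr u * tr (o * v)` (`T.tr_kunneth`; `o` has even degree, so it commutes with
everything, `T.comm`), and `tr (u * v)` is the same number: check for `u, v ∈ {1, o}`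
(`o * o = 0` by (1)). So `tr (Δ * w) = tr (Δ' * w)` for all `w`, and `Δ = Δ'` by `T.poincare` for `P`
(a variety of dimension 2, `Var.isVar_prod` in `Sign/VarCat.lean`).
(7) `0 = tr (pullH δ Δ) = tr (o + o) = 2`, a contradiction. -/
def StAut : Prop := ∀ (T : WeilTheory k₀ K), Extra T → ∀ (k : Type) [Field k] [Algebra k₀ k]
  [IsAlgClosed k] (C : Sch k₀) (x : C ⟶ pt k₀ k) (σ : C ⟶ C) (γ : C ⟶ pullback x x),
  IsVar x 1 → IsIso σ → σ ≫ x = x → γ ≫ pullback.fst x x = 𝟙 C → γ ≫ pullback.snd x x = σ →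
  (∀ z, γ.left z ∉ Set.range (pullback.diagonal x).left) → ∃ y ∈ T.deg C 1, y ≠ 0

end

end Pool.Agent.Lib.MP_4ca46c_ag.Std
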