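import Pool.Agent.Lib.MP_4ca46c_ag.Sign.Bridge
import Pool.Agent.Lib.MP_4ca46c_ag.Std.Extra
import Pool.Agent.Lib.MP_4ca46c_ag.Std.Statement

/-!
# From the compact form of the axioms to `WeilTheory` and `Extra`
-/

namespace Pool.Agent.Lib.MP_4ca46c_ag.Std

open CategoryTheory Limits AlgebraicGeometry TensorProduct
open Pool.Agent.Lib.MP_4ca46c_ag.Sign Pool.Agent.Lib.MP_4ca46c_ag.Hyp

variable {k₀ : Type} [Field k₀] {K : Type} [Field K] {D : CohData k₀ K}

theorem bridge_extra (h : D.IsTheory) (e : IsStandard D) : Extra (D.weil h) where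
  empty X hX := e.emptyChow X hX
  transversal y f f' g' g h1 h2 h3 h4 h5 h6 n m n' m' h7 h8 h9 h10 h11 a :=
    e.transversal _ _ _ _ _ y f f' g' g h1 h2 h3 h4 h5 h6 n m n' m' h7 h8 h9 h10 h11 a
  tr_field x x' g n hx hP u := e.traceField _ _ _ _ x x' g n hx hP u
  lefschetz {k} _ _ _ {X} x n hx {κ} _ _ i em hc he := by
    have h1 := e.hardLefschetz { k := k, X := X, str := x, n := n, isVar := hx, κ := κ, i := i,
                                 emb := em, isClosed := hc, emb_str := he }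
    exact ⟨fun j hj u hu => (h1 j hj).1 u hu, fun j hj v hv => (h1 j hj).2 v hv⟩

namespace PrVar

variable (V : PrVar k₀)

/-- The variety. -/
noncomputable def toProj : ProjVar k₀ V.k where
  X := V.X
  str := V.str
  n := V.n
  isVar := V.isVar
  κ := V.κ
  i := V.i
  emb := V.emb
  closed := V.isClosed
  emb_str := V.emb_str

end PrVar

/-- The variety. -/
noncomputable def ofProj {k : Type} [Field k] [Algebra k₀ k] [IsAlgClosed k]
    (V : ProjVar k₀ k) : PrVar k₀ where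
  k := k
  X := V.X
  str := V.str
  n := V.n
  isVar := V.isVar
  κ := V.κ
  i := V.i
  emb := V.emb
  isClosed := V.closed
  emb_str := V.emb_str

section conj

variable (h : D.IsTheory) (k : Type) [Field k] [Algebra k₀ k] [IsAlgClosed k] (V : ProjVar k₀ k)
  (h_mem : (D.weil h).pull V.emb (hypClass (D.weil h) k V.i) ∈ (D.weil h).codim V.X 1)
  (inj : ∀ j ≤ V.n, ∀ u ∈ (D.weil h).deg V.X (V.n - j),
    (D.weil h).cl V.X ((D.weil h).pull V.emb (hypClass (D.weil h) k V.i)) ^ j * u = 0 → u = 0)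
  (surj : ∀ j ≤ V.n, ∀ v ∈ (D.weil h).deg V.X (V.n + j), ∃ u ∈ (D.weil h).deg V.X (V.n - j),
    (D.weil h).cl V.X ((D.weil h).pull V.emb (hypClass (D.weil h) k V.i)) ^ j * u = v)

/-- The polarised variety. -/
noncomputable def pol : PVar (D.weil h) where
  k := k
  X := V.X
  str := V.str
  n := V.n
  isVar := V.isVar
  h := (D.weil h).pull V.emb (hypClass (D.weil h) k V.i)
  h_mem := h_mem
  lefschetz_injective := inj
  lefschetz_surjective := surj

theorem box_eq (i j : ℕ) : (ofProj V).box D i j = (pol h k V h_mem inj surj).box i j := by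
  rw [PrVar.box, PVar.box]
  congr 1
  ext z
  constructor
  · rintro ⟨x, y, hx, hy, rfl⟩
    exact ⟨x, hx, y, hy, rfl⟩
  · rintro ⟨x, hx, y, hy, rfl⟩
    exact ⟨x, y, hx, hy, rfl⟩

theorem kunnethConj_iff : (ofProj V).KunnethConj D ↔
    (pol h k V h_mem inj surj).KunnethConj := by
  constructor
  · rintro ⟨a, h1, h2⟩
    refine ⟨a, fun i hi => ⟨(h1 i hi).1, ?_⟩, h2⟩
    have h3 := (h1 i hi).2
    rw [box_eq h k V h_mem inj surj] at h3
    exact h3
  · rintro ⟨a, h1, h2⟩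
    refine ⟨a, fun i hi => ⟨(h1 i hi).1, ?_⟩, h2⟩
    rw [box_eq h k V h_mem inj surj]
    exact (h1 i hi).2

theorem signConj_iff : (ofProj V).SignConj D ↔ (pol h k V h_mem inj surj).SignConj := by
  rw [PrVar.SignConj, PVar.SignConj, PrVar.evenBox, PrVar.oddBox]
  simp only [box_eq h k V h_mem inj surj]
  exact ⟨fun ⟨a, h1, h2⟩ => ⟨a, h1, h2⟩, fun ⟨a, h1, h2⟩ => ⟨a, h1, h2⟩⟩

theorem lefschetzConj_iff : (ofProj V).LefschetzConj D ↔
    (pol h k V h_mem inj surj).LefschetzConj := by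
  have hz : ∀ (X : Sch k₀) (p : ℤ) (a : D.CH X), CodimZ D p a ↔ a ∈ (D.chow h).codimZ X p := by
    intro X p a
    rw [CodimZ, ChowTheory.codimZ]
    by_cases hp : 0 ≤ p
    · rw [if_pos hp]
      exact ⟨fun h => h.elim (fun h => h.2) fun h => absurd h.1 (by omega),
        fun h => Or.inl ⟨hp, h⟩⟩
    · rw [if_neg hp]
      exact ⟨fun h => h.elim (fun h => absurd h.1 hp) fun h => h.2,
        fun h => Or.inr ⟨by omega, h⟩⟩
  constructor
  · rintro ⟨Λ, h1, a, ha, h2⟩
    refine ⟨Λ, fun i hi x hx hx' j hj => h1 i hi x hx hx' j hj, a, (hz _ _ _).1 ha, h2⟩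
  · rintro ⟨Λ, h1, a, ha, h2⟩
    refine ⟨Λ, fun i hi x hx hx' j hj => h1 i hi x hx hx' j hj, a, (hz _ _ _).2 ha, h2⟩

end conj

end Pool.Agent.Lib.MP_4ca46c_ag.Std
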