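import Mathlib
import Pool.Agent.Lib.MP_4ca46c_ag.Std.FermSpec49

/-!
# The affine Fermat curve is irreducible
-/

namespace Pool.Agent.Lib.MP_4ca46c_ag.Std

open Polynomial

/-- elements of the square of the ideal of a point have vanishing derivative there -/
theorem fermprime_sq {k : Type} [Field k] (a : k) (g : MvPolynomial (Fin 1) k)
    (hg : g ∈ (RingHom.ker (MvPolynomial.eval (fun _ : Fin 1 => a))) ^ 2) :
    MvPolynomial.eval (fun _ : Fin 1 => a) (MvPolynomial.pderiv 0 g) = 0 := by
  rw [sq] at hg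
  refine Submodule.mul_induction_on hg (fun m hm n hn => ?_) (fun x y hx hy => ?_)
  · rw [RingHom.mem_ker] at hm hn
    rw [Derivation.leibniz, map_add, smul_eq_mul, smul_eq_mul, map_mul, map_mul, hm, hn]
    ring
  · rw [map_add, map_add, hx, hy, add_zero]

theorem fermprime_irr {k : Type} [Field k] [IsAlgClosed k] (d : ℕ) (hd : (d : k) ≠ 0) :
    Irreducible ((X : (MvPolynomial (Fin 1) k)[X]) ^ d + C (1 + MvPolynomial.X 0 ^ d)) := by
  have hd0 : d ≠ 0 := by
    rintro rfl
    exact hd (by simp)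
  obtain ⟨a, ha⟩ := IsAlgClosed.exists_pow_nat_eq (-1 : k) (Nat.pos_of_ne_zero hd0)
  have ha0 : a ≠ 0 := by
    rintro rfl
    rw [zero_pow hd0] at ha
    exact (neg_ne_zero.2 one_ne_zero) ha.symm
  have hmon := monic_X_pow_add_C (1 + MvPolynomial.X 0 ^ d : MvPolynomial (Fin 1) k) hd0
  have hdeg := degree_X_pow_add_C (Nat.pos_of_ne_zero hd0)
    (1 + MvPolynomial.X 0 ^ d : MvPolynomial (Fin 1) k)
  have hP : (RingHom.ker (MvPolynomial.eval (fun _ : Fin 1 => a))).IsPrime :=
    RingHom.ker_isPrime _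
  have hmem : (1 + MvPolynomial.X 0 ^ d : MvPolynomial (Fin 1) k) ∈
      RingHom.ker (MvPolynomial.eval (fun _ : Fin 1 => a)) := by
    rw [RingHom.mem_ker, map_add, map_pow, map_one, MvPolynomial.eval_X, ha]
    ring
  refine irreducible_of_eisenstein_criterion hP ?_ ?_ ?_ ?_ hmon.isPrimitive
  · rw [hmon.leadingCoeff, RingHom.mem_ker, map_one]
    exact one_ne_zero
  · intro n hn
    rw [hdeg] at hn
    have hn' : n < d := by exact_mod_cast hn
    rw [coeff_add, coeff_X_pow, if_neg hn'.ne, zero_add, coeff_C]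
    split_ifs
    · exact hmem
    · exact Ideal.zero_mem _
  · rw [hdeg]
    exact_mod_cast Nat.pos_of_ne_zero hd0
  · rw [coeff_add, coeff_X_pow, if_neg (fun h => hd0 h.symm), zero_add, coeff_C_zero]
    intro h
    have h1 := fermprime_sq a _ h
    rw [map_add, map_add, Derivation.leibniz_pow, MvPolynomial.pderiv_X_self,
      show (1 : MvPolynomial (Fin 1) k) = MvPolynomial.C 1 from (map_one _).symm,
      MvPolynomial.pderiv_C, map_zero, zero_add, smul_eq_mul, map_nsmul, map_mul, map_pow,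
      MvPolynomial.eval_X, MvPolynomial.eval_C, mul_one, nsmul_eq_mul] at h1
    exact mul_ne_zero hd (pow_ne_zero _ ha0) h1

theorem tFermPrime : StFermPrime := by
  intro k _ _ σ _ d hσ hd
  let e₁ : MvPolynomial σ k ≃ₐ[k] MvPolynomial (Fin 2) k :=
    MvPolynomial.renameEquiv k (Fintype.equivFinOfCardEq hσ)
  let e : MvPolynomial σ k ≃ₐ[k] (MvPolynomial (Fin 1) k)[X] :=
    e₁.trans (MvPolynomial.finSuccEquiv k 1)
  have h1 : e₁ (fermat k σ d) = 1 + ∑ j : Fin 2, MvPolynomial.X j ^ d := by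
    unfold fermat
    rw [map_add, map_one, map_sum]
    congr 1
    rw [← (Fintype.equivFinOfCardEq hσ).sum_comp (fun j => (MvPolynomial.X j ^ d :
      MvPolynomial (Fin 2) k))]
    refine Finset.sum_congr rfl fun j _ => ?_
    rw [map_pow]
    congr 1
    exact MvPolynomial.rename_X _ _
  have h2 : e (fermat k σ d) = X ^ d + C (1 + MvPolynomial.X 0 ^ d) := by
    change MvPolynomial.finSuccEquiv k 1 (e₁ (fermat k σ d)) = _
    rw [h1, Fin.sum_univ_two, map_add, map_add, map_pow, map_pow, map_one,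
      MvPolynomial.finSuccEquiv_X_zero, show (1 : Fin 2) = Fin.succ 0 from rfl,
      MvPolynomial.finSuccEquiv_X_succ, map_add, map_one, map_pow]
    ring
  have h3 : Prime (e (fermat k σ d)) := by
    rw [h2]
    exact (fermprime_irr d hd).prime
  have h4 : Prime (fermat k σ d) := (MulEquiv.prime_iff e).1 h3
  exact (Ideal.span_singleton_prime h4.ne_zero).2 h4

end Pool.Agent.Lib.MP_4ca46c_ag.Std
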