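import Mathlib
import Pool.Agent.Lib.MP_4ca46c_ag.Std.FermSpec49
import Pool.Agent.Lib.MP_4ca46c_ag.Hyp.AffSmooth

/-!
# The affine Fermat curve is smooth
-/

namespace Pool.Agent.Lib.MP_4ca46c_ag.Std

open TensorProduct

/-- a partial derivative which is not in `q` shows that the differential is not zero at `q` -/
theorem fermsm_diff {k σ : Type} [Field k] (f : MvPolynomial σ k) (q : Ideal (MvPolynomial σ k))
    [q.IsPrime] (h : (1 : q.ResidueField) ⊗ₜ[MvPolynomial σ k]
      KaehlerDifferential.D k (MvPolynomial σ k) f = 0) (j : σ) :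
    MvPolynomial.pderiv j f ∈ q := by
  have h1 := congrArg (LinearMap.lTensor q.ResidueField
    ((KaehlerDifferential.mvPolynomialBasis k σ).coord j)) h
  rw [LinearMap.lTensor_tmul, map_zero] at h1
  have h2 := congrArg (TensorProduct.rid (MvPolynomial σ k) q.ResidueField) h1
  rw [TensorProduct.rid_tmul, map_zero, Module.Basis.coord_apply,
    KaehlerDifferential.mvPolynomialBasis_repr_apply, Algebra.smul_def, mul_one] at h2
  exact Ideal.algebraMap_residueField_eq_zero.1 h2

theorem tFermSm (h : StJac) : StFermSm := by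
  classical
  intro k _ σ _ d hσ hd Q hQ
  have hd0 : d ≠ 0 := by
    rintro rfl
    exact hd (by simp)
  have hq : (Q.comap (Ideal.Quotient.mk (Ideal.span {fermat k σ d}))).IsPrime :=
    Ideal.comap_isPrime _ _
  set q := Q.comap (Ideal.Quotient.mk (Ideal.span {fermat k σ d})) with hqdef
  have hf : fermat k σ d ∈ q := by
    rw [hqdef, Ideal.mem_comap, Ideal.Quotient.eq_zero_iff_mem.2 (Ideal.mem_span_singleton_self _)]
    exact Ideal.zero_mem _
  have hst : Algebra.IsStandardSmoothOfRelativeDimension (1 + 1) k (MvPolynomial σ k) := by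
    have h1 := Hyp.smooth_mvPoly k σ
    rwa [Nat.card_eq_fintype_card, hσ] at h1
  obtain ⟨b, hb, hb'⟩ := h k (MvPolynomial σ k) 1 (fermat k σ d) q hf (by
    intro h0
    have h1 : ∀ j : σ, (MvPolynomial.X j : MvPolynomial σ k) ∈ q := by
      intro j
      have h2 := fermsm_diff _ q h0 j
      have h3 : MvPolynomial.pderiv j (fermat k σ d) =
          MvPolynomial.C (d : k) * MvPolynomial.X j ^ (d - 1) := by
        unfold fermat
        rw [map_add, map_sum, Finset.sum_eq_single j]
        · rw [Derivation.leibniz_pow, MvPolynomial.pderiv_X_self,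
            show (1 : MvPolynomial σ k) = MvPolynomial.C 1 from (map_one _).symm,
            MvPolynomial.pderiv_C, zero_add, smul_eq_mul, map_one, mul_one, nsmul_eq_mul,
            map_natCast]
        · intro i _ hij
          rw [Derivation.leibniz_pow, MvPolynomial.pderiv_X_of_ne hij, smul_zero, smul_zero]
        · intro h
          exact absurd (Finset.mem_univ j) h
      rw [h3] at h2
      rcases hq.mem_or_mem h2 with h4 | h4
      · exfalso
        have h5 : IsUnit (MvPolynomial.C (d : k) : MvPolynomial σ k) :=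
          (isUnit_iff_ne_zero.2 hd).map _
        exact hq.ne_top (Ideal.eq_top_of_isUnit_mem _ h4 h5)
      · exact hq.mem_of_pow_mem _ h4
    have h6 : (1 : MvPolynomial σ k) ∈ q := by
      have h7 : (1 : MvPolynomial σ k) = fermat k σ d - ∑ j, MvPolynomial.X j ^ d := by
        unfold fermat
        ring
      rw [h7]
      exact Ideal.sub_mem _ hf (Ideal.sum_mem _ fun j _ =>
        Ideal.pow_mem_of_mem _ (h1 j) d (Nat.pos_of_ne_zero hd0))
    exact hq.ne_top ((Ideal.eq_top_iff_one _).2 h6))
  exact ⟨Ideal.Quotient.mk _ b, hb, hb'⟩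

end Pool.Agent.Lib.MP_4ca46c_ag.Std
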