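import Mathlib
import Pool.Agent.Lib.MP_4ca46c_ag.Std.FermSpec49
import Pool.Agent.Lib.MP_4ca46c_ag.Hyp.Scale
import Pool.Agent.Lib.MP_4ca46c_ag.Std.GeomConn

/-!
# The Fermat curve
-/

namespace Pool.Agent.Lib.MP_4ca46c_ag.Std

open CategoryTheory Limits AlgebraicGeometry MvPolynomial
open Pool.Agent.Lib.MP_4ca46c_ag.Sign Pool.Agent.Lib.MP_4ca46c_ag.Hyp

attribute [local instance] MvPolynomial.gradedAlgebra

section

variable {k : Type} [Field k] {κ : Type} [Fintype κ] [DecidableEq κ] (d : ℕ)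

theorem ferm_card (hκ : Fintype.card κ = 3) (i : κ) : Fintype.card {j // j ≠ i} = 2 := by
  rw [← Nat.card_eq_fintype_card]
  exact card_ne (by rw [Nat.card_eq_fintype_card, hκ]) i

omit [Fintype κ] [DecidableEq κ] in
theorem smooth_local {X : Scheme.{0}} (F : X ⟶ PS k κ) (n : ℕ)
    (h : ∀ i, ∃ (Y : Scheme.{0}) (e : (F ⁻¹ᵁ psD i).toScheme ≅ Y)
      (y : Y ⟶ Spec (CommRingCat.of k)), e.hom ≫ y = (F ⁻¹ᵁ psD i).ι ≫ F ≫ psStr k κ ∧
        SmoothOfRelativeDimension n y) : SmoothOfRelativeDimension n (F ≫ psStr k κ) := by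
  refine IsZariskiLocalAtSource.of_iSup_eq_top (fun i => F ⁻¹ᵁ psD i) (iSup_pre_psD _) fun i => ?_
  obtain ⟨Y, e, y, he, hy⟩ := h i
  rw [← he]
  have st := smoothOfRelativeDimension_isStableUnderBaseChange.{0} n
  have ri : MorphismProperty.RespectsIso (@SmoothOfRelativeDimension.{0} n) :=
    st.respectsIso
  exact (MorphismProperty.cancel_left_of_respectsIso (@SmoothOfRelativeDimension.{0} n)
    e.hom _).2 hy

theorem ferm_smooth (h1 : StFermSm) (h2 : StLocSm₁) (hκ : Fintype.card κ = 3)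
    (hd : (d : k) ≠ 0) : SmoothOfRelativeDimension 1 (fermι κ d k ≫ psStr k κ) := by
  refine smooth_local (fermι κ d k) 1 fun i => ?_
  obtain ⟨e, he⟩ := ferm_chart (k := k) d i
  exact ⟨_, e, _, he, h2 k (FR d k i) 1 (h1 k {j // j ≠ i} d (ferm_card hκ i) hd)⟩

omit [DecidableEq κ] in
theorem ferm_proper : IsProper (fermι κ d k ≫ psStr k κ) := inferInstance

omit [DecidableEq κ] in
/-- A point of the Fermat hypersurface with nonzero coordinates. -/
theorem ferm_point (i : κ) (c : κ → k) (hc : ∀ j, c j ≠ 0) (hi : c i = 1)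
    (h : ∑ j, c j ^ d = 0) : ∃ x : Ferm κ d k, ∀ j, x ∈ fermι κ d k ⁻¹ᵁ psD j := by
  obtain ⟨F, hF, hD, hco⟩ := exists_vec (k := k)
    (fun j => cst (𝟙 (Spec (CommRingCat.of k))) ⊤ (c j)) (i := i) (by rw [hi, map_one]) (𝟙 _)
  obtain ⟨G, hG⟩ : ∃ G, G ≫ fermι κ d k = F := by
    refine (ferm_factor_iff d F i hD).2 ?_
    simp only [hco, ← map_pow, ← map_sum, h, map_zero]
  have hj : ∀ j, ⊤ ≤ F ⁻¹ᵁ psD j := fun j => PreCoord.ps_le F ⊤ i j hD (by
    rw [hco j]
    exact (IsUnit.mk0 _ (hc j)).map _)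
  let x : Spec (CommRingCat.of k) := Classical.arbitrary _
  refine ⟨G x, fun j => ?_⟩
  have h1 : (G ≫ fermι κ d k) x ∈ psD j := by
    rw [hG]
    exact hj j (Set.mem_univ x)
  exact h1

theorem ferm_irr (h0 : StFermPrime) [IsAlgClosed k] (hκ : Fintype.card κ = 3)
    (hd : (d : k) ≠ 0) (x : Ferm κ d k) (hx : ∀ j, x ∈ fermι κ d k ⁻¹ᵁ psD j) :
    IrreducibleSpace (Ferm κ d k) := by
  refine irr_of_cover (fun i => ((fermι κ d k ⁻¹ᵁ psD i : (Ferm κ d k).Opens) :
    Set (Ferm κ d k))) (fun i => (fermι κ d k ⁻¹ᵁ psD i).isOpen)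
    (fun z => TopologicalSpace.Opens.mem_iSup.1
      ((iSup_pre_psD (fermι κ d k)).ge (Set.mem_univ z))) x hx fun i => ?_
  obtain ⟨e, -⟩ := ferm_chart (k := k) d i
  have hp : (Ideal.span {(1 + ∑ j, X j ^ d : MvPolynomial {j // j ≠ i} k)}).IsPrime :=
    h0 k {j // j ≠ i} d (ferm_card hκ i) hd
  have hdom : IsDomain (FR d k i) := Ideal.Quotient.isDomain _
  have hirr : IrreducibleSpace (Spec (CommRingCat.of (FR d k i))) := by
    have : IrreducibleSpace (PrimeSpectrum (FR d k i)) := inferInstance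
    exact this
  have := irr_range e
  have h := (IrreducibleSpace.isIrreducible_univ (fermι κ d k ⁻¹ᵁ psD i).toScheme).image
    (fermι κ d k ⁻¹ᵁ psD i).ι (fermι κ d k ⁻¹ᵁ psD i).ι.continuous.continuousOn
  rw [Set.image_univ, Scheme.Opens.range_ι] at h
  exact h.2

end

/-- A vector with nonzero coordinates on the Fermat curve. -/
theorem exists_fermPt (k : Type) [Field k] [IsAlgClosed k] (d : ℕ) (hd : d ≠ 0) :
    ∃ c : Fin 3 → k, (∀ j, c j ≠ 0) ∧ c 0 = 1 ∧ ∑ j, c j ^ d = 0 := by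
  obtain ⟨y, hy, hy'⟩ : ∃ y : k, y ≠ 0 ∧ 1 + y ^ d ≠ 0 := by
    have h1 : (Polynomial.X * (1 + Polynomial.X ^ d) : Polynomial k) ≠ 0 := by
      refine mul_ne_zero Polynomial.X_ne_zero fun h => ?_
      have h2 := congrArg (Polynomial.eval 0) h
      simp [hd] at h2
    obtain ⟨y, hy⟩ := Polynomial.exists_eval_ne_zero_of_natDegree_lt_card _ h1
      (lt_of_lt_of_le Cardinal.natCast_lt_aleph0 (Cardinal.aleph0_le_mk k))
    rw [Polynomial.eval_mul, Polynomial.eval_X, Polynomial.eval_add, Polynomial.eval_one,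
      Polynomial.eval_pow, Polynomial.eval_X] at hy
    exact ⟨y, left_ne_zero_of_mul hy, right_ne_zero_of_mul hy⟩
  obtain ⟨z, hz⟩ := IsAlgClosed.exists_pow_nat_eq (-(1 + y ^ d)) (Nat.pos_of_ne_zero hd)
  have hz0 : z ≠ 0 := by
    rintro rfl
    rw [zero_pow hd] at hz
    exact hy' (neg_eq_zero.1 hz.symm)
  refine ⟨![1, y, z], fun j => ?_, rfl, ?_⟩
  · fin_cases j
    · exact one_ne_zero
    · exact hy
    · exact hz0
  · rw [Fin.sum_univ_three]
    change 1 ^ d + y ^ d + z ^ d = 0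
    rw [hz, one_pow]
    ring

theorem exists_fermScale (k : Type) [Field k] [IsAlgClosed k] (d : ℕ) (hd : (d : k) ≠ 0)
    (h3 : 3 ≤ d) : ∃ c : Fin 3 → k, (∀ j, c j ≠ 0) ∧ (∀ j, c j ^ d = 1) ∧
      Function.Injective c := by
  have : NeZero (d : k) := ⟨hd⟩
  obtain ⟨ζ, hζ⟩ := HasEnoughRootsOfUnity.exists_primitiveRoot k d
  have h0 : ζ ≠ 0 := hζ.ne_zero (by omega)
  refine ⟨fun j => ζ ^ (j : ℕ), fun j => pow_ne_zero _ h0, fun j => ?_, fun i j h => ?_⟩
  · change (ζ ^ (j : ℕ)) ^ d = 1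
    rw [← pow_mul, mul_comm, pow_mul, hζ.pow_eq_one, one_pow]
  · exact Fin.ext (hζ.pow_inj (by omega) (by omega) h)

theorem exists_fermDeg (k : Type) [Field k] : ∃ d : ℕ, (d : k) ≠ 0 ∧ 3 ≤ d := by
  by_cases h : ((3 : ℕ) : k) = 0
  · refine ⟨4, fun h4 => ?_, by norm_num⟩
    have h5 : ((4 : ℕ) : k) = ((3 : ℕ) : k) + 1 := by push_cast; norm_num
    rw [h4, h, zero_add] at h5
    exact zero_ne_one h5
  · exact ⟨3, h, le_rfl⟩

section

variable {k₀ K : Type} [Field k₀] [Field K]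

/-- **There is a curve with nonzero cohomology in degree 1.** -/
theorem tCurve' (h0 : StFermPrime) (h1 : StFermSm) (h2 : StLocSm₁) (h3 : StGeomConn)
    (h4 : StAut k₀ K) (T : WeilTheory k₀ K) (E : Extra T) (k : Type) [Field k] [Algebra k₀ k]
    [IsAlgClosed k] : ∃ C : ProjVar k₀ k, C.n = 1 ∧ ∃ y ∈ T.deg C.X 1, y ≠ 0 := by
  obtain ⟨d, hd, hd3⟩ := exists_fermDeg k
  obtain ⟨c, hc, hc1, hci⟩ := exists_fermScale k d hd hd3
  obtain ⟨v, hv, hv0, hv1⟩ := exists_fermPt k d (by omega)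
  obtain ⟨p, hp⟩ := ferm_point (k := k) d 0 v hv hv0 hv1
  have hirr : IrreducibleSpace (Ferm (Fin 3) d k) := ferm_irr d h0 (by simp) hd p hp
  obtain ⟨σ, hσ⟩ := exists_fermAut (k := k) (κ := Fin 3) d (hc := hc) hc1
  have hσi : IsIso σ := fermAut_iso d hc1 σ hσ
  let X : Sch k₀ := Over.mk ((fermι (Fin 3) d k ≫ psStr k (Fin 3)) ≫ (pt k₀ k).hom)
  let x : X ⟶ pt k₀ k := Over.homMk (fermι (Fin 3) d k ≫ psStr k (Fin 3)) rfl
  have hx : IsVar x 1 := ⟨ferm_smooth d h1 h2 (by simp) hd, ferm_proper d,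
    h3 k _ (fermι (Fin 3) d k ≫ psStr k (Fin 3)) inferInstance⟩
  let e : X ⟶ PSo k₀ k (Fin 3) := Over.homMk (fermι (Fin 3) d k) (Category.assoc _ _ _).symm
  have he : e ≫ PSo.str k₀ k (Fin 3) = x := Over.OverMorphism.ext rfl
  have hσx : σ ≫ fermι (Fin 3) d k ≫ psStr k (Fin 3) = fermι (Fin 3) d k ≫ psStr k (Fin 3) := by
    rw [← Category.assoc, hσ, Category.assoc, scl_str]
  let s : X ⟶ X := Over.homMk σ ((Category.assoc _ _ _).symm.trans
    (eq_whisker hσx (pt k₀ k).hom))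
  have hs : IsIso s := by
    have : IsIso ((Over.forget _).map s) := hσi
    exact isIso_of_reflects_iso s (Over.forget _)
  have hsx : s ≫ x = x := Over.OverMorphism.ext hσx
  let γ : X ⟶ pullback x x := pullback.lift (𝟙 X) s (by rw [Category.id_comp, hsx])
  have hγ1 : γ ≫ pullback.fst x x = 𝟙 X := pullback.lift_fst _ _ _
  have hγ2 : γ ≫ pullback.snd x x = s := pullback.lift_snd _ _ _
  refine ⟨⟨X, x, 1, hx, Fin 3, 0, e, inferInstanceAs (IsClosedImmersion (fermι (Fin 3) d k)),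
    he⟩, rfl, ?_⟩
  refine h4 T E k X x s γ hx hs hsx hγ1 hγ2 fun z hz => ?_
  obtain ⟨z', hz'⟩ := hz
  obtain ⟨w, hw, -⟩ := Scheme.Pullback.exists_preimage_pullback z z' hz'.symm
  have h5 : pullback.fst γ.left (pullback.diagonal x).left =
      pullback.snd γ.left (pullback.diagonal x).left := by
    have h6 := pullback.condition (f := γ.left) (g := (pullback.diagonal x).left)
    have h7 : γ.left ≫ (pullback.fst x x).left = 𝟙 _ := by
      rw [← Over.comp_left, hγ1]; rfl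
    have h8 : (pullback.diagonal x).left ≫ (pullback.fst x x).left = 𝟙 _ := by
      rw [← Over.comp_left, pullback.diagonal_fst]; rfl
    have h9 := congrArg (· ≫ (pullback.fst x x).left) h6
    simpa only [Category.assoc, h7, h8, Category.comp_id] using h9
  have h6 : pullback.fst γ.left (pullback.diagonal x).left ≫ σ =
      pullback.fst γ.left (pullback.diagonal x).left := by
    have h6 := pullback.condition (f := γ.left) (g := (pullback.diagonal x).left)
    have h7 : γ.left ≫ (pullback.snd x x).left = σ := by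
      rw [← Over.comp_left, hγ2]; rfl
    have h8 : (pullback.diagonal x).left ≫ (pullback.snd x x).left = 𝟙 _ := by
      rw [← Over.comp_left, pullback.diagonal_snd]; rfl
    have h9 := congrArg (· ≫ (pullback.snd x x).left) h6
    simp only [Category.assoc, h7, h8, Category.comp_id] at h9
    rw [h9, h5]
  have h7 := scl_fixed (k := k) (κ := Fin 3) d (hc := hc) (by omega) hci
    (pullback.fst γ.left (pullback.diagonal x).left ≫ fermι (Fin 3) d k) ⟨_, rfl⟩ (by
      rw [Category.assoc, ← hσ, ← Category.assoc, h6])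
  exact h7.false w

end

end Pool.Agent.Lib.MP_4ca46c_ag.Std
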