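import Mathlib
import Pool.Agent.Lib.MP_4ca46c_ag.Std.Final
import Pool.Agent.Lib.MP_4ca46c_ag.Std.Bridge2
import Pool.Agent.Lib.MP_4ca46c_ag.Std.Fermat
import Pool.Agent.Lib.MP_4ca46c_ag.Std.Aut
import Pool.Agent.Lib.MP_4ca46c_ag.Std.FermPrime
import Pool.Agent.Lib.MP_4ca46c_ag.Std.FermSm

/-!
# The equivalence, for the compact form of the axioms
-/

namespace Pool.Agent.Lib.MP_4ca46c_ag.Std

open CategoryTheory Limits AlgebraicGeometry
open Pool.Agent.Lib.MP_4ca46c_ag.Sign Pool.Agent.Lib.MP_4ca46c_ag.Hyp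

variable {k₀ K : Type} [Field k₀] [Field K]

theorem tCurve (T : WeilTheory k₀ K) (E : Extra T) (k : Type) [Field k] [Algebra k₀ k]
    [IsAlgClosed k] : ∃ C : ProjVar k₀ k, C.n = 1 ∧ ∃ y ∈ T.deg C.X 1, y ≠ 0 :=
  tCurve' tFermPrime (tFermSm tJac) tLocSm₁ fGeomConn (tAut k₀ K (tDisjoint k₀ K)) T E k

theorem charZero_of_extra (T : WeilTheory k₀ K) (E : Extra T) : CharZero K := by
  obtain ⟨C, -, y, -, hy⟩ := tCurve T E (AlgebraicClosure k₀)
  exact key_charZero T hy

variable {D : CohData k₀ K} (h : D.IsTheory) (h' : IsStandard D)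

section

variable {k : Type} [Field k] [Algebra k₀ k] [IsAlgClosed k] (V : ProjVar k₀ k)

theorem sign_iff : (ofProj V).SignConj D ↔ (V.toP (bridge_extra h h')).SignConj :=
  signConj_iff h k V (V.h_mem (D.weil h) tPS tHyp)
    ((bridge_extra h h').lefschetz V.str V.n V.isVar V.i V.emb V.closed V.emb_str).1
    ((bridge_extra h h').lefschetz V.str V.n V.isVar V.i V.emb V.closed V.emb_str).2

theorem kunneth_iff : (ofProj V).KunnethConj D ↔ (V.toP (bridge_extra h h')).KunnethConj :=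
  kunnethConj_iff h k V (V.h_mem (D.weil h) tPS tHyp)
    ((bridge_extra h h').lefschetz V.str V.n V.isVar V.i V.emb V.closed V.emb_str).1
    ((bridge_extra h h').lefschetz V.str V.n V.isVar V.i V.emb V.closed V.emb_str).2

theorem lefschetz_iff : (ofProj V).LefschetzConj D ↔
    (V.toP (bridge_extra h h')).LefschetzConj :=
  lefschetzConj_iff h k V (V.h_mem (D.weil h) tPS tHyp)
    ((bridge_extra h h').lefschetz V.str V.n V.isVar V.i V.emb V.closed V.emb_str).1
    ((bridge_extra h h').lefschetz V.str V.n V.isVar V.i V.emb V.closed V.emb_str).2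

end

include h h' in
theorem std_main : (∀ V : PrVar k₀, ∃ W : PrVar k₀, W.n = 2 * V.n ∧
      (W.SignConj D → V.KunnethConj D ∧ V.LefschetzConj D)) ∧
    [∀ V : PrVar k₀, V.SignConj D, ∀ V : PrVar k₀, V.KunnethConj D,
      ∀ V : PrVar k₀, V.LefschetzConj D].TFAE := by
  have E := bridge_extra h h'
  have : CharZero K := charZero_of_extra (D.weil h) E
  have key : ∀ V : PrVar k₀, ∃ W : PrVar k₀, W.n = 2 * V.n ∧
      (W.SignConj D → V.KunnethConj D ∧ V.LefschetzConj D) := by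
    intro V
    obtain ⟨C, hC1, hy⟩ := tCurve (D.weil h) E V.k
    obtain ⟨L, _, _, _, W, hn, hW⟩ := ProjVar.exists_section E C hC1 hy V.toProj
    refine ⟨ofProj W, hn, fun hs => ?_⟩
    obtain ⟨h1, h2⟩ := hW ((sign_iff h h' W).1 hs)
    exact ⟨(kunneth_iff h h' V.toProj).2 h1, (lefschetz_iff h h' V.toProj).2 h2⟩
  refine ⟨key, ?_⟩
  tfae_have 1 → 3 := fun H V => by
    obtain ⟨W, -, hW⟩ := key V
    exact (hW (H W)).2
  tfae_have 3 → 2 := fun H V => (kunneth_iff h h' V.toProj).2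
    ((tEasy' k₀ K (D.weil h) (V.toProj.toP E)).1 ((lefschetz_iff h h' V.toProj).1 (H V)))
  tfae_have 2 → 1 := fun H V => (sign_iff h h' V.toProj).2
    ((tEasy' k₀ K (D.weil h) (V.toProj.toP E)).2.1 ((kunneth_iff h h' V.toProj).1 (H V)))
  tfae_finish

end Pool.Agent.Lib.MP_4ca46c_ag.Std
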