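import Mathlib
import Pool.Agent.Lib.MP_4ca46c_ag.Std.Bridge3
import Pool.Agent.Lib.MP_4ca46c_ag.Std.Trdeg

/-!
# The equivalence over a fixed field
-/

namespace Pool.Agent.Lib.MP_4ca46c_ag.Std

open CategoryTheory Limits AlgebraicGeometry
open Pool.Agent.Lib.MP_4ca46c_ag.Sign Pool.Agent.Lib.MP_4ca46c_ag.Hyp

variable {k₀ K : Type} [Field k₀] [Field K]

/-- `exists_section`, with the information on the base field. -/
theorem ProjVar.exists_section' [CharZero K] {k : Type} [Field k] [Algebra k₀ k] [IsAlgClosed k]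
    {T : WeilTheory k₀ K} (E : Extra T) (C : ProjVar k₀ k) (hC : C.n = 1)
    (hy : ∃ y ∈ T.deg C.X 1, y ≠ 0) (X : ProjVar k₀ k) :
    ∃ (L : Type) (_ : Field L) (_ : Algebra k₀ L) (_ : IsAlgClosed L)
      (W : ProjVar k₀ L), W.n = 2 * X.n ∧
      (Cardinal.aleph0 ≤ Algebra.trdeg k₀ k → Nonempty (L ≃ₐ[k₀] k)) ∧
      ((W.toP E).SignConj → (X.toP E).KunnethConj ∧ (X.toP E).LefschetzConj) := by
  by_cases h0 : X.n = 0
  · refine ⟨k, inferInstance, inferInstance, inferInstance, X, by rw [h0],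
      fun _ => ⟨AlgEquiv.refl⟩, fun _ => ?_⟩
    exact (tEasy' k₀ K T (X.toP E)).2.2 h0
  · let V := trip tSegreGeo X C
    have hn : V.n = 2 * X.n + 1 := by
      change X.n + X.n + C.n = _
      omega
    have hm : 1 ≤ 2 * X.n := by omega
    let W := V.W E (2 * X.n) hm hn
    refine ⟨V.L, inferInstance, inferInstance, inferInstance, W, rfl, fun h => ?_, fun hW => ?_⟩
    · exact closure_equiv k₀ k V.κ V.F V.L h
    · have G := V.genSec E (2 * X.n) hm hn
      have e := trip_eq E tPS tHyp tSegreGeo (fSegre k₀ K) X C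
      have G' : GenSec (POver.trip (X.toPOver E tPS tHyp) (C.toPOver E tPS tHyp)
        (tripHL E tPS tHyp tSegreGeo (fSegre k₀ K) X C)).toPVar (W.toP E) := by
        rw [← e]
        exact G
      exact tLocalT k₀ K T k (X.toPOver E tPS tHyp) (C.toPOver E tPS tHyp) hC hy _ _ G' hW

variable {D : CohData k₀ K} (h : D.IsTheory) (h' : IsStandard D)

include h h' in
theorem std_local (V : PrVar k₀) : ∃ W : PrVar k₀, W.n = 2 * V.n ∧
    (Cardinal.aleph0 ≤ Algebra.trdeg k₀ V.k → W.IsOver V.k) ∧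
    (W.SignConj D → V.KunnethConj D ∧ V.LefschetzConj D) := by
  have E := bridge_extra h h'
  have : CharZero K := charZero_of_extra (D.weil h) E
  obtain ⟨C, hC1, hy⟩ := tCurve (D.weil h) E V.k
  obtain ⟨L, _, _, _, W, hn, hk, hW⟩ := ProjVar.exists_section' E C hC1 hy V.toProj
  refine ⟨ofProj W, hn, hk, fun hs => ?_⟩
  obtain ⟨h1, h2⟩ := hW ((sign_iff h h' W).1 hs)
  exact ⟨(kunneth_iff h h' V.toProj).2 h1, (lefschetz_iff h h' V.toProj).2 h2⟩

include h h' in
theorem std_class (P : PrVar k₀ → Prop) (hP : ∀ V : PrVar k₀, P V → ∃ W, P W ∧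
    (W.SignConj D → V.KunnethConj D ∧ V.LefschetzConj D)) :
    [∀ V, P V → V.SignConj D, ∀ V, P V → V.KunnethConj D,
      ∀ V, P V → V.LefschetzConj D].TFAE := by
  have E := bridge_extra h h'
  have : CharZero K := charZero_of_extra (D.weil h) E
  tfae_have 1 → 3 := fun H V hV => by
    obtain ⟨W, hW, h1⟩ := hP V hV
    exact (h1 (H W hW)).2
  tfae_have 3 → 2 := fun H V hV => (kunneth_iff h h' V.toProj).2
    ((tEasy' k₀ K (D.weil h) (V.toProj.toP E)).1 ((lefschetz_iff h h' V.toProj).1 (H V hV)))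
  tfae_have 2 → 1 := fun H V hV => (sign_iff h h' V.toProj).2
    ((tEasy' k₀ K (D.weil h) (V.toProj.toP E)).2.1 ((kunneth_iff h h' V.toProj).1 (H V hV)))
  tfae_finish

include h h' in
/-- The equivalence over a field of infinite transcendence degree over `k₀`. -/
theorem std_over (k : Type) [Field k] [Algebra k₀ k]
    (hk : Cardinal.aleph0 ≤ Algebra.trdeg k₀ k) :
    [∀ V : PrVar k₀, V.IsOver k → V.SignConj D, ∀ V : PrVar k₀, V.IsOver k → V.KunnethConj D,
      ∀ V : PrVar k₀, V.IsOver k → V.LefschetzConj D].TFAE := by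
  refine std_class h h' (fun V => V.IsOver k) fun V hV => ?_
  obtain ⟨W, -, hW, H⟩ := std_local h h' V
  obtain ⟨e⟩ := hV
  obtain ⟨e'⟩ := hW (by rw [e.trdeg_eq]; exact hk)
  exact ⟨W, ⟨e'.trans e⟩, H⟩

end Pool.Agent.Lib.MP_4ca46c_ag.Std
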