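import Pool.Agent.Lib.MP_4ca46c_ag.Std.BertSpec

/-!
# Transcendence degree count (module Card)
-/

namespace Pool.Agent.Lib.MP_4ca46c_ag.Std

theorem tCard : StCard := by
  intro k E ι _ _ _ _ S x hx halg
  let M := AlgebraicIndependent.matroid k E
  have hI : M.Indep (Set.range x) := AlgebraicIndependent.matroid_indep_iff.2 hx.coe_range
  have hsub : Set.range x ⊆ M.closure (S : Set E) := by
    rintro _ ⟨i, rfl⟩
    rw [AlgebraicIndependent.matroid_closure_eq]
    exact (IntermediateField.isAlgebraic_adjoin_iff
      (F := k) (s := (S : Set E)) (x := x i)).1 (halg i)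
  have h1 : (Set.range x).encard ≤ M.eRk (M.closure (S : Set E)) :=
    hI.encard_le_eRk_of_subset hsub
  rw [Matroid.eRk_closure_eq] at h1
  have h2 := h1.trans (M.eRk_le_encard (S : Set E))
  rw [Set.encard_coe_eq_coe_finsetCard, ← Set.image_univ, hx.injective.encard_image,
    Set.encard_univ, ENat.card_eq_coe_fintype_card] at h2
  exact_mod_cast h2

end Pool.Agent.Lib.MP_4ca46c_ag.Std
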