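import Mathlib
import Pool.Agent.Lib.MP_4ca46c_ag.Std.BertSpec2
import Pool.Agent.Lib.MP_4ca46c_ag.Hyp.ToPS

/-!
# The charts of a closed subscheme of projective space
-/

namespace Pool.Agent.Lib.MP_4ca46c_ag.Std

open CategoryTheory Limits AlgebraicGeometry Opposite HomogeneousLocalization MvPolynomial
open Pool.Agent.Lib.MP_4ca46c_ag.Sign Pool.Agent.Lib.MP_4ca46c_ag.Hyp

attribute [local instance] MvPolynomial.gradedAlgebra

variable {k : Type} [Field k] {κ : Type}

theorem chart_top (i : κ) : ⊤ ≤ psι (k := k) i ⁻¹ᵁ psD i := by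
  intro x _
  change psι i x ∈ psD i
  rw [psD, ← Proj.opensRange_awayι (homogeneousSubmodule κ k) (X i) (hX i) one_pos]
  exact ⟨x, rfl⟩

theorem chart_inj (i : κ) :
    Function.Injective ((psι (k := k) i).appLE (psD i) ⊤ (chart_top i)) := by
  have h2 : (psι i).appLE (psD i) ⊤ (chart_top i) = (psD (k := k) i).topIso.inv ≫
      (psIso (k := k) i).inv.appTop := by
    have h3 := Scheme.Hom.appLE_comp_appLE (psIso (k := k) i).inv (psD i).ι (psD i) ⊤ ⊤
      (by simp) (le_of_eq rfl)
    have h4 : (psIso (k := k) i).inv.appLE ⊤ ⊤ (le_of_eq rfl) = (psIso (k := k) i).inv.appTop :=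
      Scheme.Hom.appLE_eq_app _
    have h5 : (psD (k := k) i).ι.appLE (psD i) ⊤ (by simp) = (psD (k := k) i).topIso.inv := by
      rw [Scheme.Opens.ι_appLE, Scheme.Opens.topIso_inv]
      rfl
    rw [h4, h5] at h3
    exact h3.symm
  rw [h2]
  intro a b hab
  rw [CommRingCat.comp_apply, CommRingCat.comp_apply] at hab
  have h6 : IsIso (psIso (k := k) i).inv.appTop :=
    inferInstanceAs (IsIso ((psIso (k := k) i).inv.app ⊤))
  exact (ConcreteCategory.bijective_of_isIso (psD (k := k) i).topIso.inv).1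
    ((ConcreteCategory.bijective_of_isIso (psIso (k := k) i).inv.appTop).1 hab)

theorem chart_const (i : κ) (r : k) : (psStr k κ).appLE ⊤ (psD i) le_top
    ((Scheme.ΓSpecIso (CommRingCat.of k)).inv r) =
      Proj.awayToSection (homogeneousSubmodule κ k) (X i)
        (fromZeroRingHom (homogeneousSubmodule κ k) _
          (algebraMap k (homogeneousSubmodule κ k 0) r)) := by
  apply chart_inj i
  rw [psι_app, ← CommRingCat.comp_apply, Scheme.Hom.appLE_comp_appLE]
  have h1 : ∀ (φ : Spec (CommRingCat.of (Away (homogeneousSubmodule κ k)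
      (X i : MvPolynomial κ k))) ⟶ Spec (CommRingCat.of k)) (h : ⊤ ≤ φ ⁻¹ᵁ ⊤),
      φ = Spec.map (CommRingCat.ofHom ((fromZeroRingHom (homogeneousSubmodule κ k) _).comp
        (algebraMap k (homogeneousSubmodule κ k 0)))) →
      φ.appLE ⊤ ⊤ h ((Scheme.ΓSpecIso (CommRingCat.of k)).inv r) = (Scheme.ΓSpecIso
        (CommRingCat.of (Away (homogeneousSubmodule κ k) (X i : MvPolynomial κ k)))).inv
        (fromZeroRingHom (homogeneousSubmodule κ k) _
          (algebraMap k (homogeneousSubmodule κ k 0) r)) := by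
    rintro φ h rfl
    have h2 : (Spec.map (CommRingCat.ofHom ((fromZeroRingHom (homogeneousSubmodule κ k)
      (Submonoid.powers (X i : MvPolynomial κ k))).comp
        (algebraMap k (homogeneousSubmodule κ k 0))))).appLE ⊤ ⊤ h = Scheme.Hom.appTop _ :=
      Scheme.Hom.appLE_eq_app _
    rw [h2, ← CommRingCat.comp_apply, ← Scheme.ΓSpecIso_inv_naturality]
    rfl
  exact h1 _ _ (psι_str i)

theorem chart_gen {Z : Scheme.{0}} (F : Z ⟶ PS k κ) [IsClosedImmersion F] (i : κ)
    (a : Γ(Z, F ⁻¹ᵁ psD i)) : ∃ p : MvPolynomial κ k,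
      a = F.app (psD i) (Proj.awayToSection (homogeneousSubmodule κ k) (X i) (dehom i p)) := by
  have hA : IsAffineOpen (psD (k := k) i) :=
    Proj.isAffineOpen_basicOpen (homogeneousSubmodule κ k) (X i) (hX i) one_pos
  obtain ⟨b, rfl⟩ := F.app_surjective (psD i) hA a
  have h1 : Function.Surjective
      (Proj.awayToSection (homogeneousSubmodule κ k) (X i : MvPolynomial κ k)) :=
    (ConcreteCategory.bijective_of_isIso (Proj.basicOpenIsoAway (homogeneousSubmodule κ k)
      (X i : MvPolynomial κ k) (hX i) one_pos).hom).2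
  obtain ⟨c, rfl⟩ := h1 b
  obtain ⟨n, p, hp, rfl⟩ := Away.mk_surjective (homogeneousSubmodule κ k) (hX i) c
  exact ⟨p, by rw [dehom_eq]⟩

theorem chart_main {Z : Scheme.{0}} (F : Z ⟶ PS k κ) (hF : IsClosedImmersion F) (i : κ)
    (s : Z ⟶ Spec (CommRingCat.of k)) (hs : F ≫ psStr k κ = s)
    (_ : Algebra k Γ(Z, F ⁻¹ᵁ psD i))
    (h : algebraMap k Γ(Z, F ⁻¹ᵁ psD i) = resHom s _) :
    Algebra.adjoin k (Set.range fun j => F.app (psD i) (psf i j)) = ⊤ := by
  rw [eq_top_iff]
  intro a _
  obtain ⟨p, rfl⟩ := chart_gen F i a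
  induction p using MvPolynomial.induction_on with
  | C r =>
    have h1 : F.app (psD i) (Proj.awayToSection (homogeneousSubmodule κ k) (X i)
        (dehom i (C r))) = algebraMap k Γ(Z, F ⁻¹ᵁ psD i) r := by
      rw [dehom, coe_eval₂Hom, eval₂_C, h]
      subst hs
      change F.app (psD i) (Proj.awayToSection (homogeneousSubmodule κ k) (X i)
        (fromZeroRingHom (homogeneousSubmodule κ k) _
          (algebraMap k (homogeneousSubmodule κ k 0) r))) =
        (F ≫ psStr k κ).appLE ⊤ (F ⁻¹ᵁ psD i) _ ((Scheme.ΓSpecIso (CommRingCat.of k)).inv r)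
      rw [← chart_const, ← CommRingCat.comp_apply, Scheme.Hom.app_eq_appLE,
        Scheme.Hom.appLE_comp_appLE]
    rw [h1]
    exact (Algebra.adjoin k _).algebraMap_mem r
  | add p q hp hq =>
    rw [map_add, map_add, map_add]
    exact add_mem (hp trivial) (hq trivial)
  | mul_X p j hp =>
    rw [map_mul, map_mul, map_mul]
    refine mul_mem (hp trivial) (Algebra.subset_adjoin ⟨j, ?_⟩)
    rw [dehom, coe_eval₂Hom, eval₂_X]
    rfl

/-- The charts of a closed subscheme of projective space. -/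
theorem tChart : StChart := by
  intro k₀ k _ _ _ κ _ X x e he hc i _ halg
  constructor
  · have hA : IsAffineOpen (psD (k := k) i) :=
      Proj.isAffineOpen_basicOpen (homogeneousSubmodule κ k) (MvPolynomial.X i) (hX i) one_pos
    have hc' : IsClosedImmersion (Y := PS k κ) e.left := hc
    exact hA.preimage (Y := PS k κ) e.left
  · have h1 : e.left ≫ psStr k κ = x.left := by
      subst he
      rfl
    exact chart_main (κ := κ) (Z := X.left) e.left hc i x.left h1 _ halg

end Pool.Agent.Lib.MP_4ca46c_ag.Std
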