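import Mathlib
import Pool.Agent.Lib.MP_4ca46c_ag.Std.ChowSpec
import Pool.Agent.Lib.MP_4ca46c_ag.Hyp.ProjCoord

/-!
# Specification: the Fermat curve

The plane curve `x^d + y^d + z^d = 0` (`d = 3` or `4`, not divisible by the characteristic) has an
automorphism without fixed points, so it has nonzero cohomology in degree `1`.
-/

namespace Pool.Agent.Lib.MP_4ca46c_ag.Std

open CategoryTheory Limits AlgebraicGeometry TensorProduct MvPolynomial
open Pool.Agent.Lib.MP_4ca46c_ag.Sign Pool.Agent.Lib.MP_4ca46c_ag.Hyp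

attribute [local instance] MvPolynomial.gradedAlgebra

section Defs

variable (k : Type) [Field k] (d : ℕ)

/-- The equation `∑ (x_j / x_i)^d` on `D_+(x_i)`. -/
noncomputable def ferEq (i : Fin 3) : Γ(PS k (Fin 3), psD (k := k) i) := ∑ j, psf i j ^ d

/-- The Fermat curve. -/
noncomputable def ferS : Scheme.{0} := zero (ferEq k d)

/-- The embedding of the Fermat curve. -/
noncomputable def ferι : ferS k d ⟶ PS k (Fin 3) := zeroι (ferEq k d)

instance : IsClosedImmersion (ferι k d) :=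
  inferInstanceAs (IsClosedImmersion (zJ (ferEq k d)).subschemeι)

/-- The affine coordinate ring of the Fermat curve. -/
abbrev FerA : Type := MvPolynomial (Fin 2) k ⧸
  Ideal.span {(1 + X 0 ^ d + X 1 ^ d : MvPolynomial (Fin 2) k)}

variable (k₀ : Type) [Field k₀] [Algebra k₀ k]

/-- The Fermat curve over `k₀`. -/
noncomputable def ferX : Sch k₀ := Over.mk (ferι k d ≫ (PSo k₀ k (Fin 3)).hom)

/-- The embedding. -/
noncomputable def ferEmb : ferX k d k₀ ⟶ PSo k₀ k (Fin 3) := Over.homMk (ferι k d) rfl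

/-- The structure morphism. -/
noncomputable def ferStr : ferX k d k₀ ⟶ pt k₀ k := ferEmb k d k₀ ≫ PSo.str k₀ k (Fin 3)

end Defs

section Statements

/-- The universal property of the Fermat curve.

PROOF. `zero_iff` (`Hyp/Zero.lean`) for `g = ferEq k d`: `ferEq j` is `(x_i / x_j)^d ferEq i` on
`D_i ∩ D_j` (`psf_mul`, `Hyp/Proj.lean`), `iSup_psD`. -/
def StFerIff : Prop := ∀ (k : Type) [Field k] (d : ℕ) (T : Scheme.{0}) (t : T ⟶ PS k (Fin 3)),
  (∃ t', t' ≫ ferι k d = t) ↔ ∀ i, t.app (psD i) (ferEq k d i) = 0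

/-- The charts of the Fermat curve.

PROOF. A morphism `t : T ⟶ ferι ⁻¹ᵁ psD i` is a morphism `T ⟶ PS` with image in `psD i` and
`∑ j, t^*(psf i j)^d = 0` (`StFerIff`; the other equations are multiples on the intersections:
`T = t⁻¹ (psD i)`, and `ferEq j` is a multiple of `ferEq i` there). By `exists_vec'`, `unique_vec'`
(`Hyp/Vec.lean`) or `chart_iso` (`Hyp/Chart.lean`) such morphisms over `Spec k` are the same as pairs
`(a_j)_(j ≠ i)` of elements of `Γ(T, ⊤)`, here with `1 + ∑ a_j^d = 0`, that is (choosing a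
bijection of `{j // j ≠ i}` with `Fin 2`) ring homomorphisms `FerA k d ⟶ Γ(T, ⊤)` over `k`. -/
def StFerChart : Prop := ∀ (k : Type) [Field k] (d : ℕ) (i : Fin 3),
  ∃ e : (ferι k d ⁻¹ᵁ psD i).toScheme ≅ Spec (CommRingCat.of (FerA k d)),
    e.hom ≫ Spec.map (CommRingCat.ofHom (algebraMap k (FerA k d))) =
      (ferι k d ⁻¹ᵁ psD i).ι ≫ ferι k d ≫ psStr k (Fin 3)

/-- The affine Fermat curve is irreducible.

PROOF. `1 + X 0 ^ d + X 1 ^ d` is prime: via `MvPolynomial (Fin 2) k ≃ k[x][y]`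
(`MvPolynomial.finSuccEquiv` twice, or `Polynomial` algebra equivalences) it is the polynomial
`y^d + (1 + x^d)` over the principal ideal domain `k[x]`, irreducible by Eisenstein's criterion
(`Polynomial.irreducible_of_eisenstein_criterion`) for the prime `x - η`, `η^d = -1`: `x - η` divides
`x^d + 1`, but not twice, since the derivative `d x^(d-1)` is not zero at `η` (`η ≠ 0`).
Irreducible elements of a unique factorization domain are prime. -/
def StFerDom : Prop := ∀ (k : Type) [Field k] [IsAlgClosed k] (d : ℕ), 2 ≤ d → (d : k) ≠ 0 →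
  IsDomain (FerA k d)

/-- The affine Fermat curve is smooth.

PROOF. Let `q'` be a prime of `FerA`, `q` its inverse image in `B = k[X 0, X 1]`,
`f = 1 + X 0 ^ d + X 1 ^ d ∈ q`. `D f = d X 0 ^ (d-1) D (X 0) + d X 1 ^ (d-1) D (X 1)`, and `X 0`, `X 1`
are not both in `q` (otherwise `1 ∈ q`), so `1 ⊗ D f ≠ 0` in `κ(q) ⊗ Ω[B/k]` (basis `D (X j)`,
`KaehlerDifferential.mvPolynomialBasis`). Apply `StJac` with `n = 1`
(`MvPolynomial (Fin 2) k` is standard smooth of relative dimension `2`). -/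
def StFerSm : Prop := ∀ (k : Type) [Field k] (d : ℕ), (d : k) ≠ 0 → LocSm 1 k (FerA k d)

/-- The Fermat curve is a variety.

PROOF. Smooth of relative dimension `1`: local on the source, charts `StFerChart`, `StFerSm`,
`tLocSm₁` (`Std/LocSm.lean`). Proper: closed in projective space (`IsProper (psStr k κ)`,
`Hyp/Embed.lean`). Connected: the charts are irreducible (`StFerDom`) and meet each other: the
point with `x_i = 1`, `x_j = η`, third coordinate `0`, `η^d = -1` (`exists_vec`, `Hyp/Vec.lean`, and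
`StFerIff`) is in `D_i ∩ D_j`; use `irr_of_cover` (`Hyp/Chart.lean`) or
`PreirreducibleSpace.of_isOpenCover`. Geometrically connected: `fGeomConn` (`Std/Facts.lean`). -/
def StFerVar : Prop := ∀ (k₀ k : Type) [Field k₀] [Field k] [Algebra k₀ k] [IsAlgClosed k]
  (d : ℕ), 2 ≤ d → (d : k) ≠ 0 → IsVar (ferStr k d k₀) 1

/-- The automorphism `(x, y, z) ↦ (x, ζ y, ζ² z)` of the Fermat curve.

PROOF. Let `C = (psCoord k (Fin 3)).comap (ferι k d)` be the coordinates of the Fermat curve and `C'`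
the coordinates with the same `D i` and `f' i j = ζ^j ζ^(-i) f i j`. `C'.toPS` (`Hyp/ToPS.lean`)
satisfies the equations because `(ζ^j ζ^(-i))^d = 1`, so it gives `σ : ferS ⟶ ferS` (`StFerIff`).
It is an isomorphism, with inverse given in the same way by `ζ⁻¹` (`Rep.ext`, or
`hom_ext` for coordinates). Fixed points: if `t ≫ σ = t`, `t : T ⟶ ferX`, then on
`t ⁻¹ᵁ D i` we have `ζ^(j-i) t^*(f i j) = t^*(f i j)`, and `ζ^(j-i) - 1` is a unit for `j ≠ i`
(`ζ ≠ 1`, `ζ² ≠ 1`), so `t^*(f i j) = 0` for `j ≠ i`, and the equation says `1 = 0` on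
`t ⁻¹ᵁ D i`. So `T` is empty. -/
def StFerAut : Prop := ∀ (k₀ k : Type) [Field k₀] [Field k] [Algebra k₀ k] (d : ℕ) (ζ : k),
  ζ ^ d = 1 → ζ ≠ 1 → ζ ^ 2 ≠ 1 → ∃ σ : ferX k d k₀ ⟶ ferX k d k₀, IsIso σ ∧
    σ ≫ ferStr k d k₀ = ferStr k d k₀ ∧ ∀ (T : Sch k₀) (t : T ⟶ ferX k d k₀), t ≫ σ = t →
      IsEmpty T.left

variable (k₀ K : Type) [Field k₀] [Field K]

/-- **A curve with an automorphism without fixed points has nonzero cohomology of degree `1`.**

PROOF. Suppose `H^1 = 0`. Let `e ∈ H^2(X)` be the class of a point (push-forward of `1` along a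
rational point, `IsVar.exists_point`): `tr e = 1` (`cl_push`, `tr_pt`). `H^i = 0` for `i > 2`
(Poincaré duality and `tr_eq_zero`), `H^0 = K` (`deg_zero`), `H^2 = K e` (if `u ∈ H^2` then
`u - tr(u) e` pairs to zero with `H^0` and, for degree reasons, with everything). So `1`, `e` span
`H(X)` (`internal`). Let `P = X × X`, `δ = push diag 1`, `γ = push (lift (𝟙 X) σ) 1`.
(1) `cl δ = p^* e + q^* e`: both sides have the same trace against `p^* u * q^* v` for
`u, v ∈ {1, e}` (`cl_push`, `tr_kunneth`; `e * e = 0`), and these span `H(P)` (`kunneth`); Poincaré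
duality for `P` (`Var.isVar_prod`).
(2) `tr (cl γ * cl δ) = tr (pullH (lift (𝟙 X) σ) (cl δ)) = tr e + tr (pullH σ e) = 2` (`cl_push`,
`pullH_comp`, `pullH_id`, `tr_iso`).
(3) `tr (cl γ * cl δ) = tr (cl δ * cl γ) = tr (cl (pull diag γ)) = 0` by `StDisjoint`: if
`diag z = (lift (𝟙 X) σ) w = v` in the underlying space of `P`, then `Spec κ(v) ⟶ P` factors
through both closed immersions (`IsClosedImmersion.lift` or the universal property of the residue
field), which gives `t : Spec κ(v) ⟶ X` with `t ≫ σ = t`, a contradiction. (`cl δ`, `cl γ` commute: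
`comm` in even degrees. `CH` is commutative, too.)
So `2 = 0` in `K`. (`IsProper`, `IsClosedImmersion` of the graph: a section of the separated first
projection.) -/
def StCurve : Prop := ∀ (T : WeilTheory k₀ K), Extra T → ∀ (k : Type) [Field k] [Algebra k₀ k]
  [IsAlgClosed k] (X : Sch k₀) (x : X ⟶ pt k₀ k), IsVar x 1 → ∀ (σ : X ⟶ X), IsIso σ →
  σ ≫ x = x → (∀ (T : Sch k₀) (t : T ⟶ X), t ≫ σ = t → IsEmpty T.left) → (2 : K) ≠ 0 →
  ∃ y ∈ T.deg X 1, y ≠ 0

/-- **There is a curve with nonzero cohomology in degree `1`** over every algebraically closed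
field.

PROOF. Assembly: `d = 3` if the characteristic of `k` is not `3`, `d = 4` otherwise; `ζ` a root of
unity of order exactly `d` (for `d = 3`: a root of `X^2 + X + 1`, `ζ ≠ 1` because `3 ≠ 0`,
`ζ² ≠ 1` since `ζ^3 = 1`; for `d = 4`: a root of `X^2 + 1`). `ProjVar` with `X = ferX k d k₀`,
`κ = Fin 3`, `emb = ferEmb k d k₀`. -/
def StExCurve : Prop := ∀ (T : WeilTheory k₀ K), Extra T → (2 : K) ≠ 0 → ∀ (k : Type) [Field k]
  [Algebra k₀ k] [IsAlgClosed k], ∃ C : ProjVar k₀ k, C.n = 1 ∧ ∃ y ∈ T.deg C.X 1, y ≠ 0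

end Statements

end Pool.Agent.Lib.MP_4ca46c_ag.Std
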