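import Mathlib
import Pool.Agent.Lib.MP_4ca46c_ag.Std.FermatSpec
import Pool.Agent.Lib.MP_4ca46c_ag.Sign.VarCat
import Pool.Agent.Lib.MP_4ca46c_ag.Sign.ToWeil

set_option autoImplicit false

/-!
# A curve with an automorphism without fixed points has cohomology in degree 1
-/

namespace Pool.Agent.Lib.MP_4ca46c_ag.Std

open CategoryTheory Limits AlgebraicGeometry TensorProduct
open Pool.Agent.Lib.MP_4ca46c_ag.Sign Pool.Agent.Lib.MP_4ca46c_ag.Hyp

variable {k₀ K : Type} [Field k₀] [Field K]

/-- induction on the degree -/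
theorem curveh_ind (T : WeilTheory k₀ K) {X : Sch k₀} (hX : IsWeil X) {p : T.H X → Prop}
    (h0 : p 0) (hadd : ∀ u v, p u → p v → p (u + v)) (h : ∀ j, ∀ v ∈ T.deg X j, p v)
    (v : T.H X) : p v := by
  have htop := (T.internal X hX).submodule_iSup_eq_top
  have hv : v ∈ ⨆ j, T.deg X j := by
    rw [htop]
    exact Submodule.mem_top
  exact Submodule.iSup_induction (T.deg X) (motive := p) hv h h0 hadd

/-- elements with trivial products -/
theorem curveh_zero (T : WeilTheory k₀ K) {X : Sch k₀} (hX : IsWeil X) (u : T.H X)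
    (h : ∀ j, ∀ v ∈ T.deg X j, T.tr X (u * v) = 0) : u = 0 := by
  refine T.poincare X hX u fun v => ?_
  refine curveh_ind T hX (p := fun v => T.tr X (u * v) = 0) ?_ ?_ h v
  · rw [mul_zero, map_zero]
  · intro a b ha hb
    rw [mul_add, map_add, ha, hb, add_zero]

/-- The graph of an automorphism which does not meet the diagonal (helper80, task 6246). -/
theorem curveh_aut (h : StDisjoint k₀ K) (T : WeilTheory k₀ K) (E : Extra T) (k : Type) [Field k]
    [Algebra k₀ k] [IsAlgClosed k] (C : Sch k₀) (x : C ⟶ pt k₀ k) (σ : C ⟶ C)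
    (γ : C ⟶ pullback x x) (hx : IsVar x 1) (hσ : IsIso σ) (hσx : σ ≫ x = x)
    (hγ1 : γ ≫ pullback.fst x x = 𝟙 C) (hγ2 : γ ≫ pullback.snd x x = σ)
    (hdis : ∀ z, γ.left z ∉ Set.range (pullback.diagonal x).left) : ∃ y ∈ T.deg C 1, y ≠ 0 := by
  by_contra hcon
  push Not at hcon
  have hC : IsWeil C := ⟨k, _, _, ‹_›, x, 1, hx⟩
  have hy := Var.isVar_prod hx hx
  have hP : IsWeil (pullback x x) := ⟨k, _, _, ‹_›, _, _, hy⟩
  have htr : ∀ i, i ≠ 2 → ∀ u ∈ T.deg C i, T.tr C u = 0 := fun i hi u hu =>
    T.tr_eq_zero x 1 hx i (by omega) u hu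
  -- degrees at least three
  have hbig : ∀ i, 2 < i → ∀ u ∈ T.deg C i, u = 0 := by
    intro i hi u hu
    refine curveh_zero T hC u fun j v hv => ?_
    exact htr (i + j) (by omega) _ (T.mulH_mem C hC i j u hu v hv)
  -- degree two
  have htwo : ∀ u ∈ T.deg C 2, T.tr C u = 0 → u = 0 := by
    intro u hu hu0
    refine curveh_zero T hC u fun j v hv => ?_
    rcases Nat.eq_zero_or_pos j with rfl | hj
    · obtain ⟨c, rfl⟩ := T.deg_zero C hC v hv
      rw [mul_smul_comm, mul_one, map_smul, hu0, smul_zero]
    · exact htr (2 + j) (by omega) _ (T.mulH_mem C hC 2 j u hu v hv)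
  -- a point
  obtain ⟨p, -⟩ := hx.exists_point
  have hone : (1 : T.H C) ≠ 0 := by
    intro h1
    have h2 : T.pullH p (1 : T.H C) = 1 := map_one _
    rw [h1, map_zero] at h2
    have h3 := T.tr_pt (k := k)
    rw [← h2, map_zero] at h3
    exact zero_ne_one h3
  obtain ⟨o, ho, hto⟩ : ∃ o ∈ T.deg C 2, T.tr C o = 1 := by
    by_contra hno
    push Not at hno
    refine hone (curveh_zero T hC 1 fun j v hv => ?_)
    rw [one_mul]
    by_cases hj : j = 2
    · subst hj
      by_contra hv0
      refine hno ((T.tr C v)⁻¹ • v) (Submodule.smul_mem _ _ hv) ?_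
      rw [map_smul, smul_eq_mul, inv_mul_cancel₀ hv0]
    · exact htr j hj v hv
  have hgen : ∀ u : T.H C, ∃ a b : K, u = a • (1 : T.H C) + b • o := by
    refine curveh_ind T hC ⟨0, 0, by simp⟩ ?_ ?_
    · rintro u v ⟨a, b, rfl⟩ ⟨a', b', rfl⟩
      exact ⟨a + a', b + b', by rw [add_smul, add_smul]; abel⟩
    · intro j v hv
      rcases Nat.lt_or_ge 2 j with hj | hj
      · exact ⟨0, 0, by rw [hbig j hj v hv]; simp⟩
      · interval_cases j
        · obtain ⟨c, rfl⟩ := T.deg_zero C hC v hv
          exact ⟨c, 0, by simp⟩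
        · exact ⟨0, 0, by rw [hcon v hv]; simp⟩
        · refine ⟨0, T.tr C v, ?_⟩
          have h1 := htwo (v - T.tr C v • o)
            (Submodule.sub_mem _ hv (Submodule.smul_mem _ _ ho)) (by
              rw [map_sub, map_smul, hto, smul_eq_mul, mul_one, sub_self])
          rw [zero_smul, zero_add]
          exact sub_eq_zero.1 h1
  -- the automorphism acts trivially
  have hσo : T.pullH σ o = o := by
    have h1 := htwo (T.pullH σ o - o) (Submodule.sub_mem _ (T.pullH_mem σ hC hC 2 o ho) ho) (by
      rw [map_sub, T.tr_iso σ hσ hC hC, sub_self])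
    exact sub_eq_zero.1 h1
  have hσid : ∀ u, T.pullH σ u = u := by
    intro u
    obtain ⟨a, b, rfl⟩ := hgen u
    rw [map_add, map_smul, map_smul, hσo, map_one]
  -- the pull-backs along the graph and the diagonal agree
  have hbij := T.kunneth x x (pullback.fst x x) (pullback.snd x x) 1 1 hx hx
    (IsPullback.of_hasPullback x x)
  have hsp : ∀ (M : Type) [AddCommGroup M] [Module K M] (f g : T.H (pullback x x) →ₗ[K] M),
      (∀ u v, f (T.pullH (pullback.fst x x) u * T.pullH (pullback.snd x x) v) =
        g (T.pullH (pullback.fst x x) u * T.pullH (pullback.snd x x) v)) → ∀ w, f w = g w := by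
    intro M _ _ f g hfg w
    obtain ⟨t, rfl⟩ := hbij.2 w
    have h1 : f ∘ₗ TensorProduct.lift ((LinearMap.mul K (T.H (pullback x x))).compl₁₂
        (T.pullH (pullback.fst x x)).toLinearMap (T.pullH (pullback.snd x x)).toLinearMap) =
        g ∘ₗ TensorProduct.lift ((LinearMap.mul K (T.H (pullback x x))).compl₁₂
        (T.pullH (pullback.fst x x)).toLinearMap (T.pullH (pullback.snd x x)).toLinearMap) :=
      TensorProduct.ext' fun u v => hfg u v
    exact LinearMap.congr_fun h1 t
  have hδ1 : pullback.diagonal x ≫ pullback.fst x x = 𝟙 C := pullback.diagonal_fst x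
  have hδ2 : pullback.diagonal x ≫ pullback.snd x x = 𝟙 C := pullback.diagonal_snd x
  have hδ : ∀ u v, T.pullH (pullback.diagonal x)
      (T.pullH (pullback.fst x x) u * T.pullH (pullback.snd x x) v) = u * v := by
    intro u v
    rw [map_mul, ← T.pullH_comp _ _ hC hP hC, ← T.pullH_comp _ _ hC hP hC, hδ1, hδ2,
      T.pullH_id hC, T.pullH_id hC]
  have hγ : ∀ u v, T.pullH γ
      (T.pullH (pullback.fst x x) u * T.pullH (pullback.snd x x) v) = u * v := by
    intro u v
    rw [map_mul, ← T.pullH_comp _ _ hC hP hC, ← T.pullH_comp _ _ hC hP hC, hγ1, hγ2,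
      T.pullH_id hC, hσid]
  have hγδ : ∀ w, T.pullH γ w = T.pullH (pullback.diagonal x) w :=
    hsp _ (T.pullH γ).toLinearMap (T.pullH (pullback.diagonal x)).toLinearMap fun u v => by
      change T.pullH γ _ = T.pullH (pullback.diagonal x) _
      rw [hδ, hγ]
  -- the diagonal does not meet the graph
  have hδx : pullback.diagonal x ≫ pullback.fst x x ≫ x = x := by
    rw [← Category.assoc, hδ1, Category.id_comp]
  have hcl : IsClosedImmersion (pullback.diagonal x).left := by
    have h1 : IsPullback (pullback.fst x x).left (pullback.snd x x).left x.left x.left :=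
      (IsPullback.of_hasPullback x x).map (Over.forget _)
    have h2 : IsSeparated x.left := hx.isSm.separated
    have h3 : IsSeparated (pullback.fst x x).left :=
      MorphismProperty.of_isPullback (P := @IsSeparated) h1.flip h2
    have h4 : (pullback.diagonal x).left ≫ (pullback.fst x x).left = 𝟙 C.left := by
      rw [← Over.comp_left, hδ1, Over.id_left]
    have h5 : IsClosedImmersion ((pullback.diagonal x).left ≫ (pullback.fst x x).left) := by
      rw [h4]
      infer_instance
    exact IsClosedImmersion.of_comp _ (pullback.fst x x).left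
  have hzero : T.pull γ (T.push (pullback.diagonal x) 1) = 0 :=
    h T E k C (pullback x x) C (pullback.diagonal x) γ (pullback.fst x x ≫ x) hy.isSm
      (by rw [hδx]; exact hx.isSm) hx.sm hcl hdis 1
  have hΔ0 : T.pullH (pullback.diagonal x) (T.cl _ (T.push (pullback.diagonal x) 1)) = 0 := by
    rw [← hγδ, ← T.cl_pull γ hC hP, hzero, map_zero]
  -- the class of the diagonal
  have hpush : ∀ w, T.tr _ (T.cl _ (T.push (pullback.diagonal x) 1) * w) =
      T.tr C (T.pullH (pullback.diagonal x) w) := by
    intro w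
    have h1 := T.cl_push x (pullback.fst x x ≫ x) (pullback.diagonal x) hδx 1 (1 + 1) hx hy 1 w
    have e1 : T.cl C 1 = 1 := map_one _
    rw [e1, one_mul] at h1
    exact h1
  have ho1 := T.pullH_mem (pullback.fst x x) hP hC 2 o ho
  have ho2 := T.pullH_mem (pullback.snd x x) hP hC 2 o ho
  have hcomm : T.pullH (pullback.snd x x) o * T.pullH (pullback.fst x x) o =
      T.pullH (pullback.fst x x) o * T.pullH (pullback.snd x x) o := by
    rw [T.comm _ hP 2 2 _ ho2 _ ho1]
    norm_num
  have hcomm' : ∀ u, T.pullH (pullback.snd x x) o * T.pullH (pullback.fst x x) u =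
      T.pullH (pullback.fst x x) u * T.pullH (pullback.snd x x) o := by
    intro u
    obtain ⟨a, b, rfl⟩ := hgen u
    rw [map_add, map_smul, map_smul, map_one, mul_add, add_mul, mul_smul_comm, mul_smul_comm,
      smul_mul_assoc, smul_mul_assoc, hcomm, mul_one, one_mul]
  have htr1 : T.tr C 1 = 0 := htr 0 (by norm_num) 1 (T.oneH_mem C hC)
  have hoo : T.tr C (o * o) = 0 := htr (2 + 2) (by norm_num) _ (T.mulH_mem C hC 2 2 o ho o ho)
  have hbil : ∀ u v, T.tr C (u * v) = T.tr C (o * u) * T.tr C v + T.tr C u * T.tr C (o * v) := by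
    intro u v
    obtain ⟨a, b, rfl⟩ := hgen u
    obtain ⟨a', b', rfl⟩ := hgen v
    simp only [mul_add, add_mul, smul_mul_assoc, mul_smul_comm, map_add, map_smul, mul_one,
      one_mul, htr1, hoo, hto, smul_eq_mul, smul_add]
    ring
  have hdiag : ∀ w, T.tr _ (T.cl _ (T.push (pullback.diagonal x) 1) * w) =
      T.tr _ ((T.pullH (pullback.fst x x) o + T.pullH (pullback.snd x x) o) * w) := by
    refine hsp K ((T.tr _).comp (LinearMap.mulLeft K
      (T.cl _ (T.push (pullback.diagonal x) 1)))) ((T.tr _).comp (LinearMap.mulLeft K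
      (T.pullH (pullback.fst x x) o + T.pullH (pullback.snd x x) o))) fun u v => ?_
    change T.tr _ (T.cl _ (T.push (pullback.diagonal x) 1) * _) = T.tr _ (_ * _)
    have e1 : (T.pullH (pullback.fst x x) o + T.pullH (pullback.snd x x) o) *
        (T.pullH (pullback.fst x x) u * T.pullH (pullback.snd x x) v) =
        T.pullH (pullback.fst x x) (o * u) * T.pullH (pullback.snd x x) v +
          T.pullH (pullback.fst x x) u * T.pullH (pullback.snd x x) (o * v) := by
      rw [add_mul, ← mul_assoc, ← mul_assoc, hcomm', map_mul (T.pullH (pullback.fst x x)),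
        map_mul (T.pullH (pullback.snd x x)), mul_assoc (T.pullH (pullback.fst x x) u)]
    rw [hpush, hδ, hbil, e1, map_add, T.tr_kunneth x x (pullback.fst x x)
      (pullback.snd x x) 1 1 hx hx (IsPullback.of_hasPullback x x), T.tr_kunneth x x
      (pullback.fst x x) (pullback.snd x x) 1 1 hx hx (IsPullback.of_hasPullback x x)]
  have hΔ : T.cl _ (T.push (pullback.diagonal x) 1) =
      T.pullH (pullback.fst x x) o + T.pullH (pullback.snd x x) o := by
    refine sub_eq_zero.1 (T.poincare _ hP _ fun w => ?_)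
    rw [sub_mul, map_sub, hdiag, sub_self]
  have hfin : o + o = 0 := by
    rw [hΔ, map_add, ← T.pullH_comp _ _ hC hP hC, ← T.pullH_comp _ _ hC hP hC, hδ1, hδ2,
      T.pullH_id hC] at hΔ0
    exact hΔ0
  have h2 : algebraMap ℚ (T.CH C) (1 / 2) * 2 = 1 := by
    rw [show (2 : T.CH C) = algebraMap ℚ (T.CH C) 2 by rw [map_ofNat], ← map_mul]
    norm_num
  have h3 := congrArg (T.cl C) h2
  rw [map_mul, map_ofNat, map_one] at h3
  have h4 : o = 0 := by
    rw [← one_mul o, ← h3, mul_assoc, two_mul, hfin, mul_zero]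
  rw [h4, map_zero] at hto
  exact zero_ne_one hto

omit [Field K] in
/-- An automorphism without fixed points: its graph does not meet the diagonal. -/
theorem curveh_disjoint {k : Type} [Field k] [Algebra k₀ k] {C : Sch k₀} (x : C ⟶ pt k₀ k)
    (σ : C ⟶ C) (γ : C ⟶ pullback x x)
    (hγ1 : γ ≫ pullback.fst x x = 𝟙 C) (hγ2 : γ ≫ pullback.snd x x = σ)
    (hfix : ∀ (T : Sch k₀) (t : T ⟶ C), t ≫ σ = t → IsEmpty T.left) (z : C.left) :
    γ.left z ∉ Set.range (pullback.diagonal x).left := by
  rintro ⟨w, hw⟩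
  obtain ⟨v, -, -⟩ := Scheme.Pullback.exists_preimage_pullback
    (f := γ.left) (g := (pullback.diagonal x).left) z w hw.symm
  have hcond : pullback.fst γ.left (pullback.diagonal x).left ≫ γ.left =
      pullback.snd γ.left (pullback.diagonal x).left ≫ (pullback.diagonal x).left :=
    pullback.condition
  have hγ1' : γ.left ≫ (pullback.fst x x).left = 𝟙 C.left := by
    rw [← Over.comp_left, hγ1, Over.id_left]
  have hγ2' : γ.left ≫ (pullback.snd x x).left = σ.left := by
    rw [← Over.comp_left, hγ2]
  have hδ1 : (pullback.diagonal x).left ≫ (pullback.fst x x).left = 𝟙 C.left := by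
    rw [← Over.comp_left, pullback.diagonal_fst, Over.id_left]
  have hδ2 : (pullback.diagonal x).left ≫ (pullback.snd x x).left = 𝟙 C.left := by
    rw [← Over.comp_left, pullback.diagonal_snd, Over.id_left]
  have h1 : pullback.fst γ.left (pullback.diagonal x).left =
      pullback.snd γ.left (pullback.diagonal x).left := by
    have h2 := congrArg (fun f => f ≫ (pullback.fst x x).left) hcond
    simp only [Category.assoc, hγ1', hδ1, Category.comp_id] at h2
    exact h2
  have h3 : pullback.fst γ.left (pullback.diagonal x).left ≫ σ.left =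
      pullback.fst γ.left (pullback.diagonal x).left := by
    have h2 := congrArg (fun f => f ≫ (pullback.snd x x).left) hcond
    simp only [Category.assoc, hγ2', hδ2, Category.comp_id] at h2
    rw [h2, h1]
  have h4 := hfix (Over.mk (pullback.fst γ.left (pullback.diagonal x).left ≫ C.hom))
    (Over.homMk (pullback.fst γ.left (pullback.diagonal x).left) rfl) (by
      ext : 1
      exact h3)
  exact h4.false v

/-- A curve with an automorphism without fixed points has nonzero cohomology of degree `1`. -/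
theorem tCurve (k₀ K : Type) [Field k₀] [Field K] (h : StDisjoint k₀ K) : StCurve k₀ K := by
  intro T E k _ _ _ X x hx σ hσ hσx hfix _
  have hlift : 𝟙 X ≫ x = σ ≫ x := by rw [Category.id_comp, hσx]
  exact curveh_aut h T E k X x σ (pullback.lift (𝟙 X) σ hlift) hx hσ hσx
    (pullback.lift_fst _ _ _) (pullback.lift_snd _ _ _)
    (curveh_disjoint x σ _ (pullback.lift_fst _ _ _) (pullback.lift_snd _ _ _) hfix)

end Pool.Agent.Lib.MP_4ca46c_ag.Std
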