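import Mathlib
import Pool.Agent.Lib.MP_4ca46c_ag.Std.Extra

/-!
# Specification: embedding of a scheme over a field extension
-/

namespace Pool.Agent.Lib.MP_4ca46c_ag.Std

open CategoryTheory Limits AlgebraicGeometry
open Pool.Agent.Lib.MP_4ca46c_ag.Sign Pool.Agent.Lib.MP_4ca46c_ag.Hyp

/-- `PSo k₀ L κ` is the base change of `PSo k₀ k κ`.

PROOF. Let `C = (psCoord k κ).comap r.left y.left ..` (coordinates on `Y` over `L`,
`Hyp/ProjCoord.lean`), `e = C.toPS y.left` (`Hyp/ToPS.lean`), a closed immersion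
(`Coord.closed_toPS`, `Hyp/Embed.lean`). -/
def StEmb : Prop := ∀ (k₀ k L : Type) [Field k₀] [Field k] [Field L] [Algebra k₀ k]
  [Algebra k₀ L] [Algebra k L] [IsScalarTower k₀ k L] (κ : Type) [Fintype κ] (Y : Sch k₀)
  (y : Y ⟶ pt k₀ L) (r : Y ⟶ PSo k₀ k κ),
  r ≫ PSo.str k₀ k κ = y ≫ ptMap k₀ (IsScalarTower.toAlgHom k₀ k L) → IsProper y.left →
  (∀ (T : Sch k₀) (t t' : T ⟶ Y), t ≫ r = t' ≫ r → t ≫ y = t' ≫ y → t = t') →
  ∃ e : Y ⟶ PSo k₀ L κ, IsClosedImmersion e.left ∧ e ≫ PSo.str k₀ L κ = y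

end Pool.Agent.Lib.MP_4ca46c_ag.Std
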