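import Mathlib
import Pool.Agent.Lib.MP_4ca46c_ag.Std.Fermat
import Pool.Agent.Lib.MP_4ca46c_ag.Std.FermPrime
import Pool.Agent.Lib.MP_4ca46c_ag.Std.FermSm
import Pool.Agent.Lib.MP_4ca46c_ag.Std.Aut
import Pool.Agent.Lib.MP_4ca46c_ag.Std.Jac
import Pool.Agent.Lib.MP_4ca46c_ag.Std.LocSm
import Pool.Agent.Lib.MP_4ca46c_ag.Std.Facts
import Pool.Agent.Lib.MP_4ca46c_ag.Std.Disjoint
import Pool.Agent.Lib.MP_4ca46c_ag.Std.FermatSpec

/-!
# There is a curve with nonzero cohomology in degree `1`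
-/

namespace Pool.Agent.Lib.MP_4ca46c_ag.Std

open CategoryTheory Limits AlgebraicGeometry
open Pool.Agent.Lib.MP_4ca46c_ag.Sign Pool.Agent.Lib.MP_4ca46c_ag.Hyp

variable {k₀ K : Type} [Field k₀] [Field K]

/-- **There is a curve with nonzero cohomology in degree `1`** over every algebraically closed
field (the Fermat curve of degree `3` or `4`). -/
theorem exists_curve (T : WeilTheory k₀ K) (E : Extra T) (k : Type) [Field k] [Algebra k₀ k]
    [IsAlgClosed k] : ∃ C : ProjVar k₀ k, C.n = 1 ∧ ∃ y ∈ T.deg C.X 1, y ≠ 0 :=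
  tCurve' tFermPrime (tFermSm tJac) tLocSm₁ fGeomConn (tAut k₀ K (tDisjoint k₀ K)) T E k

theorem tExCurve (k₀ K : Type) [Field k₀] [Field K] : StExCurve k₀ K :=
  fun T E _ k _ _ _ => exists_curve T E k

end Pool.Agent.Lib.MP_4ca46c_ag.Std
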